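import Pool.Agent.H459.UF.Base

/-!
# Real places at which the cubic has one real root (helper459)
-/

set_option autoImplicit false
set_option linter.all false

open Polynomial
open scoped Classical ComplexConjugate

namespace Pool.Agent.H459.UF

/-- The norm as a product over three roots. -/
theorem norm_three {K : Type} [Field K] [CharZero K] {F : K[X]} (hm : F.Monic) (hirr : Irreducible F)
    (hdeg : F.natDegree = 3) (τ : K →+* ℂ) {z₁ z₂ z₃ : ℂ}
    (h1 : (F.map τ).IsRoot z₁) (h2 : (F.map τ).IsRoot z₂) (h3 : (F.map τ).IsRoot z₃)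
    (h12 : z₁ ≠ z₂) (h13 : z₁ ≠ z₃) (h23 : z₂ ≠ z₃) (p : K[X]) :
    τ (Algebra.norm K (AdjoinRoot.mk F p)) =
      (p.map τ).eval z₁ * (p.map τ).eval z₂ * (p.map τ).eval z₃ := by
  letI : Algebra K ℂ := τ.toAlgebra
  haveI : Fact (Irreducible F) := ⟨hirr⟩
  have hτ : algebraMap K ℂ = τ := rfl
  have hfd : FiniteDimensional K (AdjoinRoot F) := (AdjoinRoot.powerBasis hirr.ne_zero).finite
  have hr : ∀ z : ℂ, (F.map τ).IsRoot z → aeval z F = 0 := by
    intro z hz
    rw [aeval_def, hτ, ← eval_map]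
    exact hz
  let φ : ∀ z : ℂ, (F.map τ).IsRoot z → (AdjoinRoot F →ₐ[K] ℂ) := fun z hz =>
    AdjoinRoot.liftAlgHom F (Algebra.ofId K ℂ) z (hr z hz)
  have hφ : ∀ (z : ℂ) (hz : (F.map τ).IsRoot z) (p : K[X]), φ z hz (AdjoinRoot.mk F p) =
      (p.map τ).eval z := by
    intro z hz p
    have h1 := AdjoinRoot.liftAlgHom_mk F (Algebra.ofId K ℂ) z (hr z hz) p
    rw [Algebra.toRingHom_ofId, hτ, ← eval_map] at h1
    exact h1
  have hne : ∀ (z z' : ℂ) (hz : (F.map τ).IsRoot z) (hz' : (F.map τ).IsRoot z'), z ≠ z' →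
      φ z hz ≠ φ z' hz' := by
    intro z z' hz hz' hzz h
    apply hzz
    have h4 := hφ z hz X
    have h5 := hφ z' hz' X
    rw [h] at h4
    rw [h4] at h5
    simpa using h5
  have hcard : Fintype.card (AdjoinRoot F →ₐ[K] ℂ) = 3 := by
    rw [AlgHom.card, (AdjoinRoot.powerBasis hirr.ne_zero).finrank, AdjoinRoot.powerBasis_dim, hdeg]
  have hnot : φ z₁ h1 ∉ ({φ z₂ h2, φ z₃ h3} : Finset (AdjoinRoot F →ₐ[K] ℂ)) := by
    rw [Finset.mem_insert, Finset.mem_singleton]
    rintro (h | h)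
    · exact hne z₁ z₂ h1 h2 h12 h
    · exact hne z₁ z₃ h1 h3 h13 h
  have hpair := hne z₂ z₃ h2 h3 h23
  have huniv : (Finset.univ : Finset (AdjoinRoot F →ₐ[K] ℂ)) = {φ z₁ h1, φ z₂ h2, φ z₃ h3} := by
    symm
    apply Finset.eq_univ_of_card
    rw [hcard, Finset.card_insert_of_notMem hnot, Finset.card_pair hpair]
  have hN := Algebra.norm_eq_prod_embeddings K ℂ (AdjoinRoot.mk F p)
  rw [huniv, Finset.prod_insert hnot, Finset.prod_pair hpair, hφ z₁ h1, hφ z₂ h2, hφ z₃ h3] at hN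
  rw [mul_assoc]
  exact hN

/-- Interpolation. -/
theorem exists_interp {e : ℝ} {z : ℂ} (hz : z.im ≠ 0) (c : ℝ) (d : ℂ) :
    ∃ s : ℝ[X], s.eval e = c ∧ (s.map (algebraMap ℝ ℂ)).eval z = d := by
  have hze : z - e ≠ 0 := by
    intro h
    apply hz
    have := congrArg Complex.im h
    simpa using this
  obtain ⟨α, β, h1⟩ : ∃ α β : ℝ, (α : ℂ) * z + β = (d - c) / (z - e) := by
    refine ⟨((d - c) / (z - e)).im / z.im,
      ((d - c) / (z - e)).re - ((d - c) / (z - e)).im / z.im * z.re, ?_⟩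
    apply Complex.ext
    · simp
    · simp only [Complex.add_im, Complex.mul_im, Complex.ofReal_re, Complex.ofReal_im, zero_mul,
        add_zero]
      field_simp
  refine ⟨C c + (X - C e) * (C α * X + C β), ?_, ?_⟩
  · simp
  · simp only [Polynomial.map_add, Polynomial.map_mul, Polynomial.map_sub, map_X, map_C,
      eval_add, eval_mul, eval_sub, eval_X, eval_C, Complex.coe_algebraMap]
    rw [h1]
    field_simp
    ring

/-- The real condition is automatic if there is only one real root. -/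
theorem real_one {K : Type} [Field K] [CharZero K] {F : K[X]} (hm : F.Monic)
    (hirr : Irreducible F) (hdeg : F.natDegree = 3) (σ : K →+* ℝ) {e : ℝ} {z : ℂ} (hz : z.im ≠ 0)
    (he : (F.map σ).eval e = 0) (hz0 : ((F.map σ).map (algebraMap ℝ ℂ)).eval z = 0)
    {p : K[X]} (hc : IsCoprime p F) (hN : IsSquare (Algebra.norm K (AdjoinRoot.mk F p))) :
    Pool.Agent.N783.PQ.LocIm ℝ (F.map σ) (p.map σ) := by
  obtain ⟨τ, hτ⟩ : ∃ τ : K →+* ℂ, τ = (algebraMap ℝ ℂ).comp σ := ⟨_, rfl⟩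
  have hmap : ∀ q : K[X], q.map τ = (q.map σ).map (algebraMap ℝ ℂ) := by
    intro q
    rw [hτ, Polynomial.map_map]
  have hconj : ∀ q : ℝ[X], (q.map (algebraMap ℝ ℂ)).eval (conj z) =
      conj ((q.map (algebraMap ℝ ℂ)).eval z) := by
    intro q
    rw [eval_map_algebraMap, eval_map_algebraMap, aeval_conj]
  have hreal : ∀ q : ℝ[X], (q.map (algebraMap ℝ ℂ)).eval (e : ℂ) = ((q.eval e : ℝ) : ℂ) := by
    intro q
    rw [← Complex.coe_algebraMap, eval_map_algebraMap, aeval_algebraMap_apply]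
    simp
  have h12 : (e : ℂ) ≠ z := by
    intro h
    apply hz
    rw [← h, Complex.ofReal_im]
  have h13 : (e : ℂ) ≠ conj z := by
    intro h
    apply hz
    have := congrArg Complex.im h
    rw [Complex.ofReal_im, Complex.conj_im] at this
    linarith
  have h23 : z ≠ conj z := by
    intro h
    apply hz
    have := congrArg Complex.im h
    rw [Complex.conj_im] at this
    linarith
  have r1 : (F.map τ).IsRoot (e : ℂ) := by
    rw [IsRoot, hmap, hreal, he, Complex.ofReal_zero]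
  have r2 : (F.map τ).IsRoot z := by
    rw [IsRoot, hmap, hz0]
  have r3 : (F.map τ).IsRoot (conj z) := by
    rw [IsRoot, hmap, hconj, hz0, map_zero]
  have hn := norm_three hm hirr hdeg τ r1 r2 r3 h12 h13 h23 p
  obtain ⟨c, hc'⟩ := hN
  rw [hc', hmap, hreal, hconj, map_mul, mul_assoc, Complex.mul_conj] at hn
  have hn2 : σ c * σ c = (p.map σ).eval e * Complex.normSq (((p.map σ).map
      (algebraMap ℝ ℂ)).eval z) := by
    have h1 : ((σ c * σ c : ℝ) : ℂ) = (((p.map σ).eval e * Complex.normSq (((p.map σ).map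
      (algebraMap ℝ ℂ)).eval z) : ℝ) : ℂ) := by
      push_cast
      rw [← hn, hτ]
      rfl
    exact_mod_cast h1
  have hpe : 0 ≤ (p.map σ).eval e := by
    by_contra hneg
    rw [not_le] at hneg
    have h1 : Complex.normSq (((p.map σ).map (algebraMap ℝ ℂ)).eval z) = 0 := by
      rcases (Complex.normSq_nonneg (((p.map σ).map (algebraMap ℝ ℂ)).eval z)).eq_or_lt with h | h
      · exact h.symm
      · have := mul_neg_of_neg_of_pos hneg h
        nlinarith [mul_self_nonneg (σ c)]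
    rw [Complex.normSq_eq_zero] at h1
    obtain ⟨u, v, huv⟩ := hc
    have h2 := congrArg (fun q : K[X] => (q.map τ).eval z) huv
    simp only [Polynomial.map_add, Polynomial.map_mul, Polynomial.map_one, eval_add, eval_mul,
      eval_one] at h2
    rw [hmap p, h1, r2.eq_zero, mul_zero, mul_zero, add_zero] at h2
    exact zero_ne_one h2
  obtain ⟨d, hd⟩ : ∃ d : ℂ, d ^ 2 = ((p.map σ).map (algebraMap ℝ ℂ)).eval z :=
    IsAlgClosed.exists_pow_nat_eq _ (by norm_num)
  obtain ⟨s, hs1, hs2⟩ := exists_interp (e := e) hz (Real.sqrt ((p.map σ).eval e)) d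
  refine ⟨[], s, by simp, ?_⟩
  rw [List.map_nil, List.prod_nil, mul_one]
  rw [← Polynomial.map_dvd_map' (algebraMap ℝ ℂ)]
  set Q : ℂ[X] := (p.map σ - s ^ 2).map (algebraMap ℝ ℂ) with hQ
  have q1 : Q.eval (e : ℂ) = 0 := by
    rw [hQ, hreal, eval_sub, eval_pow, hs1, Real.sq_sqrt hpe, sub_self, Complex.ofReal_zero]
  have q2 : Q.eval z = 0 := by
    rw [hQ, Polynomial.map_sub, Polynomial.map_pow, eval_sub, eval_pow, hs2, hd, sub_self]
  have q3 : Q.eval (conj z) = 0 := by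
    rw [hQ, hconj, ← hQ, q2, map_zero]
  have hfac : ∀ G : ℂ[X], G.eval (e : ℂ) = 0 → G.eval z = 0 → G.eval (conj z) = 0 →
      (X - C (e : ℂ)) * ((X - C z) * (X - C (conj z))) ∣ G := by
    intro G g1 g2 g3
    have c1 := isCoprime_X_sub_C_of_isUnit_sub (R := ℂ) (a := (e : ℂ)) (b := z)
      (isUnit_iff_ne_zero.2 (sub_ne_zero.2 h12))
    have c2 := isCoprime_X_sub_C_of_isUnit_sub (R := ℂ) (a := (e : ℂ)) (b := conj z)
      (isUnit_iff_ne_zero.2 (sub_ne_zero.2 h13))
    have c3 := isCoprime_X_sub_C_of_isUnit_sub (R := ℂ) (a := z) (b := conj z)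
      (isUnit_iff_ne_zero.2 (sub_ne_zero.2 h23))
    exact (c1.mul_right c2).mul_dvd (dvd_iff_isRoot.2 g1)
      (c3.mul_dvd (dvd_iff_isRoot.2 g2) (dvd_iff_isRoot.2 g3))
  have hG : (X - C (e : ℂ)) * ((X - C z) * (X - C (conj z))) =
      (F.map σ).map (algebraMap ℝ ℂ) := by
    rw [← hmap]
    refine eq_of_dvd_of_natDegree_le_of_leadingCoeff (hfac _ r1 r2 r3) ?_ ?_
    · rw [hm.natDegree_map, hdeg, natDegree_mul (X_sub_C_ne_zero _)
        (mul_ne_zero (X_sub_C_ne_zero _) (X_sub_C_ne_zero _)), natDegree_mul (X_sub_C_ne_zero _)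
        (X_sub_C_ne_zero _), natDegree_X_sub_C, natDegree_X_sub_C, natDegree_X_sub_C]
    · rw [(hm.map τ).leadingCoeff]
      exact ((monic_X_sub_C _).mul ((monic_X_sub_C _).mul (monic_X_sub_C _))).leadingCoeff
  rw [← hG]
  exact hfac _ q1 q2 q3

end Pool.Agent.H459.UF
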