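import Pool.Agent.H459.UF.Cmp
import Pool.Agent.H459.UF.RealP

/-!
# Irreducible cubics modulo primes of quadratic extensions (helper459)
-/

set_option autoImplicit false
set_option linter.all false

open Polynomial IsDedekindDomain NumberField WithZero
open scoped Classical IntermediateField

namespace Pool.Agent.H459.UF

open Pool.Agent.N783.PF (rd fF)

section

variable {F K K₁ : Type} [Field F] [NumberField F] [Field K] [NumberField K] [Field K₁]
  [NumberField K₁] [Algebra F K] [Algebra F K₁] [Algebra K K₁] [IsScalarTower F K K₁]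

theorem fo_map (f : (𝓞 F)[X]) : (fo K f).map (algebraMap (𝓞 K) (𝓞 K₁)) = fo K₁ f := by
  unfold fo
  rw [Polynomial.map_map, ← IsScalarTower.algebraMap_eq]

/-- Irreducible cubics stay irreducible in extensions of degree at most two. -/
theorem irr_quad {f : (𝓞 F)[X]} (hm : f.Monic) (hd : f.natDegree = 3)
    (h2 : Module.finrank K K₁ ≤ 2) (w : HeightOneSpectrum (𝓞 K₁))
    (h : Irreducible (rd (below K w).asIdeal (fo K f))) : Irreducible (rd w.asIdeal (fo K₁ f)) := by
  haveI m1 : (below K w).asIdeal.IsMaximal := (below K w).isMaximal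
  haveI m2 : w.asIdeal.IsMaximal := w.isMaximal
  letI i1 : Field (𝓞 K ⧸ (below K w).asIdeal) := Ideal.Quotient.field _
  letI i2 : Field (𝓞 K₁ ⧸ w.asIdeal) := Ideal.Quotient.field _
  obtain ⟨φ, hφ⟩ : ∃ φ : (𝓞 K ⧸ (below K w).asIdeal) →+* (𝓞 K₁ ⧸ w.asIdeal),
      φ = Ideal.quotientMap w.asIdeal (algebraMap (𝓞 K) (𝓞 K₁)) fun a ha =>
        (mem_below w a).1 ha := ⟨_, rfl⟩
  have hφ1 : φ.comp (Ideal.Quotient.mk (below K w).asIdeal) =
      (Ideal.Quotient.mk w.asIdeal).comp (algebraMap (𝓞 K) (𝓞 K₁)) := by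
    rw [hφ]
    exact Ideal.quotientMap_comp_mk _
  have hrd : (rd (below K w).asIdeal (fo K f)).map φ = rd w.asIdeal (fo K₁ f) := by
    unfold rd
    rw [Polynomial.map_map, hφ1, ← Polynomial.map_map, fo_map]
  have hmon : (rd w.asIdeal (fo K₁ f)).Monic := (hm.map _).map _
  have hdeg : (rd w.asIdeal (fo K₁ f)).natDegree = 3 := by
    unfold rd
    rw [(hm.map _).natDegree_map, hm.natDegree_map, hd]
  have hdeg1 : (rd (below K w).asIdeal (fo K f)).natDegree = 3 := by
    unfold rd
    rw [(hm.map _).natDegree_map, hm.natDegree_map, hd]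
  rw [hmon.irreducible_iff_roots_eq_zero_of_degree_le_three (by omega) (by omega),
    Multiset.eq_zero_iff_forall_notMem]
  intro a ha
  rw [mem_roots hmon.ne_zero, IsRoot, ← hrd] at ha
  obtain ⟨a', rfl⟩ := Ideal.Quotient.mk_surjective a
  have hint : IsIntegral (𝓞 K) a' := Algebra.IsIntegral.isIntegral a'
  have hintK : IsIntegral (𝓞 K) (a' : K₁) := hint.map (Algebra.ofId (𝓞 K₁) K₁ |>.restrictScalars (𝓞 K))
  obtain ⟨q, hq⟩ : ∃ q : (𝓞 K)[X], q = minpoly (𝓞 K) (a' : K₁) := ⟨_, rfl⟩
  have hqm : q.Monic := hq ▸ minpoly.monic hintK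
  have hqd : q.natDegree ≤ 2 := by
    have h1 := minpoly.isIntegrallyClosed_eq_field_fractions K K₁ (R := 𝓞 K) (s := (a' : K₁)) hintK
    have h3 := minpoly.natDegree_le (A := K) (a' : K₁)
    rw [Algebra.algebraMap_self_apply] at h1
    rw [h1, (minpoly.monic hintK).natDegree_map, ← hq] at h3
    omega
  have hq0 : aeval a' q = 0 := by
    have h1 : aeval (a' : K₁) q = 0 := by rw [hq]; exact minpoly.aeval _ _
    have h3 : aeval (algebraMap (𝓞 K₁) K₁ a') q = algebraMap (𝓞 K₁) K₁ (aeval a' q) :=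
      aeval_algebraMap_apply K₁ a' q
    rw [h3] at h1
    exact (map_eq_zero_iff _ (FaithfulSMul.algebraMap_injective (𝓞 K₁) K₁)).1 h1
  have hq1 : ((q.map (Ideal.Quotient.mk (below K w).asIdeal)).map φ).eval
      (Ideal.Quotient.mk w.asIdeal a') = 0 := by
    rw [Polynomial.map_map, hφ1, ← Polynomial.map_map, eval_map, eval₂_at_apply, eval_map]
    rw [aeval_def] at hq0
    rw [hq0, map_zero]
  have hdvd : rd (below K w).asIdeal (fo K f) ∣ q.map (Ideal.Quotient.mk (below K w).asIdeal) := by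
    by_contra hnd
    obtain ⟨u, v, huv⟩ := (h.coprime_iff_not_dvd).2 hnd
    have h1 := congrArg (fun r : (𝓞 K ⧸ (below K w).asIdeal)[X] => (r.map φ).eval
      (Ideal.Quotient.mk w.asIdeal a')) huv
    simp only [Polynomial.map_add, Polynomial.map_mul, eval_add, eval_mul, Polynomial.map_one,
      eval_one] at h1
    rw [ha, hq1, mul_zero, mul_zero, add_zero] at h1
    exact zero_ne_one h1
  have h5 := natDegree_le_of_dvd hdvd (hqm.map _).ne_zero
  rw [hdeg1, hqm.natDegree_map] at h5
  omega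

end

end Pool.Agent.H459.UF
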