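import Pool.Graph.R_pool_sql_team_seeded_63374d34.N783.PF.Final
import Pool.Graph.R_pool_sql_team_seeded_63374d34.N874.QM.Cnd
import Pool.Graph.R_pool_sql_team_seeded_63374d34.N756.QM.SigLie
import Pool.Graph.R_pool_sql_team_seeded_63374d34.N667.PV.Ext
import Pool.Graph.R_pool_sql_team_seeded_63374d34.N301.JM.QS
import Pool.Graph.R_pool_sql_team_seeded_63374d34.N222.QM.UR

/-!
# Primes in towers of number fields (helper459)
-/

set_option autoImplicit false
set_option linter.all false

open Polynomial IsDedekindDomain NumberField WithZero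
open scoped Classical IntermediateField

namespace Pool.Agent.H459.UF

section tower

variable (K : Type) {L : Type} [Field K] [NumberField K] [Field L] [NumberField L] [Algebra K L]

/-- The prime of `K` below a prime of `L`. -/
noncomputable def below (P : HeightOneSpectrum (𝓞 L)) : HeightOneSpectrum (𝓞 K) :=
  ⟨P.asIdeal.under (𝓞 K), inferInstance, fun h0 => P.ne_bot (Ideal.eq_bot_of_comap_eq_bot h0)⟩

variable {K}

theorem mem_below (P : HeightOneSpectrum (𝓞 L)) (a : 𝓞 K) :
    a ∈ (below K P).asIdeal ↔ algebraMap (𝓞 K) (𝓞 L) a ∈ P.asIdeal := Iff.rfl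

instance (P : HeightOneSpectrum (𝓞 L)) : P.asIdeal.LiesOver (below K P).asIdeal := ⟨rfl⟩

/-- Every prime is below a prime. -/
theorem exists_above (L : Type) [Field L] [NumberField L] [Algebra K L]
    (v : HeightOneSpectrum (𝓞 K)) : ∃ P : HeightOneSpectrum (𝓞 L), below K P = v := by
  have hinj : Function.Injective (algebraMap (𝓞 K) (𝓞 L)) :=
    FaithfulSMul.algebraMap_injective _ _
  have t7 : Algebra.IsIntegral (𝓞 K) (𝓞 L) := inferInstance
  obtain ⟨Q, -, hQp, hQ⟩ := Ideal.exists_ideal_over_prime_of_isIntegral (S := 𝓞 L) v.asIdeal ⊥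
    (by
      intro x hx
      have h1 : algebraMap (𝓞 K) (𝓞 L) x = 0 := by simpa using hx
      have h2 : x = 0 := hinj (by rw [h1, map_zero])
      rw [h2]
      exact v.asIdeal.zero_mem)
  have hQ0 : Q ≠ ⊥ := by
    rintro rfl
    apply v.ne_bot
    rw [← hQ]
    exact Ideal.comap_bot_of_injective _ hinj
  refine ⟨⟨Q, hQp, hQ0⟩, ?_⟩
  ext1
  exact hQ

theorem eq_below {P : HeightOneSpectrum (𝓞 L)} {v : HeightOneSpectrum (𝓞 K)}
    (h : ∀ a ∈ v.asIdeal, algebraMap (𝓞 K) (𝓞 L) a ∈ P.asIdeal) : below K P = v := by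
  ext1
  have hm := v.isMaximal
  exact (hm.eq_of_le (below K P).isPrime.ne_top fun a ha => (mem_below P a).2 (h a ha)).symm

/-- The valuation of an element of `K`. -/
theorem val_pow (P : HeightOneSpectrum (𝓞 L)) : ∃ e : ℕ, 1 ≤ e ∧ ∀ x : K,
    P.valuation L (algebraMap K L x) = (below K P).valuation K x ^ e := by
  refine ⟨(below K P).asIdeal.ramificationIdx' P.asIdeal, ?_, fun x =>
    (HeightOneSpectrum.valuation_liesOver L (below K P) P x).symm⟩
  by_contra h
  have h0 : (below K P).asIdeal.ramificationIdx' P.asIdeal = 0 := by omega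
  obtain ⟨a, ha, ha0⟩ := Submodule.exists_mem_ne_zero_of_ne_bot (below K P).ne_bot
  have h1 := HeightOneSpectrum.valuation_liesOver L (below K P) P (algebraMap (𝓞 K) K a)
  rw [h0, pow_zero] at h1
  have h2 : P.valuation L (algebraMap (𝓞 L) L (algebraMap (𝓞 K) (𝓞 L) a)) < 1 := by
    rw [HeightOneSpectrum.valuation_lt_one_iff_mem]
    exact (mem_below P a).1 ha
  have h3 : algebraMap (𝓞 L) L (algebraMap (𝓞 K) (𝓞 L) a) =
      algebraMap K L (algebraMap (𝓞 K) K a) := by
    rw [← IsScalarTower.algebraMap_apply, ← IsScalarTower.algebraMap_apply]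
  rw [h3, ← h1] at h2
  exact lt_irrefl _ h2

theorem val_le_below (P : HeightOneSpectrum (𝓞 L)) {x : K}
    (hx : (below K P).valuation K x ≤ 1) :
    P.valuation L (algebraMap K L x) ≤ (below K P).valuation K x := by
  obtain ⟨e, he, h⟩ := val_pow (K := K) P
  rw [h]
  exact pow_le_of_le_one zero_le hx (by omega)

theorem lies_below (P : HeightOneSpectrum (𝓞 L)) :
    Pool.Agent.N874.PM.Lies (M := K) (Ω := L) (below K P) P := by
  obtain ⟨e, he, h⟩ := val_pow (K := K) P
  refine ⟨fun x hx => ?_, fun x hx => ?_⟩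
  · rw [h]
    exact pow_le_one' hx _
  · rw [h]
    exact pow_lt_one' hx (by omega)

/-- An element of valuation one. -/
theorem exists_unif (v : HeightOneSpectrum (𝓞 K)) : ∃ π : K, v.valuation K π = WithZero.exp (-1 : ℤ) :=
  v.valuation_exists_uniformizer K

theorem e_one (P : HeightOneSpectrum (𝓞 L)) {π : K}
    (h1 : (below K P).valuation K π = WithZero.exp (-1 : ℤ))
    (h2 : P.valuation L (algebraMap K L π) = WithZero.exp (-1 : ℤ)) (x : K) :
    P.valuation L (algebraMap K L x) = (below K P).valuation K x := by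
  obtain ⟨e, he, h⟩ := val_pow (K := K) P
  have h3 := h π
  rw [h1, h2, ← WithZero.exp_nsmul] at h3
  have h4 := WithZero.exp_injective h3
  have h5 : e = 1 := by
    simp only [nsmul_eq_mul] at h4
    have : (e : ℤ) = 1 := by linarith
    exact_mod_cast this
  rw [h, h5, pow_one]

/-- The valuations agree. -/
def Agr (K : Type) {L : Type} [Field K] [NumberField K] [Field L] [NumberField L] [Algebra K L]
    (P : HeightOneSpectrum (𝓞 L)) : Prop :=
  ∀ x : K, P.valuation L (algebraMap K L x) = (below K P).valuation K x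

/-- Unramified if `f'(θ)` is a unit. -/
theorem agr_of_unit {f : (𝓞 K)[X]} (hf : f.Monic) {θ : L} (hθ : K⟮θ⟯ = ⊤)
    (hroot : aeval θ (f.map (algebraMap (𝓞 K) K)) = 0) (P : HeightOneSpectrum (𝓞 L))
    (hP : P.valuation L (aeval θ (derivative (f.map (algebraMap (𝓞 K) K)))) = 1) : Agr K P := by
  intro x
  have hint : IsIntegral (𝓞 K) θ := ⟨f, hf, by
    rw [aeval_map_algebraMap] at hroot
    exact hroot⟩
  have hintZ : IsIntegral ℤ θ := isIntegral_trans (R := ℤ) (A := 𝓞 K) θ hint
  obtain ⟨y, hy⟩ : ∃ y : 𝓞 L, algebraMap (𝓞 L) L y = θ := ⟨⟨θ, hintZ⟩, rfl⟩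
  haveI : Algebra.IsIntegral (𝓞 K) (𝓞 L) := inferInstance
  haveI : IsIntegralClosure (𝓞 L) (𝓞 K) L := inferInstance
  haveI : FiniteDimensional K L := inferInstance
  have hadj : Algebra.adjoin K {algebraMap (𝓞 L) L y} = ⊤ := by
    rw [hy]
    have h1 : IsIntegral K θ := hint.tower_top
    have h2 := IntermediateField.adjoin_simple_toSubalgebra_of_isAlgebraic h1.isAlgebraic
    rw [← h2, hθ, IntermediateField.top_toSubalgebra]
  refine Pool.Agent.N222.QM.UR.core (𝓞 K) K L (𝓞 L) y hadj P ?_ (below K P) x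
  intro hmem
  have hgy : aeval y f = 0 := by
    apply IsFractionRing.injective (𝓞 L) L
    rw [map_zero, ← Polynomial.aeval_algebraMap_apply, hy]
    rw [aeval_map_algebraMap] at hroot
    exact hroot
  have hinty : IsIntegral (𝓞 K) y := ⟨f, hf, hgy⟩
  obtain ⟨q, hq⟩ := minpoly.isIntegrallyClosed_dvd hinty hgy
  have h1 : aeval y (derivative f) = aeval y (derivative (minpoly (𝓞 K) y)) * aeval y q := by
    have h2 := congrArg (fun p : (𝓞 K)[X] => aeval y (derivative p)) hq
    simp only [derivative_mul, map_add, map_mul, minpoly.aeval, zero_mul, add_zero] at h2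
    exact h2
  have h3 : aeval y (derivative f) ∈ P.asIdeal := by
    rw [h1]
    exact Ideal.mul_mem_right _ _ hmem
  have h4 : aeval θ (derivative (f.map (algebraMap (𝓞 K) K))) =
      algebraMap (𝓞 L) L (aeval y (derivative f)) := by
    rw [← aeval_algebraMap_apply, hy, derivative_map, aeval_map_algebraMap]
  rw [h4] at hP
  have h5 := (HeightOneSpectrum.valuation_lt_one_iff_mem (K := L) P _).2 h3
  exact absurd hP h5.ne

end tower

end Pool.Agent.H459.UF
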