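import Pool.Agent.H459.UF.Dsc

/-!
# The points with `σ Q = -Q` over an unramified quadratic extension (helper459)
-/

set_option autoImplicit false
set_option linter.all false

open Polynomial WeierstrassCurve WeierstrassCurve.Affine WithZero
open scoped Classical

namespace Pool.Agent.H459.UF

open Pool.Agent.N630.PP (IsS add_self_eq_zero_iff isS)
open Pool.Agent.N874.PP (sW)
open Pool.Agent.TH115.GD (Pt act)

abbrev Z0 : Type := WithZero (Multiplicative ℤ)

section val

variable {k : Type} [Field k] {v : Valuation k Z0}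

theorem le_m1 {z : Z0} (h : z < 1) : z ≤ WithZero.exp (-1 : ℤ) := by
  rcases eq_or_ne z 0 with rfl | h0
  · exact zero_le
  · obtain ⟨a, ha⟩ : ∃ a : ℤ, z = WithZero.exp a := ⟨WithZero.log z, (WithZero.exp_log h0).symm⟩
    rw [ha, ← WithZero.exp_zero, WithZero.exp_lt_exp] at h
    rw [ha, WithZero.exp_le_exp]
    omega

theorem mul_lt1 {a b : k} (h1 : v a < 1) (h2 : v b ≤ 1) : v (a * b) < 1 := by
  rw [map_mul]
  exact mul_lt_one_of_lt_of_le h1 h2

theorem add_lt1 {a b : k} (h1 : v a < 1) (h2 : v b < 1) : v (a + b) < 1 :=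
  (Valuation.map_add v a b).trans_lt (max_lt h1 h2)

theorem sub_lt1 {a b : k} (h1 : v a < 1) (h2 : v b < 1) : v (a - b) < 1 :=
  (Valuation.map_sub v a b).trans_lt (max_lt h1 h2)

theorem eq1_of_sub {a b : k} (h1 : v (a - b) < 1) (h2 : v b = 1) : v a = 1 := by
  have : a = b + (a - b) := by ring
  rw [this, Valuation.map_add_eq_of_lt_left v (by rw [h2]; exact h1), h2]

theorem sq_eq1 {a : k} (h : v (a ^ 2) = 1) : v a = 1 := by
  rw [map_pow] at h
  exact (pow_eq_one_iff.1 h).resolve_right two_ne_zero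

/-- Choice of the slope, integral case. -/
theorem slope1 (h2 : v 2 < 1) (hsq : ∀ a : k, v a ≤ 1 → ∃ b, v b ≤ 1 ∧ v (a - b ^ 2) < 1)
    {X Y A n η : k} (hX : v X ≤ 1) (hY : v Y ≤ 1) (hn : v n = 1) (hη : v (η - 1) < 1)
    (hβ : v (3 * X ^ 2 + A) = 1) : ∃ l : k, v l ≤ 1 ∧ v (3 * X - η * l ^ 2) = 1 ∧
      v ((3 * X ^ 2 + A - 2 * η * l * Y) / (3 * X - η * l ^ 2) ^ 2 - n) < 1 := by
  have hn0 : n ≠ 0 := by
    rintro rfl
    rw [map_zero] at hn
    exact zero_ne_one hn
  have hη1 : v η = 1 := eq1_of_sub hη (map_one v)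
  obtain ⟨γ, hγ1, hγ⟩ := hsq ((3 * X ^ 2 + A) / n) (by rw [map_div₀, hβ, hn, div_one])
  have h3 : v (3 : k) ≤ 1 := by
    have : (3 : k) = 1 + 2 := by norm_num
    rw [this]
    exact (Valuation.map_add v _ _).trans (max_le (map_one v).le h2.le)
  have hγ2 : v γ = 1 := by
    apply sq_eq1
    refine eq1_of_sub (b := (3 * X ^ 2 + A) / n) ?_ (by rw [map_div₀, hβ, hn, div_one])
    rw [Valuation.map_sub_swap]
    exact hγ
  obtain ⟨l, hl1, hl⟩ := hsq (3 * X - γ) ((Valuation.map_sub v _ _).trans (max_le (by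
    rw [map_mul]
    exact mul_le_one' h3 hX) hγ1))
  have hα' : v ((3 * X - η * l ^ 2) - γ) < 1 := by
    have e : (3 * X - η * l ^ 2) - γ = ((3 * X - γ) - l ^ 2) - (η - 1) * l ^ 2 := by ring
    rw [e]
    refine sub_lt1 hl (mul_lt1 hη ?_)
    rw [map_pow]
    exact pow_le_one' hl1 2
  have hα : v (3 * X - η * l ^ 2) = 1 := eq1_of_sub hα' hγ2
  refine ⟨l, hl1, hα, ?_⟩
  have hα0 : 3 * X - η * l ^ 2 ≠ 0 := by
    intro h0
    rw [h0, map_zero] at hα
    exact zero_ne_one hα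
  have e : (3 * X ^ 2 + A - 2 * η * l * Y) / (3 * X - η * l ^ 2) ^ 2 - n =
      (((3 * X ^ 2 + A) - n * γ ^ 2) - 2 * (η * l * Y) -
        ((3 * X - η * l ^ 2) - γ) * (n * ((3 * X - η * l ^ 2) + γ))) /
        (3 * X - η * l ^ 2) ^ 2 := by
    field_simp
    ring
  rw [e, map_div₀, map_pow, hα, one_pow, div_one]
  refine sub_lt1 (sub_lt1 ?_ (mul_lt1 h2 ?_)) (mul_lt1 hα' ?_)
  · have e2 : (3 * X ^ 2 + A) - n * γ ^ 2 = ((3 * X ^ 2 + A) / n - γ ^ 2) * n := by
      field_simp
    rw [e2]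
    exact mul_lt1 hγ hn.le
  · rw [map_mul, map_mul, hη1, one_mul]
    exact mul_le_one' hl1 hY
  · rw [map_mul, hn, one_mul]
    exact (Valuation.map_add v _ _).trans (max_le hα.le hγ1)

/-- The conditions at a prime over two. -/
structure Lc (v : Valuation k Z0) (A B : k) : Prop where
  two : v 2 < 1
  a : v A ≤ 1
  b : v B ≤ 1
  unif : ∃ π : k, v π = WithZero.exp (-1 : ℤ)
  sq : ∀ a : k, v a ≤ 1 → ∃ b, v b ≤ 1 ∧ v (a - b ^ 2) < 1
  irr : ∀ x : k, v x ≤ 1 → v (x ^ 3 + A * x + B) = 1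
  typ : ∃ r y : k, v r ≤ 1 ∧ v y ≤ 1 ∧ v (3 * r ^ 2 + A) < 1 ∧
    v (r ^ 3 + A * r + B - y ^ 2) = WithZero.exp (-1 : ℤ)

theorem m2_of {a b : k} (h1 : v a < 1) (h2 : v b < 1) : v (a * b) < WithZero.exp (-1 : ℤ) := by
  rw [map_mul]
  refine lt_of_le_of_lt (mul_le_mul' (le_m1 h1) (le_m1 h2)) ?_
  rw [← WithZero.exp_add, WithZero.exp_lt_exp]
  norm_num

/-- Choice of the slope. -/
theorem slope2 {A B : k} (H : Lc v A B) {X Y n : k} (hn : v n = 1)
    (hf : X ^ 3 + A * X + B = (1 - 4 * n) * Y ^ 2) : ∃ l : k, 3 * X - (1 - 4 * n) * l ^ 2 ≠ 0 ∧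
      v ((3 * X ^ 2 + A - 2 * (1 - 4 * n) * l * Y) / (3 * X - (1 - 4 * n) * l ^ 2) ^ 2 - n)
        < 1 := by
  have h2 := H.two
  obtain ⟨η, hη⟩ : ∃ η, η = 1 - 4 * n := ⟨_, rfl⟩
  have h4 : v (4 * n) < WithZero.exp (-1 : ℤ) := by
    have : (4 : k) * n = 2 * (2 * n) := by ring
    rw [this]
    exact m2_of h2 (mul_lt1 h2 hn.le)
  have h41 : WithZero.exp (-1 : ℤ) < (1 : Z0) := by
    rw [← WithZero.exp_zero, WithZero.exp_lt_exp]
    norm_num
  have hη1 : v (η - 1) < 1 := by
    rw [hη, show (1 - 4 * n - 1 : k) = -(4 * n) by ring, Valuation.map_neg]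
    exact h4.trans h41
  have hη2 : v η = 1 := eq1_of_sub hη1 (map_one v)
  rw [← hη] at hf ⊢
  have h3 : v (3 : k) = 1 := by
    refine eq1_of_sub (b := 1) ?_ (map_one v)
    rw [show (3 - 1 : k) = 2 by norm_num]
    exact h2
  have hne : ∀ {a : k}, v a = 1 → a ≠ 0 := by
    rintro a ha rfl
    rw [map_zero] at ha
    exact zero_ne_one ha
  rcases le_or_gt (v X) 1 with hX | hX
  · -- `X` integral
    have hYv : v Y = 1 := by
      apply sq_eq1
      have h5 := congrArg v hf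
      rw [H.irr X hX, map_mul, hη2, one_mul] at h5
      exact h5.symm
    have hβ : v (3 * X ^ 2 + A) = 1 := by
      have hle : v (3 * X ^ 2 + A) ≤ 1 := by
        refine (Valuation.map_add v _ _).trans (max_le ?_ H.a)
        rw [map_mul, h3, one_mul, map_pow]
        exact pow_le_one' hX 2
      by_contra hc
      have hlt := lt_of_le_of_ne hle hc
      obtain ⟨r, y, hr, hy, h5, h6⟩ := H.typ
      have hXr : v (X - r) < 1 := by
        have e : (X - r) ^ 2 = ((3 * X ^ 2 + A) - (3 * r ^ 2 + A)) / 3 - 2 * (r * (X - r)) := by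
          have := hne h3
          field_simp
          ring
        have h7 : v ((X - r) ^ 2) < 1 := by
          rw [e]
          refine sub_lt1 ?_ (mul_lt1 h2 ?_)
          · rw [map_div₀, h3, div_one]
            exact sub_lt1 hlt h5
          · rw [map_mul]
            exact mul_le_one' hr ((Valuation.map_sub v _ _).trans (max_le hX hr))
        rw [map_pow] at h7
        exact (pow_lt_one_iff two_ne_zero).1 h7
      have h8 : v ((X ^ 3 + A * X + B) - (r ^ 3 + A * r + B)) < WithZero.exp (-1 : ℤ) := by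
        have e : (X ^ 3 + A * X + B) - (r ^ 3 + A * r + B) =
            (X - r) * ((3 * r ^ 2 + A) + (X - r) * (X + 2 * r)) := by ring
        rw [e]
        refine m2_of hXr (add_lt1 h5 (mul_lt1 hXr ?_))
        refine (Valuation.map_add v _ _).trans (max_le hX ?_)
        rw [map_mul]
        exact mul_le_one' h2.le hr
      have h9 : v (Y ^ 2 - y ^ 2) = WithZero.exp (-1 : ℤ) := by
        have e : Y ^ 2 - y ^ 2 = (r ^ 3 + A * r + B - y ^ 2) +
            (((X ^ 3 + A * X + B) - (r ^ 3 + A * r + B)) + (4 * n) * Y ^ 2) := by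
          rw [hf, hη]
          ring
        rw [e, Valuation.map_add_eq_of_lt_left, h6]
        rw [h6]
        refine (Valuation.map_add v _ _).trans_lt (max_lt h8 ?_)
        rw [map_mul, map_pow, hYv, one_pow, mul_one]
        exact h4
      have h10 : Y ^ 2 - y ^ 2 = (Y - y) * (Y + y) := by ring
      rcases (show v (Y - y) ≤ 1 from
        (Valuation.map_sub v _ _).trans (max_le hYv.le hy)).lt_or_eq with h11 | h11
      · have h12 : v (Y + y) < 1 := by
          have : Y + y = (Y - y) + 2 * y := by ring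
          rw [this]
          exact add_lt1 h11 (mul_lt1 h2 hy)
        have h13 := m2_of h11 h12
        rw [← h10, h9] at h13
        exact lt_irrefl _ h13
      · have h12 : v (Y + y) = 1 := by
          refine eq1_of_sub (b := Y - y) ?_ h11
          have : Y + y - (Y - y) = 2 * y := by ring
          rw [this]
          exact mul_lt1 h2 hy
        rw [h10, map_mul, h11, h12, mul_one] at h9
        exact absurd h9 h41.ne'
    obtain ⟨l, -, h5, h6⟩ := slope1 h2 H.sq hX hYv.le hn hη1 hβ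
    exact ⟨l, hne h5, h6⟩
  · -- `X` not integral
    have hX0 : X ≠ 0 := by
      rintro rfl
      rw [map_zero] at hX
      exact absurd hX (not_lt.2 zero_le)
    have hXY : v X ^ 3 = v Y ^ 2 := by
      have h5 := congrArg v hf
      rw [map_mul, hη2, one_mul, map_pow v Y] at h5
      rw [← h5]
      have h6 : v (A * X + B) < v (X ^ 3) := by
        rw [map_pow]
        have h7 : v X ≤ v X ^ 3 := le_self_pow₀ hX.le (by norm_num)
        have h8 : v X < v X ^ 3 := by
          calc v X = v X ^ 1 := (pow_one _).symm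
            _ < v X ^ 3 := pow_lt_pow_right₀ hX (by norm_num)
        refine lt_of_le_of_lt ((Valuation.map_add v _ _).trans (max_le ?_ ?_)) h8
        · rw [map_mul]
          exact mul_le_of_le_one_left' H.a
        · exact H.b.trans hX.le
      have e : X ^ 3 + A * X + B = X ^ 3 + (A * X + B) := by ring
      rw [e, Valuation.map_add_eq_of_lt_left v h6, map_pow]
    have hY0 : Y ≠ 0 := by
      rintro rfl
      rw [map_zero, zero_pow two_ne_zero] at hXY
      exact hX0 ((Valuation.zero_iff v).1 (pow_eq_zero_iff (by norm_num) |>.1 hXY))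
    obtain ⟨a, ha⟩ : ∃ a : ℤ, v X = WithZero.exp a :=
      ⟨WithZero.log _, (WithZero.exp_log ((Valuation.ne_zero_iff v).2 hX0)).symm⟩
    obtain ⟨b, hb⟩ : ∃ b : ℤ, v Y = WithZero.exp b :=
      ⟨WithZero.log _, (WithZero.exp_log ((Valuation.ne_zero_iff v).2 hY0)).symm⟩
    have hab : 3 * a = 2 * b := by
      rw [ha, hb, ← WithZero.exp_nsmul, ← WithZero.exp_nsmul, WithZero.exp_inj] at hXY
      simpa using hXY
    have ha1 : 0 < a := by
      rw [ha, ← WithZero.exp_zero, WithZero.exp_lt_exp] at hX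
      exact hX
    obtain ⟨m, hm⟩ : ∃ m : ℕ, a = 2 * m := ⟨(a / 2).toNat, by omega⟩
    have hbm : b = 3 * m := by omega
    obtain ⟨π, hπ⟩ := H.unif
    obtain ⟨p, hp⟩ : ∃ p, p = π ^ m := ⟨_, rfl⟩
    have hpv : v p = WithZero.exp (-(m : ℤ)) := by
      rw [hp, map_pow, hπ, ← WithZero.exp_nsmul]
      congr 1
      simp
    have hp0 : p ≠ 0 := by
      rintro rfl
      rw [map_zero] at hpv
      exact WithZero.exp_ne_zero hpv.symm
    have hX1 : v (X * p ^ 2) = 1 := by
      rw [map_mul, map_pow, ha, hpv, ← WithZero.exp_nsmul, ← WithZero.exp_add, hm,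
        ← WithZero.exp_zero]
      congr 1
      simp
    have hY1 : v (Y * p ^ 3) = 1 := by
      rw [map_mul, map_pow, hb, hpv, ← WithZero.exp_nsmul, ← WithZero.exp_add, hbm,
        ← WithZero.exp_zero]
      congr 1
      simp
    have hp1 : v p < 1 := by
      rw [hpv, ← WithZero.exp_zero, WithZero.exp_lt_exp]
      omega
    have hβ : v (3 * (X * p ^ 2) ^ 2 + A * p ^ 4) = 1 := by
      refine eq1_of_sub (b := 3 * (X * p ^ 2) ^ 2) ?_ ?_
      · have e : 3 * (X * p ^ 2) ^ 2 + A * p ^ 4 - 3 * (X * p ^ 2) ^ 2 = p * (A * p ^ 3) := by ring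
        rw [e]
        refine mul_lt1 hp1 ?_
        rw [map_mul, map_pow]
        exact mul_le_one' H.a (pow_le_one' hp1.le 3)
      · rw [map_mul, map_pow, hX1, h3, one_pow, one_mul]
    obtain ⟨l, -, h5, h6⟩ := slope1 h2 H.sq hX1.le hY1.le hn hη1 hβ
    have h5' := hne h5
    have e1 : 3 * X - η * (l / p) ^ 2 = (3 * (X * p ^ 2) - η * l ^ 2) / p ^ 2 := by
      field_simp
    refine ⟨l / p, ?_, ?_⟩
    · rw [e1]
      exact div_ne_zero h5' (pow_ne_zero 2 hp0)
    · have e2 : (3 * X ^ 2 + A - 2 * η * (l / p) * Y) / (3 * X - η * (l / p) ^ 2) ^ 2 =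
          (3 * (X * p ^ 2) ^ 2 + A * p ^ 4 - 2 * η * l * (Y * p ^ 3)) /
            (3 * (X * p ^ 2) - η * l ^ 2) ^ 2 := by
        rw [e1]
        field_simp
      rw [e2]
      exact h6

end val

section ex

variable {k k' : Type} [Field k] [CharZero k] [Field k'] [Algebra k k'] {A B : k}
  {v : Valuation k Z0} {v' : Valuation k' Z0}

/-- Points with `σ Q = -Q`. -/
theorem exists_S (hv : ∀ x, v' (algebraMap k k' x) = v x) (H : Lc v A B)
    (hens : ∀ t : k', v' t < 1 → ∃ u : k', v' u < 1 ∧ u ^ 2 + u = t)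
    (hirr : Irreducible (cu A B)) (σ : k' →ₐ[k] k') (hσ2 : ∀ x, σ (σ x) = x)
    (hfix : ∀ x, σ x = x → ∃ y, algebraMap k k' y = x) {s : k'} {n : k} (hn : v n = 1)
    (hs : s ^ 2 - s + algebraMap k k' n = 0) (hσs : σ s = 1 - s)
    (hsn : ∀ a : k, ¬ v' (s - algebraMap k k' a) < 1) :
    ∀ Q : Pt (sW A B) k', act (sW A B) σ Q = -Q → ∃ S : Pt (sW A B) k',
      Q = act (sW A B) σ S - S := by
  haveI : CharZero k' := charZero_of_injective_algebraMap (algebraMap k k').injective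
  intro Q hQ
  have hd := disc_ne hirr
  have h6 : (6 : k) ≠ 0 := by norm_num
  have hS := isS (K := k) (Ω := k') h6 hd
  rcases Q with _ | ⟨x, y, hxy⟩
  · refine ⟨0, ?_⟩
    rw [map_zero, sub_zero]
    rfl
  obtain ⟨h', e⟩ := act_some σ hxy
  rw [e, Point.neg_some] at hQ
  injection hQ with hx hy
  rw [hS.negY] at hy
  obtain ⟨X, rfl⟩ := hfix x hx
  obtain ⟨δ, hδ⟩ : ∃ δ, δ = 2 * s - 1 := ⟨_, rfl⟩
  have hσδ : σ δ = -δ := by
    rw [hδ, map_sub, map_mul, hσs, map_one, map_ofNat]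
    ring
  have hδ2 : δ ^ 2 = algebraMap k k' (1 - 4 * n) := by
    rw [map_sub, map_mul, map_one, map_ofNat, hδ]
    linear_combination 4 * hs
  have h2' : v' (2 : k') < 1 := by
    have : (2 : k') = algebraMap k k' 2 := by rw [map_ofNat]
    rw [this, hv]
    exact H.two
  have hδv : v' δ = 1 := by
    apply sq_eq1
    rw [hδ2, hv]
    refine eq1_of_sub (b := 1) ?_ (map_one v)
    rw [show (1 - 4 * n - 1 : k) = 2 * (-2 * n) by ring]
    refine mul_lt1 H.two ?_
    rw [map_mul, Valuation.map_neg, hn, mul_one]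
    exact H.two.le
  have hδ0 : δ ≠ 0 := by
    intro h0
    rw [h0, map_zero] at hδv
    exact zero_ne_one hδv
  obtain ⟨Y, hY⟩ := hfix (y / δ) (by
    rw [map_div₀, hy, hσδ]
    field_simp)
  have hY' : y = δ * algebraMap k k' Y := by
    rw [hY]
    field_simp
  have hf : X ^ 3 + A * X + B = (1 - 4 * n) * Y ^ 2 := by
    have h7 := hS.nonsingular.1 hxy
    apply (algebraMap k k').injective
    rw [map_mul, ← hδ2, map_add, map_add, map_mul, map_pow, map_pow]
    rw [hY'] at h7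
    linear_combination -h7
  obtain ⟨l, hl1, hl2⟩ := slope2 H hn hf
  obtain ⟨η, hη⟩ : ∃ η, η = 1 - 4 * n := ⟨_, rfl⟩
  rw [← hη] at hl1 hl2 hf hδ2
  obtain ⟨α, hα⟩ : ∃ α, α = 3 * X - η * l ^ 2 := ⟨_, rfl⟩
  obtain ⟨β, hβ⟩ : ∃ β, β = 3 * X ^ 2 + A - 2 * η * l * Y := ⟨_, rfl⟩
  rw [← hα] at hl1 hl2
  rw [← hβ] at hl2
  obtain ⟨c, hc⟩ : ∃ c, c = β / α ^ 2 := ⟨_, rfl⟩
  rw [← hc] at hl2
  have hβc : β = c * α ^ 2 := by
    rw [hc]
    field_simp
  -- the root
  obtain ⟨u, hu1, hu⟩ := hens (-(algebraMap k k' (c - n)) / δ ^ 2) (by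
    rw [map_div₀, Valuation.map_neg, hv, map_pow, hδv, one_pow, div_one]
    exact hl2)
  obtain ⟨z, hz⟩ : ∃ z, z = -s - δ * u := ⟨_, rfl⟩
  have hzr : z ^ 2 + z + algebraMap k k' c = 0 := by
    have h8 : δ ^ 2 * (u ^ 2 + u) = -(algebraMap k k' (c - n)) := by
      rw [hu]
      field_simp
    rw [map_sub] at h8
    rw [hz]
    linear_combination h8 + hs - (u * δ) * hδ
  have hzn : ∀ a : k, algebraMap k k' a ≠ z := by
    intro a ha
    apply hsn (-a)
    have e1 : s - algebraMap k k' (-a) = -(δ * u) := by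
      rw [map_neg, ha, hz]
      ring
    rw [e1, Valuation.map_neg, map_mul, hδv, one_mul]
    exact hu1
  have hσz : σ z = -1 - z := by
    have h9 : σ z ^ 2 + σ z + algebraMap k k' c = 0 := by
      have := congrArg σ hzr
      rw [map_add, map_add, map_pow, σ.commutes, map_zero] at this
      exact this
    have h10 : (σ z - z) * (σ z + z + 1) = 0 := by linear_combination h9 - hzr
    rcases mul_eq_zero.1 h10 with h11 | h11
    · obtain ⟨a, ha⟩ := hfix z (sub_eq_zero.1 h11)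
      exact absurd ha (hzn a)
    · linear_combination h11
  obtain ⟨a', ha'⟩ : ∃ a', a' = algebraMap k k' α := ⟨_, rfl⟩
  have ha0 : a' ≠ 0 := by
    rw [ha']
    exact (_root_.map_ne_zero _).2 hl1
  obtain ⟨X', hX'⟩ : ∃ X', X' = algebraMap k k' X := ⟨_, rfl⟩
  obtain ⟨Y', hY1⟩ : ∃ Y', Y' = algebraMap k k' Y := ⟨_, rfl⟩
  obtain ⟨l', hl'⟩ : ∃ l', l' = algebraMap k k' l := ⟨_, rfl⟩
  obtain ⟨A', hA'⟩ : ∃ A', A' = algebraMap k k' A := ⟨_, rfl⟩
  obtain ⟨B', hB'⟩ : ∃ B', B' = algebraMap k k' B := ⟨_, rfl⟩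
  have m1 : a' = 3 * X' - δ ^ 2 * l' ^ 2 := by
    rw [ha', hα, hδ2, hX', hl']
    simp only [map_add, map_sub, map_mul, map_pow, map_ofNat]
  have m2 : 3 * X' ^ 2 + A' - 2 * δ ^ 2 * l' * Y' = algebraMap k k' c * a' ^ 2 := by
    rw [ha', ← map_pow, ← map_mul, ← hβc, hβ, hδ2, hX', hl', hA', hY1]
    simp only [map_add, map_sub, map_mul, map_pow, map_ofNat]
  have m3 : X' ^ 3 + A' * X' + B' = δ ^ 2 * Y' ^ 2 := by
    rw [hδ2, hX', hA', hB', hY1, ← map_pow, ← map_mul, ← map_add, ← map_add, hf]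
    simp
  have hS' : IsS ((sW A B).baseChange k').toAffine A' B' := by
    rw [hA', hB']
    exact hS
  -- the points
  have hU : ((sW A B).baseChange k').toAffine.Nonsingular (X' + a' * z)
      (δ * (l' * (a' * z) + Y')) := by
    rw [hS'.nonsingular]
    have : algebraMap k k' c = -(z ^ 2 + z) := by linear_combination hzr
    rw [this] at m2
    linear_combination (-(a' * z)) * m2 - m3 + (a' ^ 2 * z ^ 2) * m1
  have hσa : σ a' = a' := by rw [ha', σ.commutes]
  have hσX : σ X' = X' := by rw [hX', σ.commutes]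
  have hσY : σ Y' = Y' := by rw [hY1, σ.commutes]
  have hσl : σ l' = l' := by rw [hl', σ.commutes]
  refine ⟨Point.some _ _ hU, ?_⟩
  obtain ⟨hU', eU⟩ := act_some σ hU
  rw [eU, eq_sub_iff_add_eq]
  have hz0 : z ≠ 0 := by
    rintro rfl
    exact hzn 0 (map_zero _)
  have haz : a' * z ≠ 0 := mul_ne_zero ha0 hz0
  have hxy2 : ((sW A B).baseChange k').toAffine.Nonsingular X' (δ * Y') := by
    rw [hS'.nonsingular]
    linear_combination -m3
  have eQ : (Point.some ((algebraMap k k') X) y hxy : Pt (sW A B) k') =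
      Point.some X' (δ * Y') hxy2 := by
    congr 1
    · exact hX'.symm
    · rw [hY1]
      exact hY'
  rw [eQ]
  have hxne : X' ≠ X' + a' * z := by
    intro h0
    exact haz (by linear_combination -h0)
  have hsl : ((sW A B).baseChange k').toAffine.slope X' (X' + a' * z) (δ * Y')
      (δ * (l' * (a' * z) + Y')) = δ * l' := by
    rw [slope_of_X_ne hxne, div_eq_iff (sub_ne_zero.2 hxne)]
    ring
  have eX : ((sW A B).baseChange k').toAffine.addX X' (X' + a' * z)
      (((sW A B).baseChange k').toAffine.slope X' (X' + a' * z) (δ * Y')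
      (δ * (l' * (a' * z) + Y'))) = σ (X' + a' * z) := by
    rw [hsl, addX, hS'.a1, hS'.a2, map_add, map_mul, hσX, hσa, hσz]
    linear_combination m1
  have eY : ((sW A B).baseChange k').toAffine.addY X' (X' + a' * z) (δ * Y')
      (((sW A B).baseChange k').toAffine.slope X' (X' + a' * z) (δ * Y')
      (δ * (l' * (a' * z) + Y'))) = σ (δ * (l' * (a' * z) + Y')) := by
    rw [addY, negAddY, eX, hsl, hS'.negY]
    simp only [map_add, map_mul, hσX, hσa, hσz, hσδ, hσl, hσY]
    ring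
  rw [Point.add_of_X_ne hxne]
  simp only [eX, eY]

end ex

end Pool.Agent.H459.UF
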