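import Pool.Agent.H459.UF.Cmp
import Pool.Agent.H459.UF.Slp

/-!
# Unramified primes over two: dense or inert (helper459)
-/

set_option autoImplicit false
set_option linter.all false

open Polynomial IsDedekindDomain NumberField WithZero
open scoped Classical IntermediateField

namespace Pool.Agent.H459.UF

section res

variable {K L : Type} [Field K] [NumberField K] [Field L] [NumberField L] [Algebra K L]

theorem dns_of_res {P : HeightOneSpectrum (𝓞 L)} (h : Unr K L (below K P))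
    (hres : ∀ x : 𝓞 L, ∃ y : 𝓞 K, x - algebraMap (𝓞 K) (𝓞 L) y ∈ P.asIdeal) : Dns K P := by
  obtain ⟨π, -, hπ⟩ := exists_unif_of_unr P h
  have hπ0 : algebraMap K L π ≠ 0 := by
    intro h0
    rw [h0, map_zero] at hπ
    exact WithZero.exp_ne_zero hπ.symm
  have hpow : ∀ n : ℕ, P.valuation L (algebraMap K L π ^ n) = WithZero.exp (-(n : ℤ)) := by
    intro n
    rw [map_pow, hπ, ← WithZero.exp_nsmul]
    congr 1
    simp
  have key : ∀ (x : L), P.valuation L x ≤ 1 → ∀ n : ℕ, ∃ y : K,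
      P.valuation L (x - algebraMap K L y) ≤ WithZero.exp (-(n : ℤ)) := by
    intro x hx n
    induction n with
    | zero => exact ⟨0, by simpa using hx⟩
    | succ n ih =>
      obtain ⟨y, hy⟩ := ih
      set z : L := (x - algebraMap K L y) / algebraMap K L π ^ n with hz
      have hz1 : P.valuation L z ≤ 1 := by
        rw [hz, map_div₀, hpow]
        exact (div_le_one₀ (WithZero.exp_pos)).2 hy
      obtain ⟨z₀, hz₀⟩ := P.exists_valuation_sub_lt_of_integer hz1 1
      rw [Units.val_one] at hz₀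
      obtain ⟨y₀, hy₀⟩ := hres z₀
      refine ⟨y + π ^ n * algebraMap (𝓞 K) K y₀, ?_⟩
      have e : x - algebraMap K L (y + π ^ n * algebraMap (𝓞 K) K y₀) =
          algebraMap K L π ^ n * (z - algebraMap (𝓞 L) L (algebraMap (𝓞 K) (𝓞 L) y₀)) := by
        rw [hz, mul_sub, mul_div_cancel₀ _ (pow_ne_zero n hπ0), map_add, map_mul, map_pow,
          ← IsScalarTower.algebraMap_apply, ← IsScalarTower.algebraMap_apply]
        ring
      rw [e, map_mul, hpow]
      have h2 : P.valuation L (z - algebraMap (𝓞 L) L (algebraMap (𝓞 K) (𝓞 L) y₀)) ≤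
          WithZero.exp (-1 : ℤ) := by
        apply le_one_of_lt
        have e2 : z - algebraMap (𝓞 L) L (algebraMap (𝓞 K) (𝓞 L) y₀) =
            -(algebraMap (𝓞 L) L z₀ - z) +
              algebraMap (𝓞 L) L (z₀ - algebraMap (𝓞 K) (𝓞 L) y₀) := by
          rw [map_sub]; ring
        rw [e2]
        refine lt_of_le_of_lt (Valuation.map_add _ _ _) (max_lt ?_ ?_)
        · rw [Valuation.map_neg]
          exact hz₀
        · exact (HeightOneSpectrum.valuation_lt_one_iff_mem P _).2 hy₀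
      calc WithZero.exp (-(n : ℤ)) * P.valuation L (z - algebraMap (𝓞 L) L
            (algebraMap (𝓞 K) (𝓞 L) y₀)) ≤ WithZero.exp (-(n : ℤ)) * WithZero.exp (-1 : ℤ) :=
            mul_le_mul_right h2 _
        _ = WithZero.exp (-((n + 1 : ℕ) : ℤ)) := by
            rw [← WithZero.exp_add]
            congr 1
            push_cast
            ring
  intro x n
  obtain ⟨k, hk⟩ : ∃ k : ℕ, P.valuation L (x * algebraMap K L π ^ k) ≤ 1 := by
    by_cases h0 : x = 0
    · exact ⟨0, by simp [h0]⟩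
    · obtain ⟨a, ha⟩ : ∃ a : ℤ, P.valuation L x = WithZero.exp a :=
        ⟨WithZero.log _, (WithZero.exp_log ((Valuation.ne_zero_iff _).2 h0)).symm⟩
      refine ⟨a.toNat, ?_⟩
      rw [map_mul, hpow, ha, ← WithZero.exp_add, ← WithZero.exp_zero, WithZero.exp_le_exp]
      omega
  obtain ⟨y, hy⟩ := key _ hk (n + k)
  refine ⟨y / π ^ k, ?_⟩
  have e : x - algebraMap K L (y / π ^ k) =
      (x * algebraMap K L π ^ k - algebraMap K L y) / algebraMap K L π ^ k := by
    rw [map_div₀, map_pow]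
    field_simp
  rw [e, map_div₀, hpow, div_le_iff₀ WithZero.exp_pos, ← WithZero.exp_add]
  refine hy.trans (le_of_eq ?_)
  congr 1
  push_cast
  ring

end res

section sqr

variable {K : Type} [Field K] [NumberField K]

/-- Squares modulo a prime over two. -/
theorem sq_mod (v : HeightOneSpectrum (𝓞 K)) (h2 : (2 : 𝓞 K) ∈ v.asIdeal) (a : 𝓞 K) :
    ∃ b : 𝓞 K, a - b ^ 2 ∈ v.asIdeal := by
  haveI hmax : v.asIdeal.IsMaximal := v.isMaximal
  letI : Field (𝓞 K ⧸ v.asIdeal) := Ideal.Quotient.field v.asIdeal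
  haveI hfin : Finite (𝓞 K ⧸ v.asIdeal) := Ideal.finiteQuotientOfFreeOfNeBot v.asIdeal v.ne_bot
  haveI : CharP (𝓞 K ⧸ v.asIdeal) 2 := by
    refine CharTwo.of_one_ne_zero_of_two_eq_zero one_ne_zero ?_
    have : (Ideal.Quotient.mk v.asIdeal) 2 = 0 := Ideal.Quotient.eq_zero_iff_mem.2 h2
    rw [map_ofNat] at this
    exact this
  have hsurj : Function.Surjective (fun x : 𝓞 K ⧸ v.asIdeal => x ^ 2) := by
    refine Finite.surjective_of_injective ?_
    intro x y hxy
    exact CharTwo.sq_injective hxy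
  obtain ⟨b', hb'⟩ := hsurj (Ideal.Quotient.mk v.asIdeal a)
  obtain ⟨b, rfl⟩ := Ideal.Quotient.mk_surjective b'
  refine ⟨b, ?_⟩
  rw [← Ideal.Quotient.eq_zero_iff_mem, map_sub, map_pow]
  exact sub_eq_zero.2 hb'.symm

end sqr

section iner

variable {K₁ K₂ : Type} [Field K₁] [NumberField K₁] [Field K₂] [NumberField K₂] [Algebra K₁ K₂]

/-- The alternative at an unramified prime over two. -/
theorem dense_or_inert (h2 : Module.finrank K₁ K₂ = 2) {w : HeightOneSpectrum (𝓞 K₂)}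
    (hu : Unr K₁ K₂ (below K₁ w)) (hw : (2 : 𝓞 K₁) ∈ (below K₁ w).asIdeal) :
    Dns K₁ w ∨ ∃ (s : K₂) (n : K₁), s ^ 2 - s + algebraMap K₁ K₂ n = 0 ∧
      (below K₁ w).valuation K₁ n = 1 ∧
      ∀ a : K₁, ¬ w.valuation K₂ (s - algebraMap K₁ K₂ a) < 1 := by
  by_cases hres : ∀ x : 𝓞 K₂, ∃ y : 𝓞 K₁, x - algebraMap (𝓞 K₁) (𝓞 K₂) y ∈ w.asIdeal
  · exact Or.inl (dns_of_res hu hres)
  right
  push Not at hres
  obtain ⟨s₀, hs₀⟩ := hres
  have hagr := agr_of_unr w hu
  have hmem : ∀ a : 𝓞 K₁, algebraMap (𝓞 K₁) (𝓞 K₂) a ∈ w.asIdeal ↔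
      a ∈ (below K₁ w).asIdeal := fun a => (mem_below w a).symm
  -- the equation
  obtain ⟨q1, q0, hq⟩ : ∃ q1 q0 : 𝓞 K₁, s₀ ^ 2 + algebraMap _ _ q1 * s₀ + algebraMap _ _ q0 = 0 := by
    obtain ⟨t, ht⟩ : ∃ t : K₂, t = algebraMap (𝓞 K₂) K₂ s₀ := ⟨_, rfl⟩
    have hint : IsIntegral (𝓞 K₁) t := by
      have : IsIntegral ℤ t := by
        rw [ht]
        exact RingOfIntegers.isIntegral_coe s₀
      exact this.tower_top
    obtain ⟨q, hqd⟩ : ∃ q, q = minpoly (𝓞 K₁) t := ⟨_, rfl⟩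
    have hqm : q.Monic := by
      rw [hqd]
      exact minpoly.monic hint
    have hq0 : aeval t q = 0 := by
      rw [hqd]
      exact minpoly.aeval _ _
    have hdeg : q.natDegree ≤ 2 := by
      have h3 : (minpoly K₁ t).natDegree ≤ 2 := by
        rw [← h2]
        exact minpoly.natDegree_le t
      rw [minpoly.isIntegrallyClosed_eq_field_fractions' K₁ hint, ← hqd,
        hqm.natDegree_map] at h3
      exact h3
    have hcast : ∀ a : 𝓞 K₁, algebraMap (𝓞 K₁) K₂ a =
        algebraMap (𝓞 K₂) K₂ (algebraMap (𝓞 K₁) (𝓞 K₂) a) := fun a =>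
      IsScalarTower.algebraMap_apply _ _ _ a
    rw [aeval_eq_sum_range' (n := 3) (by omega)] at hq0
    simp only [Finset.sum_range_succ, Finset.sum_range_zero, zero_add, pow_zero, pow_one,
      Algebra.smul_def, mul_one] at hq0
    rcases Nat.lt_or_ge q.natDegree 2 with hlt | hge
    · exfalso
      have c2 : q.coeff 2 = 0 := coeff_eq_zero_of_natDegree_lt hlt
      rw [c2, map_zero, zero_mul, add_zero] at hq0
      have hd1 : q.natDegree = 1 := by
        rcases Nat.lt_or_ge q.natDegree 1 with h | h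
        · exfalso
          have h4 : q = 1 := (Monic.natDegree_eq_zero hqm).1 (by omega)
          rw [h4] at hq0
          simp [coeff_one] at hq0
        · omega
      have c1 : q.coeff 1 = 1 := by
        rw [← hd1]
        exact hqm
      rw [c1, map_one, one_mul] at hq0
      apply hs₀ (-q.coeff 0)
      have h5 : s₀ - algebraMap (𝓞 K₁) (𝓞 K₂) (-q.coeff 0) = 0 := by
        apply RingOfIntegers.coe_injective
        rw [map_sub, map_neg, map_neg, ← hcast, ← ht, map_zero]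
        linear_combination hq0
      rw [h5]
      exact w.asIdeal.zero_mem
    · have c2 : q.coeff 2 = 1 := by
        have : q.natDegree = 2 := by omega
        rw [← this]
        exact hqm
      rw [c2, map_one, one_mul] at hq0
      refine ⟨q.coeff 1, q.coeff 0, ?_⟩
      apply RingOfIntegers.coe_injective
      rw [map_add, map_add, map_mul, map_pow, ← hcast, ← hcast, ← ht, map_zero]
      linear_combination hq0
  have hq1 : q1 ∉ (below K₁ w).asIdeal := by
    intro h1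
    obtain ⟨c, hc⟩ := sq_mod (below K₁ w) hw (-q0)
    apply hs₀ c
    apply w.isPrime.mem_of_pow_mem 2
    have e : (s₀ - algebraMap (𝓞 K₁) (𝓞 K₂) c) ^ 2 = -(algebraMap _ _ q1 * s₀) -
        algebraMap (𝓞 K₁) (𝓞 K₂) 2 * (algebraMap (𝓞 K₁) (𝓞 K₂) c * s₀) +
        algebraMap (𝓞 K₁) (𝓞 K₂) (-q0 - c ^ 2) +
        algebraMap (𝓞 K₁) (𝓞 K₂) 2 * algebraMap (𝓞 K₁) (𝓞 K₂) (c ^ 2) := by
      rw [map_ofNat, map_sub, map_neg, map_pow]
      linear_combination hq
    rw [e]
    refine Ideal.add_mem _ (Ideal.add_mem _ (Ideal.sub_mem _ ?_ ?_) ?_) ?_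
    · exact (Ideal.neg_mem_iff _).2 (Ideal.mul_mem_right _ _ ((hmem _).2 h1))
    · exact Ideal.mul_mem_right _ _ ((hmem _).2 hw)
    · exact (hmem _).2 hc
    · exact Ideal.mul_mem_right _ _ ((hmem _).2 hw)
  have hq0 : q0 ∉ (below K₁ w).asIdeal := by
    intro h1
    have h3 : s₀ * (s₀ - algebraMap (𝓞 K₁) (𝓞 K₂) (-q1)) ∈ w.asIdeal := by
      have e : s₀ * (s₀ - algebraMap (𝓞 K₁) (𝓞 K₂) (-q1)) = -algebraMap (𝓞 K₁) (𝓞 K₂) q0 := by
        rw [map_neg]
        linear_combination hq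
      rw [e]
      exact (Ideal.neg_mem_iff _).2 ((hmem _).2 h1)
    rcases w.isPrime.mem_or_mem h3 with h | h
    · apply hs₀ 0
      rwa [map_zero, sub_zero]
    · exact hs₀ _ h
  -- the element
  have hval : ∀ a : 𝓞 K₁, a ∉ (below K₁ w).asIdeal →
      (below K₁ w).valuation K₁ (algebraMap (𝓞 K₁) K₁ a) = 1 := by
    intro a ha
    refine le_antisymm (HeightOneSpectrum.valuation_le_one _ _) (not_lt.1 fun h => ha ?_)
    exact (HeightOneSpectrum.valuation_lt_one_iff_mem _ _).1 h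
  obtain ⟨m, hm⟩ : ∃ m : K₁, m = -algebraMap (𝓞 K₁) K₁ q1 := ⟨_, rfl⟩
  have hmv : (below K₁ w).valuation K₁ m = 1 := by rw [hm, Valuation.map_neg, hval q1 hq1]
  have hm0 : m ≠ 0 := by
    rintro rfl
    rw [map_zero] at hmv
    exact zero_ne_one hmv
  have hm0' : algebraMap K₁ K₂ m ≠ 0 := (_root_.map_ne_zero _).2 hm0
  obtain ⟨t, ht⟩ : ∃ t : K₂, t = algebraMap (𝓞 K₂) K₂ s₀ := ⟨_, rfl⟩
  have hcast : ∀ a : 𝓞 K₁, algebraMap K₁ K₂ (algebraMap (𝓞 K₁) K₁ a) =
      algebraMap (𝓞 K₂) K₂ (algebraMap (𝓞 K₁) (𝓞 K₂) a) := fun a => by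
    rw [← IsScalarTower.algebraMap_apply, ← IsScalarTower.algebraMap_apply]
  have hteq : t ^ 2 - algebraMap K₁ K₂ m * t + algebraMap K₁ K₂ (algebraMap (𝓞 K₁) K₁ q0) = 0 := by
    have := congrArg (algebraMap (𝓞 K₂) K₂) hq
    rw [map_add, map_add, map_mul, map_pow, ← hcast, ← hcast, ← ht, map_zero] at this
    rw [hm, map_neg]
    linear_combination this
  refine ⟨t / algebraMap K₁ K₂ m, algebraMap (𝓞 K₁) K₁ q0 / m ^ 2, ?_, ?_, ?_⟩
  · rw [map_div₀, map_pow]
    field_simp
    linear_combination hteq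
  · rw [map_div₀, map_pow, hmv, hval q0 hq0, one_pow, div_one]
  · intro a ha
    have htv : w.valuation K₂ t ≤ 1 := by
      rw [ht]
      exact HeightOneSpectrum.valuation_le_one _ _
    have hmv' : w.valuation K₂ (algebraMap K₁ K₂ m) = 1 := by rw [hagr, hmv]
    have hav : (below K₁ w).valuation K₁ a ≤ 1 := by
      rw [← hagr]
      have e : algebraMap K₁ K₂ a = t / algebraMap K₁ K₂ m -
          (t / algebraMap K₁ K₂ m - algebraMap K₁ K₂ a) := by ring
      rw [e]
      refine (Valuation.map_sub _ _ _).trans (max_le ?_ ha.le)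
      rw [map_div₀, hmv', div_one]
      exact htv
    obtain ⟨y, hy⟩ := (below K₁ w).exists_valuation_sub_lt_of_integer
      (x := a * m) (by rw [map_mul, hmv, mul_one]; exact hav) 1
    rw [Units.val_one] at hy
    apply hs₀ y
    refine (HeightOneSpectrum.valuation_lt_one_iff_mem (K := K₂) w _).1 ?_
    show w.valuation K₂ (algebraMap (𝓞 K₂) K₂ (s₀ - algebraMap (𝓞 K₁) (𝓞 K₂) y)) < 1
    rw [map_sub, ← ht, ← hcast]
    have e : t - algebraMap K₁ K₂ (algebraMap (𝓞 K₁) K₁ y) =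
        algebraMap K₁ K₂ m * (t / algebraMap K₁ K₂ m - algebraMap K₁ K₂ a) -
        algebraMap K₁ K₂ (algebraMap (𝓞 K₁) K₁ y - a * m) := by
      rw [map_sub, map_mul]
      field_simp
      ring
    rw [e]
    refine (Valuation.map_sub _ _ _).trans_lt (max_lt ?_ ?_)
    · rw [map_mul, hmv', one_mul]
      exact ha
    · rw [hagr]
      exact hy

end iner

end Pool.Agent.H459.UF
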