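import Pool.Agent.H459.UF.TowU
import Pool.Graph.R_pool_sql_team_seeded_63374d34.N874.JM.Fld
import Pool.Graph.R_pool_sql_team_seeded_63374d34.N170.PF.Tw

/-!
# From the elements of `M(θ)` to the 2-Selmer group over `M` (helper459)
-/

set_option autoImplicit false
set_option linter.all false

open Polynomial IsDedekindDomain NumberField WithZero
open scoped Classical IntermediateField

namespace Pool.Agent.H459.UF

open Pool.Agent.N874.PP (Ev Sq1 U0)
open Pool.Agent.N874.JM (LocF)
open Pool.Agent.N783.PQ (LocIm)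
open Pool.Agent.N783.PF (IsGen rd fF GoodS SqF Cg sp Ov Dp SelZero)
open Pool.Agent.N78.PF (LOC2 ev_unit map_locF val_one two_cast fF_scale)

section res

variable {K L : Type} [Field K] [NumberField K] [Field L] [NumberField L] [Algebra K L]

/-- The residue fields at the primes at which `K` is dense. -/
theorem irr_dns {w : HeightOneSpectrum (𝓞 L)} (hd : Dns K w) {p : (𝓞 K)[X]}
    (h : Irreducible (rd (below K w).asIdeal p)) :
    Irreducible (rd w.asIdeal (p.map (algebraMap (𝓞 K) (𝓞 L)))) := by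
  obtain ⟨φ, hφ⟩ : ∃ φ : (𝓞 K ⧸ (below K w).asIdeal) →+* (𝓞 L ⧸ w.asIdeal),
      φ = Ideal.quotientMap w.asIdeal (algebraMap (𝓞 K) (𝓞 L)) fun a ha =>
        (mem_below w a).1 ha := ⟨_, rfl⟩
  have hφ1 : φ.comp (Ideal.Quotient.mk (below K w).asIdeal) =
      (Ideal.Quotient.mk w.asIdeal).comp (algebraMap (𝓞 K) (𝓞 L)) := by
    rw [hφ]
    exact Ideal.quotientMap_comp_mk _
  have hinj : Function.Injective φ := by
    haveI : (below K w).asIdeal.IsMaximal := (below K w).isMaximal
    haveI : w.asIdeal.IsMaximal := w.isMaximal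
    letI i1 : Field (𝓞 K ⧸ (below K w).asIdeal) := Ideal.Quotient.field _
    exact φ.injective
  have hsurj : Function.Surjective φ := by
    intro z
    obtain ⟨x, rfl⟩ := Ideal.Quotient.mk_surjective z
    have hagr := agr_of_dns hd
    obtain ⟨y, hy⟩ := hd (x : L) 1
    have hlt : w.valuation L ((x : L) - algebraMap K L y) < 1 := by
      refine lt_of_le_of_lt hy ?_
      rw [← WithZero.exp_zero]
      exact exp_lt (by norm_num)
    have hy1 : (below K w).valuation K y ≤ 1 := by
      rw [← hagr]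
      have e : algebraMap K L y = (x : L) - ((x : L) - algebraMap K L y) := by ring
      rw [e]
      exact (Valuation.map_sub _ _ _).trans
        (max_le (HeightOneSpectrum.valuation_le_one (K := L) w x) hlt.le)
    obtain ⟨y₀, hy₀⟩ := (below K w).exists_valuation_sub_lt_of_integer hy1 1
    rw [Units.val_one, ← hagr] at hy₀
    refine ⟨Ideal.Quotient.mk _ y₀, ?_⟩
    have h1 := congrFun (congrArg DFunLike.coe hφ1) y₀
    have h2 : φ (Ideal.Quotient.mk _ y₀) = Ideal.Quotient.mk w.asIdeal
      (algebraMap (𝓞 K) (𝓞 L) y₀) := h1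
    rw [h2, Ideal.Quotient.eq]
    refine (HeightOneSpectrum.valuation_lt_one_iff_mem (K := L) w _).1 ?_
    have e : algebraMap (𝓞 L) L (algebraMap (𝓞 K) (𝓞 L) y₀ - x) =
        algebraMap K L (algebraMap (𝓞 K) K y₀ - y) - ((x : L) - algebraMap K L y) := by
      rw [map_sub, map_sub, ← IsScalarTower.algebraMap_apply, ← IsScalarTower.algebraMap_apply]
      ring
    show w.valuation L (algebraMap (𝓞 L) L (algebraMap (𝓞 K) (𝓞 L) y₀ - x)) < 1
    rw [e]
    exact lt_of_le_of_lt (Valuation.map_sub _ _ _) (max_lt hy₀ hlt)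
  let e : (𝓞 K ⧸ (below K w).asIdeal) ≃+* (𝓞 L ⧸ w.asIdeal) :=
    RingEquiv.ofBijective φ ⟨hinj, hsurj⟩
  have hrd : (rd (below K w).asIdeal p).map φ = rd w.asIdeal (p.map (algebraMap (𝓞 K) (𝓞 L))) := by
    unfold rd
    rw [Polynomial.map_map, hφ1, ← Polynomial.map_map]
  rw [← hrd]
  have h3 : (rd (below K w).asIdeal p).map φ = Polynomial.mapEquiv e (rd (below K w).asIdeal p) := rfl
  rw [h3]
  exact (MulEquiv.irreducible_iff (Polynomial.mapEquiv e)).2 h

end res

section top

variable {F M : Type} [Field F] [NumberField F] [Field M] [NumberField M] [Algebra F M]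

/-- The 2-Selmer group over `M` is zero. -/
theorem selM {f : (𝓞 F)[X]} {J : Finset ℕ} {𝔮 : ℕ → Ideal (𝓞 F)} (H : Dat f J 𝔮)
    (hK : PK F M f J 𝔮) (hQ : DQ F M J 𝔮) (hirr : Irreducible (fb M f)) :
    SelZero ((fo M f).scaleRoots ((Dp J : ℕ) : 𝓞 M)) := by
  obtain ⟨g, W, S, r, Pp, hg, hdeg, hsq, hS, hcg, hJS⟩ := H.dat
  have hmM : (fb M f).Monic := (H.mon.map _).map _
  have hdM : (fb M f).natDegree = f.natDegree := by
    unfold fb fF
    rw [((H.mon.map _).natDegree_map), H.mon.natDegree_map]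
  have hfF : fF (fo M f) = fb M f := (fb_eq M f).symm
  haveI hfact : Fact (Irreducible (fb M f)) := ⟨hirr⟩
  haveI : FiniteDimensional M (AdjoinRoot (fb M f)) := hmM.finite_adjoinRoot
  haveI : CharZero (AdjoinRoot (fb M f)) := charZero_of_injective_algebraMap
    (algebraMap M (AdjoinRoot (fb M f))).injective
  haveI : FiniteDimensional ℚ (AdjoinRoot (fb M f)) :=
    FiniteDimensional.trans ℚ M (AdjoinRoot (fb M f))
  haveI : NumberField (AdjoinRoot (fb M f)) := { }
  obtain ⟨θ, hθ⟩ : ∃ θ : AdjoinRoot (fb M f), θ = AdjoinRoot.root (fb M f) := ⟨_, rfl⟩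
  have hroot : aeval θ (fb M f) = 0 := by
    rw [hθ, aeval_def]
    exact AdjoinRoot.eval₂_root _
  have hrank : Module.finrank M (AdjoinRoot (fb M f)) = f.natDegree := by
    rw [(AdjoinRoot.powerBasis hmM.ne_zero).finrank, AdjoinRoot.powerBasis_dim, hdM]
  have hmin : minpoly M θ = fb M f := (minpoly.eq_of_irreducible_of_monic hirr hroot hmM).symm
  have htop : M⟮θ⟯ = ⊤ := by
    rw [Field.primitive_element_iff_minpoly_natDegree_eq, hmin, hdM, hrank]
  have hc : Cub M f θ := ⟨hroot, htop, hrank⟩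
  have hG : IsGen g (fo M f) θ := hc.isGen H.mon hdeg
  have hqp : ∀ q ∈ S, q.Prime := fun q hq => (hS q hq).1
  obtain ⟨D, hD⟩ : ∃ D : ℕ, D = Dp J := ⟨_, rfl⟩
  rw [← hD]
  have hD0 : D ≠ 0 := by
    rw [hD, Dp, Finset.prod_ne_zero_iff]
    exact fun q hq => (hqp q (hJS hq)).ne_zero
  have hD8 : D % 8 = 1 := by
    rw [hD]
    have : ∀ T : Finset ℕ, T ⊆ S → (∏ q ∈ T, q) % 8 = 1 := by
      intro T
      induction T using Finset.induction_on with
      | empty => intro _; rfl
      | insert a T ha ih =>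
        intro hT
        rw [Finset.prod_insert ha, Nat.mul_mod, ih fun x hx => hT (Finset.mem_insert_of_mem hx),
          (hS a (hT (Finset.mem_insert_self _ _))).2.2.2.1]
    exact this J hJS
  have hDM : (D : M) ≠ 0 := Nat.cast_ne_zero.2 hD0
  have hDL : (D : AdjoinRoot (fb M f)) ≠ 0 := Nat.cast_ne_zero.2 hD0
  have hmo : (fo M f).Monic := H.mon.map _
  have hdo : (fo M f).natDegree = 2 * g + 1 := by rw [H.mon.natDegree_map, hdeg]
  intro h hcop hnorm hloc hreal
  have hsc : fF ((fo M f).scaleRoots (D : 𝓞 M)) = (fb M f).scaleRoots (D : M) := by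
    rw [fF_scale hmo, hfF]
  rw [hsc] at hcop hnorm ⊢
  -- the element
  obtain ⟨h', hh'⟩ : ∃ h' : M[X], h' = h.comp (C (D : M) * X) := ⟨_, rfl⟩
  have hval : aeval θ h' = aeval ((D : AdjoinRoot (fb M f)) * θ) h := by
    rw [hh', aeval_comp, map_mul, aeval_C, aeval_X, map_natCast]
  have hrootD : aeval ((D : AdjoinRoot (fb M f)) * θ) ((fb M f).scaleRoots (D : M)) = 0 := by
    have e1 := scaleRoots_eval₂_mul (p := fb M f) (algebraMap M (AdjoinRoot (fb M f))) θ (D : M)
    have e2 : eval₂ (algebraMap M (AdjoinRoot (fb M f))) θ (fb M f) = 0 := by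
      rw [← aeval_def]
      exact hroot
    rw [e2, mul_zero, map_natCast] at e1
    rw [aeval_def]
    exact e1
  have hne : aeval ((D : AdjoinRoot (fb M f)) * θ) h ≠ 0 := by
    intro h0
    obtain ⟨u, v, huv⟩ := hcop
    have := congrArg (aeval ((D : AdjoinRoot (fb M f)) * θ)) huv
    rw [map_add, map_mul, map_mul, hrootD, h0, mul_zero, mul_zero, add_zero, map_one] at this
    exact zero_ne_one this
  -- the isomorphism
  have hirrD : Irreducible ((fb M f).scaleRoots (D : M)) := Pool.Agent.N170.PF.irr_scale hDM hirr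
  haveI hfact' : Fact (Irreducible ((fb M f).scaleRoots (D : M))) := ⟨hirrD⟩
  have hmD : ((fb M f).scaleRoots (D : M)).Monic := (monic_scaleRoots_iff (D : M)).2 hmM
  haveI : FiniteDimensional M (AdjoinRoot ((fb M f).scaleRoots (D : M))) := hmD.finite_adjoinRoot
  obtain ⟨φ, hφ⟩ : ∃ φ : AdjoinRoot ((fb M f).scaleRoots (D : M)) →ₐ[M] AdjoinRoot (fb M f),
      φ = AdjoinRoot.liftAlgHom _ (Algebra.ofId M _) ((D : AdjoinRoot (fb M f)) * θ) hrootD :=
    ⟨_, rfl⟩
  have hφmk : ∀ p : M[X], φ (AdjoinRoot.mk _ p) = aeval ((D : AdjoinRoot (fb M f)) * θ) p := by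
    intro p
    have h1 := AdjoinRoot.liftAlgHom_mk ((fb M f).scaleRoots (D : M)) (Algebra.ofId M
      (AdjoinRoot (fb M f))) ((D : AdjoinRoot (fb M f)) * θ) hrootD p
    rw [Algebra.toRingHom_ofId, ← Polynomial.aeval_def] at h1
    rw [hφ]
    exact h1
  have hφinj : Function.Injective φ := φ.toRingHom.injective
  have hrk : Module.finrank M (AdjoinRoot ((fb M f).scaleRoots (D : M))) =
      Module.finrank M (AdjoinRoot (fb M f)) := by
    rw [hrank, (AdjoinRoot.powerBasis hmD.ne_zero).finrank, AdjoinRoot.powerBasis_dim,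
      natDegree_scaleRoots, hdM]
  have hφsurj : Function.Surjective φ :=
    (LinearMap.injective_iff_surjective_of_finrank_eq_finrank (f := φ.toLinearMap) hrk).1 hφinj
  obtain ⟨e, he⟩ : ∃ e : AdjoinRoot ((fb M f).scaleRoots (D : M)) ≃ₐ[M] AdjoinRoot (fb M f),
      ∀ x, e x = φ x := ⟨AlgEquiv.ofBijective φ ⟨hφinj, hφsurj⟩, fun _ => rfl⟩
  have hnorm' : IsSquare (Algebra.norm M (aeval ((D : AdjoinRoot (fb M f)) * θ) h)) := by
    rw [← hφmk, ← he, Algebra.norm_eq_of_algEquiv]
    exact hnorm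
  have hsq' : IsSquare (aeval ((D : AdjoinRoot (fb M f)) * θ) h) := by
    rw [← hval] at hne hnorm' ⊢
    refine hK _ θ hroot htop hrank h' hne hnorm' ⟨?_, ?_, ?_, ?_⟩
    · -- even valuations
      intro P c2 cq cu
      have hnat : ∀ n : ℕ, (n : 𝓞 M) ∈ (below M P).asIdeal → (n : 𝓞 (AdjoinRoot (fb M f))) ∈
          P.asIdeal := by
        intro n hn
        have := (mem_below P _).1 hn
        rwa [map_natCast] at this
      have h2w : (2 : 𝓞 M) ∉ (below M P).asIdeal := by
        intro hm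
        have := hnat 2 (by exact_mod_cast hm)
        exact c2 (by exact_mod_cast this)
      have hDw : (D : 𝓞 M) ∉ (below M P).asIdeal := by
        intro hd
        rw [hD, Dp, Nat.cast_prod] at hd
        haveI := (below M P).isPrime
        obtain ⟨q, hq, hqw⟩ := (Ideal.IsPrime.prod_mem_iff).1 hd
        exact cq q hq (hnat q hqw)
      rw [hval]
      refine ev_unit hG (lies_below P) h2w hDw h ?_ (hloc _) (by rw [← hval]; exact hne)
      rw [hfF]
      exact cu
    · -- the primes in `J`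
      intro q hq P hPq v1
      have hb : (below F (below M P)).asIdeal = 𝔮 q := hPq
      have hqS := hJS hq
      obtain ⟨a1, a2, a3, a4, a5, a6, a7, a8, a9, a10, a11, a12, a13, a14, a15⟩ := hS q hqS
      have hdn := hQ q hq _ hb
      obtain ⟨t1, t2, t3⟩ := q_top H hc hq hb hdn v1
      haveI : Finite (𝓞 M ⧸ (below M P).asIdeal) :=
        Ideal.finiteQuotientOfFreeOfNeBot _ (below M P).ne_bot
      haveI : Finite (𝓞 (AdjoinRoot (fb M f)) ⧸ P.asIdeal) :=
        Ideal.finiteQuotientOfFreeOfNeBot _ P.ne_bot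
      have hmemw : ∀ n : ℕ, (n : 𝓞 M) ∈ (below M P).asIdeal → (n : 𝓞 F) ∈ 𝔮 q := by
        intro n hn
        rw [← hb, mem_below, map_natCast]
        exact hn
      have h2q : (2 : 𝓞 F) ∉ 𝔮 q := by
        intro hm
        have h9 : ((q : 𝓞 F)) - 2 * ((q / 2 : ℕ) : 𝓞 F) = 1 := by
          have h10 : q = 2 * (q / 2) + 1 := by omega
          have h11 : (q : 𝓞 F) = 2 * ((q / 2 : ℕ) : 𝓞 F) + 1 := by
            exact_mod_cast congrArg (Nat.cast (R := 𝓞 F)) h10
          rw [h11]
          ring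
        apply a6.ne_top
        rw [Ideal.eq_top_iff_one, ← h9]
        exact Ideal.sub_mem _ a7 (Ideal.mul_mem_right _ _ hm)
      have nat_mem : ∀ p : ℕ, p.Prime → (p : 𝓞 F) ∈ 𝔮 q → p = q := by
        intro p hp hpm
        by_contra hpq
        have hco : Nat.Coprime p q := (Nat.coprime_primes hp a1).2 hpq
        obtain ⟨u, v, huv⟩ := (Nat.isCoprime_iff_coprime.2 hco)
        apply a6.ne_top
        rw [Ideal.eq_top_iff_one]
        have h9 : (1 : 𝓞 F) = (u : 𝓞 F) * (p : 𝓞 F) + (v : 𝓞 F) * (q : 𝓞 F) := by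
          have := congrArg (Int.cast (R := 𝓞 F)) huv
          push_cast at this
          exact this.symm
        rw [h9]
        exact Ideal.add_mem _ (Ideal.mul_mem_left _ _ hpm) (Ideal.mul_mem_left _ _ a7)
      obtain ⟨D', hD'⟩ : ∃ D' : ℕ, D' = ∏ p ∈ J.erase q, p := ⟨_, rfl⟩
      have hDD : D = q * D' := by
        rw [hD, hD']
        exact (Finset.mul_prod_erase J (fun P => P) hq).symm
      have hD'm : (D' : 𝓞 F) ∉ 𝔮 q := by
        intro hd
        rw [hD', Nat.cast_prod] at hd
        haveI := a6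
        obtain ⟨p, hp, hpm⟩ := (Ideal.IsPrime.prod_mem_iff).1 hd
        have hp' := Finset.mem_erase.1 hp
        exact hp'.1 (nat_mem p (hqp p (hJS hp'.2)) hpm)
      have v2 : (below M P).valuation M 2 = 1 := by
        have := val_one (w := below M P) (a := 2) (fun hm => h2q (by
          have := hmemw 2 (by exact_mod_cast hm)
          exact_mod_cast this))
        rwa [two_cast] at this
      have vD' : (below M P).valuation M (D' : M) = 1 := by
        have := val_one (w := below M P) (a := (D' : 𝓞 M)) (fun hm => hD'm (hmemw D' hm))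
        simpa using this
      have s1 : Sq1 P (-1 : AdjoinRoot (fb M f)) := by
        have := t2 (-1) (by
          intro hm
          apply a6.ne_top
          rw [Ideal.eq_top_iff_one]
          have := Ideal.neg_mem_iff _ |>.2 hm
          simpa using this)
        simpa using this
      have s2 : Sq1 P (algebraMap M (AdjoinRoot (fb M f)) (D' : M)) := by
        have := t2 (D' : 𝓞 F) hD'm
        simpa using this
      have hl := hloc (below M P)
      rw [hsc, hDD, Nat.cast_mul] at hl
      have e8 : (D : AdjoinRoot (fb M f)) = algebraMap M (AdjoinRoot (fb M f))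
          ((q : M) * (D' : M)) := by
        rw [hDD]
        simp
      have e9 : (q : AdjoinRoot (fb M f)) = algebraMap M (AdjoinRoot (fb M f)) (q : M) := by simp
      rw [hval]
      rw [hval] at hne
      rw [e8] at hne ⊢
      rw [e9] at t1 ⊢
      refine LOC2 M (AdjoinRoot (fb M f)) (𝓞 M) (𝓞 (AdjoinRoot (fb M f))) (below M P) P
        (lies_below P) v2 g (fb M f) h ((r q).map (algebraMap (𝓞 F) (𝓞 M))) (q : M) (D' : M) θ hg
        hmM (by rw [hdM, hdeg]) (a8.map _) (by rw [a8.natDegree_map, a9]) ?_ ?_ hroot v1 t1 vD' s1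
        s2 hl hne
      · exact irr_dns hdn (by rw [hb]; exact a10)
      · intro j
        have e : (fb M f).coeff j - algebraMap (𝓞 M) M
            ((X * (r q).map (algebraMap (𝓞 F) (𝓞 M))).coeff j) =
            algebraMap (𝓞 M) M (algebraMap (𝓞 F) (𝓞 M) (f.coeff j - (X * r q).coeff j)) := by
          have e1 : X * (r q).map (algebraMap (𝓞 F) (𝓞 M)) = (X * r q).map
              (algebraMap (𝓞 F) (𝓞 M)) := by
            rw [Polynomial.map_mul, map_X]
          rw [e1, fb_eq, coeff_map, coeff_map, coeff_map, map_sub, map_sub]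
        rw [e]
        refine (HeightOneSpectrum.valuation_lt_one_iff_mem (K := M) (below M P) _).2 ?_
        refine (mem_below (K := F) (below M P) _).1 ?_
        rw [hb]
        exact hcg q hqS j
    · -- the primes over two
      intro w hw
      haveI : Fact (Nat.Prime 2) := ⟨Nat.prime_two⟩
      obtain ⟨δ, hδ⟩ := Pool.Agent.N891.PQ.sq_two D hD8
      obtain ⟨ι, hι, -, -⟩ := Pool.Agent.N498.PQ.cpl M 2 w (by
        change ((2 : ℕ) : 𝓞 M) ∈ w.asIdeal
        exact_mod_cast hw)
      haveI : CharZero (w.adicCompletion M) :=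
        charZero_of_injective_algebraMap (algebraMap M (w.adicCompletion M)).injective
      have := map_locF hmo hdo hD0 (ι δ) (by rw [← map_pow, hδ, map_natCast]) h (hloc w)
      rw [hfF, ← hh'] at this
      exact this
    · -- the real places
      intro σ
      letI : Algebra M ℝ := σ.toAlgebra
      have := map_locF (E := ℝ) hmo hdo hD0 (Real.sqrt D) (Real.sq_sqrt (Nat.cast_nonneg D)) h
        (hreal σ)
      rw [hfF, ← hh'] at this
      exact this
  obtain ⟨y, hy⟩ := hsq'
  obtain ⟨z, rfl⟩ := hφsurj y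
  obtain ⟨s, rfl⟩ := AdjoinRoot.mk_surjective z
  refine ⟨s, ?_⟩
  rw [← AdjoinRoot.mk_eq_zero]
  apply hφinj
  rw [map_zero, hφmk, map_sub, map_pow, sub_eq_zero]
  rw [hφmk] at hy
  rw [pow_two]
  exact hy

end top

end Pool.Agent.H459.UF
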