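import Pool.Agent.H459.UF.Step

/-!
# From `K₁` to a quadratic extension `K₂` (helper459)
-/

set_option autoImplicit false
set_option linter.all false

open Polynomial IsDedekindDomain NumberField WithZero
open scoped Classical IntermediateField

namespace Pool.Agent.H459.UF

open Pool.Agent.N874.PP (Ev Sq1 U0)
open Pool.Agent.N874.JM (LocF)
open Pool.Agent.N783.PQ (LocIm)
open Pool.Agent.N783.PF (IsGen rd fF GoodS SqF Cg sp)
open Pool.Agent.N874.PM (ev_down sq_down ev_sq ev_mul)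
open Pool.Agent.N874.QM (locIm_congr locIm_sq locIm_map)

section

variable {F K L : Type} [Field F] [NumberField F] [Field K] [NumberField K] [Field L]
  [NumberField L] [Algebra F K] [Algebra K L] {f : (𝓞 F)[X]} {θ : L}

theorem exists_equiv (hf : f.Monic) (h : Cub K f θ) : ∃ e : AdjoinRoot (fb K f) ≃ₐ[K] L,
    ∀ p : K[X], e (AdjoinRoot.mk (fb K f) p) = aeval θ p := by
  haveI : Fact (Irreducible (fb K f)) := ⟨h.irr hf⟩
  have hm : (fb K f).Monic := (hf.map _).map _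
  obtain ⟨φ, hφ⟩ : ∃ φ : AdjoinRoot (fb K f) →ₐ[K] L,
      φ = AdjoinRoot.liftAlgHom (fb K f) (Algebra.ofId K _) θ h.root := ⟨_, rfl⟩
  have hφmk : ∀ p : K[X], φ (AdjoinRoot.mk (fb K f) p) = aeval θ p := by
    intro p
    have h1 := AdjoinRoot.liftAlgHom_mk (fb K f) (Algebra.ofId K L) θ h.root p
    rw [Algebra.toRingHom_ofId, ← Polynomial.aeval_def] at h1
    rw [hφ]
    exact h1
  have hφinj : Function.Injective φ := φ.toRingHom.injective
  have hφsurj : Function.Surjective φ := by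
    intro x
    obtain ⟨p, rfl⟩ := exists_poly h.top x
    exact ⟨AdjoinRoot.mk _ p, hφmk p⟩
  exact ⟨AlgEquiv.ofBijective φ ⟨hφinj, hφsurj⟩, hφmk⟩

theorem norm_mk (hf : f.Monic) (h : Cub K f θ) (p : K[X]) :
    Algebra.norm K (AdjoinRoot.mk (fb K f) p) = Algebra.norm K (aeval θ p) := by
  obtain ⟨e, he⟩ := exists_equiv hf h
  rw [← he, Algebra.norm_eq_of_algEquiv]

theorem coprime_of_ne (hf : f.Monic) (h : Cub K f θ) {p : K[X]} (hp : aeval θ p ≠ 0) :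
    IsCoprime p (fb K f) := by
  refine IsCoprime.symm (((h.irr hf).coprime_iff_not_dvd).2 fun hd => hp ?_)
  obtain ⟨r, rfl⟩ := hd
  rw [map_mul, h.root, zero_mul]

theorem ne_of_coprime (h : Cub K f θ) {p : K[X]} (hp : IsCoprime p (fb K f)) :
    aeval θ p ≠ 0 := by
  intro h0
  obtain ⟨u, v, huv⟩ := hp
  have := congrArg (aeval θ) huv
  rw [map_add, map_mul, map_mul, h0, h.root, mul_zero, mul_zero, add_zero, map_one] at this
  exact zero_ne_one this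

end

/-- The hypotheses on a quadratic extension. -/
structure Stp {F : Type} (K₁ K₂ : Type) [Field F] [NumberField F] [Field K₁] [NumberField K₁]
    [Field K₂] [NumberField K₂] [Algebra F K₁] [Algebra F K₂] [Algebra K₁ K₂]
    (f : (𝓞 F)[X]) : Prop where
  unr : ∀ v : HeightOneSpectrum (𝓞 K₁), (2 : 𝓞 K₁) ∉ v.asIdeal →
    Unr K₁ K₂ v ∨ Irreducible (rd v.asIdeal (fo K₁ f))
  two : ∀ v : HeightOneSpectrum (𝓞 K₁), (2 : 𝓞 K₁) ∈ v.asIdeal → ∀ p : K₁[X],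
    Irreducible (fb K₁ f) → IsCoprime p (fb K₁ f) → IsSquare (Algebra.norm K₁ (AdjoinRoot.mk (fb K₁ f) p)) →
    (∀ w : HeightOneSpectrum (𝓞 K₂), below K₁ w = v →
      LocF (w.adicCompletion K₂) (fb K₂ f) (p.map (algebraMap K₁ K₂))) →
    LocF (v.adicCompletion K₁) (fb K₁ f) p
  real : ∀ σ : K₁ →+* ℝ, ∀ p : K₁[X], Irreducible (fb K₁ f) →
    IsCoprime p (fb K₁ f) → IsSquare (Algebra.norm K₁ (AdjoinRoot.mk (fb K₁ f) p)) →
    (∀ ρ : K₂ →+* ℝ, ρ.comp (algebraMap K₁ K₂) = σ →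
      LocIm ℝ ((fb K₂ f).map ρ) ((p.map (algebraMap K₁ K₂)).map ρ)) →
    LocIm ℝ ((fb K₁ f).map σ) (p.map σ)

theorem quad {F : Type} {K₁ K₂ : Type} [Field F] [NumberField F] [Field K₁] [NumberField K₁]
    [Field K₂] [NumberField K₂] [Algebra F K₁] [Algebra F K₂] [Algebra K₁ K₂]
    [IsScalarTower F K₁ K₂] {f : (𝓞 F)[X]} {J : Finset ℕ} {𝔮 : ℕ → Ideal (𝓞 F)}
    (H : Dat f J 𝔮) (h2 : Module.finrank K₁ K₂ = 2) (hS : Stp K₁ K₂ f) (hD : DQ F K₂ J 𝔮)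
    (hK : PK F K₁ f J 𝔮) : PK F K₂ f J 𝔮 := by
  intro L₂ _ _ _ θ₂ hroot htop hrank
  have hc₂ : Cub K₂ f θ₂ := ⟨hroot, htop, hrank⟩
  haveI : IsGalois K₁ K₂ := by
    haveI : FiniteDimensional K₁ K₂ := inferInstance
    haveI : Algebra.IsQuadraticExtension K₁ K₂ := ⟨h2⟩
    infer_instance
  letI : Algebra K₁ L₂ := ((algebraMap K₂ L₂).comp (algebraMap K₁ K₂)).toAlgebra
  haveI : IsScalarTower K₁ K₂ L₂ := IsScalarTower.of_algebraMap_eq fun _ => rfl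
  obtain ⟨θ₁, hθ₁, hc₁⟩ := cub_sub (K₁ := K₁) H.mon hc₂
  have hodd := H.odd
  obtain ⟨g, W, S, r, Pp, hg, hdeg, hrest⟩ := H.dat
  have hmin₂ := hc₂.minp H.mon
  have htop' : K₂⟮algebraMap K₁⟮θ₂⟯ L₂ θ₁⟯ = ⊤ := by
    rw [hθ₁]
    exact htop
  intro h hne hN hcnd
  refine Pool.Agent.N301.JM.qs K₁ K₁⟮θ₂⟯ K₂ L₂ two_ne_zero h2 (by rw [hc₁.rank]; exact hodd)
    (by rw [hrank, hc₁.rank]) (fun x => ∃ p : K₂[X], aeval θ₂ p = x ∧ Cnd F f J 𝔮 θ₂ p)
    ?_ ?_ ?_ ?_ _ hne ⟨h, rfl, hcnd⟩ hN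
  · intro x hx
    obtain ⟨p, rfl⟩ := exists_poly htop x
    exact ⟨p ^ 2, map_pow _ _ _, cnd_sq hx⟩
  · rintro x y hx hy ⟨p, rfl, hp⟩ ⟨p', rfl, hp'⟩
    exact ⟨p * p', map_mul _ _ _, cnd_mul H hc₂ hD hx hy hp hp'⟩
  · rintro σ x ⟨p, rfl, hp⟩
    have h1 := cnd_sig (K₁ := K₁) (θ₁ := θ₁) (J := J) (𝔮 := 𝔮) (f := f) σ (p := p) (by
      rw [hθ₁]
      exact hp)
    rw [hθ₁] at h1
    exact h1
  · rintro x hx ⟨p₂, hp₂, hC⟩ hNx
    obtain ⟨p, rfl⟩ := exists_poly hc₁.top x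
    have hC' : Cnd F f J 𝔮 θ₂ (p.map (algebraMap K₁ K₂)) := by
      refine cnd_congr hroot hmin₂ ?_ hC
      rw [hp₂, aeval_map_algebraMap, ← aeval_algebraMap_apply, hθ₁]
    have hval : aeval θ₂ (p.map (algebraMap K₁ K₂)) = algebraMap K₁⟮θ₂⟯ L₂ (aeval θ₁ p) := by
      rw [aeval_map_algebraMap, ← aeval_algebraMap_apply, hθ₁]
    have hbb : ∀ P : HeightOneSpectrum (𝓞 L₂),
        below K₁ (below K₁⟮θ₂⟯ P) = below K₁ (below K₂ P) := by
      intro P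
      ext1
      ext a
      show algebraMap (𝓞 K₁⟮θ₂⟯) (𝓞 L₂) (algebraMap (𝓞 K₁) (𝓞 K₁⟮θ₂⟯) a) ∈ P.asIdeal ↔
        algebraMap (𝓞 K₂) (𝓞 L₂) (algebraMap (𝓞 K₁) (𝓞 K₂) a) ∈ P.asIdeal
      rw [← IsScalarTower.algebraMap_apply, ← IsScalarTower.algebraMap_apply]
    have hcop := coprime_of_ne H.mon hc₁ hx
    have hNp : IsSquare (Algebra.norm K₁ (AdjoinRoot.mk (fb K₁ f) p)) := by
      rw [norm_mk H.mon hc₁]
      exact hNx
    have hη : aeval θ₂ (derivative (fb K₂ f)) =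
        algebraMap K₁⟮θ₂⟯ L₂ (aeval θ₁ (derivative (fb K₁ f))) := by
      rw [← fb_map K₁ K₂ f, derivative_map, aeval_map_algebraMap, ← aeval_algebraMap_apply, hθ₁]
    refine hK K₁⟮θ₂⟯ θ₁ hc₁.root hc₁.top hc₁.rank p hx hNx ⟨?_, ?_, ?_, ?_⟩
    · intro P h1 h3 h4
      have h1' : (2 : 𝓞 K₁) ∉ (below K₁ P).asIdeal := by
        intro hm
        have := (mem_below P _).1 hm
        rw [map_ofNat] at this
        exact h1 this
      rcases hS.unr (below K₁ P) h1' with hu | hirr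
      · obtain ⟨P₂, rfl⟩ := exists_above (K := K₁⟮θ₂⟯) L₂ P
        obtain ⟨e, he, hv⟩ := val_pow (K := K₁⟮θ₂⟯) P₂
        have hη2 : P₂.valuation L₂ (algebraMap K₁⟮θ₂⟯ L₂ (aeval θ₁ (derivative (fb K₁ f)))) = 1 := by
          rw [hv, h4, one_pow]
        have hagr : Agr K₁⟮θ₂⟯ P₂ := by
          refine agr_top (K₁ := K₁) (K₂ := K₂) (f := fo K₁ f) (H.mon.map _) hc₁.top ?_ htop' ?_ ?_
          · rw [← fb_eq]
            exact hc₁.root
          · rw [← hbb]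
            exact hu
          · rw [← fb_eq]
            exact hη2
        refine (ev_down hagr _).1 ?_
        rw [← hval]
        have hnat : ∀ n : ℕ, (n : 𝓞 L₂) ∈ P₂.asIdeal → (n : 𝓞 K₁⟮θ₂⟯) ∈ (below K₁⟮θ₂⟯ P₂).asIdeal := by
          intro n hn
          rw [mem_below, map_natCast]
          exact hn
        refine hC'.ev P₂ (fun hm => h1 ?_) (fun q hq hm => h3 q hq (hnat q hm)) ?_
        · have := hnat 2 (by exact_mod_cast hm)
          exact_mod_cast this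
        · rw [hη]
          exact hη2
      · exact pin (hc₁.isGen H.mon hdeg) (below K₁ P).isPrime (below K₁ P).ne_bot hirr hx hNx
          (fun a ha => (mem_below P a).1 ha)
    · intro q hq P h1 h3
      obtain ⟨P₂, rfl⟩ := exists_above (K := K₁⟮θ₂⟯) L₂ P
      have hb2 : (below F (below K₂ P₂)).asIdeal = 𝔮 q := by
        have h1' : (below F (below K₁ (below K₁⟮θ₂⟯ P₂))).asIdeal = 𝔮 q := h1
        rw [hbb, below_below] at h1'
        exact h1'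
      have hdn : Dns K₁ (below K₂ P₂) := dns_up (hD q hq _ hb2)
      have hdL : Dns K₁⟮θ₂⟯ P₂ :=
        dns_base (K₁ := K₁) (K₂ := K₂) (θ₁ := θ₁) (hc₁.int H.mon) htop' hdn
      have hagr := agr_of_dns hdL
      have hd : ∀ s : L₂, s ≠ 0 → ∃ s₀ : K₁⟮θ₂⟯,
          P₂.valuation L₂ (s - algebraMap K₁⟮θ₂⟯ L₂ s₀) < P₂.valuation L₂ s := by
        intro s hs
        obtain ⟨a, ha⟩ : ∃ a : ℤ, P₂.valuation L₂ s = WithZero.exp a :=
          ⟨WithZero.log _, (WithZero.exp_log ((Valuation.ne_zero_iff _).2 hs)).symm⟩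
        obtain ⟨s₀, hs₀⟩ := hdL s ((-a + 1).toNat)
        refine ⟨s₀, lt_of_le_of_lt hs₀ ?_⟩
        rw [ha]
        refine exp_lt ?_
        omega
      have hu := hC'.u0 q hq P₂ hb2 (by
        rw [← hθ₁, hagr]
        exact h3)
      rw [hval] at hu
      refine ⟨fun h4 => sq_down hagr hd (hu.1 ((ev_down hagr _).2 h4)), fun h4 => ?_⟩
      have h5 := hu.2 fun h6 => h4 ((ev_down hagr _).1 h6)
      have e : algebraMap K₁⟮θ₂⟯ L₂ (aeval θ₁ p) * ((q : L₂) * θ₂) =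
          algebraMap K₁⟮θ₂⟯ L₂ (aeval θ₁ p * ((q : K₁⟮θ₂⟯) * θ₁)) := by
        rw [map_mul, map_mul, map_natCast, hθ₁]
      rw [e] at h5
      exact sq_down hagr hd h5
    · intro v hv
      refine hS.two v hv p (hc₁.irr H.mon) hcop hNp fun w hw => ?_
      refine hC'.two w ?_
      have h1 : (2 : 𝓞 K₁) ∈ (below K₁ w).asIdeal := by
        rw [hw]
        exact hv
      have := (mem_below w _).1 h1
      rwa [map_ofNat] at this
    · intro σ
      exact hS.real σ p (hc₁.irr H.mon) hcop hNp fun ρ hρ => hC'.real ρ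

end Pool.Agent.H459.UF
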