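import Pool.Agent.H459.UF.IrrQ

/-!
# Galois extensions of 2-power degree (helper459)
-/

set_option autoImplicit false
set_option linter.all false

open Polynomial IsDedekindDomain NumberField WithZero
open scoped Classical IntermediateField ComplexConjugate

namespace Pool.Agent.H459.UF

open Pool.Agent.N874.JM (LocF)
open Pool.Agent.N783.PQ (LocIm)
open Pool.Agent.N783.PF (rd fF)
open Pool.Agent.N874.QM (locIm_congr locIm_sq locIm_map)

section two

variable {F K₁ K₂ : Type} [Field F] [NumberField F] [Field K₁] [NumberField K₁] [Field K₂]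
  [NumberField K₂] [Algebra F K₁] [Algebra F K₂] [Algebra K₁ K₂] [IsScalarTower F K₁ K₂]

theorem two_of_dns {f : (𝓞 F)[X]} {p : K₁[X]} {w : HeightOneSpectrum (𝓞 K₂)} (hd : Dns K₁ w)
    (h : LocF (w.adicCompletion K₂) (fb K₂ f) (p.map (algebraMap K₁ K₂))) :
    LocF ((below K₁ w).adicCompletion K₁) (fb K₁ f) p := by
  obtain ⟨j, hj⟩ := cpl_surj hd
  have h1 := locIm_map j (show LocIm (w.adicCompletion K₂) _ _ from h)
  have e1 : ∀ r : K₁[X], ((r.map (algebraMap K₁ K₂)).map
      (algebraMap K₂ (w.adicCompletion K₂))).map j =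
      r.map (algebraMap K₁ ((below K₁ w).adicCompletion K₁)) := by
    intro r
    rw [Polynomial.map_map, Polynomial.map_map]
    congr 1
    exact RingHom.ext hj
  rw [e1, ← fb_map K₁ K₂ f, e1] at h1
  exact h1

end two

/-- One real root. -/
def One {F : Type} [Field F] [NumberField F] (f : (𝓞 F)[X]) (σ : F →+* ℝ) : Prop :=
  ∃ (e : ℝ) (z : ℂ), z.im ≠ 0 ∧ ((fF f).map σ).eval e = 0 ∧
    (((fF f).map σ).map (algebraMap ℝ ℂ)).eval z = 0

/-- The conditions on a Galois extension `M` of `K`. -/
structure TC (F K M : Type) [Field F] [NumberField F] [Field K] [NumberField K] [Field M]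
    [NumberField M] [Algebra F K] [Algebra K M] [Algebra F M] (f : (𝓞 F)[X]) (J : Finset ℕ)
    (𝔮 : ℕ → Ideal (𝓞 F)) : Prop where
  unr : ∀ v : HeightOneSpectrum (𝓞 K), (2 : 𝓞 K) ∉ v.asIdeal →
    Unr K M v ∨ Irreducible (rd v.asIdeal (fo K f))
  two : ∀ w : HeightOneSpectrum (𝓞 M), (2 : 𝓞 M) ∈ w.asIdeal → Dns K w
  q : DQ F M J 𝔮
  real : ∀ σ : K →+* ℝ, (∃ ρ : M →+* ℝ, ρ.comp (algebraMap K M) = σ) ∨
    One f (σ.comp (algebraMap F K))

section tow

variable {F K M : Type} [Field F] [NumberField F] [Field K] [NumberField K] [Field M]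
  [NumberField M] [Algebra F K] [Algebra K M] [Algebra F M] [IsScalarTower F K M]
  {f : (𝓞 F)[X]} {J : Finset ℕ} {𝔮 : ℕ → Ideal (𝓞 F)}

/-- Transport along an isomorphism. -/
theorem pk_iso (hs : Function.Surjective (algebraMap K M)) (h : PK F K f J 𝔮) :
    PK F M f J 𝔮 := by
  intro L _ _ _ θ hroot htop hrank
  letI : Algebra K L := ((algebraMap M L).comp (algebraMap K M)).toAlgebra
  haveI : IsScalarTower K M L := IsScalarTower.of_algebraMap_eq fun _ => rfl
  have h1 : Module.finrank K M = 1 := by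
    have e : K ≃ₐ[K] M := AlgEquiv.ofBijective (Algebra.ofId K M)
      ⟨(algebraMap K M).injective, hs⟩
    rw [← e.toLinearEquiv.finrank_eq, Module.finrank_self]
  intro p hne hN hC
  obtain ⟨p₀, rfl⟩ := Polynomial.map_surjective _ hs p
  rw [aeval_map_algebraMap] at hne hN ⊢
  have hroot' : aeval θ (fb K f) = 0 := by
    rw [← fb_map K M f, aeval_map_algebraMap] at hroot
    exact hroot
  have htop' : K⟮θ⟯ = ⊤ := by
    rw [eq_top_iff]
    intro x _
    obtain ⟨r, rfl⟩ := exists_poly htop x
    obtain ⟨r₀, rfl⟩ := Polynomial.map_surjective _ hs r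
    rw [aeval_map_algebraMap]
    exact IntermediateField.algebra_adjoin_le_adjoin K {θ}
      (Polynomial.aeval_mem_adjoin_singleton K θ)
  have hrank' : Module.finrank K L = f.natDegree := by
    rw [← Module.finrank_mul_finrank K M L, h1, hrank, one_mul]
  have hN' : IsSquare (Algebra.norm K (aeval θ p₀)) := by
    rw [← Algebra.norm_norm (S := M)]
    exact hN.map _
  refine h L θ hroot' htop' hrank' p₀ hne hN' ⟨?_, ?_, ?_, ?_⟩
  · intro P h2 h3 h4
    have h5 := hC.ev P h2 h3 (by
      rw [← fb_map K M f, derivative_map, aeval_map_algebraMap]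
      exact h4)
    rwa [aeval_map_algebraMap] at h5
  · intro q hq P h2 h3
    have h5 := hC.u0 q hq P (by
      have hbb : below F (below M P) = below F (below K P) := by
        ext1
        ext a
        show algebraMap (𝓞 M) (𝓞 L) (algebraMap (𝓞 F) (𝓞 M) a) ∈ P.asIdeal ↔
          algebraMap (𝓞 K) (𝓞 L) (algebraMap (𝓞 F) (𝓞 K) a) ∈ P.asIdeal
        rw [IsScalarTower.algebraMap_apply (𝓞 K) (𝓞 M) (𝓞 L),
          ← IsScalarTower.algebraMap_apply (𝓞 F) (𝓞 K) (𝓞 M)]
      rw [hbb]
      exact h2) h3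
    rwa [aeval_map_algebraMap] at h5
  · intro v hv
    obtain ⟨w, rfl⟩ := exists_above (K := K) M v
    refine two_of_dns (F := F) (K₂ := M) (dns_of_surj hs w) (hC.two w ?_)
    have h2 := (mem_below w _).1 hv
    rwa [map_ofNat] at h2
  · intro σ
    let e : K ≃+* M := RingEquiv.ofBijective (algebraMap K M) ⟨(algebraMap K M).injective, hs⟩
    have h2 := hC.real (σ.comp (e.symm : M →+* K))
    have e1 : ∀ r : K[X], (r.map (algebraMap K M)).map (σ.comp (e.symm : M →+* K)) = r.map σ := by
      intro r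
      rw [Polynomial.map_map]
      congr 1
      refine RingHom.ext fun x => ?_
      show σ (e.symm (e x)) = σ x
      rw [e.symm_apply_apply]
    rw [← fb_map K M f, e1, e1] at h2
    exact h2

end tow

section real

variable {K K₁ M : Type} [Field K] [NumberField K] [Field K₁] [NumberField K₁] [Field M]
  [NumberField M] [Algebra K K₁] [Algebra K₁ M] [Algebra K M] [IsScalarTower K K₁ M]

theorem ext_real [IsGalois K M] (ρ : M →+* ℝ) (σ : K₁ →+* ℝ)
    (h : ρ.comp (algebraMap K M) = σ.comp (algebraMap K K₁)) :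
    ∃ ρ' : M →+* ℝ, ρ'.comp (algebraMap K₁ M) = σ := by
  letI : Algebra K₁ ℂ := ((algebraMap ℝ ℂ).comp σ).toAlgebra
  have τ : M →ₐ[K₁] ℂ := IsAlgClosed.lift
  have hτ : ∀ x : K₁, τ (algebraMap K₁ M x) = algebraMap ℝ ℂ (σ x) := fun x => τ.commutes x
  obtain ⟨g, hg⟩ := NumberField.ComplexEmbedding.exists_comp_symm_eq_of_comp_eq (k := K)
    ((algebraMap ℝ ℂ).comp ρ) (τ : M →+* ℂ) (by
      refine RingHom.ext fun x => ?_
      show algebraMap ℝ ℂ (ρ (algebraMap K M x)) = τ (algebraMap K M x)
      rw [IsScalarTower.algebraMap_apply K K₁ M, hτ, ← IsScalarTower.algebraMap_apply K K₁ M]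
      exact congrArg (algebraMap ℝ ℂ) (congrFun (congrArg DFunLike.coe h) x))
  refine ⟨ρ.comp (g.symm : M →+* M), RingHom.ext fun x => ?_⟩
  have h1 := congrFun (congrArg DFunLike.coe hg) (algebraMap K₁ M x)
  have h2 : algebraMap ℝ ℂ (ρ (g.symm (algebraMap K₁ M x))) = algebraMap ℝ ℂ (σ x) :=
    h1.trans (hτ x)
  exact (algebraMap ℝ ℂ).injective h2

end real

/-- The tower. -/
theorem tower {F : Type} [Field F] [NumberField F] {f : (𝓞 F)[X]} {J : Finset ℕ}
    {𝔮 : ℕ → Ideal (𝓞 F)} (H : Dat f J 𝔮) (hd : f.natDegree = 3) : ∀ (n : ℕ) (K M : Type)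
    [Field K] [NumberField K] [Field M] [NumberField M] [Algebra F K] [Algebra K M] [Algebra F M]
    [IsScalarTower F K M] [IsGalois K M], Module.finrank K M = 2 ^ n → TC F K M f J 𝔮 →
    PK F K f J 𝔮 → PK F M f J 𝔮 := by
  intro n
  induction n with
  | zero =>
    intro K M _ _ _ _ _ _ _ _ _ hn hT hK
    refine pk_iso (K := K) ?_ hK
    intro z
    have h6 : z ∈ (⊥ : Subalgebra K M) := by
      rw [Subalgebra.bot_eq_top_of_finrank_eq_one (by rw [hn, pow_zero])]
      exact Algebra.mem_top
    exact Algebra.mem_bot.1 h6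
  | succ n ih =>
    intro K M _ _ _ _ _ _ _ _ _ hn hT hK
    have hcard : Nat.card (M ≃ₐ[K] M) = 2 ^ (n + 1) := by
      rw [IsGalois.card_aut_eq_finrank, hn]
    obtain ⟨G, hG⟩ := Sylow.exists_subgroup_card_pow_prime (G := M ≃ₐ[K] M) 2 (n := n)
      (by rw [hcard]; exact pow_dvd_pow 2 (Nat.le_succ n))
    set K₁ := IntermediateField.fixedField G with hK₁
    have d1 : Module.finrank K₁ M = 2 ^ n := by
      rw [IntermediateField.finrank_fixedField_eq_card, hG]
    clear_value K₁
    have d2 : Module.finrank K K₁ = 2 := by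
      have h4 := Module.finrank_mul_finrank K K₁ M
      rw [hn, d1, pow_succ, mul_comm] at h4
      exact Nat.eq_of_mul_eq_mul_left (by positivity) h4
    haveI : IsScalarTower F K K₁ := inferInstance
    haveI : IsScalarTower F K₁ M := IsScalarTower.of_algebraMap_eq fun x => by
      rw [IsScalarTower.algebraMap_apply F K K₁, ← IsScalarTower.algebraMap_apply K K₁ M,
        ← IsScalarTower.algebraMap_apply F K M]
    have hfbdeg : (fb K f).natDegree = 3 := by
      unfold fb fF
      rw [((H.mon.map _).natDegree_map), H.mon.natDegree_map, hd]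
    have hone : ∀ σ : K →+* ℝ, (fb K f).map σ = (fF f).map (σ.comp (algebraMap F K)) := by
      intro σ
      unfold fb
      rw [Polynomial.map_map]
    have hDQ : DQ F K₁ J 𝔮 := by
      intro q hq w hw
      obtain ⟨w', rfl⟩ := exists_above (K := K₁) M w
      refine dns_down (hT.q q hq w' ?_)
      rw [← hw, below_below]
    have hS : Stp K K₁ f := by
      refine ⟨?_, ?_, ?_⟩
      · intro v hv
        rcases hT.unr v hv with h | h
        · exact Or.inl (unr_down h)
        · exact Or.inr h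
      · intro v hv p _ _ _ hp
        obtain ⟨w, rfl⟩ := exists_above (K := K) K₁ v
        obtain ⟨w', rfl⟩ := exists_above (K := K₁) M w
        refine two_of_dns (F := F) (K₂ := K₁) (dns_down (hT.two w' ?_)) (hp _ rfl)
        have h2 := (mem_below _ _).1 ((mem_below _ _).1 hv)
        rwa [map_ofNat, map_ofNat] at h2
      · intro σ p hirr hc hN hp
        rcases hT.real σ with ⟨ρ, hρ⟩ | ⟨e, z, h1, h2, h3⟩
        · have h4 := hp (ρ.comp (algebraMap K₁ M)) (by
            rw [RingHom.comp_assoc, ← IsScalarTower.algebraMap_eq, hρ])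
          have e1 : ∀ r : K[X], (r.map (algebraMap K K₁)).map (ρ.comp (algebraMap K₁ M)) =
              r.map σ := by
            intro r
            rw [Polynomial.map_map, RingHom.comp_assoc, ← IsScalarTower.algebraMap_eq, hρ]
          rw [← fb_map K K₁ f, e1, e1] at h4
          exact h4
        · rw [← hone] at h2 h3
          exact real_one ((H.mon.map _).map _) hirr hfbdeg σ h1 h2 h3 hc hN
    have hK1 := quad H d2 hS hDQ hK
    refine ih K₁ M d1 ⟨?_, ?_, hT.q, ?_⟩ hK1
    · intro w hw
      rcases hT.unr (below K w) (fun h => hw (by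
        have := (mem_below w _).1 h
        rwa [map_ofNat] at this)) with h | h
      · exact Or.inl (unr_up h)
      · exact Or.inr (irr_quad H.mon hd d2.le w h)
    · intro w hw
      exact dns_up (hT.two w hw)
    · intro σ
      rcases hT.real (σ.comp (algebraMap K K₁)) with ⟨ρ, hρ⟩ | h
      · exact Or.inl (ext_real ρ σ hρ)
      · refine Or.inr ?_
        rw [RingHom.comp_assoc, ← IsScalarTower.algebraMap_eq] at h
        exact h

end Pool.Agent.H459.UF
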