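import Pool.Graph.R_pool_sql_team_seeded_63374d34.N951.PF.Fam
import Pool.Graph.R_pool_sql_team_seeded_63374d34.N352.PF.SML

/-!
# Many polynomials in the family, with prescribed conditions at the small primes and signs
# (helper459)

After `N951/PF/Fam.lean` of helper951 and `N352/PF/SML.lean` of helper99.
-/

set_option autoImplicit false
set_option linter.all false

open Polynomial NumberField IsDedekindDomain
open scoped Classical

namespace Pool.Agent.H459.UF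

section sml

open Pool.Agent.N352.PF Pool.Agent.N352.PF.SML99
open Pool.Agent.N352.PJ (dd pol dis Dy D2)

theorem smlR (h1 : S_CU) (h2 : S_BX) (h3 : S_LD) (h4 : S_PR) (h5 : S_PF) (F : Type) [Field F]
    [NumberField F] (g R : ℕ) (hg : 1 ≤ g) (hR : 1 ≤ R) : ∃ M C : ℕ, 1 ≤ C ∧
    ∀ (B W : ℕ) (A : Fin (2 * g) → 𝓞 F), 0 < W → C * W ≤ B →
    R * {a ∈ Bx g B W A | ∃ v : HeightOneSpectrum (𝓞 F), M < nv v ∧ nv v ^ 2 < B ^ dg F ∧
      (W : 𝓞 F) ∉ v.asIdeal ∧ dis a ∈ v.asIdeal ^ 2}.ncard ≤ (Bx g B W A).ncard := by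
  have hR0 : (0 : ℝ) < R := by exact_mod_cast hR
  obtain ⟨C, hC⟩ := h1 F
  obtain ⟨C₂, h1C, hC2⟩ := h2 F g
  obtain ⟨h51, h52, h53⟩ := h5 F
  set K : ℕ := cc g * (2 * C) ^ (2 * g) * C₂ with hK
  have hε : (0 : ℝ) < 1 / (R * ((K : ℝ) + 1)) := by positivity
  obtain ⟨M₀, hM₀⟩ := h4 F _ hε
  set M : ℕ := max M₀ ((2 * g + 1).factorial ^ dg F) with hM
  refine ⟨M, C₂, h1C, fun B W A hW hWB => ?_⟩
  set U : Set (Fin (2 * g) → 𝓞 F) := {a ∈ Bx g B W A | ∃ v : HeightOneSpectrum (𝓞 F), M < nv v ∧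
    nv v ^ 2 < B ^ dg F ∧ (W : 𝓞 F) ∉ v.asIdeal ∧ dis a ∈ v.asIdeal ^ 2} with hU
  have hBf : (Bx g B W A).Finite := (hC2 B W A hW hWB).1
  set X : ℕ := (Bx g B W A).ncard with hX
  set I : Finset (HeightOneSpectrum (𝓞 F)) := (h51 (B ^ dg F)).toFinset.filter
    (fun v => M < nv v ∧ nv v ^ 2 < B ^ dg F ∧ (W : 𝓞 F) ∉ v.asIdeal) with hI
  have hVf : ∀ v : HeightOneSpectrum (𝓞 F), {a ∈ Bx g B W A | dis a ∈ v.asIdeal ^ 2}.Finite :=
    fun v => hBf.subset fun a ha => ha.1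
  have hsub : U ⊆ ↑(I.biUnion fun v => (hVf v).toFinset) := by
    rintro a ⟨ha, v, hMv, hvB, hvW, hd⟩
    simp only [Finset.coe_biUnion, Set.mem_iUnion, Finset.mem_coe]
    refine ⟨v, ?_, ?_⟩
    · rw [hI, Finset.mem_filter, Set.Finite.mem_toFinset]
      refine ⟨?_, hMv, hvB, hvW⟩
      have : nv v ≤ nv v ^ 2 := Nat.le_self_pow (by norm_num) _
      show nv v ≤ B ^ dg F
      exact this.trans hvB.le
    · rw [Set.Finite.mem_toFinset]
      exact ⟨ha, hd⟩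
  have hU1 : U.ncard ≤ ∑ v ∈ I, {a ∈ Bx g B W A | dis a ∈ v.asIdeal ^ 2}.ncard := by
    have h3 := Set.ncard_le_ncard hsub (Finset.finite_toSet _)
    rw [Set.ncard_coe_finset] at h3
    refine h3.trans (Finset.card_biUnion_le.trans (Finset.sum_le_sum fun v _ => ?_))
    rw [Set.ncard_eq_toFinset_card _ (hVf v)]
  have hU2 : (U.ncard : ℝ) ≤ K * X * (1 / (R * ((K : ℝ) + 1))) := by
    calc (U.ncard : ℝ) ≤ ∑ v ∈ I, ({a ∈ Bx g B W A | dis a ∈ v.asIdeal ^ 2}.ncard : ℝ) := by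
          exact_mod_cast hU1
      _ ≤ ∑ v ∈ I, (K * X : ℝ) * (1 / ((nv v : ℝ) ^ 2)) := by
          refine Finset.sum_le_sum fun v hv => ?_
          rw [hI, Finset.mem_filter] at hv
          obtain ⟨_, hMv, hvB, hvW⟩ := hv
          have hv2 : 2 ≤ nv v := h53 v
          have hfac : ((2 * g + 1).factorial : 𝓞 F) ∉ v.asIdeal := by
            intro hcon
            have h6 := h52 v _ (Nat.factorial_pos _) hcon
            have h7 : (2 * g + 1).factorial ^ dg F ≤ M := le_max_right _ _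
            omega
          have h4 := one_prime hC hg hC2 h3 A h1C hW hWB (v := v) (by omega) hfac hvB hvW
          have h5 : ({a ∈ Bx g B W A | dis a ∈ v.asIdeal ^ 2}.ncard : ℝ) * (nv v : ℝ) ^ 2 ≤
              K * X := by
            rw [hK, hX]
            exact_mod_cast h4
          have h6 : (0 : ℝ) < (nv v : ℝ) ^ 2 := by
            have : 0 < nv v := by omega
            positivity
          rw [mul_one_div, le_div_iff₀ h6]
          exact h5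
      _ = (K * X : ℝ) * ∑ v ∈ I, (1 / ((nv v : ℝ) ^ 2)) := by
          rw [Finset.mul_sum]
      _ ≤ K * X * (1 / (R * ((K : ℝ) + 1))) := by
          refine mul_le_mul_of_nonneg_left ?_ (by positivity)
          apply hM₀ I
          intro v hv
          rw [hI, Finset.mem_filter] at hv
          exact lt_of_le_of_lt (le_max_left _ _) hv.2.1
  have hfin : (R : ℝ) * (U.ncard : ℝ) ≤ X := by
    have hX0 : (0 : ℝ) ≤ X := by positivity
    have hK0 : (0 : ℝ) ≤ K := by positivity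
    calc (R : ℝ) * (U.ncard : ℝ) ≤ R * (K * X * (1 / (R * ((K : ℝ) + 1)))) :=
          mul_le_mul_of_nonneg_left hU2 hR0.le
      _ = (K / ((K : ℝ) + 1)) * X := by field_simp
      _ ≤ 1 * X := by
          refine mul_le_mul_of_nonneg_right ?_ hX0
          rw [div_le_one (by positivity)]
          linarith
      _ = X := one_mul _
  exact_mod_cast hfin


end sml

open Pool.Agent.N352.PJ (dd pol dis Dy D2)
open Pool.Agent.N352.PF (dg Bal nv rv Bz Bx S_BX S_SML S_WK S_STR S_DSC S_GF S_PF S_CU S_LD S_PR)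
open Pool.Agent.N783.PF (Bd Cg sp rd Ht GoodS GoodF Fam S_FAM)
open Pool.Agent.N951.PF

/-- Many polynomials in the family, for every choice of the conditions at the small primes, with
a condition `Pr` on the coefficients which holds for a positive proportion. -/
theorem famP (hCU : S_CU) (hLD : S_LD) (hPR : S_PR) (h1 : S_BX) (h3 : S_WK) (h4 : S_STR)
    (h5 : S_DSC) (h7 : S_PF) (F : Type) [Field F] [NumberField F] (g : ℕ) (hg : 1 ≤ g)
    (Pr : (Fin (2 * g) → 𝓞 F) → Prop) (R₀ C₃ : ℕ) (hR₀ : 1 ≤ R₀)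
    (hPr : ∀ (B W : ℕ) (A : Fin (2 * g) → 𝓞 F), 0 < W → C₃ * W ≤ B →
      (Bx g B W A).ncard ≤ R₀ * {a ∈ Bx g B W A | Pr a}.ncard) : ∃ M₀ : ℕ,
    ∀ (W : ℕ) (f₁ : (𝓞 F)[X]), GoodF g W f₁ → (∀ p : ℕ, p.Prime → p ≤ M₀ → p ∣ W) →
    ∃ c : ℝ, 0 < c ∧ ∀ (S : Finset ℕ) (𝔮 : ℕ → Ideal (𝓞 F)) (h P : ℕ → (𝓞 F)[X]),
    GoodS g W S 𝔮 h P → ∃ B₀ : ℕ, ∀ B ≥ B₀,
    c * (B : ℝ) ^ (Module.finrank ℚ F * dd g) ≤
      (((∏ q ∈ S, q ^ (2 * g)) ^ Module.finrank ℚ F : ℕ) : ℝ) *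
      ({f : (𝓞 F)[X] | Fam g B W f₁ S P f ∧ Pr (fun j => f.coeff j)}.ncard : ℝ) := by
  obtain ⟨M, C₂, hC₂, hM⟩ := smlR hCU h1 hLD hPR h7 F g (4 * R₀) hg (by omega)
  obtain ⟨C₁, hC₁, hBX⟩ := h1 F g
  refine ⟨max M (2 * g + 1), fun W f₁ hgood hW => ?_⟩
  obtain ⟨hmon, hdeg, htr, hW0, htwo, hirr, hsep0⟩ := id hgood
  have hsep : ∀ v : HeightOneSpectrum (𝓞 F), (W : 𝓞 F) ∈ v.asIdeal → (rd v.asIdeal f₁).Separable :=
    fun v hv => hsep0 v.asIdeal v.isPrime hv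
  have hne : ∀ (𝔭 : Ideal (𝓞 F)) (n : ℕ), 0 < n → (n : 𝓞 F) ∈ 𝔭 → 𝔭 ≠ ⊥ := by
    intro 𝔭 n hn hm h0
    rw [h0, Ideal.mem_bot] at hm
    have : n = 0 := by exact_mod_cast hm
    omega
  have hR0 : (0 : ℝ) < R₀ := by exact_mod_cast hR₀
  refine ⟨1 / (2 * R₀ * C₁ * (W : ℝ) ^ (2 * g * dg F)), by positivity,
    fun S 𝔮 h P hS => ?_⟩
  obtain ⟨Q, hQ⟩ : ∃ Q : ℕ, Q = ∏ q ∈ S, q := ⟨_, rfl⟩
  have hQ0 : 0 < Q := by
    rw [hQ]
    exact Finset.prod_pos fun q hq => (hS q hq).1.pos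
  have hWQ : 0 < W * Q := Nat.mul_pos hW0 hQ0
  -- residues
  have hcrt : ∀ j : Fin (2 * g), ∃ x : 𝓞 F, (W : 𝓞 F) ∣ x - f₁.coeff j ∧
      ∀ q ∈ S, (q : 𝓞 F) ∣ x - (P q).coeff j := fun j =>
    crt W S (fun q hq => ⟨(hS q hq).1, fun hd =>
      absurd (Nat.le_of_dvd hW0 hd) (by have := (hS q hq).2.1; omega)⟩) _ _
  choose A hA1 hA2 using hcrt
  obtain ⟨B₁, hB₁⟩ := h4 F g hg (1 / (4 * R₀ * C₁ * ((W * Q : ℕ) : ℝ) ^ (2 * g * dg F)))
    (by positivity)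
  refine ⟨max (C₃ * (W * Q)) (max B₁ (max (C₁ * (W * Q)) (C₂ * (W * Q)))), fun B hB' => ?_⟩
  have hBC3 : C₃ * (W * Q) ≤ B := (le_max_left _ _).trans hB'
  have hB := (le_max_right _ _).trans hB'
  have hBB1 : B₁ ≤ B := (le_max_left _ _).trans hB
  have hBC1 : C₁ * (W * Q) ≤ B := ((le_max_left _ _).trans (le_max_right _ _)).trans hB
  have hBC2 : C₂ * (W * Q) ≤ B := ((le_max_right _ _).trans (le_max_right _ _)).trans hB
  obtain ⟨hfin, hcard, -⟩ := hBX B (W * Q) A hWQ hBC1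
  obtain ⟨hfin0, -, -⟩ := hBX B 1 (fun _ => 0) one_pos
    (le_trans (Nat.mul_le_mul_left C₁ hWQ) hBC1)
  have hBz : (Bz F g B).Finite := by
    refine hfin0.subset ?_
    intro a ha
    exact ⟨ha, fun j => by simp⟩
  have hsml := hM B (W * Q) A hWQ hBC2
  have hstr := hB₁ B hBB1
  set U := Bx g B (W * Q) A with hU
  set Up := {a ∈ U | Pr a} with hUp
  have hUpc : U.ncard ≤ R₀ * Up.ncard := hPr B (W * Q) A hWQ hBC3
  set U1 := {a ∈ U | ∃ v : HeightOneSpectrum (𝓞 F), M < nv v ∧ nv v ^ 2 < B ^ dg F ∧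
    ((W * Q : ℕ) : 𝓞 F) ∉ v.asIdeal ∧ dis a ∈ v.asIdeal ^ 2} with hU1
  set U2 := {a ∈ Bz F g B | ∃ v : HeightOneSpectrum (𝓞 F), B ^ dg F ≤ nv v ^ 2 ∧
    dis a ∈ v.asIdeal ∧ D2 a ∈ v.asIdeal} with hU2
  have hU1f : U1.Finite := hfin.subset (Set.sep_subset _ _)
  have hU2f : U2.Finite := hBz.subset (Set.sep_subset _ _)
  -- the good ones are in the family
  have key : pol '' (Up \ (U1 ∪ U2)) ⊆
      {f : (𝓞 F)[X] | Fam g B W f₁ S P f ∧ Pr (fun j => f.coeff j)} := by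
    rintro _ ⟨a, ⟨⟨haU, haP⟩, ha⟩, rfl⟩
    have haB : a ∈ Bz F g B := haU.1
    have haR : ∀ j, ((W * Q : ℕ) : 𝓞 F) ∣ a j - A j := haU.2
    have hone : Cg (sp F W) (pol a) f₁ := by
      apply cg_pol a hmon hdeg htr
      intro j
      rw [Ideal.mem_span_singleton]
      have e1 : (W : 𝓞 F) ∣ a j - A j := dvd_trans (by push_cast; exact dvd_mul_right _ _) (haR j)
      have e2 : a j - f₁.coeff j = (a j - A j) + (A j - f₁.coeff j) := by ring
      rw [e2]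
      exact dvd_add e1 (hA1 j)
    have hcon : ∀ q ∈ S, Cg (sp F q) (pol a) (P q) := by
      intro q hq
      obtain ⟨hq1, hq2, hq3, hq4, hq5, hq6, hq7, hq8, hq9, hq10, hq11, hq12, hq13, hq14, hq15⟩ :=
        hS q hq
      apply cg_pol a hq11 hq12 hq13
      intro j
      rw [Ideal.mem_span_singleton]
      have e0 : (q : 𝓞 F) ∣ ((W * Q : ℕ) : 𝓞 F) := by
        have e3 : q ∣ W * Q := by
          rw [hQ]
          exact Dvd.dvd.mul_left (Finset.dvd_prod_of_mem (fun q => q) hq) W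
        exact Nat.cast_dvd_cast e3
      have e1 : (q : 𝓞 F) ∣ a j - A j := dvd_trans e0 (haR j)
      have e2 : a j - (P q).coeff j = (a j - A j) + (A j - (P q).coeff j) := by ring
      rw [e2]
      exact dvd_add e1 (hA2 j q hq)
    refine ⟨⟨ht_pol haB, hone, hcon, fun 𝔭 hp hb hPd => ?_⟩, ?_⟩
    swap
    · have e : (fun j : Fin (2 * g) => (pol a).coeff j) = a := by
        funext j
        rw [pol_coeff, if_neg (by have := j.2; omega), dif_pos j.2]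
      rw [e]
      exact haP
    obtain ⟨v, hv⟩ : ∃ v : HeightOneSpectrum (𝓞 F), v.asIdeal = 𝔭 := ⟨⟨𝔭, hp, hb⟩, rfl⟩
    subst hv
    have hPd' : dis a ∈ v.asIdeal ^ 2 := hPd
    have hPd1 : Pool.Agent.N352.PF.dsc g (pol a) ∈ v.asIdeal :=
      Ideal.pow_le_self two_ne_zero hPd
    haveI : Finite (𝓞 F ⧸ v.asIdeal) := v.asIdeal.finiteQuotientOfFreeOfNeBot v.ne_bot
    haveI : IsDomain (𝓞 F ⧸ v.asIdeal) := Ideal.Quotient.isDomain v.asIdeal
    have hPW : (W : 𝓞 F) ∉ v.asIdeal := by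
      intro hd
      refine h5 F g v (pol a) f₁ hg (pol_monic a) (pol_natDegree a) ?_ (hsep v hd) hPd1
      intro j
      exact (Ideal.span_singleton_le_iff_mem _).2 hd (hone j)
    have hPS : ∀ q ∈ S, (q : 𝓞 F) ∉ v.asIdeal := by
      intro q hq hd
      obtain ⟨hq1, hq2, hq3, hq4, hq5, hq6, hq7, hq8, hq9, hq10, hq11, hq12, hq13, hq14, hq15⟩ :=
        hS q hq
      have hc : ∀ j, (pol a).coeff j - (P q).coeff j ∈ v.asIdeal := fun j =>
        (Ideal.span_singleton_le_iff_mem _).2 hd (hcon q hq j)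
      by_cases hv : v.asIdeal = 𝔮 q
      · refine h5 F g v (pol a) (X * h q) hg (pol_monic a) (pol_natDegree a) ?_ ?_ hPd1
        · intro j
          have e1 : (pol a).coeff j - (X * h q).coeff j =
              ((pol a).coeff j - (P q).coeff j) + ((P q).coeff j - (X * h q).coeff j) := by ring
          rw [e1]
          refine Ideal.add_mem _ (hc j) ?_
          rw [hv]
          exact hq14 j
        · have e1 : rv v (X * h q) = X * rv v (h q) := by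
            rw [rv, rv, Polynomial.map_mul, Polynomial.map_X]
          rw [e1]
          have e2 : Irreducible (rv v (h q)) := by
            have e3 : Irreducible (rd v.asIdeal (h q)) := by
              rw [hv]
              exact hq10
            exact e3
          refine sep_X_mul e2 ?_
          rw [rv, hq8.natDegree_map, hq9]
          omega
      · refine h5 F g v (pol a) (P q) hg (pol_monic a) (pol_natDegree a) hc ?_ hPd1
        exact sep_of_irr (hq15 v.asIdeal v.isPrime hd hv)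
    have hPQ : ((W * Q : ℕ) : 𝓞 F) ∉ v.asIdeal := by
      intro hd
      rw [Nat.cast_mul] at hd
      rcases v.isPrime.mem_or_mem hd with hd | hd
      · exact hPW hd
      · rw [hQ, Nat.cast_prod] at hd
        obtain ⟨q, hq, hqm⟩ := (Ideal.IsPrime.prod_mem_iff (hp := v.isPrime)).1 hd
        exact hPS q hq hqm
    have hsmall : ∀ n : ℕ, 0 < n → (n : 𝓞 F) ∈ v.asIdeal →
        (∀ p : ℕ, p.Prime → p ∣ n → p ≤ max M (2 * g + 1)) → False := by
      intro n hn hm hle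
      obtain ⟨p, hp1, hp2, hp3⟩ := prime_factor v.asIdeal v.isPrime n hn hm
      have e1 := hW p hp1 (hle p hp1 hp2)
      apply hPW
      obtain ⟨m, hm⟩ := e1
      rw [hm, Nat.cast_mul]
      exact Ideal.mul_mem_right _ _ hp3
    have hfac : ((2 * g + 1).factorial : 𝓞 F) ∉ v.asIdeal := by
      intro hd
      refine hsmall _ (Nat.factorial_pos _) hd fun p hp hpd => ?_
      exact ((hp.dvd_factorial).1 hpd).trans (le_max_right _ _)
    have hPM1 : M < nv v := by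
      by_contra hc
      have hnv2 : 2 ≤ nv v := (h7 F).2.2 v
      refine hsmall (nv v) (by omega) (Ideal.absNorm_mem v.asIdeal) fun p hp hpd => ?_
      have e1 := Nat.le_of_dvd (by omega) hpd
      exact (e1.trans (not_lt.1 hc)).trans (le_max_left _ _)
    have hBP : B ^ dg F ≤ nv v ^ 2 := by
      by_contra hc
      exact ha (Or.inl ⟨haU, v, hPM1, not_le.1 hc, hPQ, hPd'⟩)
    refine ⟨hBP, h3 F g v hg hfac a hPd' fun hD => ?_⟩
    exact ha (Or.inr ⟨haB, v, hBP, hPd1, hD⟩)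
  -- finiteness of the family
  have hFf : {f : (𝓞 F)[X] | Fam g B W f₁ S P f ∧ Pr (fun j => f.coeff j)}.Finite := by
    refine (hBz.image pol).subset ?_
    intro f hf
    exact ⟨fun j => f.coeff j, bz_coeff hf.1.ht, (eq_pol hf.1.ht).symm⟩
  -- counting
  have c1 : (Up \ (U1 ∪ U2)).ncard ≤
      {f : (𝓞 F)[X] | Fam g B W f₁ S P f ∧ Pr (fun j => f.coeff j)}.ncard := by
    rw [← Set.ncard_image_of_injective _ pol_inj]
    exact Set.ncard_le_ncard key hFf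
  have c2 : Up.ncard ≤ (Up \ (U1 ∪ U2)).ncard + (U1.ncard + U2.ncard) := by
    have e1 := Set.ncard_le_ncard_diff_add_ncard Up (U1 ∪ U2) (hU1f.union hU2f)
    have e2 := Set.ncard_union_le U1 U2
    omega
  have c3 : (4 * R₀ : ℝ) * U1.ncard ≤ U.ncard := by exact_mod_cast hsml
  have hC0 : (0 : ℝ) < C₁ := by exact_mod_cast hC₁
  have c4 : (B : ℝ) ^ (dg F * dd g) ≤
      C₁ * U.ncard * ((W * Q : ℕ) : ℝ) ^ (2 * g * dg F) := by exact_mod_cast hcard
  have hP0 : (0 : ℝ) < ((W * Q : ℕ) : ℝ) ^ (2 * g * dg F) := by positivity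
  have c5 : (4 * R₀ : ℝ) * U2.ncard ≤ U.ncard := by
    have e1 : (U2.ncard : ℝ) ≤ 1 / (4 * R₀ * C₁ * ((W * Q : ℕ) : ℝ) ^ (2 * g * dg F)) *
        (C₁ * U.ncard * ((W * Q : ℕ) : ℝ) ^ (2 * g * dg F)) :=
      hstr.trans (mul_le_mul_of_nonneg_left c4 (by positivity))
    have e2 : 1 / (4 * R₀ * C₁ * ((W * Q : ℕ) : ℝ) ^ (2 * g * dg F)) *
        (C₁ * U.ncard * ((W * Q : ℕ) : ℝ) ^ (2 * g * dg F)) = U.ncard / (4 * R₀) := by
      field_simp
    rw [e2, le_div_iff₀ (by positivity)] at e1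
    linarith
  have c6 : (U.ncard : ℝ) ≤ 2 * R₀ *
      ({f : (𝓞 F)[X] | Fam g B W f₁ S P f ∧ Pr (fun j => f.coeff j)}.ncard : ℝ) := by
    have e0 : (U.ncard : ℝ) ≤ R₀ * Up.ncard := by exact_mod_cast hUpc
    have e1 : (Up.ncard : ℝ) ≤ ((Up \ (U1 ∪ U2)).ncard : ℝ) + (U1.ncard + U2.ncard) := by
      exact_mod_cast c2
    have e2 : ((Up \ (U1 ∪ U2)).ncard : ℝ) ≤
        ({f : (𝓞 F)[X] | Fam g B W f₁ S P f ∧ Pr (fun j => f.coeff j)}.ncard : ℝ) := by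
      exact_mod_cast c1
    have e3 : (R₀ : ℝ) * Up.ncard ≤ R₀ * (((Up \ (U1 ∪ U2)).ncard : ℝ) +
        (U1.ncard + U2.ncard)) := mul_le_mul_of_nonneg_left e1 hR0.le
    have e4 : (R₀ : ℝ) * ((Up \ (U1 ∪ U2)).ncard : ℝ) ≤
        R₀ * ({f : (𝓞 F)[X] | Fam g B W f₁ S P f ∧ Pr (fun j => f.coeff j)}.ncard : ℝ) :=
      mul_le_mul_of_nonneg_left e2 hR0.le
    linarith
  have c7 : (((∏ q ∈ S, q ^ (2 * g)) ^ Module.finrank ℚ F : ℕ) : ℝ) =
      (Q : ℝ) ^ (2 * g * dg F) := by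
    rw [hQ, Finset.prod_pow]
    push_cast
    rw [← pow_mul]
  rw [c7]
  have hW1 : (0 : ℝ) < (W : ℝ) ^ (2 * g * dg F) := by positivity
  have c8 : (B : ℝ) ^ (dg F * dd g) ≤
      C₁ * (2 * R₀ * ({f : (𝓞 F)[X] | Fam g B W f₁ S P f ∧
        Pr (fun j => f.coeff j)}.ncard : ℝ)) * ((W * Q : ℕ) : ℝ) ^ (2 * g * dg F) :=
    c4.trans (mul_le_mul_of_nonneg_right (mul_le_mul_of_nonneg_left c6 hC0.le) hP0.le)
  rw [one_div_mul_eq_div, div_le_iff₀ (by positivity)]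
  refine c8.trans (le_of_eq ?_)
  push_cast
  rw [mul_pow]
  ring

/-- Positive discriminant up to sign: one real root. -/
def Sg {F : Type} [Field F] [NumberField F] (f : (𝓞 F)[X]) : Prop :=
  ∀ σ : F →+* ℝ, 0 < σ ((4 * (f.coeff 1) ^ 3 + 27 * (f.coeff 0) ^ 2 : 𝓞 F) : F)

/-- The same for the coefficients. -/
def Sa {F : Type} [Field F] [NumberField F] (a : Fin (2 * 1) → 𝓞 F) : Prop :=
  ∀ σ : F →+* ℝ, 0 < σ ((4 * (a 1) ^ 3 + 27 * (a 0) ^ 2 : 𝓞 F) : F)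

/-- A positive proportion of the coefficients has the signs. -/
theorem sa_prop (h1 : S_BX) (F : Type) [Field F] [NumberField F] : ∃ R₀ C₃ : ℕ, 1 ≤ R₀ ∧
    ∀ (B W : ℕ) (A : Fin (2 * 1) → 𝓞 F), 0 < W → C₃ * W ≤ B →
      (Bx 1 B W A).ncard ≤ R₀ * {a ∈ Bx 1 B W A | Sa a}.ncard := by
  obtain ⟨C₁, hC₁, hBX⟩ := h1 F 1
  refine ⟨C₁ * C₁ * 8 ^ (dg F * dd 1), 8 * C₁, by
    have : 0 < C₁ * C₁ * 8 ^ (dg F * dd 1) := by positivity
    exact this, fun B W A hW hWB => ?_⟩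
  obtain ⟨B', hB'⟩ : ∃ B', B' = B / 4 := ⟨_, rfl⟩
  obtain ⟨t, ht⟩ : ∃ t, t = W * (B ^ 3 / (2 * W)) := ⟨_, rfl⟩
  have hC1W : 8 * (C₁ * W) ≤ B := by rw [← mul_assoc]; exact hWB
  have hW8 : 8 * W ≤ B := (Nat.mul_le_mul_left 8 (Nat.le_mul_of_pos_left W hC₁)).trans hC1W
  have hB8 : 8 ≤ B := by omega
  have hC1B' : C₁ * W ≤ B' := by omega
  have hBB' : B ≤ 8 * B' := by omega
  have hB'4 : 4 * B' ≤ B := by omega
  have hB3 : B ≤ B ^ 3 := Nat.le_self_pow (by norm_num) B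
  have ht2 : 2 * t ≤ B ^ 3 := by
    have := Nat.mul_div_le (B ^ 3) (2 * W)
    rw [ht]
    calc 2 * (W * (B ^ 3 / (2 * W))) = 2 * W * (B ^ 3 / (2 * W)) := by ring
      _ ≤ B ^ 3 := this
  have ht4 : B ^ 3 ≤ 4 * t := by
    have h5 : B ^ 3 < 2 * t + 2 * W := by
      have := Nat.lt_mul_div_succ (B ^ 3) (b := 2 * W) (by omega)
      rw [ht]
      calc B ^ 3 < 2 * W * (B ^ 3 / (2 * W) + 1) := this
        _ = 2 * (W * (B ^ 3 / (2 * W))) + 2 * W := by ring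
    omega
  obtain ⟨A', hA'⟩ : ∃ A' : Fin (2 * 1) → 𝓞 F, A' = ![A 0 - (t : 𝓞 F), A 1] := ⟨_, rfl⟩
  have hB'3 : 64 * (B' : ℝ) ^ 3 ≤ (B : ℝ) ^ 3 := by
    have h5 : ((4 * B' : ℕ) : ℝ) ≤ B := by exact_mod_cast hB'4
    have h6 := pow_le_pow_left₀ (by positivity) h5 3
    push_cast at h6
    nlinarith
  have hB'2 : 16 * (B' : ℝ) ^ 2 ≤ (B : ℝ) ^ 2 := by
    have h5 : ((4 * B' : ℕ) : ℝ) ≤ B := by exact_mod_cast hB'4
    have h6 := pow_le_pow_left₀ (by positivity) h5 2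
    push_cast at h6
    nlinarith
  have ht2r : 2 * (t : ℝ) ≤ (B : ℝ) ^ 3 := by exact_mod_cast ht2
  have ht4r : (B : ℝ) ^ 3 ≤ 4 * (t : ℝ) := by exact_mod_cast ht4
  obtain ⟨ψ, hψ⟩ : ∃ ψ : (Fin (2 * 1) → 𝓞 F) → (Fin (2 * 1) → 𝓞 F),
      ψ = fun a => ![a 0 + (t : 𝓞 F), a 1] := ⟨_, rfl⟩
  have hψinj : Function.Injective ψ := by
    intro a b hab
    rw [hψ] at hab
    have e0 := congrFun hab 0
    have e1 := congrFun hab 1
    simp at e0 e1
    funext j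
    fin_cases j
    · exact e0
    · exact e1
  have hsub : ψ '' (Bx 1 B' W A') ⊆ {a ∈ Bx 1 B W A | Sa a} := by
    rintro _ ⟨a, ⟨ha1, ha2⟩, rfl⟩
    have b0 : ∀ φ : F →+* ℂ, ‖φ (a 0)‖ ≤ (B' : ℝ) ^ 3 := by
      intro φ
      have := ha1 0 φ
      simpa using this
    have b1 : ∀ φ : F →+* ℂ, ‖φ (a 1)‖ ≤ (B' : ℝ) ^ 2 := by
      intro φ
      have := ha1 1 φ
      simpa using this
    have hBpos : (0 : ℝ) < (B : ℝ) ^ 3 := by
      have : (0 : ℝ) < B := by exact_mod_cast (by omega : 0 < B)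
      positivity
    refine ⟨⟨?_, ?_⟩, ?_⟩
    · intro j φ
      rw [hψ]
      fin_cases j
      · show ‖φ ((a 0 + (t : 𝓞 F) : 𝓞 F) : F)‖ ≤ _
        have e : φ ((a 0 + (t : 𝓞 F) : 𝓞 F) : F) = φ (a 0) + (t : ℂ) := by
          push_cast
          simp
        rw [e]
        refine (norm_add_le _ _).trans ?_
        rw [Complex.norm_natCast]
        have := b0 φ
        simp
        linarith
      · show ‖φ (a 1)‖ ≤ _
        have := b1 φ
        simp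
        have h7 : (0 : ℝ) ≤ (B' : ℝ) ^ 2 := by positivity
        linarith
    · intro j
      rw [hψ]
      fin_cases j
      · have := ha2 0
        rw [hA'] at this
        simp at this ⊢
        have e : a 0 + (t : 𝓞 F) - A 0 = a 0 - (A 0 - (t : 𝓞 F)) := by ring
        rw [e]
        exact this
      · have := ha2 1
        rw [hA'] at this
        simp at this ⊢
        exact this
    · intro σ
      rw [hψ]
      simp only [Matrix.cons_val_zero, Matrix.cons_val_one]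
      have c0 : |σ (a 0)| ≤ (B' : ℝ) ^ 3 := by
        have := b0 ((algebraMap ℝ ℂ).comp σ)
        simpa using this
      have c1 : |σ (a 1)| ≤ (B' : ℝ) ^ 2 := by
        have := b1 ((algebraMap ℝ ℂ).comp σ)
        simpa using this
      have e : σ ((4 * (a 1) ^ 3 + 27 * (a 0 + (t : 𝓞 F)) ^ 2 : 𝓞 F) : F) =
          4 * (σ (a 1)) ^ 3 + 27 * (σ (a 0) + t) ^ 2 := by
        push_cast
        simp only [map_add, map_mul, map_pow, map_ofNat, map_natCast]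
      rw [e]
      obtain ⟨x, hx⟩ : ∃ x : ℝ, x = σ (a 0) := ⟨_, rfl⟩
      obtain ⟨y, hy⟩ : ∃ y : ℝ, y = σ (a 1) := ⟨_, rfl⟩
      rw [← hx, ← hy]
      rw [← hx] at c0
      rw [← hy] at c1
      obtain ⟨T, hT⟩ : ∃ T : ℝ, T = (B : ℝ) ^ 3 := ⟨_, rfl⟩
      rw [← hT] at hB'3 ht4r hBpos
      have d1 : 15 / 64 * T ≤ x + t := by
        have := neg_le_of_abs_le c0
        linarith
      have d2 : (15 / 64 * T) ^ 2 ≤ (x + t) ^ 2 := pow_le_pow_left₀ (by positivity) d1 2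
      have d3 : -(T ^ 2 / 4096) ≤ y ^ 3 := by
        have h8 : |y| ^ 3 ≤ ((B' : ℝ) ^ 2) ^ 3 := pow_le_pow_left₀ (abs_nonneg y) c1 3
        have h9 : ((B' : ℝ) ^ 2) ^ 3 = ((B' : ℝ) ^ 3) ^ 2 := by ring
        have h10 : ((B' : ℝ) ^ 3) ^ 2 ≤ (T / 64) ^ 2 :=
          pow_le_pow_left₀ (by positivity) (by linarith) 2
        have h11 : -(|y| ^ 3) ≤ y ^ 3 := by
          rw [← abs_pow]
          exact neg_abs_le _
        nlinarith
      nlinarith [sq_nonneg T, hBpos]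
  obtain ⟨-, f2, -⟩ := hBX B' W A' hW hC1B'
  obtain ⟨g1, -, g3⟩ := hBX B W A hW ((by omega : C₁ * W ≤ 8 * (C₁ * W)).trans hC1W)
  have hc1 : (Bx 1 B' W A').ncard ≤ {a ∈ Bx 1 B W A | Sa a}.ncard := by
    rw [← Set.ncard_image_of_injective _ hψinj]
    exact Set.ncard_le_ncard hsub (g1.subset fun a ha => ha.1)
  have hWp : 0 < W ^ (2 * 1 * dg F) := pow_pos hW _
  refine Nat.le_of_mul_le_mul_right ?_ hWp
  calc (Bx 1 B W A).ncard * W ^ (2 * 1 * dg F) ≤ C₁ * B ^ (dg F * dd 1) := g3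
    _ ≤ C₁ * (8 * B') ^ (dg F * dd 1) := by gcongr
    _ = C₁ * 8 ^ (dg F * dd 1) * B' ^ (dg F * dd 1) := by rw [mul_pow]; ring
    _ ≤ C₁ * 8 ^ (dg F * dd 1) * (C₁ * (Bx 1 B' W A').ncard * W ^ (2 * 1 * dg F)) := by gcongr
    _ ≤ C₁ * 8 ^ (dg F * dd 1) *
        (C₁ * {a ∈ Bx 1 B W A | Sa a}.ncard * W ^ (2 * 1 * dg F)) := by gcongr
    _ = _ := by ring

end Pool.Agent.H459.UF
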