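import Pool.Agent.H459.UF.Two

/-!
# Galois extensions of 2-power degree, unramified over two (helper459)
-/

set_option autoImplicit false
set_option linter.all false

open Polynomial IsDedekindDomain NumberField WithZero
open scoped Classical IntermediateField ComplexConjugate

namespace Pool.Agent.H459.UF

open Pool.Agent.N874.JM (LocF)
open Pool.Agent.N783.PQ (LocIm)
open Pool.Agent.N783.PF (rd fF)

/-- The conditions on a Galois extension `M` of `K`. -/
structure TC2 (F K M : Type) [Field F] [NumberField F] [Field K] [NumberField K] [Field M]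
    [NumberField M] [Algebra F K] [Algebra K M] [Algebra F M] (f : (𝓞 F)[X]) (J : Finset ℕ)
    (𝔮 : ℕ → Ideal (𝓞 F)) : Prop where
  unr : ∀ v : HeightOneSpectrum (𝓞 K), (2 : 𝓞 K) ∉ v.asIdeal →
    Unr K M v ∨ Irreducible (rd v.asIdeal (fo K f))
  two : ∀ v : HeightOneSpectrum (𝓞 K), (2 : 𝓞 K) ∈ v.asIdeal →
    Unr K M v ∧ Irreducible (rd v.asIdeal (fo K f)) ∧ Typ2 v.asIdeal (fo K f)
  q : DQ F M J 𝔮
  real : ∀ σ : K →+* ℝ, (∃ ρ : M →+* ℝ, ρ.comp (algebraMap K M) = σ) ∨
    One f (σ.comp (algebraMap F K))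

/-- Transfer of the type along an unramified prime. -/
theorem typ2_up {F K K₁ : Type} [Field F] [NumberField F] [Field K] [NumberField K] [Field K₁]
    [NumberField K₁] [Algebra F K] [Algebra F K₁] [Algebra K K₁] [IsScalarTower F K K₁]
    {f : (𝓞 F)[X]} {w : HeightOneSpectrum (𝓞 K₁)} (hu : Unr K K₁ (below K w))
    (h : Typ2 (below K w).asIdeal (fo K f)) : Typ2 w.asIdeal (fo K₁ f) := by
  obtain ⟨r, y, h1, h2, h3⟩ := h
  have hagr := agr_of_unr w hu
  have e1 : (derivative (fo K₁ f)).eval (algebraMap (𝓞 K) (𝓞 K₁) r) =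
      algebraMap (𝓞 K) (𝓞 K₁) ((derivative (fo K f)).eval r) := by
    rw [← fo_map (K := K) (K₁ := K₁), derivative_map, eval_map, eval₂_at_apply]
  have e2 : (fo K₁ f).eval (algebraMap (𝓞 K) (𝓞 K₁) r) - (algebraMap (𝓞 K) (𝓞 K₁) y) ^ 2 =
      algebraMap (𝓞 K) (𝓞 K₁) ((fo K f).eval r - y ^ 2) := by
    rw [← fo_map (K := K) (K₁ := K₁), eval_map, eval₂_at_apply, map_sub, map_pow]
  refine ⟨algebraMap _ _ r, algebraMap _ _ y, ?_, ?_, ?_⟩
  · rw [e1]
    exact (mem_below w _).1 h1
  · rw [e2]
    exact (mem_below w _).1 h2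
  · rw [e2]
    intro hc
    apply h3
    rw [← HeightOneSpectrum.intValuation_le_pow_iff_mem,
      ← HeightOneSpectrum.valuation_of_algebraMap (K := K)] 
    rw [← HeightOneSpectrum.intValuation_le_pow_iff_mem,
      ← HeightOneSpectrum.valuation_of_algebraMap (K := K₁)] at hc
    rw [← hagr, ← IsScalarTower.algebraMap_apply, IsScalarTower.algebraMap_apply (𝓞 K) (𝓞 K₁) K₁]
    exact hc

/-- The tower. -/
theorem tower2 {F : Type} [Field F] [NumberField F] {f : (𝓞 F)[X]} {J : Finset ℕ}
    {𝔮 : ℕ → Ideal (𝓞 F)} (H : Dat f J 𝔮) (hd : f.natDegree = 3) (h0 : f.coeff 2 = 0) :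
    ∀ (n : ℕ) (K M : Type)
    [Field K] [NumberField K] [Field M] [NumberField M] [Algebra F K] [Algebra K M] [Algebra F M]
    [IsScalarTower F K M] [IsGalois K M], Module.finrank K M = 2 ^ n → TC2 F K M f J 𝔮 →
    PK F K f J 𝔮 → PK F M f J 𝔮 := by
  intro n
  induction n with
  | zero =>
    intro K M _ _ _ _ _ _ _ _ _ hn hT hK
    refine pk_iso (K := K) ?_ hK
    intro z
    have h6 : z ∈ (⊥ : Subalgebra K M) := by
      rw [Subalgebra.bot_eq_top_of_finrank_eq_one (by rw [hn, pow_zero])]
      exact Algebra.mem_top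
    exact Algebra.mem_bot.1 h6
  | succ n ih =>
    intro K M _ _ _ _ _ _ _ _ _ hn hT hK
    have hcard : Nat.card (M ≃ₐ[K] M) = 2 ^ (n + 1) := by
      rw [IsGalois.card_aut_eq_finrank, hn]
    obtain ⟨G, hG⟩ := Sylow.exists_subgroup_card_pow_prime (G := M ≃ₐ[K] M) 2 (n := n)
      (by rw [hcard]; exact pow_dvd_pow 2 (Nat.le_succ n))
    set K₁ := IntermediateField.fixedField G with hK₁
    have d1 : Module.finrank K₁ M = 2 ^ n := by
      rw [IntermediateField.finrank_fixedField_eq_card, hG]
    clear_value K₁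
    have d2 : Module.finrank K K₁ = 2 := by
      have h4 := Module.finrank_mul_finrank K K₁ M
      rw [hn, d1, pow_succ, mul_comm] at h4
      exact Nat.eq_of_mul_eq_mul_left (by positivity) h4
    haveI : IsScalarTower F K K₁ := inferInstance
    haveI : IsScalarTower F K₁ M := IsScalarTower.of_algebraMap_eq fun x => by
      rw [IsScalarTower.algebraMap_apply F K K₁, ← IsScalarTower.algebraMap_apply K K₁ M,
        ← IsScalarTower.algebraMap_apply F K M]
    have hfbdeg : (fb K f).natDegree = 3 := by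
      unfold fb fF
      rw [((H.mon.map _).natDegree_map), H.mon.natDegree_map, hd]
    have hone : ∀ σ : K →+* ℝ, (fb K f).map σ = (fF f).map (σ.comp (algebraMap F K)) := by
      intro σ
      unfold fb
      rw [Polynomial.map_map]
    have hDQ : DQ F K₁ J 𝔮 := by
      intro q hq w hw
      obtain ⟨w', rfl⟩ := exists_above (K := K₁) M w
      refine dns_down (hT.q q hq w' ?_)
      rw [← hw, below_below]
    have hbel : ∀ w : HeightOneSpectrum (𝓞 K₁), (2 : 𝓞 K₁) ∈ w.asIdeal →
        (2 : 𝓞 K) ∈ (below K w).asIdeal := by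
      intro w hw
      rw [mem_below, map_ofNat]
      exact hw
    have hS : Stp K K₁ f := by
      refine ⟨?_, ?_, ?_⟩
      · intro v hv
        rcases hT.unr v hv with h | h
        · exact Or.inl (unr_down h)
        · exact Or.inr h
      · intro v hv p _ hc hN hp
        obtain ⟨w, rfl⟩ := exists_above (K := K) K₁ v
        obtain ⟨h1, h2, h3⟩ := hT.two _ hv
        exact two_step (K₂ := K₁) H.mon hd h0 d2 (unr_down h1) hv h2 h3 hc hN (hp _ rfl)
      · intro σ p hirr hc hN hp
        rcases hT.real σ with ⟨ρ, hρ⟩ | ⟨e, z, h1, h2, h3⟩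
        · have h4 := hp (ρ.comp (algebraMap K₁ M)) (by
            rw [RingHom.comp_assoc, ← IsScalarTower.algebraMap_eq, hρ])
          have e1 : ∀ r : K[X], (r.map (algebraMap K K₁)).map (ρ.comp (algebraMap K₁ M)) =
              r.map σ := by
            intro r
            rw [Polynomial.map_map, RingHom.comp_assoc, ← IsScalarTower.algebraMap_eq, hρ]
          rw [← fb_map K K₁ f, e1, e1] at h4
          exact h4
        · rw [← hone] at h2 h3
          exact real_one ((H.mon.map _).map _) hirr hfbdeg σ h1 h2 h3 hc hN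
    have hK1 := quad H d2 hS hDQ hK
    refine ih K₁ M d1 ⟨?_, ?_, hT.q, ?_⟩ hK1
    · intro w hw
      rcases hT.unr (below K w) (fun h => hw (by
        have := (mem_below w _).1 h
        rwa [map_ofNat] at this)) with h | h
      · exact Or.inl (unr_up h)
      · exact Or.inr (irr_quad H.mon hd d2.le w h)
    · intro w hw
      obtain ⟨h1, h2, h3⟩ := hT.two _ (hbel w hw)
      exact ⟨unr_up h1, irr_quad H.mon hd d2.le w h2, typ2_up (unr_down h1) h3⟩
    · intro σ
      rcases hT.real (σ.comp (algebraMap K K₁)) with ⟨ρ, hρ⟩ | h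
      · exact Or.inl (ext_real ρ σ hρ)
      · refine Or.inr ?_
        rw [RingHom.comp_assoc, ← IsScalarTower.algebraMap_eq] at h
        exact h

end Pool.Agent.H459.UF
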