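import Pool.Agent.H459.UF.TwAll
import Pool.Agent.H459.UF.Tow2
import Pool.Agent.H459.UF.FamS

/-!
# A twist whose 2-Selmer groups over all the extensions are zero (helper459)
-/

set_option autoImplicit false
set_option linter.all false

open Polynomial IsDedekindDomain NumberField WithZero
open scoped Classical IntermediateField

namespace Pool.Agent.H459.UF

open Pool.Agent.N783.PF
open Pool.Agent.N61.PF (pol pol_monic pol_natDegree pol_coeff0 pol_coeff1 pol_coeff2 eq_pol fF_eq)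

/-- Transfer of the type along a congruence. -/
theorem typ2_congr {F : Type} [Field F] [NumberField F] {W : ℕ} (h4 : 4 ∣ W) {f f₁ : (𝓞 F)[X]}
    (hf : f = pol (f.coeff 1) (f.coeff 0)) (hf₁ : f₁ = pol (f₁.coeff 1) (f₁.coeff 0))
    (hc : Cg (sp F W) f f₁) {v : HeightOneSpectrum (𝓞 F)} (h2 : (2 : 𝓞 F) ∈ v.asIdeal)
    (h : Typ2 v.asIdeal f₁) : Typ2 v.asIdeal f := by
  obtain ⟨a, ha⟩ : ∃ a, a = f.coeff 1 := ⟨_, rfl⟩
  obtain ⟨b, hb⟩ : ∃ b, b = f.coeff 0 := ⟨_, rfl⟩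
  obtain ⟨a₁, ha₁⟩ : ∃ a, a = f₁.coeff 1 := ⟨_, rfl⟩
  obtain ⟨b₁, hb₁⟩ : ∃ b, b = f₁.coeff 0 := ⟨_, rfl⟩
  have hW : ∀ x : 𝓞 F, x ∈ sp F W → x ∈ v.asIdeal ^ 2 := by
    intro x hx
    have h5 : (W : 𝓞 F) ∈ v.asIdeal ^ 2 := by
      obtain ⟨m, hm⟩ := h4
      rw [hm, Nat.cast_mul]
      refine Ideal.mul_mem_right _ _ ?_
      have e : ((4 : ℕ) : 𝓞 F) = 2 * 2 := by norm_num
      rw [e, pow_two]
      exact Ideal.mul_mem_mul h2 h2
    exact (Ideal.span_singleton_le_iff_mem _).2 h5 hx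
  have d1 : a - a₁ ∈ v.asIdeal ^ 2 := by rw [ha, ha₁]; exact hW _ (hc 1)
  have d0 : b - b₁ ∈ v.asIdeal ^ 2 := by rw [hb, hb₁]; exact hW _ (hc 0)
  rw [hf₁, ← ha₁, ← hb₁] at h
  rw [hf, ← ha, ← hb]
  obtain ⟨r, y, h1, h3, h4'⟩ := h
  rw [pol_der] at h1
  rw [pol_eval] at h3 h4'
  have hle := Ideal.pow_le_self (I := v.asIdeal) two_ne_zero
  have e0 : r ^ 3 + a * r + b - y ^ 2 = (r ^ 3 + a₁ * r + b₁ - y ^ 2) +
      ((a - a₁) * r + (b - b₁)) := by ring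
  have hd : (a - a₁) * r + (b - b₁) ∈ v.asIdeal ^ 2 :=
    Ideal.add_mem _ (Ideal.mul_mem_right _ _ d1) d0
  refine ⟨r, y, ?_, ?_, ?_⟩
  · rw [pol_der]
    have e : 3 * r ^ 2 + a = (3 * r ^ 2 + a₁) + (a - a₁) := by ring
    rw [e]
    exact Ideal.add_mem _ h1 (hle d1)
  · rw [pol_eval, e0]
    exact Ideal.add_mem _ h3 (hle hd)
  · rw [pol_eval, e0]
    intro hc'
    exact h4' ((Ideal.add_mem_iff_left _ hd).1 hc')

/-- The conditions on the extension `M` of `F`. -/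
structure Adm2 (F M : Type) [Field F] [NumberField F] [Field M] [NumberField M] [Algebra F M]
    (Z : Set (HeightOneSpectrum (𝓞 F))) (f : (𝓞 F)[X]) : Prop where
  sig : ∀ v ∈ Z, Unr F M v ∧ Deg1 F M v
  unr : ∀ v : HeightOneSpectrum (𝓞 F), (2 : 𝓞 F) ∈ v.asIdeal ∨ (∃ t : 𝓞 F, f.eval t ∈ v.asIdeal) →
    Unr F M v

/-- Zero 2-Selmer groups over all the extensions. -/
def UG2 {F : Type} [Field F] [NumberField F] (Z : Set (HeightOneSpectrum (𝓞 F))) (k : ℕ)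
    (f : (𝓞 F)[X]) : Prop :=
  (∀ v : HeightOneSpectrum (𝓞 F), (k : 𝓞 F) ∈ v.asIdeal → Irreducible (rd v.asIdeal f)) ∧ Sg f ∧
  ∀ (M : Type) [Field M] [NumberField M] [Algebra F M] [IsGalois F M] (n : ℕ),
    Module.finrank F M = 2 ^ n → Adm2 F M Z f → SelZero (fo M f)

/-- From the absence of bad elements to a twist with zero 2-Selmer groups over all the
extensions. -/
theorem twV (F : Type) [Field F] [NumberField F] : ∃ κ : ℕ,
    ∀ (B N W : ℕ) (f₁ : (𝓞 F)[X]) (S : Finset ℕ) (𝔮 : ℕ → Ideal (𝓞 F)) (r P : ℕ → (𝓞 F)[X])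
    (f : (𝓞 F)[X]), κ ≤ W → GoodF 1 W f₁ → GoodS 1 W S 𝔮 r P → Fam 1 B W f₁ S P f →
    2 ^ κ * B ≤ 4 ^ N → 1 ≤ B → ¬ LBad 1 N κ S 𝔮 P f → ∀ k : ℕ, k ∣ W →
    (∀ v : HeightOneSpectrum (𝓞 F), (W : 𝓞 F) ∈ v.asIdeal → Irreducible (rd v.asIdeal f₁)) →
    4 ∣ W → (∀ v : HeightOneSpectrum (𝓞 F), (2 : 𝓞 F) ∈ v.asIdeal → Typ2 v.asIdeal f₁) → Sg f →
    ∃ J ⊆ S, Irreducible (fF (f.scaleRoots ((Dp J : ℕ) : 𝓞 F))) ∧
      Min 1 (f.scaleRoots ((Dp J : ℕ) : 𝓞 F)) ∧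
      UG2 {v | ∃ q ∈ S, v.asIdeal = 𝔮 q} k (f.scaleRoots ((Dp J : ℕ) : 𝓞 F)) := by
  obtain ⟨κ₁, hκ₁⟩ := core 1 F le_rfl
  obtain ⟨κ₂, hκ₂⟩ := sqf 1 F le_rfl
  refine ⟨max κ₁ κ₂, fun B N W f₁ S 𝔮 r P f hW hf₁ hS hF hBN hB hnb k hkW hirrW h4W htyp hSg => ?_⟩
  have hBN1 : 2 ^ κ₁ * B ≤ 4 ^ N :=
    (Nat.mul_le_mul_right _ (Nat.pow_le_pow_right (by norm_num) (le_max_left _ _))).trans hBN
  have hBN2 : 2 ^ κ₂ * B ≤ 4 ^ N :=
    (Nat.mul_le_mul_right _ (Nat.pow_le_pow_right (by norm_num) (le_max_right _ _))).trans hBN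
  have hnb1 : ¬ LBad 1 N κ₁ S 𝔮 P f := fun h =>
    hnb (Pool.Agent.N170.PF.LBad.mono (le_max_left _ _) h)
  have hnb2 : ¬ LBad 1 N κ₂ S 𝔮 P f := fun h =>
    hnb (Pool.Agent.N170.PF.LBad.mono (le_max_right _ _) h)
  have hm := hF.ht.mon
  have hd : f.natDegree = 3 := hF.ht.deg
  have hirr : Irreducible (fF f) := Pool.Agent.N667.PF.irr F 1 W f₁ f hf₁ hF.one hm hd
  have hsq : SqF 1 f := hκ₂ B N W f₁ S 𝔮 r P f ((le_max_right _ _).trans hW) hf₁ hS hF hirr hBN2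
    hB hnb2
  obtain ⟨L, _, _, _, θ, hc⟩ := Pool.Agent.N667.PF.gen F 1 f hm hd hirr
  obtain ⟨J, hJ, hcore⟩ := hκ₁ L f f₁ θ B N W S 𝔮 r P ((le_max_left _ _).trans hW) hc hsq hf₁ hS
    hF hBN1 hB hnb1
  refine ⟨J, hJ, ?_, Pool.Agent.N547.PF.min 1 W F S J 𝔮 r P f le_rfl hS hsq hm hd hF.con hJ, ?_⟩
  · have hD0 : Dp J ≠ 0 := by
      rw [Dp, Finset.prod_ne_zero_iff]
      exact fun q hq => (hS q (hJ hq)).1.ne_zero
    rw [Pool.Agent.N170.PF.fF_scale hm]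
    exact Pool.Agent.N170.PF.irr_scale (Nat.cast_ne_zero.2 hD0) hirr
  have hcQ : ∀ q ∈ S, Cg (𝔮 q) f (X * r q) := by
    intro q hq j
    obtain ⟨-, -, -, -, -, -, a2, -, -, -, -, -, -, a3, -⟩ := hS q hq
    have b1 := Pool.Agent.N78.PF.sp_le (F := F) a2 (hF.con q hq j)
    have b2 := a3 j
    have := Ideal.add_mem _ b1 b2
    simpa using this
  have hPK : PK F F f J 𝔮 := base le_rfl hm hd hsq hf₁ hS hF.one hF.con hJ L θ hc hcore
  have H : Dat f J 𝔮 := ⟨hm, 1, W, S, r, P, le_rfl, hd, hsq, hS, hcQ, hJ⟩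
  obtain ⟨D, hD⟩ : ∃ D : ℕ, D = Dp J := ⟨_, rfl⟩
  have hD0 : D ≠ 0 := by
    rw [hD, Dp, Finset.prod_ne_zero_iff]
    exact fun q hq => (hS q (hJ hq)).1.ne_zero
  rw [← hD]
  have hSg' : Sg (f.scaleRoots (D : 𝓞 F)) := by
    intro σ
    have e1 : (f.scaleRoots (D : 𝓞 F)).coeff 1 = f.coeff 1 * (D : 𝓞 F) ^ 2 := by
      rw [coeff_scaleRoots, hd]
    have e0 : (f.scaleRoots (D : 𝓞 F)).coeff 0 = f.coeff 0 * (D : 𝓞 F) ^ 3 := by
      rw [coeff_scaleRoots, hd]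
    rw [e1, e0]
    have h5 := hSg σ
    have e : σ ((4 * (f.coeff 1 * (D : 𝓞 F) ^ 2) ^ 3 +
        27 * (f.coeff 0 * (D : 𝓞 F) ^ 3) ^ 2 : 𝓞 F) : F) =
        (D : ℝ) ^ 6 * σ ((4 * (f.coeff 1) ^ 3 + 27 * (f.coeff 0) ^ 2 : 𝓞 F) : F) := by
      push_cast
      simp only [map_add, map_mul, map_pow, map_ofNat, map_natCast]
      ring
    rw [e]
    have hDp : (0 : ℝ) < (D : ℝ) ^ 6 := by
      have : (0 : ℝ) < D := by exact_mod_cast Nat.pos_of_ne_zero hD0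
      positivity
    exact mul_pos hDp h5
  refine ⟨?_, hSg', ?_⟩
  · intro v hv
    have hWv : (W : 𝓞 F) ∈ v.asIdeal := by
      obtain ⟨m, hm'⟩ := hkW
      rw [hm', Nat.cast_mul]
      exact Ideal.mul_mem_right _ _ hv
    have hrd : rd v.asIdeal f = rd v.asIdeal f₁ :=
      Pool.Agent.N78.PF.rd_eq (Pool.Agent.N78.PF.sp_le hWv) hF.one
    have hDv : (D : 𝓞 F) ∉ v.asIdeal := by
      intro hd'
      rw [hD, Dp, Nat.cast_prod] at hd'
      haveI := v.isPrime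
      obtain ⟨q, hq, hqv⟩ := (Ideal.IsPrime.prod_mem_iff).1 hd'
      obtain ⟨a1, a2, -⟩ := hS q (hJ hq)
      have hco : Nat.Coprime q W := by
        rw [Nat.Prime.coprime_iff_not_dvd a1]
        intro hdv
        have := Nat.le_of_dvd hf₁.pos hdv
        omega
      obtain ⟨u, w, huw⟩ := (Nat.isCoprime_iff_coprime.2 hco)
      apply v.isPrime.ne_top
      rw [Ideal.eq_top_iff_one]
      have e : (1 : 𝓞 F) = (u : 𝓞 F) * (q : 𝓞 F) + (w : 𝓞 F) * (W : 𝓞 F) := by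
        exact_mod_cast (congrArg (fun z : ℤ => (z : 𝓞 F)) huw).symm
      rw [e]
      exact Ideal.add_mem _ (Ideal.mul_mem_left _ _ hqv) (Ideal.mul_mem_left _ _ hWv)
    haveI hmax : v.asIdeal.IsMaximal := v.isMaximal
    letI : Field (𝓞 F ⧸ v.asIdeal) := Ideal.Quotient.field v.asIdeal
    have e : rd v.asIdeal (f.scaleRoots (D : 𝓞 F)) =
        (rd v.asIdeal f).scaleRoots (Ideal.Quotient.mk v.asIdeal (D : 𝓞 F)) := by
      unfold rd
      rw [map_scaleRoots]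
      rw [hm.leadingCoeff, map_one]
      exact one_ne_zero
    rw [e, hrd]
    refine Pool.Agent.N170.PF.irr_scale ?_ (hirrW v hWv)
    intro h0
    exact hDv (Ideal.Quotient.eq_zero_iff_mem.1 h0)
  · intro M _ _ _ _ n hn hA
    have hDQ : DQ F M J 𝔮 := by
      intro q hq w hw
      obtain ⟨h1, h2⟩ := hA.sig (below F w) ⟨q, hJ hq, hw⟩
      exact dns_of_deg1 h1 h2
    have hf : f = pol (f.coeff 1) (f.coeff 0) := eq_pol hF.ht
    have h0 : f.coeff 2 = 0 := by rw [hf, pol_coeff2]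
    have hWv : ∀ v : HeightOneSpectrum (𝓞 F), (2 : 𝓞 F) ∈ v.asIdeal → (W : 𝓞 F) ∈ v.asIdeal := by
      intro v hv
      obtain ⟨m, hm'⟩ := (by norm_num : 2 ∣ 4).trans h4W
      rw [hm', Nat.cast_mul]
      exact Ideal.mul_mem_right _ _ (by exact_mod_cast hv)
    have hf₁' : f₁ = pol (f₁.coeff 1) (f₁.coeff 0) := f_eq hf₁.mon hf₁.deg hf₁.tr
    have hT : TC2 F F M f J 𝔮 := by
      refine ⟨?_, ?_, hDQ, ?_⟩
      · intro v _
        by_cases ht : ∃ t : 𝓞 F, (f.scaleRoots (D : 𝓞 F)).eval t ∈ v.asIdeal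
        · exact Or.inl (hA.unr v (Or.inr ht))
        · refine Or.inr ?_
          rw [fo_self]
          refine irr_of_no_root hm hd v fun t htv => ht ⟨(D : 𝓞 F) * t, ?_⟩
          rw [eval_scale hd]
          exact Ideal.mul_mem_left _ _ htv
      · intro v hv
        rw [fo_self]
        refine ⟨hA.unr v (Or.inl hv), ?_, typ2_congr h4W hf hf₁' hF.one hv (htyp v hv)⟩
        rw [Pool.Agent.N78.PF.rd_eq (Pool.Agent.N78.PF.sp_le (hWv v hv)) hF.one]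
        exact hirrW v (hWv v hv)
      · intro σ
        refine Or.inr ?_
        have hσ : σ.comp (algebraMap F F) = σ := by
          rw [Algebra.algebraMap_self, RingHom.comp_id]
        rw [hσ]
        have h5 : 0 < 4 * (σ (f.coeff 1 : F)) ^ 3 + 27 * (σ (f.coeff 0 : F)) ^ 2 := by
          have h := hSg σ
          push_cast at h
          simp only [map_add, map_mul, map_pow, map_ofNat, map_natCast] at h
          exact h
        obtain ⟨e, z, hz, he, hze⟩ := exists_ez h5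
        have hmapf : (fF f).map σ = X ^ 3 + C (σ (f.coeff 1 : F)) * X + C (σ (f.coeff 0 : F)) := by
          conv_lhs => rw [hf]
          unfold pol fF
          simp
        refine ⟨e, z, hz, ?_, ?_⟩
        · rw [hmapf]
          simpa using he
        · rw [hmapf]
          simpa using hze
    have hMK := tower2 H hd h0 n F M hn hT hPK
    have hirrM : Irreducible (fb M f) :=
      Pool.Agent.N874.JM.irr_up hn hirr (hm.map _) (by
        rw [hm.natDegree_map, hd]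
        decide)
    have h6 := selM H hMK hDQ hirrM
    rw [← hD, fo_scale hm] at h6
    exact h6

end Pool.Agent.H459.UF
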