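import Pool.Agent.H459.UF.FamW
import Pool.Graph.R_pool_sql_team_seeded_63374d34.N738.PJ.Exs
import Pool.Graph.R_pool_sql_team_seeded_63374d34.N61.PF.Fin1

/-!
# The conditions at the small primes (helper459)
-/

set_option autoImplicit false
set_option linter.all false

open Polynomial NumberField IsDedekindDomain
open scoped Classical

namespace Pool.Agent.H459.UF

open Pool.Agent.N783.PF (Bd Cg sp rd Ht GoodS GoodF Fam)
open Pool.Agent.N61.PF (pol pol_monic pol_natDegree pol_coeff0 pol_coeff1 pol_coeff2)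

/-- An irreducible cubic without quadratic term over a finite field. -/
theorem exists_cub (k : Type) [Field k] [Finite k] : ∃ a b : k,
    Irreducible (X ^ 3 + C a * X + C b : k[X]) := by
  have hdeg : ∀ a b : k, (X ^ 3 + C a * X + C b : k[X]).natDegree = 3 := by
    intro a b
    compute_degree!
  have hmon : ∀ a b : k, (X ^ 3 + C a * X + C b : k[X]).Monic := by
    intro a b
    monicity!
  by_cases h3 : ((3 : ℕ) : k) = 0
  · have hni : ¬ Function.Injective (fun t : k => t ^ 3 - t) := by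
      intro hi
      have : (0 : k) = 1 := hi (by simp)
      exact zero_ne_one this
    have hns : ¬ Function.Surjective (fun t : k => t ^ 3 - t) := fun hs =>
      hni (Finite.injective_iff_surjective.2 hs)
    rw [Function.Surjective, not_forall] at hns
    obtain ⟨c, hc⟩ := hns
    refine ⟨-1, -c, ?_⟩
    rw [(hmon _ _).irreducible_iff_roots_eq_zero_of_degree_le_three (by rw [hdeg]; norm_num)
      (by rw [hdeg]), Multiset.eq_zero_iff_forall_notMem]
    intro t ht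
    rw [mem_roots (hmon _ _).ne_zero, IsRoot] at ht
    apply hc
    refine ⟨t, ?_⟩
    simp only [eval_add, eval_mul, eval_pow, eval_X, eval_C] at ht
    show t ^ 3 - t = c
    linear_combination ht
  · obtain ⟨r, h1, h2, h4, h5⟩ := Pool.Agent.N738.PJ.exists_irr0 k 3 (by norm_num) h3
    refine ⟨r.coeff 1, r.coeff 0, ?_⟩
    have e : r = X ^ 3 + C (r.coeff 1) * X + C (r.coeff 0) := by
      conv_lhs => rw [h1.as_sum, h4]
      rw [Finset.sum_range_succ, Finset.sum_range_succ, Finset.sum_range_succ,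
        Finset.sum_range_zero]
      have h6 : r.coeff 2 = 0 := h5
      rw [h6]
      simp
      ring
    rw [← e]
    exact h2

/-- The equation `y² = f(x)` has reduction of Kodaira type II at `𝔭`. -/
def Typ2 {F : Type} [Field F] [NumberField F] (𝔭 : Ideal (𝓞 F)) (f : (𝓞 F)[X]) : Prop :=
  ∃ r y : 𝓞 F, (derivative f).eval r ∈ 𝔭 ∧ f.eval r - y ^ 2 ∈ 𝔭 ∧ f.eval r - y ^ 2 ∉ 𝔭 ^ 2

theorem pol_eval {F : Type} [Field F] [NumberField F] (a b r : 𝓞 F) :
    (pol a b).eval r = r ^ 3 + a * r + b := by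
  unfold pol
  simp

theorem pol_der {F : Type} [Field F] [NumberField F] (a b r : 𝓞 F) :
    (derivative (pol a b)).eval r = 3 * r ^ 2 + a := by
  unfold pol
  simp
  left
  norm_num

theorem rd_pol {F : Type} [Field F] [NumberField F] (𝔭 : Ideal (𝓞 F)) (a b : 𝓞 F) :
    rd 𝔭 (pol a b) = X ^ 3 + C (Ideal.Quotient.mk 𝔭 a) * X + C (Ideal.Quotient.mk 𝔭 b) := by
  unfold pol rd
  simp

theorem exists_loc {F : Type} [Field F] [NumberField F] (v : HeightOneSpectrum (𝓞 F)) :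
    ∃ a b : 𝓞 F, Irreducible (rd v.asIdeal (pol a b)) ∧
      ((2 : 𝓞 F) ∈ v.asIdeal → Typ2 v.asIdeal (pol a b)) := by
  haveI hmax : v.asIdeal.IsMaximal := v.isMaximal
  letI : Field (𝓞 F ⧸ v.asIdeal) := Ideal.Quotient.field v.asIdeal
  haveI hfin : Finite (𝓞 F ⧸ v.asIdeal) := Ideal.finiteQuotientOfFreeOfNeBot v.asIdeal v.ne_bot
  obtain ⟨a', b', hirr⟩ := exists_cub (𝓞 F ⧸ v.asIdeal)
  obtain ⟨a, rfl⟩ := Ideal.Quotient.mk_surjective a'
  obtain ⟨b, rfl⟩ := Ideal.Quotient.mk_surjective b'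
  rw [← rd_pol] at hirr
  by_cases h2 : (2 : 𝓞 F) ∈ v.asIdeal
  · have hsq : ∀ x : 𝓞 F, ∃ y : 𝓞 F, x - y ^ 2 ∈ v.asIdeal := by
      intro x
      haveI : CharP (𝓞 F ⧸ v.asIdeal) 2 := by
        refine CharTwo.of_one_ne_zero_of_two_eq_zero one_ne_zero ?_
        have := Ideal.Quotient.eq_zero_iff_mem.2 h2
        rwa [map_ofNat] at this
      haveI : Fintype (𝓞 F ⧸ v.asIdeal) := Fintype.ofFinite _
      obtain ⟨z, hz⟩ := FiniteField.isSquare_of_char_two (ringChar.eq _ 2)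
        (Ideal.Quotient.mk v.asIdeal x)
      obtain ⟨y, rfl⟩ := Ideal.Quotient.mk_surjective z
      refine ⟨y, ?_⟩
      rw [← Ideal.Quotient.eq, hz, pow_two, map_mul]
    obtain ⟨r, hr⟩ := hsq a
    obtain ⟨y, hy⟩ := hsq ((pol a b).eval r)
    have hder : ∀ c : 𝓞 F, (derivative (pol a c)).eval r ∈ v.asIdeal := by
      intro c
      rw [pol_der]
      have e : 3 * r ^ 2 + a = 2 * (r ^ 2 + a) - (a - r ^ 2) := by ring
      rw [e]
      exact Ideal.sub_mem _ (Ideal.mul_mem_right _ _ h2) hr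
    by_cases h4 : (pol a b).eval r - y ^ 2 ∈ v.asIdeal ^ 2
    · obtain ⟨π, hπ1, hπ2⟩ : ∃ π ∈ v.asIdeal, π ∉ v.asIdeal ^ 2 := by
        have hlt : v.asIdeal ^ 2 < v.asIdeal := by
          have h5 : v.asIdeal ^ 2 < v.asIdeal ^ 1 :=
            Ideal.pow_right_strictAnti v.asIdeal v.ne_bot v.isPrime.ne_top (by norm_num)
          rwa [pow_one] at h5
        obtain ⟨π, h6, h7⟩ := SetLike.exists_of_lt hlt
        exact ⟨π, h6, h7⟩
      refine ⟨a, b + π, ?_, fun _ => ⟨r, y, hder _, ?_, ?_⟩⟩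
      · have e : rd v.asIdeal (pol a (b + π)) = rd v.asIdeal (pol a b) := by
          rw [rd_pol, rd_pol, map_add, Ideal.Quotient.eq_zero_iff_mem.2 hπ1, add_zero]
        rw [e]
        exact hirr
      · rw [pol_eval]
        rw [pol_eval] at hy
        have e : r ^ 3 + a * r + (b + π) - y ^ 2 = (r ^ 3 + a * r + b - y ^ 2) + π := by ring
        rw [e]
        exact Ideal.add_mem _ hy hπ1
      · rw [pol_eval] at h4 ⊢
        intro h5
        apply hπ2
        have e : π = (r ^ 3 + a * r + (b + π) - y ^ 2) - (r ^ 3 + a * r + b - y ^ 2) := by ring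
        rw [e]
        exact Ideal.sub_mem _ h5 h4
    · exact ⟨a, b, hirr, fun _ => ⟨r, y, hder _, hy, h4⟩⟩
  · exact ⟨a, b, hirr, fun h => absurd h h2⟩

theorem gfW (F : Type) [Field F] [NumberField F] (N M : ℕ) (hN : 0 < N) :
    ∃ (W : ℕ) (f₁ : (𝓞 F)[X]), GoodF 1 W f₁ ∧ N ∣ W ∧ 4 ∣ W ∧
      (∀ p : ℕ, p.Prime → p ≤ M → p ∣ W) ∧
      (∀ v : HeightOneSpectrum (𝓞 F), (W : 𝓞 F) ∈ v.asIdeal →
        Irreducible (rd v.asIdeal f₁)) ∧
      ∀ v : HeightOneSpectrum (𝓞 F), (2 : 𝓞 F) ∈ v.asIdeal → Typ2 v.asIdeal f₁ := by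
  obtain ⟨W, hW⟩ : ∃ W : ℕ, W = 4 * N * primorial M := ⟨_, rfl⟩
  have hW0 : 0 < W := by
    rw [hW]
    exact Nat.mul_pos (Nat.mul_pos (by norm_num) hN) (primorial_pos _)
  have h4W : 4 ∣ W := by rw [hW, mul_assoc]; exact dvd_mul_right _ _
  have hNW : N ∣ W := by
    rw [hW]
    exact Dvd.dvd.mul_right (dvd_mul_left _ _) _
  choose A B hA hB using exists_loc (F := F)
  have hWne : Ideal.span {(W : 𝓞 F)} ≠ 0 := by
    rw [Ne, Ideal.zero_eq_bot, Ideal.span_singleton_eq_bot]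
    exact_mod_cast hW0.ne'
  have hfinS := Ideal.finite_factors hWne
  set T : Finset (HeightOneSpectrum (𝓞 F)) := hfinS.toFinset with hT
  have hmem : ∀ v : HeightOneSpectrum (𝓞 F), (W : 𝓞 F) ∈ v.asIdeal → v ∈ T := by
    intro v hv
    rw [hT, Set.Finite.mem_toFinset, Set.mem_setOf_eq, Ideal.dvd_span_singleton]
    exact hv
  obtain ⟨a, ha⟩ := IsDedekindDomain.exists_forall_sub_mem_ideal (s := T)
      (fun v => v.asIdeal) (fun _ => 2) (fun v _ => v.prime)
      (fun v _ w _ hvw h => hvw (HeightOneSpectrum.ext h)) (fun v => A v)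
  obtain ⟨b, hb⟩ := IsDedekindDomain.exists_forall_sub_mem_ideal (s := T)
      (fun v => v.asIdeal) (fun _ => 2) (fun v _ => v.prime)
      (fun v _ w _ hvw h => hvw (HeightOneSpectrum.ext h)) (fun v => B v)
  have hirr : ∀ v : HeightOneSpectrum (𝓞 F), (W : 𝓞 F) ∈ v.asIdeal →
      Irreducible (rd v.asIdeal (pol a b)) := by
    intro v hv
    have h1 := Ideal.pow_le_self two_ne_zero (ha v (hmem v hv))
    have h2 := Ideal.pow_le_self two_ne_zero (hb v (hmem v hv))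
    have e : rd v.asIdeal (pol a b) = rd v.asIdeal (pol (A v) (B v)) := by
      rw [rd_pol, rd_pol, Ideal.Quotient.eq.2 h1, Ideal.Quotient.eq.2 h2]
    rw [e]
    exact hA v
  have h2W : ∀ 𝔭 : Ideal (𝓞 F), (2 : 𝓞 F) ∈ 𝔭 → (W : 𝓞 F) ∈ 𝔭 := by
    intro 𝔭 h
    obtain ⟨m, hm⟩ := h4W
    rw [hm, Nat.cast_mul]
    refine Ideal.mul_mem_right _ _ ?_
    have e : ((4 : ℕ) : 𝓞 F) = 2 * 2 := by norm_num
    rw [e]
    exact Ideal.mul_mem_right _ _ h
  have hne : ∀ 𝔭 : Ideal (𝓞 F), (W : 𝓞 F) ∈ 𝔭 → 𝔭 ≠ ⊥ := by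
    intro 𝔭 hm h0
    rw [h0, Ideal.mem_bot] at hm
    exact hW0.ne' (by exact_mod_cast hm)
  refine ⟨W, pol a b, ⟨pol_monic a b, pol_natDegree a b, pol_coeff2 a b, hW0,
    (by norm_num : 2 ∣ 4).trans h4W, ?_, ?_⟩, hNW, h4W, ?_, hirr, ?_⟩
  · intro 𝔭 hp h
    exact hirr ⟨𝔭, hp, hne 𝔭 (h2W 𝔭 h)⟩ (h2W 𝔭 h)
  · intro 𝔭 hp h
    have h1 := hirr ⟨𝔭, hp, hne 𝔭 h⟩ h
    haveI : Finite (𝓞 F ⧸ 𝔭) := Ideal.finiteQuotientOfFreeOfNeBot 𝔭 (hne 𝔭 h)
    haveI : IsDomain (𝓞 F ⧸ 𝔭) := Ideal.Quotient.isDomain 𝔭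
    exact Pool.Agent.N951.PF.sep_of_irr h1
  · intro p hp hpM
    rw [hW]
    exact Dvd.dvd.mul_left ((hp.dvd_primorial_iff).2 hpM) _
  · intro v hv
    obtain ⟨r, y, h1, h3, h4⟩ := hB v hv
    have ha' := ha v (hmem v (h2W _ hv))
    have hb' := hb v (hmem v (h2W _ hv))
    rw [pol_der] at h1
    rw [pol_eval] at h3 h4
    refine ⟨r, y, ?_, ?_, ?_⟩
    · rw [pol_der]
      have e : 3 * r ^ 2 + a = (3 * r ^ 2 + A v) + (a - A v) := by ring
      rw [e]
      exact Ideal.add_mem _ h1 (Ideal.pow_le_self two_ne_zero ha')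
    · rw [pol_eval]
      have e : r ^ 3 + a * r + b - y ^ 2 = (r ^ 3 + A v * r + B v - y ^ 2) +
          ((a - A v) * r + (b - B v)) := by ring
      rw [e]
      exact Ideal.add_mem _ h3 (Ideal.pow_le_self two_ne_zero
        (Ideal.add_mem _ (Ideal.mul_mem_right _ _ ha') hb'))
    · rw [pol_eval]
      intro h5
      apply h4
      have e : r ^ 3 + A v * r + B v - y ^ 2 = (r ^ 3 + a * r + b - y ^ 2) -
          ((a - A v) * r + (b - B v)) := by ring
      rw [e]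
      exact Ideal.sub_mem _ h5 (Ideal.add_mem _ (Ideal.mul_mem_right _ _ ha') hb')

end Pool.Agent.H459.UF
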