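import Pool.Agent.H459.UF.Quad

/-!
# The base field (helper459)
-/

set_option autoImplicit false
set_option linter.all false

open Polynomial IsDedekindDomain NumberField WithZero
open scoped Classical IntermediateField

namespace Pool.Agent.H459.UF

open Pool.Agent.N874.PP (Ev Sq1 U0)
open Pool.Agent.N874.JM (LocF)
open Pool.Agent.N783.PQ (LocIm)
open Pool.Agent.N783.PF (IsGen rd fF GoodS GoodF SqF Cg sp Ov Dp Fam LBad)
open Pool.Agent.N874.PM (ev_down sq_down ev_sq ev_mul)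
open Pool.Agent.N874.QM (locIm_congr locIm_sq locIm_map)
open Pool.Agent.N78.PF (eq_of_ov val_theta val_der rd_eq sp_le)

section transport

variable {F K L L' : Type} [Field F] [NumberField F] [Field K] [NumberField K] [Field L]
  [NumberField L] [Field L'] [NumberField L'] [Algebra F K] [Algebra K L] [Algebra K L']
  [Algebra L L'] [IsScalarTower K L L'] {f : (𝓞 F)[X]} {θ : L} {J : Finset ℕ}
  {𝔮 : ℕ → Ideal (𝓞 F)}

theorem dns_of_surj (hs : Function.Surjective (algebraMap L L')) (P : HeightOneSpectrum (𝓞 L')) :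
    Dns L P := by
  intro x n
  obtain ⟨y, rfl⟩ := hs x
  exact ⟨y, by rw [sub_self, map_zero]; exact zero_le⟩

theorem dns_lt {P : HeightOneSpectrum (𝓞 L')} (hdL : Dns L P) : ∀ s : L', s ≠ 0 → ∃ s₀ : L,
    P.valuation L' (s - algebraMap L L' s₀) < P.valuation L' s := by
  intro s hs
  obtain ⟨a, ha⟩ : ∃ a : ℤ, P.valuation L' s = WithZero.exp a :=
    ⟨WithZero.log _, (WithZero.exp_log ((Valuation.ne_zero_iff _).2 hs)).symm⟩
  obtain ⟨s₀, hs₀⟩ := hdL s ((-a + 1).toNat)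
  refine ⟨s₀, lt_of_le_of_lt hs₀ ?_⟩
  rw [ha]
  refine exp_lt ?_
  omega

/-- Transport to an isomorphic field. -/
theorem cnd_iso (hs : Function.Surjective (algebraMap L L')) {h : K[X]}
    (H : Cnd F f J 𝔮 (algebraMap L L' θ) h) : Cnd F f J 𝔮 θ h := by
  have hbb : ∀ P : HeightOneSpectrum (𝓞 L'), below K (below L P) = below K P := fun P =>
    below_below (F := K) (K := L) P
  refine ⟨?_, ?_, H.two, H.real⟩
  · intro P h1 h2 h3
    obtain ⟨P', rfl⟩ := exists_above (K := L) L' P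
    have hagr := agr_of_dns (dns_of_surj hs P')
    have h4 := H.ev P' (fun hm => h1 (by
      rw [mem_below, map_ofNat]
      exact hm)) (fun q hq hm => h2 q hq (by
      rw [mem_below, map_natCast]
      exact hm)) (by
      rw [aeval_algebraMap_apply, hagr]
      exact h3)
    rw [aeval_algebraMap_apply] at h4
    exact (ev_down hagr _).1 h4
  · intro q hq P h1 h2
    obtain ⟨P', rfl⟩ := exists_above (K := L) L' P
    have hdn := dns_of_surj hs P'
    have hagr := agr_of_dns hdn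
    have hu := H.u0 q hq P' (by
      rw [← hbb]
      exact h1) (by
      rw [hagr]
      exact h2)
    rw [aeval_algebraMap_apply] at hu
    refine ⟨fun h4 => sq_down hagr (dns_lt hdn) (hu.1 ((ev_down hagr _).2 h4)), fun h4 => ?_⟩
    have h5 := hu.2 fun h6 => h4 ((ev_down hagr _).1 h6)
    have e : algebraMap L L' (aeval θ h) * ((q : L') * algebraMap L L' θ) =
        algebraMap L L' (aeval θ h * ((q : L) * θ)) := by
      rw [map_mul, map_mul, map_natCast]
    rw [e] at h5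
    exact sq_down hagr (dns_lt hdn) h5

end transport

section base

variable {F : Type} [Field F] [NumberField F]

/-- The base case. -/
theorem base {g W : ℕ} {f f₁ : (𝓞 F)[X]} {S J : Finset ℕ} {𝔮 : ℕ → Ideal (𝓞 F)}
    {r Pp : ℕ → (𝓞 F)[X]} (hg : 1 ≤ g) (hm : f.Monic) (hd : f.natDegree = 2 * g + 1)
    (hsq : SqF g f) (hF : GoodF g W f₁) (hS : GoodS g W S 𝔮 r Pp) (hc1 : Cg (sp F W) f f₁)
    (hcq : ∀ q ∈ S, Cg (sp F q) f (Pp q)) (hJS : J ⊆ S)
    (L₀ : Type) [Field L₀] [NumberField L₀] [Algebra F L₀] (θ₀ : L₀) (hG₀ : IsGen g f θ₀)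
    (hcore : ∀ h : F[X], aeval θ₀ h ≠ 0 → IsSquare (Algebra.norm F (aeval θ₀ h)) →
      (∀ 𝔓 : HeightOneSpectrum (𝓞 L₀), (∀ q ∈ J, Ov (𝔮 q) 𝔓 → 𝔓.valuation L₀ θ₀ ≠ 1) →
        Ev 𝔓 (aeval θ₀ h)) →
      (∀ q ∈ J, ∀ 𝔓 : HeightOneSpectrum (𝓞 L₀), Ov (𝔮 q) 𝔓 → 𝔓.valuation L₀ θ₀ = 1 →
        U0 𝔓 ((q : L₀) * θ₀) (aeval θ₀ h)) →
      (∀ w : HeightOneSpectrum (𝓞 F), (2 : 𝓞 F) ∈ w.asIdeal →
        LocF (w.adicCompletion F) (fF f) h) →
      (∀ σ : F →+* ℝ, LocIm ℝ ((fF f).map σ) (h.map σ)) → IsSquare (aeval θ₀ h)) :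
    PK F F f J 𝔮 := by
  have hqpr : ∀ q ∈ S, (𝔮 q).IsPrime := by
    intro q hq
    obtain ⟨-, -, -, -, -, a1, -⟩ := hS q hq
    exact a1
  have hqne : ∀ q ∈ S, 𝔮 q ≠ ⊥ := by
    intro q hq h0
    obtain ⟨a1, -, -, -, -, -, a2, -⟩ := hS q hq
    rw [h0, Ideal.mem_bot] at a2
    exact a1.ne_zero (by exact_mod_cast a2)
  have hcQ : ∀ q ∈ S, Cg (𝔮 q) f (X * r q) := by
    intro q hq j
    obtain ⟨-, -, -, -, -, -, a2, -, -, -, -, -, -, a3, -⟩ := hS q hq
    have b1 := sp_le (F := F) a2 (hcq q hq j)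
    have b2 := a3 j
    have := Ideal.add_mem _ b1 b2
    simpa using this
  intro L _ _ _ θ hroot htop hrank h hne hN hcnd
  have hcL : Cub F f θ := ⟨hroot, htop, hrank⟩
  have hirr : Irreducible (fb F f) := hcL.irr hm
  have hmb : (fb F f).Monic := (hm.map _).map _
  have hroot₀ : aeval θ₀ (fb F f) = 0 := by
    rw [fb_self]
    exact hG₀.root
  have hmin₀ : minpoly F θ₀ = fb F f :=
    (minpoly.eq_of_irreducible_of_monic hirr hroot₀ hmb).symm
  have hdb : (fb F f).natDegree = f.natDegree := by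
    unfold fb fF
    rw [(hm.map _).natDegree_map, hm.natDegree_map]
  have htop₀ : F⟮θ₀⟯ = ⊤ := by
    rw [Field.primitive_element_iff_minpoly_natDegree_eq, hmin₀, hdb, hd, hG₀.rank]
  have hc₀ : Cub F f θ₀ := ⟨hroot₀, htop₀, by rw [hG₀.rank, hd]⟩
  obtain ⟨e₀, he₀⟩ := exists_equiv hm hc₀
  obtain ⟨e₁, he₁⟩ := exists_equiv hm hcL
  let e : L₀ ≃ₐ[F] L := e₀.symm.trans e₁
  have heh : ∀ p : F[X], e (aeval θ₀ p) = aeval θ p := by
    intro p
    show e₁ (e₀.symm (aeval θ₀ p)) = _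
    rw [← he₀ p, e₀.symm_apply_apply, he₁]
  have heθ : e θ₀ = θ := by
    have := heh X
    rwa [aeval_X, aeval_X] at this
  letI : Algebra L₀ L := (e : L₀ →+* L).toAlgebra
  haveI : IsScalarTower F L₀ L := IsScalarTower.of_algebraMap_eq fun x => (e.commutes x).symm
  have hsurj : Function.Surjective (algebraMap L₀ L) := e.surjective
  have hcnd₀ : Cnd F f J 𝔮 θ₀ h := by
    refine cnd_iso hsurj (L' := L) ?_
    have e1 : algebraMap L₀ L θ₀ = θ := heθ
    rw [e1]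
    exact hcnd
  have hne₀ : aeval θ₀ h ≠ 0 := by
    intro h0
    apply hne
    rw [← heh, h0, map_zero]
  have hN₀ : IsSquare (Algebra.norm F (aeval θ₀ h)) := by
    rw [← norm_mk hm hc₀, norm_mk hm hcL]
    exact hN
  suffices hgoal : IsSquare (aeval θ₀ h) by
    rw [← heh]
    exact hgoal.map e
  have hη : aeval θ₀ (derivative (fb F f)) = aeval θ₀ (derivative (fF f)) := by rw [fb_self]
  refine hcore h hne₀ hN₀ ?_ ?_ ?_ ?_
  · intro 𝔓 h𝔓
    obtain ⟨w, w1, w2, w3⟩ := Pool.Agent.N459.PF.lie F L₀ 𝔓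
    by_cases c2 : (2 : 𝓞 F) ∈ w.asIdeal
    · have hW : (W : 𝓞 F) ∈ w.asIdeal := by
        obtain ⟨k, hk⟩ := hF.two
        rw [hk]
        push_cast
        exact Ideal.mul_mem_right _ _ c2
      have e1 := rd_eq (sp_le hW) hc1
      exact pin hG₀ w.isPrime w.ne_bot (by rw [e1]; exact hF.irr _ w.isPrime c2) hne₀ hN₀ w1
    · by_cases cq : ∃ q ∈ J, (q : 𝓞 F) ∈ w.asIdeal
      · obtain ⟨q, hq, hqw⟩ := cq
        have hqS := hJS hq
        by_cases cw : w.asIdeal = 𝔮 q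
        · have o1 : Ov (𝔮 q) 𝔓 := by
            rw [← cw]
            exact w1
          have v1 : 𝔓.valuation L₀ θ₀ < 1 := lt_of_le_of_ne (val_theta hG₀ 𝔓) (h𝔓 q hq o1)
          exact Pool.Agent.N426.PF.parq Pool.Agent.N783.PF.int Pool.Agent.N783.PF.exq g W F L₀ f
            θ₀ S 𝔮 r Pp hg hG₀ hsq hS q hqS (hcQ q hqS) _ hne₀ hN₀ 𝔓 o1 v1
        · have e1 := rd_eq (sp_le hqw) (hcq q hqS)
          obtain ⟨-, -, -, -, -, -, -, -, -, -, -, -, -, -, a1⟩ := hS q hqS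
          exact pin hG₀ w.isPrime w.ne_bot
            (by rw [e1]; exact a1 _ w.isPrime hqw cw) hne₀ hN₀ w1
      · push Not at cq
        have hev : ∀ 𝔓' : HeightOneSpectrum (𝓞 L₀), Ov w.asIdeal 𝔓' →
            𝔓'.valuation L₀ (aeval θ₀ (derivative (fF f))) = 1 → Ev 𝔓' (aeval θ₀ h) := by
          intro 𝔓' o' cu
          have hb : below F 𝔓' = w := eq_below o'
          refine hcnd₀.ev 𝔓' (fun hm2 => c2 ?_) (fun q hq hmq => cq q hq ?_) (by rw [hη]; exact cu)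
          · rw [← hb, mem_below, map_ofNat]
            exact hm2
          · rw [← hb, mem_below, map_natCast]
            exact hmq
        by_cases cu : 𝔓.valuation L₀ (aeval θ₀ (derivative (fF f))) = 1
        · exact hev 𝔓 w1 cu
        · have v1 : 𝔓.valuation L₀ (aeval θ₀ (derivative (fF f))) < 1 :=
            lt_of_le_of_ne (val_der hG₀ 𝔓) cu
          obtain ⟨⟨c, hc⟩, hother⟩ := Pool.Agent.N459.PF.ram Pool.Agent.N783.PF.int g F L₀ f θ₀ hG₀
            hsq w.asIdeal w.isPrime w.ne_bot 𝔓 w1 v1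
          refine Pool.Agent.N426.PF.par Pool.Agent.N783.PF.int g F L₀ f θ₀ hG₀ hsq w.asIdeal
            w.isPrime w.ne_bot 𝔓 c w1 hc _ hne₀ hN₀ ?_
          intro 𝔓' o' n'
          exact hev 𝔓' o' (hother 𝔓' o' n')
  · intro q hq 𝔓 o1 v1
    refine hcnd₀.u0 q hq 𝔓 ?_ v1
    show (below F (below F 𝔓)).asIdeal = 𝔮 q
    rw [below_self]
    have hqS := hJS hq
    have hmax : (𝔮 q).IsMaximal := (hqpr q hqS).isMaximal (hqne q hqS)
    exact (hmax.eq_of_le (below F 𝔓).isPrime.ne_top fun a ha => (mem_below 𝔓 a).2 (o1 a ha)).symm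
  · intro w hw
    have := hcnd₀.two w hw
    rwa [fb_self] at this
  · intro σ
    have := hcnd₀.real σ
    rwa [fb_self] at this

end base

end Pool.Agent.H459.UF
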