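import Pool.Agent.H459.UF.Iner

/-!
# Completions at inert primes (helper459)
-/

set_option autoImplicit false
set_option linter.all false

open Polynomial IsDedekindDomain NumberField WithZero Filter Topology
open scoped Classical IntermediateField

namespace Pool.Agent.H459.UF

section lim

variable {L : Type} [Field L] [Valued L (WithZero (Multiplicative ℤ))] [CompleteSpace L]
  [T0Space L]

theorem exists_lim' {t : L} (ht : Valued.v (Γ₀ := WithZero (Multiplicative ℤ)) t < 1)
    (ht0 : t ≠ 0) {z : ℕ → L}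
    (hB : ∀ n, Valued.v (Γ₀ := WithZero (Multiplicative ℤ)) (z (n + 1) - z n) ≤
      Valued.v (Γ₀ := WithZero (Multiplicative ℤ)) (t ^ (n + 1))) :
    ∃ w : L, ∀ n : ℕ, Valued.v (Γ₀ := WithZero (Multiplicative ℤ)) (w - z n) ≤
        Valued.v (Γ₀ := WithZero (Multiplicative ℤ)) (t ^ n) := by
  obtain ⟨w, hw⟩ := exists_lim ht hB
  refine ⟨w, fun n => ?_⟩
  obtain ⟨N, hN, hN2⟩ := hw n ht0
  have hd : ∀ m, Valued.v (Γ₀ := WithZero (Multiplicative ℤ)) (z (n + m) - z n) ≤
      Valued.v (Γ₀ := WithZero (Multiplicative ℤ)) (t ^ n) := by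
    intro m
    induction m with
    | zero => rw [add_zero, sub_self, map_zero]; exact zero_le
    | succ m ih =>
      have e : z (n + (m + 1)) - z n = (z (n + m + 1) - z (n + m)) + (z (n + m) - z n) := by
        rw [← add_assoc]; ring
      rw [e]
      refine (Valuation.map_add _ _ _).trans (max_le ((hB _).trans ?_) ih)
      rw [map_pow, map_pow]
      exact pow_le_pow_right_of_le_one' ht.le (by omega)
  obtain ⟨m, rfl⟩ := Nat.exists_eq_add_of_le hN
  have e : w - z n = (w - z (n + m)) + (z (n + m) - z n) := by ring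
  rw [e]
  exact (Valuation.map_add _ _ _).trans (max_le hN2.le (hd m))

end lim

section cin

variable {K₁ K₂ : Type} [Field K₁] [NumberField K₁] [Field K₂] [NumberField K₂] [Algebra K₁ K₂]

theorem exp_pow_neg (n : ℕ) : (WithZero.exp (-1 : ℤ) : WithZero (Multiplicative ℤ)) ^ n =
    WithZero.exp (-(n : ℤ)) := by
  rw [← WithZero.exp_nsmul]
  congr 1
  simp

/-- The embedding of the completions preserves the valuations. -/
theorem exists_iota {w : HeightOneSpectrum (𝓞 K₂)} (hagr : Agr K₁ w) :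
    ∃ ι : (below K₁ w).adicCompletion K₁ →+* w.adicCompletion K₂,
      (∀ x : K₁, ι (algebraMap K₁ _ x) = algebraMap K₂ _ (algebraMap K₁ K₂ x)) ∧
      ∀ x, Valued.v (Γ₀ := WithZero (Multiplicative ℤ)) (ι x) =
        Valued.v (Γ₀ := WithZero (Multiplicative ℤ)) x := by
  obtain ⟨ι, hι, hι1, hι2⟩ := Pool.Agent.N814.JM.cpl K₁ K₂ (𝓞 K₁) (𝓞 K₂) (below K₁ w) w
    (lies_below' w)
  refine ⟨ι, hι, fun x => ?_⟩
  by_cases hx0 : x = 0
  · rw [hx0, map_zero, map_zero, map_zero]
  -- approximate `x` by an element of `K₁`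
  have hvx : Valued.v (Γ₀ := WithZero (Multiplicative ℤ)) x ≠ 0 := (Valuation.ne_zero_iff _).2 hx0
  obtain ⟨a, ha⟩ := Pool.Agent.N704.PP.near (below K₁ w) x hvx
  have ha1 : Valued.v (Γ₀ := WithZero (Multiplicative ℤ))
      (algebraMap K₁ ((below K₁ w).adicCompletion K₁) a) =
      Valued.v (Γ₀ := WithZero (Multiplicative ℤ)) x := by
    have e : algebraMap K₁ ((below K₁ w).adicCompletion K₁) a = x -
      (x - algebraMap K₁ ((below K₁ w).adicCompletion K₁) a) := by ring
    rw [e, Valuation.map_sub_eq_of_lt_left _ ha]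
  have ha0 : a ≠ 0 := by
    rintro rfl
    rw [map_zero, map_zero] at ha1
    exact hvx ha1.symm
  have ha0' : algebraMap K₁ ((below K₁ w).adicCompletion K₁) a ≠ 0 := (_root_.map_ne_zero _).2 ha0
  have h1 : Valued.v (Γ₀ := WithZero (Multiplicative ℤ))
      (x / algebraMap K₁ ((below K₁ w).adicCompletion K₁) a) ≤ 1 := by
    rw [map_div₀, ha1, div_self hvx]
  have h2 : Valued.v (Γ₀ := WithZero (Multiplicative ℤ))
      (algebraMap K₁ ((below K₁ w).adicCompletion K₁) a / x) ≤ 1 := by
    rw [map_div₀, ha1, div_self hvx]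
  have h3 := hι1 _ h1
  have h4 := hι1 _ h2
  rw [map_div₀, map_div₀, hι, Pool.Agent.N704.PP.vx, hagr, ← Pool.Agent.N704.PP.vx, ha1] at h3 h4
  have hpos : (0 : WithZero (Multiplicative ℤ)) < Valued.v (Γ₀ := WithZero (Multiplicative ℤ)) x :=
    zero_lt_iff.2 hvx
  have hx0' : ι x ≠ 0 := (_root_.map_ne_zero _).2 hx0
  have hpos' : (0 : WithZero (Multiplicative ℤ)) <
    Valued.v (Γ₀ := WithZero (Multiplicative ℤ)) (ι x) :=
    zero_lt_iff.2 ((Valuation.ne_zero_iff _).2 hx0')
  exact le_antisymm ((div_le_one₀ hpos).1 h3) ((div_le_one₀ hpos').1 h4)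

theorem eq_of_forall_le {L : Type} [Field L] {v : Valuation L (WithZero (Multiplicative ℤ))}
    {x y : L} (h : ∀ n : ℕ, v (x - y) ≤ WithZero.exp (-(n : ℤ))) : x = y := by
  by_contra hne
  have h0 : v (x - y) ≠ 0 := by
    rw [Valuation.ne_zero_iff, sub_ne_zero]
    exact hne
  obtain ⟨b, hb⟩ : ∃ b : ℤ, v (x - y) = WithZero.exp b := ⟨WithZero.log _, (WithZero.exp_log h0).symm⟩
  have h1 := h ((-b).toNat + 1)
  rw [hb, WithZero.exp_le_exp] at h1
  push_cast at h1
  omega

theorem inert_cpl (h2 : Module.finrank K₁ K₂ = 2) {w : HeightOneSpectrum (𝓞 K₂)}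
    (hu : Unr K₁ K₂ (below K₁ w)) {s : K₂} {n : K₁}
    (hs : s ^ 2 - s + algebraMap K₁ K₂ n = 0) (hn : (below K₁ w).valuation K₁ n = 1)
    (hsn : ∀ a : K₁, ¬ w.valuation K₂ (s - algebraMap K₁ K₂ a) < 1) :
    ∃ ι : (below K₁ w).adicCompletion K₁ →+* w.adicCompletion K₂,
      (∀ x : K₁, ι (algebraMap K₁ _ x) = algebraMap K₂ _ (algebraMap K₁ K₂ x)) ∧
      (∀ x, Valued.v (Γ₀ := WithZero (Multiplicative ℤ)) (ι x) =
        Valued.v (Γ₀ := WithZero (Multiplicative ℤ)) x) ∧
      (∀ y, ∃ a b, y = ι a + ι b * algebraMap K₂ (w.adicCompletion K₂) s) ∧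
      (∀ a, ¬ Valued.v (Γ₀ := WithZero (Multiplicative ℤ))
        (algebraMap K₂ (w.adicCompletion K₂) s - ι a) < 1) := by
  have hagr := agr_of_unr w hu
  obtain ⟨ι, hι, hιv⟩ := exists_iota hagr
  obtain ⟨π, hπ, hπw⟩ := exists_unif_of_unr w hu
  have hws : w.valuation K₂ s ≤ 1 := by
    by_contra hc
    rw [not_le] at hc
    have h1 : w.valuation K₂ s < w.valuation K₂ (s ^ 2) := by
      rw [map_pow]
      calc w.valuation K₂ s = w.valuation K₂ s ^ 1 := (pow_one _).symm
        _ < w.valuation K₂ s ^ 2 := pow_lt_pow_right₀ hc (by norm_num)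
    have h3 : s ^ 2 = s - algebraMap K₁ K₂ n := by linear_combination hs
    have h4 : w.valuation K₂ (s ^ 2) ≤ w.valuation K₂ s := by
      rw [h3]
      refine (Valuation.map_sub _ _ _).trans (max_le le_rfl ?_)
      rw [hagr, hn]
      exact hc.le
    exact absurd h1 (not_lt.2 h4)
  -- orthogonality
  have horth : ∀ a b : K₁, (below K₁ w).valuation K₁ b ≤
      w.valuation K₂ (algebraMap K₁ K₂ a + algebraMap K₁ K₂ b * s) ∧
      (below K₁ w).valuation K₁ a ≤
      w.valuation K₂ (algebraMap K₁ K₂ a + algebraMap K₁ K₂ b * s) := by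
    intro a b
    have hb : (below K₁ w).valuation K₁ b ≤
        w.valuation K₂ (algebraMap K₁ K₂ a + algebraMap K₁ K₂ b * s) := by
      by_cases hb0 : b = 0
      · rw [hb0, map_zero]
        exact zero_le
      have hb0' : algebraMap K₁ K₂ b ≠ 0 := (_root_.map_ne_zero _).2 hb0
      have e : algebraMap K₁ K₂ a + algebraMap K₁ K₂ b * s =
          algebraMap K₁ K₂ b * (s - algebraMap K₁ K₂ (-a / b)) := by
        rw [map_div₀, map_neg]
        field_simp
        ring
      rw [e, map_mul, hagr]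
      exact le_mul_of_one_le_right' (not_lt.1 (hsn _))
    refine ⟨hb, ?_⟩
    rw [← hagr a]
    have e : algebraMap K₁ K₂ a = (algebraMap K₁ K₂ a + algebraMap K₁ K₂ b * s) -
        algebraMap K₁ K₂ b * s := by ring
    rw [e]
    refine (Valuation.map_sub _ _ _).trans (max_le ?_ ?_)
    · rw [← e]
    · rw [map_mul, hagr, ← e]
      exact (mul_le_of_le_one_right' hws).trans hb
  have hsK : ∀ a : K₁, algebraMap K₁ K₂ a ≠ s := by
    intro a ha
    apply hsn a
    rw [ha, sub_self, map_zero]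
    exact zero_lt_one
  -- the basis
  have hbas : ∀ x : K₂, ∃ a b : K₁, x = algebraMap K₁ K₂ a + algebraMap K₁ K₂ b * s := by
    have hli : LinearIndependent K₁ ![(1 : K₂), s] := by
      rw [LinearIndependent.pair_iff]
      intro a b hab
      rw [Algebra.smul_def, Algebra.smul_def, mul_one] at hab
      have hb0 : b = 0 := by
        by_contra hb0
        have hb0' : algebraMap K₁ K₂ b ≠ 0 := (_root_.map_ne_zero _).2 hb0
        apply hsK (-a / b)
        rw [map_div₀, map_neg]
        field_simp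
        linear_combination -hab
      rw [hb0, map_zero, zero_mul, add_zero] at hab
      exact ⟨(map_eq_zero _).1 hab, hb0⟩
    haveI : FiniteDimensional K₁ K₂ := FiniteDimensional.of_finrank_pos (by omega)
    have hsp := hli.span_eq_top_of_card_eq_finrank (by simp [h2])
    intro x
    have hx : x ∈ Submodule.span K₁ (Set.range ![(1 : K₂), s]) := by
      rw [hsp]
      trivial
    rw [Matrix.range_cons, Matrix.range_cons, Matrix.range_empty, Set.union_empty,
      Set.singleton_union, Submodule.mem_span_pair] at hx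
    obtain ⟨a, b, hab⟩ := hx
    refine ⟨a, b, ?_⟩
    rw [← hab, Algebra.smul_def, Algebra.smul_def, mul_one]
  refine ⟨ι, hι, hιv, ?_, ?_⟩
  · intro y
    have hex : ∀ N : ℕ, ∃ a b : K₁, Valued.v (Γ₀ := WithZero (Multiplicative ℤ))
        (y - algebraMap K₂ (w.adicCompletion K₂) (algebraMap K₁ K₂ a + algebraMap K₁ K₂ b * s)) ≤
        WithZero.exp (-((N + 1 : ℕ) : ℤ)) := by
      intro N
      obtain ⟨x, hx⟩ := Pool.Agent.N704.PP.near w y
        (γ := WithZero.exp (-((N + 1 : ℕ) : ℤ))) WithZero.exp_ne_zero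
      obtain ⟨a, b, rfl⟩ := hbas x
      exact ⟨a, b, hx.le⟩
    choose a b hab using hex
    set t : (below K₁ w).adicCompletion K₁ := algebraMap K₁ _ π with ht
    have htv : Valued.v (Γ₀ := WithZero (Multiplicative ℤ)) t = WithZero.exp (-1 : ℤ) := by
      rw [ht, Pool.Agent.N704.PP.vx, hπ]
    have hlt : (WithZero.exp (-1 : ℤ) : WithZero (Multiplicative ℤ)) < 1 := by
      rw [← WithZero.exp_zero]
      exact exp_lt (by norm_num)
    have ht0 : t ≠ 0 := by
      intro h0
      rw [h0, map_zero] at htv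
      exact WithZero.exp_ne_zero htv.symm
    have hdiff : ∀ N, w.valuation K₂ (algebraMap K₁ K₂ (a (N + 1) - a N) +
        algebraMap K₁ K₂ (b (N + 1) - b N) * s) ≤ WithZero.exp (-((N + 1 : ℕ) : ℤ)) := by
      intro N
      rw [← Pool.Agent.N704.PP.vx w]
      have e : algebraMap K₂ (w.adicCompletion K₂) (algebraMap K₁ K₂ (a (N + 1) - a N) +
          algebraMap K₁ K₂ (b (N + 1) - b N) * s) =
          (y - algebraMap K₂ (w.adicCompletion K₂) (algebraMap K₁ K₂ (a N) +
            algebraMap K₁ K₂ (b N) * s)) -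
          (y - algebraMap K₂ (w.adicCompletion K₂) (algebraMap K₁ K₂ (a (N + 1)) +
            algebraMap K₁ K₂ (b (N + 1)) * s)) := by
        simp only [map_sub, map_add, map_mul]
        ring
      rw [e]
      refine (Valuation.map_sub _ _ _).trans (max_le (hab N) ((hab (N + 1)).trans ?_))
      rw [WithZero.exp_le_exp]
      push_cast
      omega
    have hza : ∀ N : ℕ, Valued.v (Γ₀ := WithZero (Multiplicative ℤ))
        (algebraMap K₁ ((below K₁ w).adicCompletion K₁) (a (N + 1)) -
          algebraMap K₁ ((below K₁ w).adicCompletion K₁) (a N)) ≤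
        Valued.v (Γ₀ := WithZero (Multiplicative ℤ)) (t ^ (N + 1)) := by
      intro N
      rw [← map_sub, Pool.Agent.N704.PP.vx, map_pow, htv, exp_pow_neg]
      exact (horth _ _).2.trans (hdiff N)
    have hzb : ∀ N : ℕ, Valued.v (Γ₀ := WithZero (Multiplicative ℤ))
        (algebraMap K₁ ((below K₁ w).adicCompletion K₁) (b (N + 1)) -
          algebraMap K₁ ((below K₁ w).adicCompletion K₁) (b N)) ≤
        Valued.v (Γ₀ := WithZero (Multiplicative ℤ)) (t ^ (N + 1)) := by
      intro N
      rw [← map_sub, Pool.Agent.N704.PP.vx, map_pow, htv, exp_pow_neg]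
      exact (horth _ _).1.trans (hdiff N)
    obtain ⟨α, hα⟩ := exists_lim' (z := fun N => algebraMap K₁ ((below K₁ w).adicCompletion K₁)
      (a N)) (t := t) (by rw [htv]; exact hlt) ht0 hza
    obtain ⟨β, hβ⟩ := exists_lim' (z := fun N => algebraMap K₁ ((below K₁ w).adicCompletion K₁)
      (b N)) (t := t) (by rw [htv]; exact hlt) ht0 hzb
    refine ⟨α, β, ?_⟩
    refine eq_of_forall_le (v := Valued.v) fun N => ?_
    have e : y - (ι α + ι β * algebraMap K₂ (w.adicCompletion K₂) s) =
        (y - algebraMap K₂ (w.adicCompletion K₂) (algebraMap K₁ K₂ (a N) +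
          algebraMap K₁ K₂ (b N) * s)) -
        (ι (α - algebraMap K₁ ((below K₁ w).adicCompletion K₁) (a N)) +
          ι (β - algebraMap K₁ ((below K₁ w).adicCompletion K₁) (b N)) *
            algebraMap K₂ (w.adicCompletion K₂) s) := by
      rw [map_sub, map_sub, hι, hι, map_add, map_mul]
      ring
    rw [e]
    refine (Valuation.map_sub _ _ _).trans (max_le ((hab N).trans ?_)
      ((Valuation.map_add _ _ _).trans (max_le ?_ ?_)))
    · rw [WithZero.exp_le_exp]
      push_cast
      omega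
    · rw [hιv]
      refine (hα N).trans ?_
      rw [map_pow, htv, exp_pow_neg]
    · rw [map_mul, hιv, Pool.Agent.N704.PP.vx]
      refine (mul_le_of_le_one_right' hws).trans ((hβ N).trans ?_)
      rw [map_pow, htv, exp_pow_neg]
  · intro a ha
    obtain ⟨a₀, ha₀⟩ := Pool.Agent.N704.PP.near_one (below K₁ w) a
    apply hsn a₀
    rw [← Pool.Agent.N704.PP.vx w, map_sub]
    have e : algebraMap K₂ (w.adicCompletion K₂) s -
        algebraMap K₂ (w.adicCompletion K₂) (algebraMap K₁ K₂ a₀) =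
        (algebraMap K₂ (w.adicCompletion K₂) s - ι a) +
          ι (a - algebraMap K₁ ((below K₁ w).adicCompletion K₁) a₀) := by
      rw [map_sub, hι]
      ring
    rw [e]
    refine (Valuation.map_add _ _ _).trans_lt (max_lt ha ?_)
    rw [hιv]
    exact ha₀

end cin

end Pool.Agent.H459.UF
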