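import Pool.Agent.H459.UF.Base
import Pool.Graph.R_pool_sql_team_seeded_63374d34.N530.QM.Farc
import Pool.Graph.R_pool_sql_team_seeded_63374d34.N814.JM.Cpl
import Pool.Graph.R_pool_sql_team_seeded_63374d34.N704.PP.Loc

/-!
# The completions at the primes at which `K` is dense (helper459)
-/

set_option autoImplicit false
set_option linter.all false

open Polynomial IsDedekindDomain NumberField WithZero Filter Topology
open scoped Classical IntermediateField

namespace Pool.Agent.H459.UF

open Pool.Agent.N874.JM (LocF)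
open Pool.Agent.N783.PQ (LocIm)
open Pool.Agent.N874.QM (locIm_congr locIm_sq locIm_map)

section lim

variable {L : Type} [Field L] [Valued L (WithZero (Multiplicative ℤ))] [CompleteSpace L]
  [T0Space L]

/-- Limits of sequences with small differences. -/
theorem exists_lim {t : L} (ht : Valued.v (Γ₀ := WithZero (Multiplicative ℤ)) t < 1) {z : ℕ → L}
    (hB : ∀ n, Valued.v (Γ₀ := WithZero (Multiplicative ℤ)) (z (n + 1) - z n) ≤
      Valued.v (Γ₀ := WithZero (Multiplicative ℤ)) (t ^ (n + 1))) :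
    ∃ w : L, ∀ n : ℕ, t ≠ 0 → ∃ N, n ≤ N ∧
      Valued.v (Γ₀ := WithZero (Multiplicative ℤ)) (w - z N) <
        Valued.v (Γ₀ := WithZero (Multiplicative ℤ)) (t ^ n) := by
  haveI := Pool.Agent.N704.PJ.nonarch (L := L)
  have hlim : Tendsto (fun n => z (n + 1) - z n) atTop (𝓝 0) := by
    have h3 : Tendsto (fun n : ℕ => t ^ (n + 1)) atTop (𝓝 0) :=
      (Valued.tendsto_zero_pow_of_v_lt_one ht).comp (tendsto_add_atTop_nat 1)
    rw [(Valued.hasBasis_nhds_zero L _).tendsto_right_iff] at h3 ⊢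
    intro γ hγ
    filter_upwards [h3 γ hγ] with n hn
    have h4 : (Valued.v (R := L)).restrict (z (n + 1) - z n) ≤
        (Valued.v (R := L)).restrict (t ^ (n + 1)) :=
      (Valuation.restrict_le_iff _).2 (hB n)
    exact lt_of_le_of_lt h4 hn
  have hcau : CauchySeq z := NonarchimedeanAddGroup.cauchySeq_of_tendsto_sub_nhds_zero hlim
  obtain ⟨w, hw⟩ := cauchySeq_tendsto_of_complete hcau
  refine ⟨w, fun n h0 => ?_⟩
  have hg : (Valued.v (R := L)).restrict (t ^ n) ≠ 0 := by
    rw [Valuation.ne_zero_iff]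
    exact pow_ne_zero n h0
  have h1 : {y : L | (Valued.v (R := L)).restrict (y - w) <
      (Units.mk0 ((Valued.v (R := L)).restrict (t ^ n)) hg).1} ∈ 𝓝 w := by
    rw [Valued.mem_nhds]
    exact ⟨_, subset_rfl⟩
  obtain ⟨N, hN1, hN2⟩ := ((eventually_ge_atTop n).and (hw.eventually h1)).exists
  refine ⟨N, hN1, ?_⟩
  have h2 : (Valued.v (R := L)).restrict (z N - w) < (Valued.v (R := L)).restrict (t ^ n) := hN2
  rw [Valuation.restrict_lt_iff, Valuation.map_sub_swap] at h2
  exact h2

end lim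

section surj

variable {K₁ K₂ : Type} [Field K₁] [NumberField K₁] [Field K₂] [NumberField K₂] [Algebra K₁ K₂]

theorem lies_below' (w : HeightOneSpectrum (𝓞 K₂)) :
    Pool.Agent.N874.PM.Lies (M := K₁) (Ω := K₂) (below K₁ w) w := lies_below w

/-- The map of the completions is surjective at the primes at which `K₁` is dense. -/
theorem cpl_surj {w : HeightOneSpectrum (𝓞 K₂)} (hd : Dns K₁ w) :
    ∃ j : w.adicCompletion K₂ →+* (below K₁ w).adicCompletion K₁,
      ∀ x : K₁, j (algebraMap K₂ (w.adicCompletion K₂) (algebraMap K₁ K₂ x)) =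
        algebraMap K₁ ((below K₁ w).adicCompletion K₁) x := by
  obtain ⟨ι, hι, hι1, hι2⟩ := Pool.Agent.N814.JM.cpl K₁ K₂ (𝓞 K₁) (𝓞 K₂) (below K₁ w) w
    (lies_below' w)
  have hagr := agr_of_dns hd
  obtain ⟨π, hπ⟩ := exists_unif (K := K₁) (below K₁ w)
  have hπw : w.valuation K₂ (algebraMap K₁ K₂ π) = WithZero.exp (-1 : ℤ) := by rw [hagr, hπ]
  have hpow : ∀ n : ℕ, (WithZero.exp (-1 : ℤ) : WithZero (Multiplicative ℤ)) ^ n =
      WithZero.exp (-(n : ℤ)) := by
    intro n
    rw [← WithZero.exp_nsmul]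
    congr 1
    simp
  have hlt : (WithZero.exp (-1 : ℤ) : WithZero (Multiplicative ℤ)) < 1 := by
    rw [← WithZero.exp_zero]
    exact exp_lt (by norm_num)
  set t : (below K₁ w).adicCompletion K₁ := algebraMap K₁ _ π with ht
  have htv : Valued.v (Γ₀ := WithZero (Multiplicative ℤ)) t = WithZero.exp (-1 : ℤ) := by
    rw [ht, Pool.Agent.N704.PP.vx, hπ]
  have ht0 : t ≠ 0 := by
    intro h0
    rw [h0, map_zero] at htv
    exact WithZero.exp_ne_zero htv.symm
  have hιt : Valued.v (Γ₀ := WithZero (Multiplicative ℤ)) (ι t) = WithZero.exp (-1 : ℤ) := by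
    rw [ht, hι, Pool.Agent.N704.PP.vx, hπw]
  have hsurj : Function.Surjective ι := by
    intro y
    have hex : ∀ n : ℕ, ∃ x : K₁, Valued.v (Γ₀ := WithZero (Multiplicative ℤ))
        (y - algebraMap K₂ (w.adicCompletion K₂) (algebraMap K₁ K₂ x)) ≤
        WithZero.exp (-((n + 1 : ℕ) : ℤ)) := by
      intro n
      obtain ⟨x₂, hx₂⟩ := Pool.Agent.N704.PP.near w y
        (γ := WithZero.exp (-((n + 1 : ℕ) : ℤ))) WithZero.exp_ne_zero
      obtain ⟨x, hx⟩ := hd x₂ (n + 1)
      refine ⟨x, ?_⟩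
      have e : y - algebraMap K₂ (w.adicCompletion K₂) (algebraMap K₁ K₂ x) =
          (y - algebraMap K₂ (w.adicCompletion K₂) x₂) +
            algebraMap K₂ (w.adicCompletion K₂) (x₂ - algebraMap K₁ K₂ x) := by
        rw [map_sub]; ring
      rw [e]
      refine (Valuation.map_add _ _ _).trans (max_le hx₂.le ?_)
      rw [Pool.Agent.N704.PP.vx]
      exact hx
    choose x hx using hex
    have hz : ∀ n : ℕ, Valued.v (Γ₀ := WithZero (Multiplicative ℤ))
        (algebraMap K₁ ((below K₁ w).adicCompletion K₁) (x (n + 1)) -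
          algebraMap K₁ ((below K₁ w).adicCompletion K₁) (x n)) ≤
        Valued.v (Γ₀ := WithZero (Multiplicative ℤ)) (t ^ (n + 1)) := by
      intro n
      rw [← map_sub, Pool.Agent.N704.PP.vx, map_pow, htv, hpow, ← hagr,
        ← Pool.Agent.N704.PP.vx w]
      have e : algebraMap K₂ (w.adicCompletion K₂) (algebraMap K₁ K₂ (x (n + 1) - x n)) =
          (y - algebraMap K₂ (w.adicCompletion K₂) (algebraMap K₁ K₂ (x n))) -
          (y - algebraMap K₂ (w.adicCompletion K₂) (algebraMap K₁ K₂ (x (n + 1)))) := by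
        rw [map_sub, map_sub]; ring
      rw [e]
      refine (Valuation.map_sub _ _ _).trans (max_le (hx n) ((hx (n + 1)).trans ?_))
      rw [WithZero.exp_le_exp]
      push_cast
      omega
    obtain ⟨a, ha⟩ := exists_lim (z := fun n => algebraMap K₁ ((below K₁ w).adicCompletion K₁)
      (x n)) (t := t) (by rw [htv]; exact hlt) hz
    refine ⟨a, ?_⟩
    have key : ∀ n : ℕ, Valued.v (Γ₀ := WithZero (Multiplicative ℤ)) (ι a - y) ≤
        WithZero.exp (-(n : ℤ)) := by
      intro n
      obtain ⟨N, hN, hN2⟩ := ha n ht0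
      have e : ι a - y = ι (a - algebraMap K₁ ((below K₁ w).adicCompletion K₁) (x N)) -
          (y - algebraMap K₂ (w.adicCompletion K₂) (algebraMap K₁ K₂ (x N))) := by
        rw [map_sub, hι]; ring
      rw [e]
      refine (Valuation.map_sub _ _ _).trans (max_le ?_ ((hx N).trans ?_))
      · have h1 : Valued.v (Γ₀ := WithZero (Multiplicative ℤ))
            ((a - algebraMap K₁ ((below K₁ w).adicCompletion K₁) (x N)) / t ^ n) ≤ 1 := by
          rw [map_div₀]
          refine (div_le_one₀ ?_).2 hN2.le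
          rw [zero_lt_iff, Valuation.ne_zero_iff]
          exact pow_ne_zero n ht0
        have h2 := hι1 _ h1
        rw [map_div₀, map_div₀, map_pow, map_pow, hιt, hpow] at h2
        rwa [div_le_one₀ WithZero.exp_pos] at h2
      · rw [WithZero.exp_le_exp]
        push_cast
        omega
    by_contra hne
    have h0 : Valued.v (Γ₀ := WithZero (Multiplicative ℤ)) (ι a - y) ≠ 0 := by
      rw [Valuation.ne_zero_iff, sub_ne_zero]
      exact hne
    obtain ⟨b, hb⟩ : ∃ b : ℤ, Valued.v (Γ₀ := WithZero (Multiplicative ℤ)) (ι a - y) =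
      WithZero.exp b := ⟨WithZero.log _, (WithZero.exp_log h0).symm⟩
    have h1 := key ((-b).toNat + 1)
    rw [hb, WithZero.exp_le_exp] at h1
    push_cast at h1
    omega
  let e : (below K₁ w).adicCompletion K₁ ≃+* w.adicCompletion K₂ :=
    RingEquiv.ofBijective ι ⟨ι.injective, hsurj⟩
  refine ⟨(e.symm : w.adicCompletion K₂ →+* _), fun x => ?_⟩
  have h1 : e (algebraMap K₁ _ x) = algebraMap K₂ (w.adicCompletion K₂) (algebraMap K₁ K₂ x) :=
    hι x
  rw [← h1]
  exact e.symm_apply_apply _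

end surj

end Pool.Agent.H459.UF
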