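import Pool.Agent.H459.UF.Dense

/-!
# The local conditions over an extension `K` of `F` (helper459)
-/

set_option autoImplicit false
set_option linter.all false

open Polynomial IsDedekindDomain NumberField WithZero
open scoped Classical IntermediateField

namespace Pool.Agent.H459.UF

open Pool.Agent.N874.PP (Ev Sq1 U0)
open Pool.Agent.N874.JM (LocF)
open Pool.Agent.N783.PQ (LocIm)
open Pool.Agent.N783.PF (fF GoodS Dp)
open Pool.Agent.N874.PM (ev_down sq_down ev_sq ev_mul)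
open Pool.Agent.N874.QM (locIm_congr locIm_sq locIm_map)

section defs

variable {F : Type} [Field F] [NumberField F]

/-- The polynomial over the integers of `K`. -/
noncomputable abbrev fo (K : Type) [Field K] [NumberField K] [Algebra F K] (f : (𝓞 F)[X]) :
    (𝓞 K)[X] := f.map (algebraMap (𝓞 F) (𝓞 K))

/-- The polynomial over `K`. -/
noncomputable abbrev fb (K : Type) [Field K] [NumberField K] [Algebra F K] (f : (𝓞 F)[X]) :
    K[X] := (fF f).map (algebraMap F K)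

theorem fb_eq (K : Type) [Field K] [NumberField K] [Algebra F K] (f : (𝓞 F)[X]) :
    fb K f = (fo K f).map (algebraMap (𝓞 K) K) := by
  unfold fb fo fF
  rw [Polynomial.map_map, Polynomial.map_map]
  congr 1

theorem fb_self (f : (𝓞 F)[X]) : fb F f = fF f := by
  unfold fb
  rw [Algebra.algebraMap_self, Polynomial.map_id]

theorem fb_map (K₁ K₂ : Type) [Field K₁] [NumberField K₁] [Field K₂] [NumberField K₂]
    [Algebra F K₁] [Algebra F K₂] [Algebra K₁ K₂] [IsScalarTower F K₁ K₂] (f : (𝓞 F)[X]) :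
    (fb K₁ f).map (algebraMap K₁ K₂) = fb K₂ f := by
  unfold fb
  rw [Polynomial.map_map, ← IsScalarTower.algebraMap_eq]

/-- The conditions. -/
structure Cnd (F : Type) {K L : Type} [Field F] [NumberField F] [Field K] [NumberField K]
    [Field L] [NumberField L] [Algebra F K] [Algebra K L] (f : (𝓞 F)[X]) (J : Finset ℕ)
    (𝔮 : ℕ → Ideal (𝓞 F)) (θ : L) (h : K[X]) : Prop where
  ev : ∀ P : HeightOneSpectrum (𝓞 L), (2 : 𝓞 L) ∉ P.asIdeal → (∀ q ∈ J, (q : 𝓞 L) ∉ P.asIdeal) →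
    P.valuation L (aeval θ (derivative (fb K f))) = 1 → Ev P (aeval θ h)
  u0 : ∀ q ∈ J, ∀ P : HeightOneSpectrum (𝓞 L), below F (below K P) ∈
    {v : HeightOneSpectrum (𝓞 F) | v.asIdeal = 𝔮 q} → P.valuation L θ = 1 →
    U0 P ((q : L) * θ) (aeval θ h)
  two : ∀ w : HeightOneSpectrum (𝓞 K), (2 : 𝓞 K) ∈ w.asIdeal →
    LocF (w.adicCompletion K) (fb K f) h
  real : ∀ σ : K →+* ℝ, LocIm ℝ ((fb K f).map σ) (h.map σ)

/-- Elements of `K(θ)` with the conditions are squares. -/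
def PK (F K : Type) [Field F] [NumberField F] [Field K] [NumberField K] [Algebra F K]
    (f : (𝓞 F)[X]) (J : Finset ℕ) (𝔮 : ℕ → Ideal (𝓞 F)) : Prop :=
  ∀ (L : Type) [Field L] [NumberField L] [Algebra K L] (θ : L), aeval θ (fb K f) = 0 →
    K⟮θ⟯ = ⊤ → Module.finrank K L = f.natDegree → ∀ h : K[X], aeval θ h ≠ 0 →
    IsSquare (Algebra.norm K (aeval θ h)) → Cnd F f J 𝔮 θ h → IsSquare (aeval θ h)

end defs

section base

variable {K₁ K₂ L₁ L₂ : Type} [Field K₁] [NumberField K₁] [Field K₂] [NumberField K₂]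
  [Field L₁] [NumberField L₁] [Field L₂] [NumberField L₂] [Algebra K₁ K₂] [Algebra K₁ L₁]
  [Algebra K₂ L₂] [Algebra L₁ L₂] [Algebra K₁ L₂] [IsScalarTower K₁ K₂ L₂]
  [IsScalarTower K₁ L₁ L₂]

theorem exists_poly {K L : Type} [Field K] [NumberField K] [Field L] [NumberField L] [Algebra K L]
    {θ : L} (hθ : K⟮θ⟯ = ⊤) (x : L) : ∃ h : K[X], aeval θ h = x := by
  have h1 := IntermediateField.adjoin_simple_toSubalgebra_of_isAlgebraic
    (Algebra.IsAlgebraic.isAlgebraic (R := K) θ)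
  rw [hθ, IntermediateField.top_toSubalgebra, Algebra.adjoin_singleton_eq_range_aeval] at h1
  have h2 : x ∈ (aeval (R := K) θ).range := by
    rw [← h1]
    exact Algebra.mem_top
  exact h2

/-- Density for the extension generated by `θ`. -/
theorem dns_base {θ₁ : L₁} (hint : IsIntegral ℤ θ₁) (htop : K₂⟮algebraMap L₁ L₂ θ₁⟯ = ⊤)
    {P : HeightOneSpectrum (𝓞 L₂)} (h : Dns K₁ (below K₂ P)) : Dns L₁ P := by
  intro x n
  obtain ⟨p, rfl⟩ := exists_poly htop x
  choose y hy using fun c : K₂ => h c n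
  refine ⟨∑ i ∈ Finset.range (p.natDegree + 1), algebraMap K₁ L₁ (y (p.coeff i)) * θ₁ ^ i, ?_⟩
  have e : aeval (algebraMap L₁ L₂ θ₁) p - algebraMap L₁ L₂
      (∑ i ∈ Finset.range (p.natDegree + 1), algebraMap K₁ L₁ (y (p.coeff i)) * θ₁ ^ i) =
      ∑ i ∈ Finset.range (p.natDegree + 1),
        algebraMap K₂ L₂ (p.coeff i - algebraMap K₁ K₂ (y (p.coeff i))) *
          (algebraMap L₁ L₂ θ₁) ^ i := by
    rw [aeval_eq_sum_range, map_sum, ← Finset.sum_sub_distrib]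
    refine Finset.sum_congr rfl fun i _ => ?_
    rw [Algebra.smul_def, map_mul, map_pow, map_sub, sub_mul,
      ← IsScalarTower.algebraMap_apply K₁ K₂ L₂, ← IsScalarTower.algebraMap_apply K₁ L₁ L₂]
  rw [e]
  refine Valuation.map_sum_le _ fun i _ => ?_
  have hθ1 : P.valuation L₂ (algebraMap L₁ L₂ θ₁) ≤ 1 := by
    have hi : IsIntegral ℤ (algebraMap L₁ L₂ θ₁) := hint.map (algebraMap L₁ L₂).toIntAlgHom
    exact HeightOneSpectrum.valuation_le_one (K := L₂) P (⟨_, hi⟩ : 𝓞 L₂)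
  rw [map_mul, map_pow]
  have h1 : P.valuation L₂ (algebraMap K₂ L₂ (p.coeff i - algebraMap K₁ K₂ (y (p.coeff i)))) ≤
      WithZero.exp (-(n : ℤ)) := by
    refine (val_le_below P ((hy _).trans ?_)).trans (hy _)
    rw [← WithZero.exp_zero, WithZero.exp_le_exp]
    omega
  exact (mul_le_mul' h1 (pow_le_one' hθ1 i)).trans (by rw [mul_one])

/-- Unramified primes at which `f'(θ)` is a unit. -/
theorem agr_top {f : (𝓞 K₁)[X]} (hf : f.Monic) {θ₁ : L₁} (htop₁ : K₁⟮θ₁⟯ = ⊤)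
    (hroot : aeval θ₁ (f.map (algebraMap (𝓞 K₁) K₁)) = 0)
    (htop : K₂⟮algebraMap L₁ L₂ θ₁⟯ = ⊤) {P : HeightOneSpectrum (𝓞 L₂)}
    (hu : Unr K₁ K₂ (below K₁ (below K₂ P)))
    (hη : P.valuation L₂ (algebraMap L₁ L₂
      (aeval θ₁ (derivative (f.map (algebraMap (𝓞 K₁) K₁))))) = 1) : Agr L₁ P := by
  obtain ⟨π, hπ1, hπ2⟩ := exists_unif_of_unr (below K₂ P) hu
  -- the prime of `L₂` over `K₂`
  have hP2 : Agr K₂ P := by
    have hfo : (f.map (algebraMap (𝓞 K₁) (𝓞 K₂))).Monic := hf.map _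
    have e1 : (f.map (algebraMap (𝓞 K₁) (𝓞 K₂))).map (algebraMap (𝓞 K₂) K₂) =
        (f.map (algebraMap (𝓞 K₁) K₁)).map (algebraMap K₁ K₂) := by
      rw [Polynomial.map_map, Polynomial.map_map]
      congr 1
    refine agr_of_unit hfo htop ?_ P ?_
    · rw [e1, aeval_map_algebraMap, aeval_algebraMap_apply, hroot, map_zero]
    · rw [e1, derivative_map, aeval_map_algebraMap, aeval_algebraMap_apply]
      exact hη
  -- the prime of `L₁` over `K₁`
  have hη1 : (below L₁ P).valuation L₁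
      (aeval θ₁ (derivative (f.map (algebraMap (𝓞 K₁) K₁)))) = 1 := by
    obtain ⟨e, he, hv⟩ := val_pow (K := L₁) P
    rw [hv] at hη
    rcases pow_eq_one_iff.1 hη with h | h
    · exact h
    · omega
  have hP1 : Agr K₁ (below L₁ P) := agr_of_unit hf htop₁ hroot _ hη1
  have hbb : below K₁ (below L₁ P) = below K₁ (below K₂ P) := by
    ext1
    ext a
    show algebraMap (𝓞 L₁) (𝓞 L₂) (algebraMap (𝓞 K₁) (𝓞 L₁) a) ∈ P.asIdeal ↔
      algebraMap (𝓞 K₂) (𝓞 L₂) (algebraMap (𝓞 K₁) (𝓞 K₂) a) ∈ P.asIdeal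
    rw [← IsScalarTower.algebraMap_apply, ← IsScalarTower.algebraMap_apply]
  refine fun x => e_one (K := L₁) P (π := algebraMap K₁ L₁ π) ?_ ?_ x
  · rw [hP1, hbb, hπ1]
  · rw [← IsScalarTower.algebraMap_apply, IsScalarTower.algebraMap_apply K₁ K₂ L₂, hP2, hπ2]

end base

end Pool.Agent.H459.UF
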