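import Pool.Agent.H459.UF.Tower

/-!
# Unramified primes and completely split primes (helper459)
-/

set_option autoImplicit false
set_option linter.all false

open Polynomial IsDedekindDomain NumberField WithZero
open scoped Classical IntermediateField

namespace Pool.Agent.H459.UF

section unr

variable {K L : Type} [Field K] [NumberField K] [Field L] [NumberField L] [Algebra K L]

/-- The prime `v` of `K` is unramified in `L`: it is not divisible by the square of a prime. -/
def Unr (K L : Type) [Field K] [NumberField K] [Field L] [NumberField L] [Algebra K L]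
    (v : HeightOneSpectrum (𝓞 K)) : Prop :=
  ∀ P : HeightOneSpectrum (𝓞 L), ¬ v.asIdeal.map (algebraMap (𝓞 K) (𝓞 L)) ≤ P.asIdeal ^ 2

/-- The residue degrees of the primes over `v` are one. -/
def Deg1 (K L : Type) [Field K] [NumberField K] [Field L] [NumberField L] [Algebra K L]
    (v : HeightOneSpectrum (𝓞 K)) : Prop :=
  ∀ P : HeightOneSpectrum (𝓞 L), v.asIdeal.map (algebraMap (𝓞 K) (𝓞 L)) ≤ P.asIdeal →
    ∀ x : 𝓞 L, ∃ y : 𝓞 K, x - algebraMap (𝓞 K) (𝓞 L) y ∈ P.asIdeal

theorem le_one_of_lt {z : WithZero (Multiplicative ℤ)} (h : z < 1) :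
    z ≤ WithZero.exp (-1 : ℤ) := by
  by_cases h0 : z = 0
  · rw [h0]
    exact zero_le
  · obtain ⟨a, ha⟩ : ∃ a : ℤ, z = WithZero.exp a := ⟨WithZero.log z, (WithZero.exp_log h0).symm⟩
    rw [ha] at h ⊢
    rw [← WithZero.exp_zero, WithZero.exp_lt_exp] at h
    rw [WithZero.exp_le_exp]
    omega

theorem lt_of_le_exp {z : WithZero (Multiplicative ℤ)} {n : ℕ} (h : z < WithZero.exp (-(n : ℤ))) :
    z ≤ WithZero.exp (-((n + 1 : ℕ) : ℤ)) := by
  by_cases h0 : z = 0
  · rw [h0]
    exact zero_le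
  · obtain ⟨a, ha⟩ : ∃ a : ℤ, z = WithZero.exp a := ⟨WithZero.log z, (WithZero.exp_log h0).symm⟩
    rw [ha] at h ⊢
    rw [WithZero.exp_lt_exp] at h
    rw [WithZero.exp_le_exp]
    push_cast
    omega

theorem exists_unif_of_unr (P : HeightOneSpectrum (𝓞 L)) (h : Unr K L (below K P)) :
    ∃ π : K, (below K P).valuation K π = WithZero.exp (-1 : ℤ) ∧
      P.valuation L (algebraMap K L π) = WithZero.exp (-1 : ℤ) := by
  have h1 := h P
  rw [Ideal.map_le_iff_le_comap, SetLike.not_le_iff_exists] at h1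
  obtain ⟨a, ha, ha2⟩ := h1
  rw [Ideal.mem_comap] at ha2
  have e1 : algebraMap (𝓞 L) L (algebraMap (𝓞 K) (𝓞 L) a) =
      algebraMap K L (algebraMap (𝓞 K) K a) := by
    rw [← IsScalarTower.algebraMap_apply, ← IsScalarTower.algebraMap_apply]
  have hP1 : P.valuation L (algebraMap K L (algebraMap (𝓞 K) K a)) ≤ WithZero.exp (-1 : ℤ) := by
    rw [← e1]
    apply le_one_of_lt
    rw [HeightOneSpectrum.valuation_lt_one_iff_mem]
    exact (mem_below P a).1 ha
  have hP2 : ¬ P.valuation L (algebraMap K L (algebraMap (𝓞 K) K a)) ≤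
      WithZero.exp (-(2 : ℕ) : ℤ) := by
    rw [← e1, HeightOneSpectrum.valuation_of_algebraMap,
      HeightOneSpectrum.intValuation_le_pow_iff_mem]
    exact ha2
  have hP : P.valuation L (algebraMap K L (algebraMap (𝓞 K) K a)) = WithZero.exp (-1 : ℤ) := by
    refine le_antisymm hP1 (not_lt.1 fun h3 => hP2 ?_)
    exact lt_of_le_exp (n := 1) (by exact_mod_cast h3)
  refine ⟨algebraMap (𝓞 K) K a, ?_, hP⟩
  have hv1 : (below K P).valuation K (algebraMap (𝓞 K) K a) ≤ WithZero.exp (-1 : ℤ) := by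
    apply le_one_of_lt
    rw [HeightOneSpectrum.valuation_lt_one_iff_mem]
    exact ha
  refine le_antisymm hv1 ?_
  have h4 := val_le_below P (x := algebraMap (𝓞 K) K a)
    (hv1.trans (by rw [← WithZero.exp_zero, WithZero.exp_le_exp]; omega))
  rwa [hP] at h4

theorem agr_of_unr (P : HeightOneSpectrum (𝓞 L)) (h : Unr K L (below K P)) : Agr K P := by
  obtain ⟨π, h1, h2⟩ := exists_unif_of_unr P h
  exact fun x => e_one P h1 h2 x

end unr

section dns

/-- `K` is dense in `L` at `P`. -/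
def Dns (K : Type) {L : Type} [Field K] [NumberField K] [Field L] [NumberField L] [Algebra K L]
    (P : HeightOneSpectrum (𝓞 L)) : Prop :=
  ∀ (x : L) (n : ℕ), ∃ y : K, P.valuation L (x - algebraMap K L y) ≤ WithZero.exp (-(n : ℤ))

variable {K L : Type} [Field K] [NumberField K] [Field L] [NumberField L] [Algebra K L]

theorem exp_lt {m n : ℤ} (h : m < n) : (WithZero.exp m : WithZero (Multiplicative ℤ)) <
    WithZero.exp n := by
  rw [WithZero.exp_lt_exp]; exact h

theorem agr_of_dns {P : HeightOneSpectrum (𝓞 L)} (h : Dns K P) : Agr K P := by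
  obtain ⟨x, hx⟩ := exists_unif P
  obtain ⟨y, hy⟩ := h x 2
  have h2 : P.valuation L (algebraMap K L y) = WithZero.exp (-1 : ℤ) := by
    have e : algebraMap K L y = x - (x - algebraMap K L y) := by ring
    rw [e, Valuation.map_sub_eq_of_lt_left]
    · exact hx
    · rw [hx]
      exact lt_of_le_of_lt hy (exp_lt (by norm_num))
  obtain ⟨e, he, hv⟩ := val_pow (K := K) P
  have h3 := hv y
  rw [h2] at h3
  have hy0 : (below K P).valuation K y ≠ 0 := by
    intro h0
    rw [h0, zero_pow (by omega)] at h3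
    exact WithZero.exp_ne_zero h3
  obtain ⟨a, ha⟩ : ∃ a : ℤ, (below K P).valuation K y = WithZero.exp a :=
    ⟨WithZero.log _, (WithZero.exp_log hy0).symm⟩
  rw [ha, ← WithZero.exp_nsmul] at h3
  have h4 := WithZero.exp_injective h3
  simp only [nsmul_eq_mul] at h4
  have h5 : (e : ℤ) ∣ 1 := ⟨-a, by linarith⟩
  have h6 : (e : ℤ) = 1 := Int.eq_one_of_dvd_one (by positivity) h5
  have h7 : e = 1 := by exact_mod_cast h6
  intro z
  rw [hv, h7, pow_one]

theorem dns_of_deg1 {P : HeightOneSpectrum (𝓞 L)} (h : Unr K L (below K P))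
    (h1 : Deg1 K L (below K P)) : Dns K P := by
  obtain ⟨π, -, hπ⟩ := exists_unif_of_unr P h
  have hπ0 : algebraMap K L π ≠ 0 := by
    intro h0
    rw [h0, map_zero] at hπ
    exact WithZero.exp_ne_zero hπ.symm
  have hres := h1 P (Ideal.map_le_iff_le_comap.2 fun a ha => (mem_below P a).1 ha)
  have hpow : ∀ n : ℕ, P.valuation L (algebraMap K L π ^ n) = WithZero.exp (-(n : ℤ)) := by
    intro n
    rw [map_pow, hπ, ← WithZero.exp_nsmul]
    congr 1
    simp
  have key : ∀ (x : L), P.valuation L x ≤ 1 → ∀ n : ℕ, ∃ y : K,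
      P.valuation L (x - algebraMap K L y) ≤ WithZero.exp (-(n : ℤ)) := by
    intro x hx n
    induction n with
    | zero => exact ⟨0, by simpa using hx⟩
    | succ n ih =>
      obtain ⟨y, hy⟩ := ih
      set z : L := (x - algebraMap K L y) / algebraMap K L π ^ n with hz
      have hz1 : P.valuation L z ≤ 1 := by
        rw [hz, map_div₀, hpow]
        exact (div_le_one₀ (WithZero.exp_pos)).2 hy
      obtain ⟨z₀, hz₀⟩ := P.exists_valuation_sub_lt_of_integer hz1 1
      rw [Units.val_one] at hz₀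
      obtain ⟨y₀, hy₀⟩ := hres z₀
      refine ⟨y + π ^ n * algebraMap (𝓞 K) K y₀, ?_⟩
      have e : x - algebraMap K L (y + π ^ n * algebraMap (𝓞 K) K y₀) =
          algebraMap K L π ^ n * (z - algebraMap (𝓞 L) L (algebraMap (𝓞 K) (𝓞 L) y₀)) := by
        rw [hz, mul_sub, mul_div_cancel₀ _ (pow_ne_zero n hπ0), map_add, map_mul, map_pow,
          ← IsScalarTower.algebraMap_apply, ← IsScalarTower.algebraMap_apply]
        ring
      rw [e, map_mul, hpow]
      have h2 : P.valuation L (z - algebraMap (𝓞 L) L (algebraMap (𝓞 K) (𝓞 L) y₀)) ≤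
          WithZero.exp (-1 : ℤ) := by
        apply le_one_of_lt
        have e2 : z - algebraMap (𝓞 L) L (algebraMap (𝓞 K) (𝓞 L) y₀) =
            -(algebraMap (𝓞 L) L z₀ - z) +
              algebraMap (𝓞 L) L (z₀ - algebraMap (𝓞 K) (𝓞 L) y₀) := by
          rw [map_sub]; ring
        rw [e2]
        refine lt_of_le_of_lt (Valuation.map_add _ _ _) (max_lt ?_ ?_)
        · rw [Valuation.map_neg]
          exact hz₀
        · exact (HeightOneSpectrum.valuation_lt_one_iff_mem P _).2 hy₀
      calc WithZero.exp (-(n : ℤ)) * P.valuation L (z - algebraMap (𝓞 L) L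
            (algebraMap (𝓞 K) (𝓞 L) y₀)) ≤ WithZero.exp (-(n : ℤ)) * WithZero.exp (-1 : ℤ) :=
            mul_le_mul_right h2 _
        _ = WithZero.exp (-((n + 1 : ℕ) : ℤ)) := by
            rw [← WithZero.exp_add]
            congr 1
            push_cast
            ring
  intro x n
  obtain ⟨k, hk⟩ : ∃ k : ℕ, P.valuation L (x * algebraMap K L π ^ k) ≤ 1 := by
    by_cases h0 : x = 0
    · exact ⟨0, by simp [h0]⟩
    · obtain ⟨a, ha⟩ : ∃ a : ℤ, P.valuation L x = WithZero.exp a :=
        ⟨WithZero.log _, (WithZero.exp_log ((Valuation.ne_zero_iff _).2 h0)).symm⟩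
      refine ⟨a.toNat, ?_⟩
      rw [map_mul, hpow, ha, ← WithZero.exp_add, ← WithZero.exp_zero, WithZero.exp_le_exp]
      omega
  obtain ⟨y, hy⟩ := key _ hk (n + k)
  refine ⟨y / π ^ k, ?_⟩
  have e : x - algebraMap K L (y / π ^ k) =
      (x * algebraMap K L π ^ k - algebraMap K L y) / algebraMap K L π ^ k := by
    rw [map_div₀, map_pow]
    field_simp
  rw [e, map_div₀, hpow, div_le_iff₀ WithZero.exp_pos, ← WithZero.exp_add]
  refine hy.trans (le_of_eq ?_)
  congr 1
  push_cast
  ring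

end dns

section tow

variable {F K L : Type} [Field F] [NumberField F] [Field K] [NumberField K] [Field L]
  [NumberField L] [Algebra F K] [Algebra K L] [Algebra F L] [IsScalarTower F K L]

theorem below_below (P : HeightOneSpectrum (𝓞 L)) : below F (below K P) = below F P := by
  ext1
  ext a
  show algebraMap (𝓞 K) (𝓞 L) (algebraMap (𝓞 F) (𝓞 K) a) ∈ P.asIdeal ↔
    algebraMap (𝓞 F) (𝓞 L) a ∈ P.asIdeal
  rw [← IsScalarTower.algebraMap_apply]

theorem dns_up {P : HeightOneSpectrum (𝓞 L)} (h : Dns F P) : Dns K P := by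
  intro x n
  obtain ⟨y, hy⟩ := h x n
  refine ⟨algebraMap F K y, ?_⟩
  rwa [← IsScalarTower.algebraMap_apply]

theorem dns_down {P : HeightOneSpectrum (𝓞 L)} (h : Dns F P) : Dns F (below K P) := by
  intro x n
  obtain ⟨y, hy⟩ := h (algebraMap K L x) n
  refine ⟨y, ?_⟩
  have h1 := agr_of_dns (dns_up (K := K) h) (x - algebraMap F K y)
  rw [← h1, map_sub, ← IsScalarTower.algebraMap_apply]
  exact hy

theorem unr_down {v : HeightOneSpectrum (𝓞 F)} (h : Unr F L v) : Unr F K v := by
  intro P hP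
  obtain ⟨Q, rfl⟩ := exists_above (K := K) L P
  refine h Q ?_
  rw [IsScalarTower.algebraMap_eq (𝓞 F) (𝓞 K) (𝓞 L), ← Ideal.map_map]
  refine (Ideal.map_mono hP).trans ?_
  rw [Ideal.map_pow]
  refine Ideal.pow_right_mono ?_ 2
  rw [Ideal.map_le_iff_le_comap]
  exact fun a ha => (mem_below Q a).1 ha

theorem unr_up {w : HeightOneSpectrum (𝓞 K)} (h : Unr F L (below F w)) : Unr K L w := by
  intro P hP
  refine h P ?_
  rw [IsScalarTower.algebraMap_eq (𝓞 F) (𝓞 K) (𝓞 L), ← Ideal.map_map]
  refine (Ideal.map_mono ?_).trans hP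
  rw [Ideal.map_le_iff_le_comap]
  exact fun a ha => (mem_below w a).1 ha

end tow

end Pool.Agent.H459.UF
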