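import Pool.Agent.H459.UF.Pts
import Pool.Graph.R_pool_sql_team_seeded_63374d34.N630.PP.GP

/-!
# Descent of classes of points along a quadratic extension (helper459)
-/

set_option autoImplicit false
set_option linter.all false

open Polynomial WeierstrassCurve WeierstrassCurve.Affine
open scoped Classical

namespace Pool.Agent.H459.UF

open Pool.Agent.N630.PP (IsS add_self_eq_zero_iff isS)
open Pool.Agent.N874.PP (sW)
open Pool.Agent.TH115.GD (Pt act)

section poly

variable {F : Type*} [Field F]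

/-- The cubic. -/
noncomputable abbrev cu (A B : F) : F[X] := X ^ 3 + C A * X + C B

theorem cu_monic (A B : F) : (cu A B).Monic := by
  unfold cu
  monicity!

theorem cu_deg (A B : F) : (cu A B).natDegree = 3 := by
  unfold cu
  compute_degree!

theorem cu_map {F' : Type*} [Field F'] (φ : F →+* F') (A B : F) :
    (cu A B).map φ = cu (φ A) (φ B) := by
  simp [cu]

/-- The class of a point. -/
noncomputable def pp {W : Affine F} : W.Point → F[X]
  | .zero => 1
  | .some x _ _ => C x - X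

theorem mk_pp {W : Affine F} (f : F[X]) [Fact (Irreducible f)] (P : W.Point) :
    AdjoinRoot.mk f (pp P) = mu W (AdjoinRoot.root f) P := by
  rcases P with _ | ⟨x, y, h⟩
  · exact map_one _
  · show AdjoinRoot.mk f (C x - X) = algebraMap F (AdjoinRoot f) x - AdjoinRoot.root f
    rw [map_sub, AdjoinRoot.mk_C, AdjoinRoot.mk_X, AdjoinRoot.algebraMap_eq]

theorem coef {A B u₀ u₁ u₂ : F} (h : cu A B ∣ C u₀ + C u₁ * X + C u₂ * X ^ 2) :
    u₀ = 0 ∧ u₁ = 0 ∧ u₂ = 0 := by
  have h0 : C u₀ + C u₁ * X + C u₂ * X ^ 2 = 0 := by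
    refine eq_zero_of_dvd_of_natDegree_lt h ?_
    rw [cu_deg]
    have : (C u₀ + C u₁ * X + C u₂ * X ^ 2).natDegree ≤ 2 := by compute_degree
    omega
  have c0 := congrArg (fun p => coeff p 0) h0
  have c1 := congrArg (fun p => coeff p 1) h0
  have c2 := congrArg (fun p => coeff p 2) h0
  simp [coeff_X, coeff_C, coeff_X_pow] at c0 c1 c2
  exact ⟨c0, c1, c2⟩

theorem span (A B : F) (x : AdjoinRoot (cu A B)) : ∃ c₀ c₁ c₂ : F,
    x = AdjoinRoot.mk (cu A B) (C c₀ + C c₁ * X + C c₂ * X ^ 2) := by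
  obtain ⟨p, rfl⟩ := AdjoinRoot.mk_surjective x
  refine ⟨(p %ₘ cu A B).coeff 0, (p %ₘ cu A B).coeff 1, (p %ₘ cu A B).coeff 2, ?_⟩
  have h1 : (p %ₘ cu A B).natDegree < 3 := by
    have := natDegree_modByMonic_lt p (cu_monic A B) (by
      intro h
      have h2 := congrArg natDegree h
      rw [cu_deg, natDegree_one] at h2
      omega)
    rwa [cu_deg] at this
  have h2 : p %ₘ cu A B = C ((p %ₘ cu A B).coeff 0) + C ((p %ₘ cu A B).coeff 1) * X +
      C ((p %ₘ cu A B).coeff 2) * X ^ 2 := by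
    conv_lhs => rw [as_sum_range_C_mul_X_pow' (p %ₘ cu A B) h1]
    simp [Finset.sum_range_succ]
  rw [← h2, AdjoinRoot.mk_eq_mk, ← dvd_neg, neg_sub]
  refine ⟨-(p /ₘ cu A B), ?_⟩
  have := modByMonic_add_div p (cu A B)
  linear_combination this

theorem half_cu {W : Affine F} {A B : F} (h : IsS W A B)
    (hirr : Irreducible (cu A B)) (P : W.Point)
    (hP : IsSquare (AdjoinRoot.mk (cu A B) (pp P))) : ∃ Q : W.Point, P = Q + Q := by
  rcases P with _ | ⟨x, y, hxy⟩
  · exact ⟨0, (add_zero 0).symm⟩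
  obtain ⟨s, hs⟩ := hP
  obtain ⟨c₀, c₁, c₂, rfl⟩ := span A B s
  rw [← map_mul, AdjoinRoot.mk_eq_mk] at hs
  have hr : ∀ x : F, x ^ 3 + A * x + B ≠ 0 := by
    intro x hx
    have h1 : (cu A B).IsRoot x := by
      simp [cu, IsRoot, hx]
    have h2 := degree_eq_one_of_irreducible_of_root hirr h1
    rw [degree_eq_natDegree (cu_monic A B).ne_zero, cu_deg] at h2
    norm_num at h2
  have h3 : cu A B ∣ C (c₀ ^ 2 - 2 * c₁ * c₂ * B - x) +
      C (2 * c₀ * c₁ - 2 * c₁ * c₂ * A - c₂ ^ 2 * B + 1) * X +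
      C (c₁ ^ 2 + 2 * c₀ * c₂ - c₂ ^ 2 * A) * X ^ 2 := by
    have h4 : cu A B ∣ cu A B * (-(C (2 * c₁ * c₂) + C (c₂ ^ 2) * X)) := dvd_mul_right _ _
    have h5 := dvd_sub h4 hs
    refine (dvd_of_eq rfl).trans (h5.trans (dvd_of_eq ?_))
    show _ - (C x - X - _) = _
    simp only [cu, map_add, map_sub, map_mul, map_pow, map_ofNat, map_one]
    ring
  obtain ⟨k0, k1, k2⟩ := coef h3
  exact half h hr hxy (c₀ := c₀) (c₁ := c₁) (c₂ := c₂) (by linear_combination k0)
    (by linear_combination k1) k2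

theorem norm_pp {A B : F} (hirr : Irreducible (cu A B)) (x : F) :
    Algebra.norm F (AdjoinRoot.mk (cu A B) (C x - X)) = x ^ 3 + A * x + B := by
  haveI : Fact (Irreducible (cu A B)) := ⟨hirr⟩
  have hm := cu_monic A B
  obtain ⟨pb, hpb⟩ : ∃ pb : PowerBasis F (AdjoinRoot (cu A B)),
      pb = AdjoinRoot.powerBasis hirr.ne_zero := ⟨_, rfl⟩
  have hgen : pb.gen = AdjoinRoot.root (cu A B) := by
    rw [hpb, AdjoinRoot.powerBasis_gen]
  have e1 : AdjoinRoot.mk (cu A B) (C x - X) = algebraMap F _ x - pb.gen := by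
    rw [map_sub, AdjoinRoot.mk_C, AdjoinRoot.mk_X, hgen, AdjoinRoot.algebraMap_eq]
  rw [e1, Algebra.norm_eq_matrix_det pb.basis, map_sub]
  have e2 : Algebra.leftMulMatrix pb.basis (algebraMap F _ x) = Matrix.scalar _ x := by
    rw [AlgHom.commutes]
    rfl
  rw [e2, ← Matrix.eval_charpoly, charpoly_leftMulMatrix]
  have e3 : minpoly F pb.gen = cu A B := by
    rw [hgen, AdjoinRoot.minpoly_root hirr.ne_zero, hm.leadingCoeff, inv_one, map_one, mul_one]
  rw [e3]
  simp [cu]

theorem disc_ne [CharZero F] {A B : F} (hirr : Irreducible (cu A B)) :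
    4 * A ^ 3 + 27 * B ^ 2 ≠ 0 := by
  intro h0
  have hr : ∀ x : F, x ^ 3 + A * x + B ≠ 0 := by
    intro x hx
    have h1 : (cu A B).IsRoot x := by
      simp [cu, IsRoot, hx]
    have h2 := degree_eq_one_of_irreducible_of_root hirr h1
    rw [degree_eq_natDegree (cu_monic A B).ne_zero, cu_deg] at h2
    norm_num at h2
  by_cases hA : A = 0
  · subst hA
    have hB : B = 0 := by
      have : B ^ 2 = 0 := by
        have h27 : (27 : F) ≠ 0 := by norm_num
        apply mul_left_cancel₀ h27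
        linear_combination h0
      exact pow_eq_zero_iff (two_ne_zero) |>.1 this
    exact hr 0 (by rw [hB]; ring)
  · apply hr (-3 * B / (2 * A))
    field_simp
    linear_combination (-B) * h0

/-- The class comes from a point of the curve. -/
def PtF (A B : F) (h : F[X]) : Prop :=
  IsSquare (AdjoinRoot.mk (cu A B) h) ∨ ∃ x y : F, y ^ 2 = x ^ 3 + A * x + B ∧
    IsSquare (AdjoinRoot.mk (cu A B) (h * (C x - X)))

end poly

section desc

variable {k k' : Type} [Field k] [CharZero k] [Field k'] [Algebra k k'] {A B : k}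

/-- Squares in `k'(θ)` with square norm. -/
theorem sq_desc (hirr : Irreducible (cu A B)) (σ : k' →ₐ[k] k')
    (hfix : ∀ x, σ x = x → ∃ y, algebraMap k k' y = x) {δ : k'} (hδ : σ δ = -δ) (hδ0 : δ ≠ 0)
    (hirr' : Irreducible (cu (algebraMap k k' A) (algebraMap k k' B)))
    {g : k[X]} (hN : IsSquare (Algebra.norm k (AdjoinRoot.mk (cu A B) g)))
    (hg : IsSquare (AdjoinRoot.mk (cu (algebraMap k k' A) (algebraMap k k' B))
      (g.map (algebraMap k k')))) : IsSquare (AdjoinRoot.mk (cu A B) g) := by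
  haveI : CharZero k' := charZero_of_injective_algebraMap (algebraMap k k').injective
  haveI : Fact (Irreducible (cu A B)) := ⟨hirr⟩
  haveI : Fact (Irreducible (cu (algebraMap k k' A) (algebraMap k k' B))) := ⟨hirr'⟩
  have hmap : (cu A B).map (algebraMap k k') = cu (algebraMap k k' A) (algebraMap k k' B) :=
    cu_map _ _ _
  have hσ : ∀ p : k[X], (p.map (algebraMap k k')).map (σ : k' →+* k') =
      p.map (algebraMap k k') := by
    intro p
    rw [Polynomial.map_map]
    congr 1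
    ext x
    exact σ.commutes x
  by_cases hg0 : AdjoinRoot.mk (cu A B) g = 0
  · exact ⟨0, by rw [hg0, mul_zero]⟩
  obtain ⟨s, hs⟩ := hg
  obtain ⟨c₀, c₁, c₂, rfl⟩ := span _ _ s
  obtain ⟨q, hq⟩ : ∃ q : k'[X], q = C c₀ + C c₁ * X + C c₂ * X ^ 2 := ⟨_, rfl⟩
  have hqσ : q.map (σ : k' →+* k') = C (σ c₀) + C (σ c₁) * X + C (σ c₂) * X ^ 2 := by
    rw [hq]
    simp
  rw [← hq, ← map_mul, AdjoinRoot.mk_eq_mk] at hs
  have hs2 : cu (algebraMap k k' A) (algebraMap k k' B) ∣
      g.map (algebraMap k k') - q.map (σ : k' →+* k') * q.map (σ : k' →+* k') := by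
    have h1 := Polynomial.map_dvd (σ : k' →+* k') hs
    rw [← hmap, hσ, Polynomial.map_sub, hσ, Polynomial.map_mul, hmap] at h1
    exact h1
  have h3 : cu (algebraMap k k' A) (algebraMap k k' B) ∣
      (q - q.map (σ : k' →+* k')) * (q + q.map (σ : k' →+* k')) := by
    have := dvd_sub hs2 hs
    refine this.trans (dvd_of_eq ?_)
    ring
  rcases hirr'.prime.dvd_or_dvd h3 with h4 | h4
  · have h5 : cu (algebraMap k k' A) (algebraMap k k' B) ∣ C (c₀ - σ c₀) + C (c₁ - σ c₁) * X +
        C (c₂ - σ c₂) * X ^ 2 := by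
      refine h4.trans (dvd_of_eq ?_)
      rw [hqσ, hq]
      simp only [map_sub]
      ring
    obtain ⟨k0, k1, k2⟩ := coef h5
    obtain ⟨a₀, ha0⟩ := hfix c₀ (by linear_combination -k0)
    obtain ⟨a₁, ha1⟩ := hfix c₁ (by linear_combination -k1)
    obtain ⟨a₂, ha2⟩ := hfix c₂ (by linear_combination -k2)
    refine ⟨AdjoinRoot.mk _ (C a₀ + C a₁ * X + C a₂ * X ^ 2), ?_⟩
    rw [← map_mul, AdjoinRoot.mk_eq_mk, ← Polynomial.map_dvd_map' (algebraMap k k'), hmap]
    refine hs.trans (dvd_of_eq ?_)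
    rw [hq, ← ha0, ← ha1, ← ha2]
    simp
  · exfalso
    have h5 : cu (algebraMap k k' A) (algebraMap k k' B) ∣ C (c₀ + σ c₀) + C (c₁ + σ c₁) * X +
        C (c₂ + σ c₂) * X ^ 2 := by
      refine h4.trans (dvd_of_eq ?_)
      rw [hqσ, hq]
      simp only [map_add]
      ring
    obtain ⟨k0, k1, k2⟩ := coef h5
    have hd : ∀ c : k', c + σ c = 0 → ∃ y, algebraMap k k' y = c * δ := by
      intro c hc
      refine hfix _ ?_
      rw [map_mul, hδ]
      linear_combination (-δ) * hc
    obtain ⟨a₀, ha0⟩ := hd c₀ k0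
    obtain ⟨a₁, ha1⟩ := hd c₁ k1
    obtain ⟨a₂, ha2⟩ := hd c₂ k2
    obtain ⟨η, hη⟩ := hfix (δ * δ) (by rw [map_mul, hδ]; ring)
    have hη0 : η ≠ 0 := by
      rintro rfl
      rw [map_zero] at hη
      exact hδ0 (mul_self_eq_zero.1 hη.symm)
    have key : AdjoinRoot.mk (cu A B) (C η * g) =
        AdjoinRoot.mk (cu A B) (C a₀ + C a₁ * X + C a₂ * X ^ 2) *
        AdjoinRoot.mk (cu A B) (C a₀ + C a₁ * X + C a₂ * X ^ 2) := by
      rw [← map_mul, AdjoinRoot.mk_eq_mk, ← Polynomial.map_dvd_map' (algebraMap k k'), hmap]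
      refine (Dvd.dvd.mul_left hs (C (δ * δ))).trans (dvd_of_eq ?_)
      rw [hq]
      simp only [Polynomial.map_sub, Polynomial.map_mul, Polynomial.map_add, Polynomial.map_pow,
        map_C, map_X, ha0, ha1, ha2, hη, map_mul]
      ring
    have hn := congrArg (Algebra.norm k) key
    rw [map_mul, map_mul, AdjoinRoot.mk_C, map_mul] at hn
    have h6 : Algebra.norm k (AdjoinRoot.of (cu A B) η) = η ^ 3 := by
      rw [← AdjoinRoot.algebraMap_eq, Algebra.norm_algebraMap,
        (AdjoinRoot.powerBasis hirr.ne_zero).finrank, AdjoinRoot.powerBasis_dim, cu_deg]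
    rw [h6] at hn
    obtain ⟨c, hc⟩ := hN
    rw [hc] at hn
    obtain ⟨n, hn'⟩ : ∃ n : k, n = Algebra.norm k
      (AdjoinRoot.mk (cu A B) (C a₀ + C a₁ * X + C a₂ * X ^ 2)) := ⟨_, rfl⟩
    rw [← hn'] at hn
    have hc0 : c ≠ 0 := by
      rintro rfl
      apply hg0
      haveI : FiniteDimensional k (AdjoinRoot (cu A B)) :=
        (AdjoinRoot.powerBasis hirr.ne_zero).finite
      rw [← Algebra.norm_eq_zero_iff (R := k), hc, mul_zero]
    have h8 : η = (n / (c * η)) * (n / (c * η)) := by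
      field_simp
      linear_combination hn
    have h9 : (δ - algebraMap k k' (n / (c * η))) * (δ + algebraMap k k' (n / (c * η))) = 0 := by
      have h10 := congrArg (algebraMap k k') h8
      rw [map_mul, hη] at h10
      linear_combination h10
    have h2 : (2 : k') ≠ 0 := two_ne_zero
    have h11 : σ δ = δ := by
      rcases mul_eq_zero.1 h9 with h | h
      · rw [sub_eq_zero.1 h, σ.commutes]
      · rw [eq_neg_of_add_eq_zero_left h, map_neg, σ.commutes]
    apply hδ0
    rw [hδ] at h11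
    apply mul_left_cancel₀ h2
    linear_combination -h11

theorem act_some (σ : k' →ₐ[k] k') {x y : k'}
    (h : ((sW A B).baseChange k').toAffine.Nonsingular x y) :
    ∃ h', act (sW A B) σ (Point.some x y h) = Point.some (σ x) (σ y) h' :=
  ⟨_, rfl⟩

theorem pp_act (σ : k' →ₐ[k] k') (P : Pt (sW A B) k') :
    pp (act (sW A B) σ P) = (pp P).map (σ : k' →+* k') := by
  rcases P with _ | ⟨x, y, h⟩
  · have : act (sW A B) σ (Point.zero) = Point.zero := rfl
    rw [this]
    exact (Polynomial.map_one _).symm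
  · obtain ⟨h', e⟩ := act_some σ h
    rw [e]
    show C (σ x) - X = (C x - X).map (σ : k' →+* k')
    simp

theorem act_act (σ : k' →ₐ[k] k') (hσ2 : ∀ x, σ (σ x) = x) (P : Pt (sW A B) k') :
    act (sW A B) σ (act (sW A B) σ P) = P := by
  rcases P with _ | ⟨x, y, h⟩
  · rfl
  · obtain ⟨h', e⟩ := act_some σ h
    rw [e]
    obtain ⟨h'', e'⟩ := act_some σ h'
    rw [e']
    simp only [hσ2]

/-- The class of an element of `k(θ)` comes from a point over `k` if it comes from one over `k'`. -/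
theorem desc (σ : k' →ₐ[k] k') (hσ2 : ∀ x, σ (σ x) = x)
    (hfix : ∀ x, σ x = x → ∃ y, algebraMap k k' y = x) {δ : k'} (hδ : σ δ = -δ) (hδ0 : δ ≠ 0)
    (hirr' : Irreducible (cu (algebraMap k k' A) (algebraMap k k' B)))
    (H1 : ∀ Q : Pt (sW A B) k', act (sW A B) σ Q = -Q → ∃ S : Pt (sW A B) k',
      Q = act (sW A B) σ S - S) {h : k[X]} (hc : IsCoprime h (cu A B))
    (hN : IsSquare (Algebra.norm k (AdjoinRoot.mk (cu A B) h)))
    (hP : PtF (algebraMap k k' A) (algebraMap k k' B) (h.map (algebraMap k k'))) :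
    PtF A B h := by
  have hmap : (cu A B).map (algebraMap k k') = cu (algebraMap k k' A) (algebraMap k k' B) :=
    cu_map _ _ _
  have hirr : Irreducible (cu A B) :=
    (cu_monic A B).irreducible_of_irreducible_map (algebraMap k k') _ (by rw [hmap]; exact hirr')
  haveI : CharZero k' := charZero_of_injective_algebraMap (algebraMap k k').injective
  haveI : Fact (Irreducible (cu A B)) := ⟨hirr⟩
  haveI : Fact (Irreducible (cu (algebraMap k k' A) (algebraMap k k' B))) := ⟨hirr'⟩
  have hd := disc_ne hirr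
  have h6 : (6 : k) ≠ 0 := by norm_num
  have hS := isS (K := k) (Ω := k') h6 hd
  obtain ⟨W', hW'⟩ : ∃ W' : Affine k', W' = ((sW A B).baseChange k').toAffine := ⟨_, rfl⟩
  obtain ⟨t, ht⟩ : ∃ t, t = AdjoinRoot.root (cu (algebraMap k k' A) (algebraMap k k' B)) :=
    ⟨_, rfl⟩
  have ht0 : t ^ 3 + algebraMap k' _ (algebraMap k k' A) * t +
      algebraMap k' _ (algebraMap k k' B) = 0 := by
    have := AdjoinRoot.eval₂_root (cu (algebraMap k k' A) (algebraMap k k' B))
    rw [← ht] at this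
    simpa [cu] using this
  have hcv : ∀ {a b : AdjoinRoot (cu (algebraMap k k' A) (algebraMap k k' B))}, IsSquare a →
      a = b → IsSquare b := fun h e => e ▸ h
  have hsq : ∀ {a b : AdjoinRoot (cu (algebraMap k k' A) (algebraMap k k' B))}, a ≠ 0 →
      IsSquare (a * b) → IsSquare a → IsSquare b := by
    intro a b ha hab hA
    obtain ⟨u, hu⟩ := hab
    obtain ⟨v, hv⟩ := hA
    have hv0 : v ≠ 0 := by
      rintro rfl
      exact ha (by rw [hv, mul_zero])
    refine ⟨u / v, ?_⟩
    have : b = (a * b) / a := by field_simp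
    rw [this, hu, hv]
    field_simp
  have hroot : ∀ x : k', x ^ 3 + algebraMap k k' A * x + algebraMap k k' B ≠ 0 := by
    intro x hx
    have h1 : (cu (algebraMap k k' A) (algebraMap k k' B)).IsRoot x := by
      simp [cu, IsRoot, hx]
    have h2 := degree_eq_one_of_irreducible_of_root hirr' h1
    rw [degree_eq_natDegree (cu_monic _ _).ne_zero, cu_deg] at h2
    norm_num at h2
  have hne : ∀ x : k', algebraMap k' (AdjoinRoot (cu (algebraMap k k' A) (algebraMap k k' B))) x
      ≠ t := by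
    intro x hx
    apply hroot x
    rw [← hx] at ht0
    have h1 : algebraMap k' (AdjoinRoot (cu (algebraMap k k' A) (algebraMap k k' B)))
        (x ^ 3 + algebraMap k k' A * x + algebraMap k k' B) = 0 := by
      rw [map_add, map_add, map_mul, map_pow]
      exact ht0
    exact (map_eq_zero _).1 h1
  have hmu0 := mu_ne (W := ((sW A B).baseChange k').toAffine) hne
  have hmk : ∀ P : Pt (sW A B) k', AdjoinRoot.mk (cu (algebraMap k k' A) (algebraMap k k' B))
      (pp P) = mu _ t P := by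
    intro P
    rw [ht]
    exact mk_pp _ P
  have hh0 : AdjoinRoot.mk (cu (algebraMap k k' A) (algebraMap k k' B))
      (h.map (algebraMap k k')) ≠ 0 := by
    intro h0
    rw [AdjoinRoot.mk_eq_zero, ← hmap] at h0
    have h1 : IsCoprime (h.map (algebraMap k k')) ((cu A B).map (algebraMap k k')) :=
      hc.map (mapRingHom (algebraMap k k'))
    have h2 := h1.symm.isUnit_of_dvd' dvd_rfl h0
    rw [hmap] at h2
    exact hirr'.not_isUnit h2
  -- the point
  obtain ⟨P, hP1⟩ : ∃ P : Pt (sW A B) k', IsSquare (AdjoinRoot.mk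
      (cu (algebraMap k k' A) (algebraMap k k' B)) (h.map (algebraMap k k')) * mu _ t P) := by
    rcases hP with h1 | ⟨x, y, h1, h2⟩
    · refine ⟨0, ?_⟩
      rw [mu_zero, mul_one]
      exact h1
    · refine ⟨Point.some x y (hS.nonsingular.2 h1), ?_⟩
      rw [← hmk, ← map_mul]
      exact h2
  have hσh : (h.map (algebraMap k k')).map (σ : k' →+* k') = h.map (algebraMap k k') := by
    rw [Polynomial.map_map]
    congr 1
    ext x
    exact σ.commutes x
  have hP2 : IsSquare (AdjoinRoot.mk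
      (cu (algebraMap k k' A) (algebraMap k k' B)) (h.map (algebraMap k k')) *
      mu _ t (act (sW A B) σ P)) := by
    rw [← hmk, ← map_mul] at hP1 ⊢
    obtain ⟨s, hs⟩ := hP1
    obtain ⟨s, rfl⟩ := AdjoinRoot.mk_surjective s
    rw [← map_mul, AdjoinRoot.mk_eq_mk] at hs
    refine ⟨AdjoinRoot.mk _ (s.map (σ : k' →+* k')), ?_⟩
    rw [← map_mul, AdjoinRoot.mk_eq_mk, pp_act]
    have h1 := Polynomial.map_dvd (σ : k' →+* k') hs
    have e1 : (cu (algebraMap k k' A) (algebraMap k k' B)).map (σ : k' →+* k') =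
        cu (algebraMap k k' A) (algebraMap k k' B) := by
      rw [cu_map]
      congr 1
      · exact σ.commutes A
      · exact σ.commutes B
    rw [e1, Polynomial.map_sub, Polynomial.map_mul, hσh, Polynomial.map_mul] at h1
    exact h1
  have hP3 : IsSquare (mu _ t P * mu _ t (act (sW A B) σ P)) := by
    refine hsq (mul_ne_zero hh0 hh0) ?_ ⟨_, rfl⟩
    have := hP1.mul hP2
    exact hcv this (by ring)
  have hP4 : IsSquare (mu _ t (P - act (sW A B) σ P)) := by
    have h1 := mu_mul hS ht0 P (-act (sW A B) σ P)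
    rw [mu_neg hS, ← sub_eq_add_neg] at h1
    refine hsq (mul_ne_zero (hmu0 P) (hmu0 (act (sW A B) σ P))) ?_ hP3
    exact hcv h1 (by ring)
  obtain ⟨Q, hQ⟩ := half_cu hS hirr' (P - act (sW A B) σ P) (by rw [hmk]; exact hP4)
  have htor : ∀ T : Pt (sW A B) k', T + T = 0 → T = 0 := by
    intro T hT
    rcases T with _ | ⟨x, y, hxy⟩
    · rfl
    · exfalso
      have h1 := (add_self_eq_zero_iff hS hxy).1 hT
      have h2 := hS.nonsingular.1 hxy
      apply hroot x
      rw [← h2, h1]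
      ring
  have hQσ : act (sW A B) σ Q = -Q := by
    have h1 := congrArg (act (sW A B) σ) hQ
    rw [map_sub, act_act σ hσ2, map_add] at h1
    have h2 : (act (sW A B) σ Q + Q) + (act (sW A B) σ Q + Q) = 0 := by
      calc (act (sW A B) σ Q + Q) + (act (sW A B) σ Q + Q)
          = (act (sW A B) σ Q + act (sW A B) σ Q) + (Q + Q) := by abel
        _ = 0 := by rw [← h1, ← hQ]; abel
    exact eq_neg_of_add_eq_zero_left (htor _ h2)
  obtain ⟨S, hS1⟩ := H1 Q hQσ
  obtain ⟨R, hR⟩ : ∃ R, R = P + (S + S) := ⟨_, rfl⟩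
  have hRσ : act (sW A B) σ R = R := by
    have e1 : P = act (sW A B) σ P + (Q + Q) := by rw [← hQ]; abel
    rw [hR, map_add, map_add]
    conv_rhs => rw [e1, hS1]
    abel
  have hμR : IsSquare (AdjoinRoot.mk
      (cu (algebraMap k k' A) (algebraMap k k' B)) (h.map (algebraMap k k')) * mu _ t R) := by
    have h1 := mu_mul hS ht0 S S
    have h2 : IsSquare (mu _ t (S + S)) := by
      refine hsq (mul_ne_zero (hmu0 S) (hmu0 S)) ?_ ⟨_, rfl⟩
      exact hcv h1 (by ring)
    have h3 := mu_mul hS ht0 P (S + S)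
    rw [← hR] at h3
    have h4 : mu _ t P * mu _ t (S + S) * mu _ t P ≠ 0 :=
      mul_ne_zero (mul_ne_zero (hmu0 P) (hmu0 (S + S))) (hmu0 P)
    refine hsq h4 (hcv (h3.mul hP1) (by ring)) ?_
    exact hcv (h2.mul (⟨mu _ t P, rfl⟩ : IsSquare (mu _ t P * mu _ t P))) (by ring)
  have hfin : ∀ g : k[X], IsSquare (Algebra.norm k (AdjoinRoot.mk (cu A B) g)) →
      IsSquare (AdjoinRoot.mk (cu (algebraMap k k' A) (algebraMap k k' B))
      (g.map (algebraMap k k'))) → IsSquare (AdjoinRoot.mk (cu A B) g) := fun g h1 h2 =>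
    sq_desc hirr σ hfix hδ hδ0 hirr' h1 h2
  rcases R with _ | ⟨x, y, hxy⟩
  · left
    refine hfin h hN ?_
    have : mu ((sW A B).baseChange k').toAffine t (Point.zero) = 1 := rfl
    rw [this, mul_one] at hμR
    exact hμR
  · right
    obtain ⟨h', e⟩ := act_some σ hxy
    rw [e] at hRσ
    injection hRσ with hx hy
    obtain ⟨x₀, rfl⟩ := hfix x hx
    obtain ⟨y₀, rfl⟩ := hfix y hy
    have hxy' := hS.nonsingular.1 hxy
    have hxy0 : y₀ ^ 2 = x₀ ^ 3 + A * x₀ + B := by
      apply (algebraMap k k').injective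
      rw [map_add, map_add, map_mul, map_pow, map_pow]
      exact hxy'
    refine ⟨x₀, y₀, hxy0, hfin _ ?_ ?_⟩
    · rw [map_mul, map_mul, norm_pp hirr, ← hxy0]
      exact hN.mul (⟨y₀, pow_two y₀⟩)
    · rw [← hmk, ← map_mul] at hμR
      have e5 : h.map (algebraMap k k') * pp (Point.some (algebraMap k k' x₀)
          (algebraMap k k' y₀) hxy) = (h * (C x₀ - X)).map (algebraMap k k') := by
        show _ * (C (algebraMap k k' x₀) - X) = _
        simp
      rw [e5] at hμR
      exact hμR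

end desc

end Pool.Agent.H459.UF
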