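import Pool.Agent.H459.UF.Dense
import Pool.Graph.R_pool_sql_team_seeded_63374d34.N710.PF.Exs
import Pool.Graph.R_pool_sql_team_seeded_63374d34.N835.QM.SPD
import Pool.Graph.R_pool_sql_team_seeded_63374d34.N160.QM.GEN
import Pool.Graph.R_pool_sql_team_seeded_63374d34.N891.QM.SplA
import Pool.Graph.R_pool_sql_team_seeded_63374d34.N891.QM.Spl

/-!
# Sets of primes which split completely in a given extension (helper459)
-/

set_option autoImplicit false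
set_option linter.all false

open Polynomial NumberField IsDedekindDomain
open scoped Classical IntermediateField

namespace Pool.Agent.H459.UF

open Pool.Agent.N783.PF (Bd Cg sp rd Ht GoodS GoodF Fam)
open Pool.Agent.N874.QM (Gen SplitMod)

theorem deg1_of_spl {F F' : Type} [Field F] [NumberField F] [Field F'] [NumberField F']
    [Algebra F F'] {γ : F'} {m : ℤ[X]} {δ : ℕ} (hG : Gen F γ m δ) {q : ℕ} (hq : q.Prime)
    (hs : SplitMod q m) (hδ : ¬ q ∣ δ) {v : HeightOneSpectrum (𝓞 F)} (hv : (q : 𝓞 F) ∈ v.asIdeal) :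
    Deg1 F F' v := by
  intro P hP x
  by_cases hx : x ∈ P.asIdeal
  · exact ⟨0, by simpa using hx⟩
  have hb : below F P = v := by
    refine eq_below fun a ha => ?_
    exact hP (Ideal.mem_map_of_mem _ ha)
  have hqP : (q : 𝓞 F') ∈ P.asIdeal := by
    have := hP (Ideal.mem_map_of_mem (algebraMap (𝓞 F) (𝓞 F')) hv)
    rwa [map_natCast] at this
  have hδP : ¬ Pool.Agent.N783.PQ.Ov δ P := by
    intro h
    have h1 : (δ : 𝓞 F') ∈ P.asIdeal := h
    have hc : IsCoprime (q : ℤ) (δ : ℤ) := by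
      rw [Nat.isCoprime_iff_coprime]
      exact (Nat.Prime.coprime_iff_not_dvd hq).2 hδ
    obtain ⟨u, w, huw⟩ := hc
    apply P.isPrime.ne_top
    rw [Ideal.eq_top_iff_one]
    have e : (1 : 𝓞 F') = (u : 𝓞 F') * (q : 𝓞 F') + (w : 𝓞 F') * (δ : 𝓞 F') := by
      exact_mod_cast (congrArg (fun z : ℤ => (z : 𝓞 F')) huw).symm
    rw [e]
    exact Ideal.add_mem _ (Ideal.mul_mem_left _ _ hqP) (Ideal.mul_mem_left _ _ h1)
  have hx0 : (x : F') ≠ 0 := by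
    intro h0
    apply hx
    have : x = 0 := RingOfIntegers.ext h0
    rw [this]
    exact Ideal.zero_mem _
  obtain ⟨s₀, hs₀⟩ := Pool.Agent.N835.QM.spd F F' γ m δ hG q hq hs P hqP hδP (x : F') hx0
  have hx1 : P.valuation F' (x : F') ≤ 1 := HeightOneSpectrum.valuation_le_one (K := F') P x
  have hs1 : P.valuation F' (algebraMap F F' s₀) ≤ 1 := by
    have e : algebraMap F F' s₀ = (x : F') - ((x : F') - algebraMap F F' s₀) := by ring
    rw [e]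
    exact (Valuation.map_sub _ _ _).trans (max_le hx1 (hs₀.le.trans hx1))
  obtain ⟨e, he, hval⟩ := val_pow (K := F) P
  have hs2 : (below F P).valuation F s₀ ≤ 1 := by
    rw [hval] at hs1
    exact (pow_le_one_iff (by omega)).1 hs1
  obtain ⟨y, hy⟩ := (below F P).exists_valuation_sub_lt_of_integer hs2 1
  rw [Units.val_one] at hy
  refine ⟨y, ?_⟩
  refine (HeightOneSpectrum.valuation_lt_one_iff_mem (K := F') P _).1 ?_
  show P.valuation F' (algebraMap (𝓞 F') F' (x - algebraMap (𝓞 F) (𝓞 F') y)) < 1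
  have e2 : algebraMap (𝓞 F') F' (x - algebraMap (𝓞 F) (𝓞 F') y) =
      ((x : F') - algebraMap F F' s₀) - algebraMap F F' (algebraMap (𝓞 F) F y - s₀) := by
    rw [map_sub, map_sub, ← IsScalarTower.algebraMap_apply, ← IsScalarTower.algebraMap_apply]
    ring
  rw [e2]
  refine lt_of_le_of_lt (Valuation.map_sub _ _ _) (max_lt (lt_of_lt_of_le hs₀ hx1) ?_)
  rw [hval]
  exact pow_lt_one₀ zero_le hy (by omega)

theorem exsW (F F' : Type) [Field F] [NumberField F] [Field F'] [NumberField F']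
    [Algebra F F'] (g W m : ℕ) (hg : 1 ≤ g) :
    ∃ (S : Finset ℕ) (𝔮 : ℕ → Ideal (𝓞 F)) (h P : ℕ → (𝓞 F)[X]),
      GoodS g W S 𝔮 h P ∧ S.card = m ∧
      ∀ q ∈ S, ∀ v : HeightOneSpectrum (𝓞 F), (q : 𝓞 F) ∈ v.asIdeal →
        Unr F F' v ∧ Deg1 F F' v := by
  obtain ⟨γ, m', δ, hG, hdeg⟩ := Pool.Agent.N160.QM.gen F'
  have hGF : Gen F γ m' δ := by
    refine ⟨?_, hG.monic, hG.root, hG.ne, hG.comb⟩
    rw [eq_top_iff]
    intro x _
    have h1 : x ∈ ℚ⟮γ⟯ := by rw [hG.top]; trivial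
    have h2 : ℚ⟮γ⟯ ≤ (F⟮γ⟯).restrictScalars ℚ := by
      rw [IntermediateField.adjoin_simple_le_iff]
      exact IntermediateField.mem_adjoin_simple_self F γ
    exact h2 h1
  obtain ⟨b, hb⟩ : ∃ b : ℕ, b = W + (2 * g + 1) + (discr F).natAbs + (discr F').natAbs + δ :=
    ⟨_, rfl⟩
  obtain ⟨S, hS1, hS2⟩ := ((Pool.Agent.N891.QM.infinite_split m' hG.monic).sdiff
    (Set.finite_Iic b)).exists_subset_card_eq m
  have hS : ∀ q ∈ S, q.Prime ∧ b < q ∧ q % 8 = 1 ∧ SplitMod q m' := by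
    intro q hq
    obtain ⟨⟨h1, h2, h3⟩, h4⟩ := hS1 hq
    have : Fact q.Prime := ⟨h1⟩
    refine ⟨h1, ?_, h2, Pool.Agent.N891.QM.splitMod_of_splits q m' hG.monic h3⟩
    rw [Set.mem_Iic] at h4
    omega
  have hdata : ∀ q : ℕ, ∃ (𝔮 : Ideal (𝓞 F)) (h A : (𝓞 F)[X]), q ∈ S →
    (∀ 𝔭 : Ideal (𝓞 F), 𝔭.IsPrime → (q : 𝓞 F) ∉ 𝔭 ^ 2) ∧
    𝔮.IsPrime ∧ (q : 𝓞 F) ∈ 𝔮 ∧
    h.Monic ∧ h.natDegree = 2 * g ∧ Irreducible (rd 𝔮 h) ∧
    A.Monic ∧ A.natDegree = 2 * g + 1 ∧ A.coeff (2 * g) = 0 ∧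
    Cg 𝔮 A (X * h) ∧
    ∀ 𝔭 : Ideal (𝓞 F), 𝔭.IsPrime → (q : 𝓞 F) ∈ 𝔭 → 𝔭 ≠ 𝔮 → Irreducible (rd 𝔭 A) := by
    intro q
    by_cases hq : q ∈ S
    · obtain ⟨h1, h2, h3, -⟩ := hS q hq
      obtain ⟨𝔮, h, A, hh⟩ := Pool.Agent.N710.PF.exists_data F g q hg h1 (by omega) (by omega)
      exact ⟨𝔮, h, A, fun _ => hh⟩
    · exact ⟨⊥, 0, 0, fun h => absurd h hq⟩
  choose 𝔮 h A hh using hdata
  refine ⟨S, 𝔮, h, A, fun q hq => ?_, hS2, fun q hq v hv => ?_⟩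
  · obtain ⟨h1, h2, h3, -⟩ := hS q hq
    exact ⟨h1, by omega, by omega, h3, hh q hq⟩
  · obtain ⟨h1, h2, h3, h4⟩ := hS q hq
    refine ⟨fun P hP => ?_, ?_⟩
    · refine Pool.Agent.N710.PF.not_mem_sq (F := F') h1 (by omega) P.isPrime ?_
      have := hP (Ideal.mem_map_of_mem (algebraMap (𝓞 F) (𝓞 F')) hv)
      rwa [map_natCast] at this
    · refine deg1_of_spl hGF h1 h4 (fun hd => ?_) hv
      have := Nat.le_of_dvd (Nat.pos_of_ne_zero hG.ne) hd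
      omega

end Pool.Agent.H459.UF
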