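import Pool.Agent.H459.UF.MainV

/-!
# Summary: one extension, and all extensions at once (helper459)
-/

set_option autoImplicit false
set_option linter.all false

open Polynomial NumberField IsDedekindDomain
open scoped Classical

namespace Pool.Agent.H459.UF

open Pool.Agent.N783.PF (Crv)

/-- A positive proportion of all elliptic curves over `F`, ordered by height, satisfies `Q`. -/
def Pos (F : Type) [Field F] [NumberField F] (Q : 𝓞 F × 𝓞 F → Prop) : Prop :=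
  ∃ c : ℝ, 0 < c ∧ ∃ Y₀ : ℝ, ∀ Y : ℝ, {p : 𝓞 F × 𝓞 F | Crv Y p}.Finite ∧
    (Y₀ ≤ Y → 0 < {p : 𝓞 F × 𝓞 F | Crv Y p}.ncard ∧
      c * ({p : 𝓞 F × 𝓞 F | Crv Y p}.ncard : ℝ) ≤
        ({p : 𝓞 F × 𝓞 F | Crv Y p ∧ Q p}.ncard : ℝ))

theorem Pos.mono {F : Type} [Field F] [NumberField F] {Q Q' : 𝓞 F × 𝓞 F → Prop}
    (h : Pos F Q) (hQ : ∀ p, Q p → Q' p) : Pos F Q' := by
  obtain ⟨c, hc, Y₀, h1⟩ := h
  refine ⟨c, hc, Y₀, fun Y => ?_⟩
  obtain ⟨h2, h3⟩ := h1 Y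
  refine ⟨h2, fun hY => ?_⟩
  obtain ⟨h4, h5⟩ := h3 hY
  refine ⟨h4, h5.trans ?_⟩
  have h6 : {p : 𝓞 F × 𝓞 F | Crv Y p ∧ Q p}.ncard ≤ {p : 𝓞 F × 𝓞 F | Crv Y p ∧ Q' p}.ncard :=
    Set.ncard_le_ncard (fun p hp => ⟨hp.1, hQ p hp.2⟩) (h2.subset fun p hp => hp.1)
  exact_mod_cast h6

theorem unr_of_disc {F M : Type} [Field F] [NumberField F] [Field M] [NumberField M] [Algebra F M]
    {v : HeightOneSpectrum (𝓞 F)}
    (h : (((discr M).natAbs.factorial : ℕ) : 𝓞 F) ∉ v.asIdeal) : Unr F M v := by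
  intro P hP
  obtain ⟨q, hq1, -, hq3⟩ := Pool.Agent.N951.PF.prime_factor v.asIdeal v.isPrime
    (Ideal.absNorm v.asIdeal) (Nat.pos_of_ne_zero fun h0 => v.ne_bot (Ideal.absNorm_eq_zero_iff.1 h0))
    (Ideal.absNorm_mem v.asIdeal)
  have hlt : (discr M).natAbs < q := by
    by_contra hc
    apply h
    obtain ⟨m, hm⟩ := hq1.dvd_factorial.2 (not_lt.1 hc)
    rw [hm, Nat.cast_mul]
    exact Ideal.mul_mem_right _ _ hq3
  refine Pool.Agent.N710.PF.not_mem_sq (F := M) hq1 hlt P.isPrime ?_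
  have := hP (Ideal.mem_map_of_mem (algebraMap (𝓞 F) (𝓞 M)) hq3)
  rwa [map_natCast] at this

/-- One extension. -/
theorem fixV (F : Type) [Field F] [NumberField F] (M : Type) [Field M] [NumberField M]
    [Algebra F M] [IsGalois F M] (n : ℕ) (hn : Module.finrank F M = 2 ^ n)
    (h2 : ∀ v : HeightOneSpectrum (𝓞 F), (2 : 𝓞 F) ∈ v.asIdeal → Unr F M v) :
    Pos F (GoodM F M) := by
  obtain ⟨Z, -, hZ, -, hpos⟩ := finV F M (discr M).natAbs.factorial (Nat.factorial_pos _)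
  refine Pos.mono (Q := UV Z (discr M).natAbs.factorial) hpos ?_
  intro p hp
  refine hp.2.2 M n hn ⟨hZ, fun v hv => ?_⟩
  rcases hv with hv | ⟨t, ht⟩
  · exact h2 v hv
  · exact unr_of_disc fun h => hp.1 v h t ht

theorem finW (F : Type) [Field F] [NumberField F] :
    (∀ (M : Type) [Field M] [NumberField M] [Algebra F M] [IsGalois F M] (n : ℕ),
      Module.finrank F M = 2 ^ n →
      (∀ v : HeightOneSpectrum (𝓞 F), (2 : 𝓞 F) ∈ v.asIdeal → Unr F M v) → Pos F (GoodM F M)) ∧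
    ∀ (F' : Type) [Field F'] [NumberField F'] [Algebra F F'] (k : ℕ), 0 < k →
      ∃ Z : Set (HeightOneSpectrum (𝓞 F)), Z.Finite ∧ (∀ v ∈ Z, Unr F F' v ∧ Deg1 F F' v) ∧
      (∀ v ∈ Z, (2 : 𝓞 F) ∉ v.asIdeal ∧ (k : 𝓞 F) ∉ v.asIdeal) ∧ Pos F (UV Z k) :=
  ⟨fun M _ _ _ _ n hn h2 => fixV F M n hn h2, fun F' _ _ _ k hk => finV F F' k hk⟩

end Pool.Agent.H459.UF
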