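import Pool.Agent.H459.UF.Pin

/-!
# The field `K(θ)` (helper459)
-/

set_option autoImplicit false
set_option linter.all false

open Polynomial IsDedekindDomain NumberField WithZero
open scoped Classical IntermediateField

namespace Pool.Agent.H459.UF

open Pool.Agent.N783.PF (IsGen rd fF)

section

variable {F K L : Type} [Field F] [NumberField F] [Field K] [NumberField K] [Field L]
  [NumberField L] [Algebra F K] [Algebra K L] {f : (𝓞 F)[X]} {θ : L}

/-- `θ` is a zero of `f` and `L = K(θ)`. -/
structure Cub (K : Type) [Field K] [NumberField K] [Algebra F K] [Algebra K L] (f : (𝓞 F)[X])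
    (θ : L) : Prop where
  root : aeval θ (fb K f) = 0
  top : K⟮θ⟯ = ⊤
  rank : Module.finrank K L = f.natDegree

theorem Cub.minp (hf : f.Monic) (h : Cub K f θ) : minpoly K θ = fb K f := by
  have hint : IsIntegral K θ := Algebra.IsIntegral.isIntegral θ
  have hm : (fb K f).Monic := (hf.map _).map _
  have hd : (fb K f).natDegree = f.natDegree := by
    unfold fb fF
    rw [(hf.map _).natDegree_map, hf.natDegree_map]
  have h1 : (minpoly K θ).natDegree = f.natDegree := by
    rw [(Field.primitive_element_iff_minpoly_natDegree_eq K θ).1 h.top, h.rank]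
  exact (Polynomial.eq_of_monic_of_dvd_of_natDegree_le (minpoly.monic hint) hm
    (minpoly.dvd K θ h.root) (by rw [hd, h1])).symm

theorem Cub.irr (hf : f.Monic) (h : Cub K f θ) : Irreducible (fb K f) := by
  rw [← h.minp hf]
  exact minpoly.irreducible (Algebra.IsIntegral.isIntegral θ)

theorem Cub.int (hf : f.Monic) (h : Cub K f θ) : IsIntegral ℤ θ := by
  have h1 : IsIntegral (𝓞 K) θ := by
    refine ⟨fo K f, hf.map _, ?_⟩
    have h2 := h.root
    rw [fb_eq, aeval_map_algebraMap] at h2
    exact h2
  exact isIntegral_trans (R := ℤ) (A := 𝓞 K) θ h1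

theorem Cub.isGen {g : ℕ} (hf : f.Monic) (hd : f.natDegree = 2 * g + 1) (h : Cub K f θ) :
    IsGen (F := K) g (fo K f) θ := by
  have hm : (fb K f).Monic := (hf.map _).map _
  have hdb : (fb K f).natDegree = 2 * g + 1 := by
    unfold fb fF
    rw [(hf.map _).natDegree_map, hf.natDegree_map, hd]
  refine ⟨hf.map _, by rw [fo, hf.natDegree_map, hd], ?_, by rw [h.rank, hd], ?_⟩
  · have := h.root
    rw [fb_eq] at this
    exact this
  · intro x
    obtain ⟨p, rfl⟩ := exists_poly h.top x
    have h1 : aeval θ p = aeval θ (p %ₘ fb K f) := by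
      have h2 := congrArg (aeval θ) (modByMonic_add_div p (fb K f))
      rw [map_add, map_mul, h.root, zero_mul, add_zero] at h2
      exact h2.symm
    have hlt : (p %ₘ fb K f).natDegree < 2 * g + 1 := by
      rw [← hdb]
      exact natDegree_modByMonic_lt p hm (by
        intro h
        rw [h] at hdb
        simp at hdb)
    refine ⟨fun i => (p %ₘ fb K f).coeff i, ?_⟩
    rw [h1]
    conv_lhs => rw [(p %ₘ fb K f).as_sum_range_C_mul_X_pow' hlt]
    rw [map_sum, Finset.sum_range]
    refine Finset.sum_congr rfl fun i _ => ?_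
    rw [map_mul, map_pow, aeval_X, aeval_C]

end

section sub

variable {F K₁ K₂ L₂ : Type} [Field F] [NumberField F] [Field K₁] [NumberField K₁] [Field K₂]
  [NumberField K₂] [Field L₂] [NumberField L₂] [Algebra F K₁] [Algebra F K₂] [Algebra K₁ K₂]
  [IsScalarTower F K₁ K₂] [Algebra K₂ L₂] [Algebra K₁ L₂] [IsScalarTower K₁ K₂ L₂]
  {f : (𝓞 F)[X]} {θ : L₂}

theorem irr_of_map {K K' : Type} [Field K] [Field K'] [Algebra K K'] {p : K[X]} (hp : p.Monic)
    (h : Irreducible (p.map (algebraMap K K'))) : Irreducible p :=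
  hp.irreducible_of_irreducible_map (algebraMap K K') p h

/-- The subfield generated over `K₁`. -/
theorem cub_sub (hf : f.Monic) (h : Cub K₂ f θ) :
    ∃ (θ₁ : K₁⟮θ⟯), algebraMap K₁⟮θ⟯ L₂ θ₁ = θ ∧ Cub K₁ f θ₁ := by
  have hm : (fb K₁ f).Monic := (hf.map _).map _
  have hirr : Irreducible (fb K₁ f) := by
    refine irr_of_map (K' := K₂) hm ?_
    rw [fb_map K₁ K₂ f]
    exact h.irr hf
  have hroot : aeval θ (fb K₁ f) = 0 := by
    have h1 := h.root
    rw [← fb_map K₁ K₂ f, aeval_map_algebraMap] at h1
    exact h1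
  have hmin : minpoly K₁ θ = fb K₁ f := (minpoly.eq_of_irreducible_of_monic hirr hroot hm).symm
  have hint : IsIntegral K₁ θ := Algebra.IsIntegral.isIntegral θ
  refine ⟨IntermediateField.AdjoinSimple.gen K₁ θ, IntermediateField.AdjoinSimple.algebraMap_gen K₁ θ,
    ⟨?_, ?_, ?_⟩⟩
  · apply (algebraMap K₁⟮θ⟯ L₂).injective
    rw [map_zero, ← aeval_algebraMap_apply, IntermediateField.AdjoinSimple.algebraMap_gen, hroot]
  · rw [Field.primitive_element_iff_minpoly_natDegree_eq, IntermediateField.minpoly_gen,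
      IntermediateField.adjoin.finrank hint]
  · rw [IntermediateField.adjoin.finrank hint, hmin]
    unfold fb fF
    rw [(hf.map _).natDegree_map, hf.natDegree_map]

end sub

end Pool.Agent.H459.UF
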