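import Pool.Agent.H459.UF.TwV
import Pool.Agent.H459.UF.MainU

/-!
# A positive proportion (helper459)

After `N99/PF/Main.lean` of helper99 and `N61/PF/Fin1.lean` of helper61.
-/

set_option autoImplicit false
set_option linter.all false

open Polynomial NumberField IsDedekindDomain
open scoped Classical

namespace Pool.Agent.H459.UF

open Pool.Agent.N783.PF
open Pool.Agent.N352.PJ (dd)
open Pool.Agent.N99.PF (card_fib ht_card ht_scale scale_inj good_card)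
open Pool.Agent.N874.PP (sW)
open Pool.Agent.TH115.GD (Pt)
open Pool.Agent.N874.QM (SelC ShaC SelM)
open Pool.Agent.N61.PF (pol pol_monic pol_natDegree pol_coeff0 pol_coeff1 pol_coeff2 eq_pol fF_eq
  disc_ne crv_finite crv_upper ht_lower crv_of_ht exists_B)

theorem mainV (F : Type) [Field F] [NumberField F] (F' : Type) [Field F'] [NumberField F']
    [Algebra F F'] (k : ℕ) (hk : 0 < k) :
    ∃ (Z : Set (HeightOneSpectrum (𝓞 F))), Z.Finite ∧ (∀ v ∈ Z, Unr F F' v ∧ Deg1 F F' v) ∧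
    (∀ v ∈ Z, (2 : 𝓞 F) ∉ v.asIdeal ∧ (k : 𝓞 F) ∉ v.asIdeal) ∧
    ∃ c : ℝ, 0 < c ∧ ∃ B₀ : ℕ, ∀ B ≥ B₀, {f : (𝓞 F)[X] | Ht 1 B f}.Finite ∧
    c * ({f : (𝓞 F)[X] | Ht 1 B f}.ncard : ℝ) ≤
      ({f : (𝓞 F)[X] | Ht 1 B f ∧ Irreducible (fF f) ∧ Min 1 f ∧ UG2 Z k f}.ncard : ℝ) := by
  obtain ⟨κ, htw⟩ := twV F
  obtain ⟨C, K, hbad⟩ := bad F 1 κ le_rfl
  obtain ⟨R₀, C₃, hR₀, hsa⟩ := sa_prop Pool.Agent.N352.PF.bxT F
  obtain ⟨M₀, hfamW⟩ := famP Pool.Agent.N75.PF.cu Pool.Agent.N189.PF.ld Pool.Agent.N195.PF.pr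
    Pool.Agent.N352.PF.bxT Pool.Agent.N935.PF.WK.wk
    (Pool.Agent.N352.PF.STR331.str Pool.Agent.N75.PF.cu Pool.Agent.N364.PF.cl Pool.Agent.N195.PF.pf)
    Pool.Agent.N195.PF.dscp Pool.Agent.N195.PF.pf F 1 le_rfl Sa R₀ C₃ hR₀ hsa
  obtain ⟨W, f₁, hf₁, hkW, h4W, hM₀, hirrW, htyp⟩ := gfW F (k * (max K κ + 1)) M₀
    (Nat.mul_pos hk (Nat.succ_pos _))
  have hKW : max K κ ≤ W := by
    have h1 : max K κ + 1 ≤ W := Nat.le_of_dvd hf₁.pos ((dvd_mul_left _ _).trans hkW)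
    omega
  have hkW' : k ∣ W := (dvd_mul_right _ _).trans hkW
  obtain ⟨c, hc, hfam⟩ := hfamW W f₁ hf₁ hM₀
  obtain ⟨-, Cp, hCp, -, hpt⟩ := Pool.Agent.N490.PF.pts F
  set D : ℕ := Module.finrank ℚ F * dd 1 with hD
  obtain ⟨m, hm⟩ : ∃ m : ℕ, 2 * (C * (4 * 2 ^ κ : ℝ) ^ D) / c < 2 ^ m :=
    pow_unbounded_of_one_lt _ (by norm_num)
  obtain ⟨S, 𝔮, h, P, hS, hcard, hspl⟩ := exsW F F' 1 W m le_rfl
  refine ⟨{v | ∃ q ∈ S, v.asIdeal = 𝔮 q}, ?_, ?_, ?_, ?_⟩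
  · have h1 : ({v : HeightOneSpectrum (𝓞 F) | ∃ q ∈ S, v.asIdeal = 𝔮 q}) ⊆
        (fun v : HeightOneSpectrum (𝓞 F) => v.asIdeal) ⁻¹' (𝔮 '' (S : Set ℕ)) := by
      rintro v ⟨q, hq, hv⟩
      exact ⟨q, hq, hv.symm⟩
    refine Set.Finite.subset (Set.Finite.preimage ?_ ((Finset.finite_toSet S).image 𝔮)) h1
    exact fun v _ w _ hvw => HeightOneSpectrum.ext hvw
  · rintro v ⟨q, hq, hv⟩
    obtain ⟨-, -, -, -, -, -, a7, -⟩ := hS q hq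
    exact hspl q hq v (by rw [hv]; exact a7)
  · rintro v ⟨q, hq, hv⟩
    obtain ⟨a1, a2, -, -, -, a6, a7, -⟩ := hS q hq
    have hnot : (W : 𝓞 F) ∉ v.asIdeal := by
      intro hWv
      have hco : Nat.Coprime q W := by
        rw [Nat.Prime.coprime_iff_not_dvd a1]
        intro hdv
        have := Nat.le_of_dvd hf₁.pos hdv
        omega
      obtain ⟨u, w, huw⟩ := (Nat.isCoprime_iff_coprime.2 hco)
      apply v.isPrime.ne_top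
      rw [Ideal.eq_top_iff_one]
      have e : (1 : 𝓞 F) = (u : 𝓞 F) * (q : 𝓞 F) + (w : 𝓞 F) * (W : 𝓞 F) := by
        exact_mod_cast (congrArg (fun z : ℤ => (z : 𝓞 F)) huw).symm
      rw [e]
      exact Ideal.add_mem _ (Ideal.mul_mem_left _ _ (by rw [hv]; exact a7))
        (Ideal.mul_mem_left _ _ hWv)
    refine ⟨fun h2 => hnot ?_, fun hk2 => hnot ?_⟩
    · obtain ⟨w, hw⟩ := (by norm_num : 2 ∣ 4).trans h4W
      rw [hw, Nat.cast_mul]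
      exact Ideal.mul_mem_right _ _ (by exact_mod_cast h2)
    · obtain ⟨w, hw⟩ := hkW'
      rw [hw, Nat.cast_mul]
      exact Ideal.mul_mem_right _ _ hk2
  obtain ⟨B₁₀, hB₁₀⟩ := hfam S 𝔮 h P hS
  obtain ⟨N₀, hN₀⟩ := hbad W S 𝔮 h P ((le_max_left _ _).trans hKW) hS
  set Q : ℕ := ∏ q ∈ S, q with hQ
  have hq1 : ∀ q ∈ S, 1 ≤ q := fun q hq => (hS q hq).1.pos
  have hQ1 : 1 ≤ Q := Finset.one_le_prod' hq1
  set Pn : ℕ := (∏ q ∈ S, q ^ (2 * 1)) ^ Module.finrank ℚ F with hPn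
  have hP0 : (0 : ℝ) < Pn := by
    have : 0 < Pn := pow_pos (Finset.prod_pos fun q hq => pow_pos (hq1 q hq) _) _
    exact_mod_cast this
  have hQ0 : (0 : ℝ) < Q := by exact_mod_cast hQ1
  set X₀ : ℕ := max (max B₁₀ (4 ^ N₀)) 1 with hX₀
  refine ⟨c / 2 / (Pn * 2 ^ m * ((2 * Cp) ^ (2 * 1) * (2 * Q) ^ D)), by positivity, X₀ * Q,
    fun B hB => ?_⟩
  set B₁ : ℕ := B / Q with hB₁
  have hBX : X₀ ≤ B₁ := (Nat.le_div_iff_mul_le hQ1).2 hB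
  have hb1 : 1 ≤ B₁ := (le_max_right _ _).trans hBX
  have hb2 : B₁₀ ≤ B₁ := ((le_max_left _ _).trans (le_max_left _ _)).trans hBX
  have hb3 : 4 ^ N₀ ≤ B₁ := ((le_max_right _ _).trans (le_max_left _ _)).trans hBX
  have hBQ : B₁ * Q ≤ B := Nat.div_mul_le_self B Q
  have hBQ2 : B ≤ 2 * Q * B₁ := by
    have e1 : B < B₁ * Q + Q := by
      have := Nat.lt_div_mul_add (a := B) (b := Q) hQ1
      exact this
    nlinarith
  have hB1 : 1 ≤ B := le_trans (by nlinarith) hBQ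
  obtain ⟨N, hNa, hNb⟩ : ∃ N : ℕ, 2 ^ κ * B₁ ≤ 4 ^ N ∧ 4 ^ N ≤ 4 * (2 ^ κ * B₁) := by
    refine ⟨Nat.log 4 (2 ^ κ * B₁) + 1, (Nat.lt_pow_succ_log_self (by norm_num) _).le, ?_⟩
    rw [pow_succ, mul_comm]
    refine Nat.mul_le_mul_left 4 (Nat.pow_log_le_self 4 ?_)
    positivity
  have hNN : N₀ ≤ N := by
    have e1 : 4 ^ N₀ ≤ 4 ^ N := hb3.trans (le_trans (Nat.le_mul_of_pos_left _ (by positivity)) hNa)
    exact (Nat.pow_le_pow_iff_right (by norm_num)).1 e1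
  obtain ⟨hfin, hBd⟩ := hN₀ N hNN
  refine ⟨(ht_card hCp hpt 1 B hB1).1, ?_⟩
  set H := {f : (𝓞 F)[X] | Ht 1 B f ∧ Irreducible (fF f) ∧ Min 1 f ∧
    UG2 {v | ∃ q ∈ S, v.asIdeal = 𝔮 q} k f} with hH
  set G := {f : (𝓞 F)[X] | Fam 1 B₁ W f₁ S P f ∧ Sa (fun j => f.coeff j)} \
    {f : (𝓞 F)[X] | LBad 1 N κ S 𝔮 P f} with hGdef
  have hHf : H.Finite := (ht_card hCp hpt 1 B hB1).1.subset fun f hf => hf.1
  have hGf : G.Finite := (ht_card hCp hpt 1 B₁ hb1).1.subset fun f hf => hf.1.1.ht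
  have hG : c / 2 * (B₁ : ℝ) ^ D ≤ Pn * (G.ncard : ℝ) := by
    refine good_card (C := C) (m := m) (κ := κ) hc hP0 B₁ N (hB₁₀ B₁ hb2) hfin ?_ hm ?_
    · rw [hcard] at hBd
      have e2 : Module.finrank ℚ F * (2 * N * dd 1) = 2 * N * D := by rw [hD]; ring
      rw [e2] at hBd
      exact_mod_cast hBd
    · exact_mod_cast hNb
  have hJ0 : ∀ J ⊆ S, ((Dp J : ℕ) : 𝓞 F) ≠ 0 := by
    intro J hJ
    have : 0 < ∏ q ∈ J, q := Finset.prod_pos fun q hq => hq1 q (hJ hq)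
    have h5 : (Dp J : ℕ) ≠ 0 := this.ne'
    exact_mod_cast h5
  have hcard1 := card_fib hGf hHf S (fun J f => f.scaleRoots ((Dp J : ℕ) : 𝓞 F)) (by
      intro f hf
      obtain ⟨J, hJ, hirr, hmin, hug⟩ := htw B₁ N W f₁ S 𝔮 h P f ((le_max_right _ _).trans hKW) hf₁
        hS hf.1.1 hNa hb1 hf.2 k hkW' hirrW h4W htyp (fun σ => hf.1.2 σ)
      have hDle : Dp J ≤ Q :=
        Finset.prod_le_prod_of_subset_of_one_le' hJ fun q hq _ => hq1 q hq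
      exact ⟨J, hJ, ht_scale hf.1.1.ht ((Nat.mul_le_mul_left _ hDle).trans hBQ), hirr, hmin, hug⟩) (by
      intro J hJ x hx y hy hxy
      exact scale_inj (hJ0 J hJ) (by rw [hx.1.1.ht.deg, hy.1.1.ht.deg]) hxy)
  rw [hcard] at hcard1
  have hcard' : (G.ncard : ℝ) ≤ 2 ^ m * H.ncard := by exact_mod_cast hcard1
  have hM' : ({f : (𝓞 F)[X] | Ht 1 B f}.ncard : ℝ) ≤
      (2 * Cp) ^ (2 * 1) * (2 * Q) ^ D * (B₁ : ℝ) ^ D := by
    have e1 : ({f : (𝓞 F)[X] | Ht 1 B f}.ncard : ℝ) ≤ (2 * Cp) ^ (2 * 1) * (B : ℝ) ^ D :=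
      (ht_card hCp hpt 1 B hB1).2
    refine e1.trans ?_
    rw [mul_assoc, ← mul_pow]
    have e2 : (B : ℝ) ≤ 2 * Q * B₁ := by exact_mod_cast hBQ2
    gcongr
  calc c / 2 / (Pn * 2 ^ m * ((2 * Cp) ^ (2 * 1) * (2 * Q) ^ D)) *
        ({f : (𝓞 F)[X] | Ht 1 B f}.ncard : ℝ)
      ≤ c / 2 / (Pn * 2 ^ m * ((2 * Cp) ^ (2 * 1) * (2 * Q) ^ D)) *
        ((2 * Cp) ^ (2 * 1) * (2 * Q) ^ D * (B₁ : ℝ) ^ D) :=
        mul_le_mul_of_nonneg_left hM' (by positivity)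
    _ = c / 2 * (B₁ : ℝ) ^ D / (Pn * 2 ^ m) := by
        field_simp
    _ ≤ (Pn * (G.ncard : ℝ)) / (Pn * 2 ^ m) := by gcongr
    _ ≤ (Pn * (2 ^ m * H.ncard)) / (Pn * 2 ^ m) := by gcongr
    _ = H.ncard := by field_simp

/-! ### Elliptic curves -/

/-- The conditions on the extension `M` of `F`, for the curve `y² = x³ + a x + b`. -/
structure AdmV (F M : Type) [Field F] [NumberField F] [Field M] [NumberField M] [Algebra F M]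
    (Z : Set (HeightOneSpectrum (𝓞 F))) (p : 𝓞 F × 𝓞 F) : Prop where
  sig : ∀ v ∈ Z, Unr F M v ∧ Deg1 F M v
  unr : ∀ v : HeightOneSpectrum (𝓞 F),
    (2 : 𝓞 F) ∈ v.asIdeal ∨ (∃ t : 𝓞 F, t ^ 3 + p.1 * t + p.2 ∈ v.asIdeal) → Unr F M v

/-- The property of the curve. -/
def UV {F : Type} [Field F] [NumberField F] (Z : Set (HeightOneSpectrum (𝓞 F))) (k : ℕ)
    (p : 𝓞 F × 𝓞 F) : Prop :=
  (∀ v : HeightOneSpectrum (𝓞 F), (k : 𝓞 F) ∈ v.asIdeal →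
    ∀ t : 𝓞 F, t ^ 3 + p.1 * t + p.2 ∉ v.asIdeal) ∧
  (∀ σ : F →+* ℝ, 0 < σ ((4 * p.1 ^ 3 + 27 * p.2 ^ 2 : 𝓞 F) : F)) ∧
  ∀ (M : Type) [Field M] [NumberField M] [Algebra F M] [IsGalois F M] (n : ℕ),
    Module.finrank F M = 2 ^ n → AdmV F M Z p → GoodM F M p

theorem uv_of {F : Type} [Field F] [NumberField F] {Z : Set (HeightOneSpectrum (𝓞 F))} {k : ℕ}
    {B : ℕ} {f : (𝓞 F)[X]} (h : Ht 1 B f) (hirr : Irreducible (fF f)) (hug : UG2 Z k f) :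
    UV Z k (f.coeff 1, f.coeff 0) := by
  have hf := eq_pol h
  have heval : ∀ t : 𝓞 F, f.eval t = t ^ 3 + f.coeff 1 * t + f.coeff 0 := by
    intro t
    conv_lhs => rw [hf]
    rw [pol_eval]
  have hd3 : f.natDegree = 3 := h.deg
  refine ⟨?_, hug.2.1, ?_⟩
  · intro v hv t ht
    have h1 := hug.1 v hv
    haveI hmax : v.asIdeal.IsMaximal := v.isMaximal
    letI : Field (𝓞 F ⧸ v.asIdeal) := Ideal.Quotient.field v.asIdeal
    have h2 : (rd v.asIdeal f).IsRoot (Ideal.Quotient.mk v.asIdeal t) := by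
      rw [IsRoot, rd, eval_map, eval₂_at_apply, heval]
      exact Ideal.Quotient.eq_zero_iff_mem.2 ht
    have h3 := natDegree_eq_of_degree_eq_some (degree_eq_one_of_irreducible_of_root h1 h2)
    have h4 : (rd v.asIdeal f).natDegree = 3 := by
      unfold rd
      rw [h.mon.natDegree_map, hd3]
    exact absurd (h4.symm.trans h3) (by norm_num)
  · intro M _ _ _ _ n hn hA
    have hsel := hug.2.2 M n hn ⟨hA.sig, fun v hv => hA.unr v (by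
      rcases hv with hv | ⟨t, ht⟩
      · exact Or.inl hv
      · rw [heval] at ht
        exact Or.inr ⟨t, ht⟩)⟩
    have hfo : fF (fo M f) = fb M f := (fb_eq M f).symm
    have hfb : fF (fo M f) = X ^ 3 + C (algebraMap F M ((f.coeff 1 : 𝓞 F) : F)) * X +
        C (algebraMap F M ((f.coeff 0 : 𝓞 F) : F)) := by
      rw [hfo]
      unfold fb
      rw [fF_eq h]
      simp
    have hirrM : Irreducible (fF (fo M f)) := by
      rw [hfo]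
      exact Pool.Agent.N874.JM.irr_up hn hirr (h.mon.map _) (by
        rw [h.mon.natDegree_map, hd3]
        decide)
    rw [hfb] at hirrM
    have hd := disc_ne hirrM
    have hsel' : SelM M (X ^ 3 + C (algebraMap F M ((f.coeff 1 : 𝓞 F) : F)) * X +
        C (algebraMap F M ((f.coeff 0 : 𝓞 F) : F))) := by
      rw [← hfb]
      exact hsel
    have hs := selc M _ _ hd hirrM hsel'
    obtain ⟨hdiv, hsha⟩ := Pool.Agent.N713.QM.gfc M _ _ hd hs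
    obtain ⟨hfi, ho⟩ := Pool.Agent.N459.QM.finc M _ _ hd hdiv
    exact ⟨hs, hsha, hfi, ho⟩

theorem finV (F : Type) [Field F] [NumberField F] (F' : Type) [Field F'] [NumberField F']
    [Algebra F F'] (k : ℕ) (hk : 0 < k) :
    ∃ (Z : Set (HeightOneSpectrum (𝓞 F))), Z.Finite ∧ (∀ v ∈ Z, Unr F F' v ∧ Deg1 F F' v) ∧
    (∀ v ∈ Z, (2 : 𝓞 F) ∉ v.asIdeal ∧ (k : 𝓞 F) ∉ v.asIdeal) ∧
    ∃ c : ℝ, 0 < c ∧ ∃ Y₀ : ℝ, ∀ Y : ℝ, {p : 𝓞 F × 𝓞 F | Crv Y p}.Finite ∧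
      (Y₀ ≤ Y → 0 < {p : 𝓞 F × 𝓞 F | Crv Y p}.ncard ∧
        c * ({p : 𝓞 F × 𝓞 F | Crv Y p}.ncard : ℝ) ≤
          ({p : 𝓞 F × 𝓞 F | Crv Y p ∧ UV Z k p}.ncard : ℝ)) := by
  obtain ⟨-, C, hC, hlow, hup⟩ := Pool.Agent.N490.PF.pts F
  obtain ⟨Z, hZ1, hZ2, hZ3, c, hc, B₀, hmain⟩ := mainV F F' k hk
  refine ⟨Z, hZ1, hZ2, hZ3, ?_⟩
  set d := Module.finrank ℚ F with hd
  set B₁ : ℕ := max B₀ 1 with hB₁
  refine ⟨c / (C ^ 2 * (C ^ 2 * 2 ^ (6 * d + 2))), by positivity, 27 * (B₁ : ℝ) ^ 6, ?_⟩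
  intro Y
  have hfin := crv_finite (F := F) Pool.Agent.N490.PF.pts Y
  refine ⟨hfin, ?_⟩
  intro hY
  have hB₁1 : 1 ≤ B₁ := le_max_right _ _
  have hB₁r : (1 : ℝ) ≤ B₁ := by exact_mod_cast hB₁1
  have hY27 : 27 ≤ Y := by
    have : (1 : ℝ) ≤ (B₁ : ℝ) ^ 6 := one_le_pow₀ hB₁r
    linarith
  obtain ⟨B, hBB, hBY, hYB⟩ := exists_B B₁ Y hB₁1 hY
  have hB1 : 1 ≤ B := hB₁1.trans hBB
  obtain ⟨hfinH, hprop⟩ := hmain B ((le_max_left _ _).trans hBB)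
  constructor
  · rw [Set.ncard_pos hfin]
    refine ⟨(1, 1), ⟨?_, ?_, ?_⟩⟩
    · norm_num
    · intro 𝔭 hp _ hcon
      apply hp.ne_top
      rw [Ideal.eq_top_iff_one]
      exact Ideal.pow_le_self (by norm_num) hcon.1
    · intro σ
      constructor
      · simp; linarith
      · simp; linarith
  · have hu := crv_upper hC hup hB1 hYB
    have hl := ht_lower hC hlow hB1 hfinH
    rw [← hd] at hu hl
    have h5 : ({f : (𝓞 F)[X] | Ht 1 B f ∧ Irreducible (fF f) ∧ Min 1 f ∧ UG2 Z k f}.ncard : ℝ) ≤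
        ({p : 𝓞 F × 𝓞 F | Crv Y p ∧ UV Z k p}.ncard : ℝ) := by
      have h6 := Set.ncard_le_ncard_of_injOn (fun f : (𝓞 F)[X] => (f.coeff 1, f.coeff 0))
        (s := {f : (𝓞 F)[X] | Ht 1 B f ∧ Irreducible (fF f) ∧ Min 1 f ∧ UG2 Z k f})
        (t := {p : 𝓞 F × 𝓞 F | Crv Y p ∧ UV Z k p})
        (fun f hf => ⟨crv_of_ht hf.1 hf.2.1 hf.2.2.1 hBY, uv_of hf.1 hf.2.1 hf.2.2.2⟩)
        (by
          intro f hf f' hf' h
          have e := Prod.mk.injEq .. ▸ h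
          rw [eq_pol hf.1, eq_pol hf'.1, e.1, e.2])
        (hfin.subset fun p hp => hp.1)
      exact_mod_cast h6
    have hBd : 0 < (B : ℝ) ^ (5 * d) := by
      have : (0 : ℝ) < B := by exact_mod_cast hB1
      positivity
    have h7 : ({p : 𝓞 F × 𝓞 F | Crv Y p}.ncard : ℝ) ≤
        (C ^ 2 * 2 ^ (6 * d + 2)) * (C ^ 2 * ({f : (𝓞 F)[X] | Ht 1 B f}.ncard : ℝ)) :=
      hu.trans (mul_le_mul_of_nonneg_left hl (by positivity))
    calc c / (C ^ 2 * (C ^ 2 * 2 ^ (6 * d + 2))) * ({p : 𝓞 F × 𝓞 F | Crv Y p}.ncard : ℝ)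
        ≤ c / (C ^ 2 * (C ^ 2 * 2 ^ (6 * d + 2))) *
          ((C ^ 2 * 2 ^ (6 * d + 2)) * (C ^ 2 * ({f : (𝓞 F)[X] | Ht 1 B f}.ncard : ℝ))) :=
          mul_le_mul_of_nonneg_left h7 (by positivity)
      _ = c * ({f : (𝓞 F)[X] | Ht 1 B f}.ncard : ℝ) := by
          field_simp
      _ ≤ _ := hprop.trans h5

end Pool.Agent.H459.UF
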