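import Pool.Agent.H459.UF.Cnd

/-!
# Parities at primes modulo which the polynomial is irreducible (helper459)

After `N426/PF/Par.lean` of helper426, without the assumption on the discriminant.
-/

set_option autoImplicit false
set_option linter.all false

open Polynomial IsDedekindDomain NumberField WithZero UniqueFactorizationMonoid
open scoped Classical IntermediateField

namespace Pool.Agent.H459.UF

open Pool.Agent.N874.PP (Ev Sq1 U0)
open Pool.Agent.N426.PF (parity cn_irr toG exists_t tf_O fd map_ne mem_nf)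
open Pool.Agent.N862.PP (cn cn_sum)
open Pool.Agent.N783.PF (IsGen rd fF)

section

variable {K L : Type} [Field K] [NumberField K] [Field L] [NumberField L] [Algebra K L]

theorem fin_O : Module.Finite (𝓞 K) (𝓞 L) := inferInstance

theorem cn_map' [Module.IsTorsionFree (𝓞 K) (𝓞 L)] {𝔭 : Ideal (𝓞 K)} (hpp : 𝔭.IsPrime)
    (hpb : 𝔭 ≠ ⊥) :
    cn (𝓞 K) 𝔭 (𝔭.map (algebraMap (𝓞 K) (𝓞 L))) = Module.finrank K L := by
  have hirr : Irreducible 𝔭 := (Ideal.prime_of_isPrime hpb hpp).irreducible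
  unfold cn
  rw [Ideal.relNorm_algebraMap, normalizedFactors_pow, Multiset.count_nsmul,
    normalizedFactors_irreducible hirr, normalize_eq, Multiset.count_singleton_self, mul_one,
    IsFractionRing.finrank_eq (𝓞 K) K (𝓞 L) L]

theorem pin {g : ℕ} {f : (𝓞 K)[X]} {θ : L} (h0 : IsGen g f θ) {𝔭 : Ideal (𝓞 K)}
    (hp : 𝔭.IsPrime) (hp0 : 𝔭 ≠ ⊥) (hf : Irreducible (rd 𝔭 f)) {x : L} (hx : x ≠ 0)
    (hnx : IsSquare (Algebra.norm K x)) {P : HeightOneSpectrum (𝓞 L)}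
    (hov : Pool.Agent.N783.PF.Ov 𝔭 P) : Ev P x := by
  have h := toG h0
  obtain ⟨t, ht⟩ := exists_t (O := 𝓞 L) h
  have hfin : Module.Finite (𝓞 K) (𝓞 L) := fin_O
  have htf : Module.IsTorsionFree (𝓞 K) (𝓞 L) := tf_O (K := K) (L := L)
  have hfd := fd h
  have hI := map_ne (L := L) hp0
  have hsum := cn_map' (L := L) hp hp0
  rw [h0.rank, cn_sum _ hI] at hsum
  have hterm : ∀ 𝔔 : HeightOneSpectrum (𝓞 L), Pool.Agent.N783.PF.Ov 𝔭 𝔔 →
      𝔔.asIdeal ∈ (normalizedFactors (𝔭.map (algebraMap (𝓞 K) (𝓞 L)))).toFinset ∧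
      cn (𝓞 K) 𝔭 𝔔.asIdeal ≤ (normalizedFactors (𝔭.map (algebraMap (𝓞 K) (𝓞 L)))).count
        𝔔.asIdeal * cn (𝓞 K) 𝔭 𝔔.asIdeal := by
    intro 𝔔 h𝔔
    have h1 := (mem_nf hI 𝔔).2 h𝔔
    refine ⟨Multiset.mem_toFinset.2 h1, ?_⟩
    exact Nat.le_mul_of_pos_left _ (Multiset.count_pos.2 h1)
  have hle : ∀ 𝔔 : HeightOneSpectrum (𝓞 L), Pool.Agent.N783.PF.Ov 𝔭 𝔔 →
      cn (𝓞 K) 𝔭 𝔔.asIdeal = 2 * g + 1 := by
    intro 𝔔 h𝔔
    obtain ⟨h1, h2⟩ := hterm 𝔔 h𝔔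
    have h3 := Finset.single_le_sum (f := fun J => (normalizedFactors (𝔭.map
      (algebraMap (𝓞 K) (𝓞 L)))).count J * cn (𝓞 K) 𝔭 J) (fun i _ => Nat.zero_le _) h1
    rw [hsum] at h3
    have h4 := cn_irr h0 ht hp hp0 hf h𝔔
    omega
  refine parity hp hp0 P (by rw [hle P hov]; exact ⟨g, rfl⟩) hx hnx fun 𝔔 ho hne => ?_
  exfalso
  obtain ⟨h1, h2⟩ := hterm P hov
  obtain ⟨h3, h4⟩ := hterm 𝔔 ho
  have hne' : 𝔔.asIdeal ≠ P.asIdeal := fun h' => hne (HeightOneSpectrum.ext h')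
  have h5 : ∑ J ∈ {𝔔.asIdeal, P.asIdeal}, (normalizedFactors (𝔭.map
      (algebraMap (𝓞 K) (𝓞 L)))).count J * cn (𝓞 K) 𝔭 J ≤
      ∑ J ∈ (normalizedFactors (𝔭.map (algebraMap (𝓞 K) (𝓞 L)))).toFinset, (normalizedFactors
        (𝔭.map (algebraMap (𝓞 K) (𝓞 L)))).count J * cn (𝓞 K) 𝔭 J := by
    refine Finset.sum_le_sum_of_subset ?_
    intro J hJ
    rw [Finset.mem_insert, Finset.mem_singleton] at hJ
    rcases hJ with rfl | rfl
    · exact h3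
    · exact h1
  rw [Finset.sum_pair hne', hsum, hle P hov, hle 𝔔 ho] at h5
  rw [hle P hov] at h2
  rw [hle 𝔔 ho] at h4
  omega

end

end Pool.Agent.H459.UF
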