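import Pool.Agent.H459.UF.Dsc
import Pool.Graph.R_pool_sql_team_seeded_63374d34.N2.PQ.Cant

/-!
# Classes of divisors are classes of points (helper459)
-/

set_option autoImplicit false
set_option linter.all false

open Polynomial
open scoped Classical

namespace Pool.Agent.H459.UF

open Pool.Agent.N783.PQ (LocIm)

section norm

theorem norm_eq {K : Type*} [Field K] {f : K[X]} (hf : f.Monic) (p : K[X]) (n : ℕ)
    (hn : f.natDegree = n) : Algebra.norm K (AdjoinRoot.mk f p) =
      Matrix.det (Matrix.of fun i j : Fin n => ((p * X ^ (j : ℕ)) %ₘ f).coeff i) := by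
  subst hn
  rw [Algebra.norm_eq_matrix_det (AdjoinRoot.powerBasis' hf).basis]
  congr 1
  ext i j
  rw [Algebra.leftMulMatrix_eq_repr_mul, PowerBasis.basis_eq_pow, AdjoinRoot.powerBasis'_gen,
    ← AdjoinRoot.mk_X, ← map_pow, ← map_mul]
  refine (AdjoinRoot.powerBasisAux'_repr_apply_to_fun hf _ i).trans ?_
  rw [AdjoinRoot.modByMonicHom_mk]
  rfl

theorem norm_map {K k : Type*} [Field K] [Field k] (φ : K →+* k) {f : K[X]} (hf : f.Monic)
    (p : K[X]) : Algebra.norm k (AdjoinRoot.mk (f.map φ) (p.map φ)) =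
      φ (Algebra.norm K (AdjoinRoot.mk f p)) := by
  rw [norm_eq hf p f.natDegree rfl, norm_eq (hf.map φ) (p.map φ) f.natDegree (hf.natDegree_map φ),
    RingHom.map_det]
  congr 1
  ext i j
  rw [RingHom.mapMatrix_apply, Matrix.map_apply, Matrix.of_apply, Matrix.of_apply, ← coeff_map,
    map_modByMonic φ hf, Polynomial.map_mul, Polynomial.map_pow, map_X]

end norm

section red

variable {F : Type} [Field F] [CharZero F] {A B : F}

/-- Reduction of a divisor to a point. -/
theorem red (hirr : Irreducible (cu A B)) : ∀ (n : ℕ) (u v : F[X]), u.Monic → u.natDegree = n →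
    IsCoprime u (cu A B) → u ∣ v ^ 2 - cu A B → PtF A B ((-1) ^ n * u) := by
  haveI : Fact (Irreducible (cu A B)) := ⟨hirr⟩
  obtain ⟨f, hf⟩ : ∃ f, f = cu A B := ⟨_, rfl⟩
  have hfm : f.Monic := by rw [hf]; exact cu_monic A B
  have hfd : f.natDegree = 3 := by rw [hf]; exact cu_deg A B
  intro n
  induction n using Nat.strong_induction_on with
  | _ n ih =>
    intro u v hu hn hc hd
    -- transfer
    have step : ∀ (m : ℕ) (w v' : F[X]), m < n → w.Monic → w.natDegree = m →
        IsCoprime w f → w ∣ v' ^ 2 - f →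
        (∃ s : F[X], AdjoinRoot.mk (cu A B) s ≠ 0 ∧ AdjoinRoot.mk (cu A B) ((-1) ^ n * u) *
          AdjoinRoot.mk (cu A B) ((-1) ^ m * w) = AdjoinRoot.mk (cu A B) s ^ 2) →
        PtF A B ((-1) ^ n * u) := by
      rintro m w v' hm hw hwn hwc hwd ⟨s, hs0, hs⟩
      rw [hf] at hwc hwd
      have hw0 : AdjoinRoot.mk (cu A B) ((-1) ^ m * w) ≠ 0 := by
        intro h0
        rw [h0, mul_zero] at hs
        exact hs0 (pow_eq_zero_iff (two_ne_zero) |>.1 hs.symm)
      rcases ih m hm w v' hw hwn hwc hwd with h1 | ⟨x, y, hxy, h1⟩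
      · left
        obtain ⟨r, hr⟩ := h1
        have hr0 : r ≠ 0 := by
          rintro rfl
          exact hw0 (by rw [hr, mul_zero])
        refine ⟨AdjoinRoot.mk (cu A B) s / r, ?_⟩
        rw [hr] at hs
        field_simp
        linear_combination hs
      · right
        refine ⟨x, y, hxy, ?_⟩
        obtain ⟨r, hr⟩ := h1
        rw [map_mul _ _ (C x - X)] at hr ⊢
        refine ⟨AdjoinRoot.mk (cu A B) s * r / AdjoinRoot.mk (cu A B) ((-1) ^ m * w), ?_⟩
        obtain ⟨a, ha⟩ : ∃ a, a = AdjoinRoot.mk (cu A B) ((-1) ^ n * u) := ⟨_, rfl⟩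
        obtain ⟨b, hb⟩ : ∃ b, b = AdjoinRoot.mk (cu A B) ((-1) ^ m * w) := ⟨_, rfl⟩
        obtain ⟨c, hc'⟩ : ∃ c, c = AdjoinRoot.mk (cu A B) (C x - X) := ⟨_, rfl⟩
        rw [← ha, ← hb] at hs
        rw [← hb] at hw0 hr ⊢
        rw [← ha, ← hc']
        rw [← hc'] at hr
        field_simp
        linear_combination (b * c) * hs + AdjoinRoot.mk (cu A B) s ^ 2 * hr
    rw [← hf] at hc hd
    have hmk0 : ∀ p : F[X], ¬ f ∣ p → AdjoinRoot.mk (cu A B) p ≠ 0 := by
      intro p hp h0
      rw [AdjoinRoot.mk_eq_zero, ← hf] at h0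
      exact hp h0
    have hirr' : Irreducible f := by rw [hf]; exact hirr
    have hcop : ∀ p : F[X], ¬ f ∣ p → IsCoprime p f := fun p hp =>
      (hirr'.coprime_iff_not_dvd.2 hp).symm
    have hmkf : AdjoinRoot.mk (cu A B) f = 0 := by
      rw [AdjoinRoot.mk_eq_zero, ← hf]
    have hnu : ¬ IsUnit f := hirr'.not_isUnit
    -- small degrees
    rcases Nat.lt_or_ge n 2 with hn2 | hn2
    · rcases Nat.lt_or_ge n 1 with hn1 | hn1
      · left
        have h0 : n = 0 := by omega
        have h1 : u = 1 := (Monic.natDegree_eq_zero hu).1 (by omega)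
        rw [h0, h1]
        exact ⟨1, by simp⟩
      · right
        have h0 : n = 1 := by omega
        obtain ⟨c, hcu⟩ : ∃ c, u = X + C c := ⟨u.coeff 0, hu.eq_X_add_C (by omega)⟩
        refine ⟨-c, v.eval (-c), ?_, ?_⟩
        · rw [hcu, ← sub_neg_eq_add, ← C_neg, dvd_iff_isRoot, IsRoot, eval_sub, eval_pow,
            sub_eq_zero, hf] at hd
          rw [hd]
          simp [cu]
        · refine ⟨AdjoinRoot.mk _ (C (-c) - X), ?_⟩
          rw [← map_mul, h0, hcu]
          congr 1
          rw [C_neg]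
          ring
    -- reduce `v`
    have hune : u ≠ 1 := by
      rintro rfl
      rw [natDegree_one] at hn
      omega
    obtain ⟨v₁, hv₁⟩ : ∃ v₁, v₁ = v %ₘ u := ⟨_, rfl⟩
    have hv1d : v₁.natDegree < n := by
      rw [hv₁, ← hn]
      exact natDegree_modByMonic_lt v hu hune
    have hd1 : u ∣ v₁ ^ 2 - f := by
      have h1 : u ∣ v - v₁ := ⟨v /ₘ u, by
        have := modByMonic_add_div v u
        rw [hv₁]
        linear_combination -this⟩
      have h2 : v₁ ^ 2 - f = (v ^ 2 - f) - (v - v₁) * (v + v₁) := by ring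
      rw [h2]
      exact dvd_sub hd (Dvd.dvd.mul_right h1 _)
    clear hv₁ hd v
    obtain ⟨w, hw⟩ := hd1
    rcases Nat.lt_or_ge v₁.natDegree 2 with hlt | hge
    · -- degree of `v₁` at most one
      have hdeg : (v₁ ^ 2 - f).natDegree = 3 := by
        rw [← neg_sub, natDegree_neg, natDegree_sub_eq_left_of_natDegree_lt, hfd]
        rw [hfd, natDegree_pow]
        omega
      have hlc : (f - v₁ ^ 2).Monic := by
        refine hfm.sub_of_left ?_
        rw [degree_eq_natDegree hfm.ne_zero, hfd]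
        refine lt_of_le_of_lt degree_le_natDegree ?_
        rw [natDegree_pow]
        exact_mod_cast (by omega : 2 * v₁.natDegree < 3)
      obtain ⟨w', hw'⟩ : ∃ w', w' = -w := ⟨_, rfl⟩
      have hw2 : f - v₁ ^ 2 = u * w' := by
        rw [hw']
        linear_combination -hw
      have hwm : w'.Monic := hu.of_mul_monic_left (by rw [← hw2]; exact hlc)
      have hwd : n + w'.natDegree = 3 := by
        rw [← hn, ← hu.natDegree_mul hwm, ← hw2, ← neg_sub, natDegree_neg, hdeg]
      have hv0 : ¬ f ∣ v₁ := by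
        intro h
        have h1 := eq_zero_of_dvd_of_natDegree_lt h (by omega)
        rw [h1] at hw2
        have h2 : u ∣ f := ⟨w', by rw [← hw2]; ring⟩
        have h3 := hc.isUnit_of_dvd' dvd_rfl h2
        have h4 := hu.eq_one_of_isUnit h3
        exact hune h4
      have hwf : ¬ f ∣ w' := by
        intro h
        exact hwm.ne_zero (eq_zero_of_dvd_of_natDegree_lt h (by omega))
      refine step w'.natDegree w' v₁ (by omega) hwm rfl (hcop _ hwf)
        ⟨-u, by linear_combination -hw2⟩ ⟨v₁, hmk0 _ hv0, ?_⟩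
      rw [← map_mul, ← map_pow]
      have e1 : (-1 : F[X]) ^ n * u * ((-1) ^ w'.natDegree * w') = v₁ ^ 2 - f := by
        have e2 : (-1 : F[X]) ^ n * (-1) ^ w'.natDegree = -1 := by
          rw [← pow_add, hwd]
          norm_num
        linear_combination (u * w') * e2 + hw2
      rw [e1, map_sub, hmkf, sub_zero]
    · -- degree of `v₁` at least two
      obtain ⟨d, hd⟩ : ∃ d, d = v₁.natDegree := ⟨_, rfl⟩
      have hv0 : v₁ ≠ 0 := by
        rintro rfl
        simp at hge
      obtain ⟨e, he⟩ : ∃ e, e = v₁.leadingCoeff := ⟨_, rfl⟩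
      have he0 : e ≠ 0 := by
        rw [he]
        exact leadingCoeff_ne_zero.2 hv0
      have hlt' : f.degree < (v₁ ^ 2).degree := by
        rw [degree_eq_natDegree hfm.ne_zero, degree_eq_natDegree (pow_ne_zero 2 hv0), hfd,
          natDegree_pow]
        exact_mod_cast (by omega : 3 < 2 * v₁.natDegree)
      have hdeg : (v₁ ^ 2 - f).natDegree = 2 * d := by
        rw [natDegree_eq_of_degree_eq (degree_sub_eq_left_of_degree_lt hlt'), natDegree_pow, hd]
      have hlead : (v₁ ^ 2 - f).leadingCoeff = e ^ 2 := by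
        rw [leadingCoeff_sub_of_degree_lt hlt', leadingCoeff_pow, he]
      have hwl : w.leadingCoeff = e ^ 2 := by
        rw [← hlead, hw, leadingCoeff_mul, hu.leadingCoeff, one_mul]
      have hw0 : w ≠ 0 := by
        rintro rfl
        rw [leadingCoeff_zero] at hwl
        exact he0 (pow_eq_zero_iff (two_ne_zero) |>.1 hwl.symm)
      have hwd : n + w.natDegree = 2 * d := by
        rw [← hn, ← natDegree_mul hu.ne_zero hw0, ← hw, hdeg]
      obtain ⟨w', hw'⟩ : ∃ w', w' = C (e ^ 2)⁻¹ * w := ⟨_, rfl⟩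
      have he2 : (e ^ 2) ≠ 0 := pow_ne_zero 2 he0
      have hwm : w'.Monic := by
        rw [hw', Monic, leadingCoeff_mul, leadingCoeff_C, hwl, inv_mul_cancel₀ he2]
      have hww : w = C (e ^ 2) * w' := by
        rw [hw', ← mul_assoc, ← C_mul, mul_inv_cancel₀ he2, C_1, one_mul]
      have hwd' : w'.natDegree = w.natDegree := by
        rw [hw', natDegree_C_mul (inv_ne_zero he2)]
      rw [hww] at hw
      have hCe : AdjoinRoot.mk (cu A B) (C e) ≠ 0 := by
        rw [AdjoinRoot.mk_C]
        exact (_root_.map_ne_zero _).2 he0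
      by_cases hfv : f ∣ v₁
      · obtain ⟨q, hq⟩ := hfv
        have hfw : f ∣ w' := by
          have h1 : f ∣ u * (C (e ^ 2) * w') := by
            rw [← hw, hq]
            exact ⟨f * q ^ 2 - 1, by ring⟩
          have h2 := hc.symm.dvd_of_dvd_mul_left h1
          rcases hirr'.prime.dvd_or_dvd h2 with h3 | h3
          · exfalso
            apply hnu
            exact isUnit_of_dvd_unit h3 (isUnit_C.2 (IsUnit.mk0 _ he2))
          · exact h3
        obtain ⟨w₂, hw₂⟩ := hfw
        have hw2m : w₂.Monic := hfm.of_mul_monic_left (by rw [← hw₂]; exact hwm)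
        have hw2d : 3 + w₂.natDegree = w'.natDegree := by
          rw [hw₂, hfm.natDegree_mul hw2m, hfd]
        have hkey : f * q ^ 2 - 1 = C (e ^ 2) * (u * w₂) := by
          apply mul_left_cancel₀ hfm.ne_zero
          have h1 := hw
          rw [hq, hw₂] at h1
          linear_combination h1
        have hw2f : IsCoprime w₂ f := ⟨-(C (e ^ 2) * u), q ^ 2, by linear_combination hkey⟩
        refine step w₂.natDegree w₂ v₁ (by omega) hw2m rfl hw2f
          ⟨f * (C (e ^ 2) * u), by rw [hq]; linear_combination f * hkey⟩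
          ⟨C e⁻¹, by
            rw [AdjoinRoot.mk_C]
            exact (_root_.map_ne_zero _).2 (inv_ne_zero he0), ?_⟩
        rw [← map_mul, ← map_pow]
        have e1 : (-1 : F[X]) ^ n * u * ((-1) ^ w₂.natDegree * w₂) =
            C e⁻¹ ^ 2 - f * (C e⁻¹ ^ 2 * q ^ 2) := by
          have e2 : (-1 : F[X]) ^ n * (-1) ^ w₂.natDegree = -1 := by
            rw [← pow_add]
            refine Odd.neg_one_pow ⟨d - 2, ?_⟩
            omega
          have e3 : C e⁻¹ ^ 2 * C (e ^ 2) = (1 : F[X]) := by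
            rw [← C_pow, ← C_mul, ← mul_pow, inv_mul_cancel₀ he0, one_pow, C_1]
          linear_combination (u * w₂) * e2 + C e⁻¹ ^ 2 * hkey + (u * w₂) * e3
        rw [e1, map_sub, map_mul, hmkf, zero_mul, sub_zero]
      · have hwf : ¬ f ∣ w' := by
          intro h
          apply hfv
          have h1 : f ∣ v₁ ^ 2 := by
            have : v₁ ^ 2 = f + u * (C (e ^ 2) * w') := by linear_combination hw
            rw [this]
            exact dvd_add dvd_rfl (Dvd.dvd.mul_left (Dvd.dvd.mul_left h _) _)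
          exact hirr'.prime.dvd_of_dvd_pow h1
        refine step w'.natDegree w' v₁ (by omega) hwm rfl (hcop _ hwf)
          ⟨u * C (e ^ 2), by rw [hw]; ring⟩ ⟨C e⁻¹ * v₁, ?_, ?_⟩
        · rw [map_mul, AdjoinRoot.mk_C]
          exact mul_ne_zero ((_root_.map_ne_zero _).2 (inv_ne_zero he0)) (hmk0 _ hfv)
        · rw [← map_mul, ← map_pow]
          have e1 : (-1 : F[X]) ^ n * u * ((-1) ^ w'.natDegree * w') =
              (C e⁻¹ * v₁) ^ 2 - f * C e⁻¹ ^ 2 := by
            have e2 : (-1 : F[X]) ^ n * (-1) ^ w'.natDegree = 1 := by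
              rw [← pow_add]
              exact Even.neg_one_pow ⟨d, by omega⟩
            have e3 : C e⁻¹ ^ 2 * C (e ^ 2) = (1 : F[X]) := by
              rw [← C_pow, ← C_mul, ← mul_pow, inv_mul_cancel₀ he0, one_pow, C_1]
            linear_combination (u * w') * e2 - C e⁻¹ ^ 2 * hw - (u * w') * e3
          rw [e1, map_sub, map_mul _ f, hmkf, zero_mul, sub_zero]

theorem ptF_of_locIm (hirr : Irreducible (cu A B)) {h : F[X]} (H : LocIm F (cu A B) h) :
    PtF A B h := by
  haveI : Fact (Irreducible (cu A B)) := ⟨hirr⟩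
  obtain ⟨u, v, s, hu, hc, hd, hs⟩ := Pool.Agent.N2.PQ.cant F 1 (cu A B) h (cu_monic A B)
    (cu_deg A B) H
  have h1 := red hirr _ u v hu rfl hc hd
  have h2 : AdjoinRoot.mk (cu A B) h * AdjoinRoot.mk (cu A B) ((-1) ^ u.natDegree * u) =
      AdjoinRoot.mk (cu A B) s ^ 2 := by
    rw [← map_mul, ← map_pow, AdjoinRoot.mk_eq_mk]
    exact hs
  have hu0 : AdjoinRoot.mk (cu A B) ((-1) ^ u.natDegree * u) ≠ 0 := by
    intro h0
    rw [AdjoinRoot.mk_eq_zero] at h0
    have h3 : IsCoprime ((-1) ^ u.natDegree * u) (cu A B) :=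
      (isCoprime_mul_unit_left_left ((isUnit_one.neg).pow _) _ _).2 hc
    exact hirr.not_isUnit (h3.isUnit_of_dvd' h0 dvd_rfl)
  rcases h1 with h1 | ⟨x, y, hxy, h1⟩
  · left
    obtain ⟨r, hr⟩ := h1
    have hr0 : r ≠ 0 := by
      rintro rfl
      exact hu0 (by rw [hr, mul_zero])
    refine ⟨AdjoinRoot.mk (cu A B) s / r, ?_⟩
    rw [hr] at h2
    field_simp
    linear_combination h2
  · right
    refine ⟨x, y, hxy, ?_⟩
    obtain ⟨r, hr⟩ := h1
    rw [map_mul _ _ (C x - X)] at hr ⊢
    refine ⟨AdjoinRoot.mk (cu A B) s * r /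
      AdjoinRoot.mk (cu A B) ((-1) ^ u.natDegree * u), ?_⟩
    obtain ⟨a, ha⟩ : ∃ a, a = AdjoinRoot.mk (cu A B) h := ⟨_, rfl⟩
    obtain ⟨b, hb⟩ : ∃ b, b = AdjoinRoot.mk (cu A B) ((-1) ^ u.natDegree * u) := ⟨_, rfl⟩
    obtain ⟨c, hc'⟩ : ∃ c, c = AdjoinRoot.mk (cu A B) (C x - X) := ⟨_, rfl⟩
    rw [← ha, ← hb] at h2
    rw [← hb] at hu0 hr ⊢
    rw [← ha, ← hc']
    rw [← hc'] at hr
    field_simp
    linear_combination (b * c) * h2 + AdjoinRoot.mk (cu A B) s ^ 2 * hr

theorem locIm_of_ptF (hirr : Irreducible (cu A B)) {h : F[X]} (H : PtF A B h) :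
    LocIm F (cu A B) h := by
  rcases H with h1 | ⟨x, y, hxy, h1⟩
  · obtain ⟨r, hr⟩ := h1
    obtain ⟨s, rfl⟩ := AdjoinRoot.mk_surjective r
    refine ⟨[], s, by simp, ?_⟩
    rw [List.map_nil, List.prod_nil, mul_one, ← AdjoinRoot.mk_eq_mk, map_pow, hr, pow_two]
  · obtain ⟨r, hr⟩ := h1
    obtain ⟨s, rfl⟩ := AdjoinRoot.mk_surjective r
    refine ⟨[(X - C x, C y)], s, ?_, ?_⟩
    · intro p hp
      rw [List.mem_singleton] at hp
      subst hp
      refine ⟨monic_X_sub_C x, ?_, ?_⟩
      · refine (hirr.coprime_iff_not_dvd.2 fun hd => ?_).symm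
        have := eq_zero_of_dvd_of_natDegree_lt hd (by
          rw [cu_deg]
          show (X - C x).natDegree < 3
          rw [natDegree_X_sub_C]
          omega)
        exact X_sub_C_ne_zero x this
      · show X - C x ∣ C y ^ 2 - cu A B
        rw [dvd_iff_isRoot, IsRoot]
        simp [cu, hxy]
    · simp only [List.map_cons, List.map_nil, List.prod_cons, List.prod_nil, mul_one,
        natDegree_X_sub_C, pow_one]
      rw [← AdjoinRoot.mk_eq_mk, map_pow, pow_two, ← hr]
      congr 1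
      ring

end red

end Pool.Agent.H459.UF
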