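import Pool.Graph.R_pool_sql_team_seeded_63374d34.N630.PP.Cub

/-!
# Addition, halving and the map `x - t` (helper459)
-/

set_option autoImplicit false
set_option linter.all false

open WeierstrassCurve WeierstrassCurve.Affine

namespace Pool.Agent.H459.UF

open Pool.Agent.N630.PP (IsS add_self_eq_zero_iff)

section

variable {F M : Type*} [Field F] [Field M] [Algebra F M] {W : Affine F} {a b : F}

/-- The map `x - t`. -/
noncomputable def mu (W : Affine F) (t : M) : W.Point → M
  | .zero => 1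
  | .some x y _ => algebraMap F M x - t

theorem mu_zero (t : M) : mu W t (0 : W.Point) = 1 := rfl

theorem mu_some (t : M) {x y : F} (h : W.Nonsingular x y) :
    mu W t (Point.some x y h) = algebraMap F M x - t := rfl

theorem mu_ne {t : M} (ht : ∀ x : F, algebraMap F M x ≠ t) (P : W.Point) : mu W t P ≠ 0 := by
  rcases P with _ | ⟨x, y, h⟩
  · exact one_ne_zero
  · exact sub_ne_zero.2 (ht x)

theorem mu_neg (h : IsS W a b) (t : M) (P : W.Point) : mu W t (-P) = mu W t P := by
  rcases P with _ | ⟨x, y, hP⟩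
  · rfl
  · rfl

variable [DecidableEq F]

theorem mu_mul (h : IsS W a b) {t : M} (h0 : t ^ 3 + algebraMap F M a * t + algebraMap F M b = 0)
    (P Q : W.Point) : IsSquare (mu W t (P + Q) * mu W t P * mu W t Q) := by
  rcases P with _ | ⟨x₁, y₁, hP⟩
  · have e : (Point.zero : W.Point) + Q = Q := zero_add Q
    rw [e]
    refine ⟨mu W t Q, ?_⟩
    show mu W t Q * 1 * mu W t Q = _
    ring
  rcases Q with _ | ⟨x₂, y₂, hQ⟩
  · have e : Point.some x₁ y₁ hP + (Point.zero : W.Point) = Point.some x₁ y₁ hP := add_zero _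
    rw [e]
    refine ⟨mu W t (Point.some x₁ y₁ hP), ?_⟩
    show _ * _ * 1 = _
    ring
  have e1 := h.nonsingular.1 hP
  have e2 := h.nonsingular.1 hQ
  have m1 := congrArg (algebraMap F M) e1
  have m2 := congrArg (algebraMap F M) e2
  simp only [map_add, map_mul, map_pow] at m1 m2
  by_cases hx : x₁ = x₂
  · subst hx
    by_cases hy : y₁ = W.negY x₁ y₂
    · rw [Point.add_of_Y_eq rfl hy]
      refine ⟨algebraMap F M x₁ - t, ?_⟩
      rw [mu_some, mu_some, mu_zero]
      ring
    · have hy2 : y₁ = y₂ := by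
        rw [h.negY] at hy
        have e3 : (y₁ - y₂) * (y₁ + y₂) = 0 := by linear_combination e1 - e2
        rcases mul_eq_zero.1 e3 with h4 | h4
        · exact sub_eq_zero.1 h4
        · exact absurd (by linear_combination h4) hy
      subst hy2
      rw [Point.add_self_of_Y_ne hy, mu_some, mu_some]
      have hs : W.slope x₁ x₁ y₁ y₁ = (3 * x₁ ^ 2 + a) / (2 * y₁) := by
        rw [slope_of_Y_ne rfl hy, h.negY, h.a1, h.a2, h.a4]
        congr 1 <;> ring
      rw [h.negY] at hy
      have h2y : (2 : F) * y₁ ≠ 0 := fun h5 => hy (by linear_combination h5)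
      have h2y' : (2 : M) * algebraMap F M y₁ ≠ 0 := by
        intro h5
        apply h2y
        have : algebraMap F M (2 * y₁) = 0 := by rw [map_mul, map_ofNat]; exact h5
        exact (map_eq_zero _).1 this
      refine ⟨((algebraMap F M x₁ - t) ^ 2 - (3 * t ^ 2 + algebraMap F M a)) /
        (2 * algebraMap F M y₁) * (algebraMap F M x₁ - t), ?_⟩
      have key : algebraMap F M (W.addX x₁ x₁ (W.slope x₁ x₁ y₁ y₁)) - t =
          (((algebraMap F M x₁ - t) ^ 2 - (3 * t ^ 2 + algebraMap F M a)) /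
            (2 * algebraMap F M y₁)) ^ 2 := by
        rw [hs, addX, h.a1, h.a2]
        simp only [map_sub, map_add, map_mul, map_pow, map_div₀, map_zero, map_ofNat]
        have h3 : (2 : M) ≠ 0 := left_ne_zero_of_mul h2y'
        have h4 : algebraMap F M y₁ ≠ 0 := right_ne_zero_of_mul h2y'
        field_simp
        linear_combination (-4) * (2 * algebraMap F M x₁ + t) * m1 -
          4 * (2 * algebraMap F M x₁ + t) * h0
      rw [key]
      ring
  · rw [Point.add_of_X_ne hx, mu_some, mu_some, mu_some, slope_of_X_ne hx, addX, h.a1, h.a2]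
    have hx' : algebraMap F M x₁ - algebraMap F M x₂ ≠ 0 := by
      rw [← map_sub]
      intro h5
      exact hx (sub_eq_zero.1 ((map_eq_zero _).1 h5))
    have hxF : x₁ - x₂ ≠ 0 := sub_ne_zero.2 hx
    obtain ⟨l, hl⟩ : ∃ l : F, l = (y₁ - y₂) / (x₁ - x₂) := ⟨_, rfl⟩
    have hl' : y₂ = y₁ - l * (x₁ - x₂) := by
      rw [hl]
      field_simp
      ring
    rw [← hl]
    refine ⟨algebraMap F M l * (t - algebraMap F M x₁) + algebraMap F M y₁, ?_⟩
    simp only [map_sub, map_add, map_mul, map_pow, map_zero]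
    have m3 := congrArg (algebraMap F M) hl'
    simp only [map_sub, map_mul] at m3
    rw [m3] at m2
    generalize algebraMap F M x₁ = X₁ at *
    generalize algebraMap F M x₂ = X₂ at *
    generalize algebraMap F M y₁ = Y₁ at *
    generalize algebraMap F M l = L at *
    generalize algebraMap F M a = A at *
    generalize algebraMap F M b = B at *
    apply mul_left_cancel₀ hx'
    linear_combination (X₂ - t) * m1 + (t - X₁) * m2 - (X₁ - X₂) * h0
  
/-- Halving a point. -/
theorem half (h : IsS W a b) (hr : ∀ x : F, x ^ 3 + a * x + b ≠ 0) {x y : F}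
    (hP : W.Nonsingular x y) {c₀ c₁ c₂ : F} (e0 : c₀ ^ 2 - 2 * c₁ * c₂ * b = x)
    (e1 : 2 * c₀ * c₁ - 2 * c₁ * c₂ * a - c₂ ^ 2 * b = -1)
    (e2 : c₁ ^ 2 + 2 * c₀ * c₂ - c₂ ^ 2 * a = 0) : ∃ Q : W.Point, Point.some x y hP = Q + Q := by
  have hc : c₂ ≠ 0 := by
    rintro rfl
    have h1 : c₁ = 0 := by
      have : c₁ ^ 2 = 0 := by linear_combination e2
      exact pow_eq_zero_iff (two_ne_zero) |>.1 this
    rw [h1] at e1
    apply one_ne_zero (α := F)
    linear_combination e1
  obtain ⟨r, hr1⟩ : ∃ r : F, r = c₁ / c₂ := ⟨_, rfl⟩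
  obtain ⟨α, hα⟩ : ∃ α : F, α = (c₀ * c₁ + c₂ ^ 2 * b) / c₂ := ⟨_, rfl⟩
  obtain ⟨β, hβ⟩ : ∃ β : F, β = (c₁ ^ 2 - c₀ * c₂ + c₂ ^ 2 * a) / c₂ := ⟨_, rfl⟩
  have hxx := h.nonsingular.1 hP
  have k2 : x = β ^ 2 - 2 * r := by
    rw [hβ, hr1]
    field_simp
    linear_combination (2 * c₁ * c₂) * e1 - c₂ ^ 2 * e0 +
      (2 * c₀ * c₂ - (c₁ ^ 2 + 2 * c₀ * c₂ - c₂ ^ 2 * a)) * e2
  have k1 : a = 2 * α * β + r ^ 2 + 2 * r * x := by
    rw [hα, hβ, hr1]
    field_simp
    linear_combination (2 * c₀ * c₂) * e1 +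
      (-1 - 4 * c₀ * c₁ + 2 * (c₀ * c₁ + c₂ ^ 2 * b)) * e2 + 2 * c₁ * c₂ * e0
  have k0 : b = α ^ 2 - r ^ 2 * x := by
    rw [hα, hr1]
    field_simp
    linear_combination (c₂ ^ 2 * b) * e1 - (2 * c₁ * c₂ * b) * e2 - c₁ ^ 2 * e0
  clear hα hβ hr1 e0 e1 e2
  obtain ⟨s, hs⟩ : ∃ s : F, s = α + β * r := ⟨_, rfl⟩
  have hfr : s ^ 2 = r ^ 3 + a * r + b := by
    rw [hs, k1, k0, k2]
    ring
  have hs0 : s ≠ 0 := by
    intro h0
    apply hr r
    rw [← hfr, h0]
    ring
  have h2s : (2 : F) * s ≠ 0 := mul_ne_zero h.two hs0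
  have hQ : W.Nonsingular r s := h.nonsingular.2 hfr
  have hne : s ≠ W.negY r s := by
    rw [h.negY]
    intro h5
    apply h2s
    linear_combination h5
  have hsl : W.slope r r s s = β := by
    rw [slope_of_Y_ne rfl hne, h.negY, h.a1, h.a2, h.a4]
    have e5 : (3 * r ^ 2 + 2 * 0 * r + a - 0 * s) = β * (2 * s) := by
      rw [hs, k1, k2]
      ring
    rw [e5, show s - -s = 2 * s by ring, mul_div_assoc, div_self h2s, mul_one]
  have hX : W.addX r r (W.slope r r s s) = x := by
    rw [hsl, addX, h.a1, h.a2, k2]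
    ring
  have hY : W.addY r r s (W.slope r r s s) = -(α + β * x) := by
    rw [addY, negAddY, hX, hsl, h.negY, hs]
    ring
  have hdbl := Point.add_self_of_Y_ne (h₁ := hQ) hne
  have hyy : (y - (α + β * x)) * (y + (α + β * x)) = 0 := by
    have : y ^ 2 = (α + β * x) ^ 2 := by
      rw [hxx, k1, k0]
      linear_combination x ^ 2 * k2
    linear_combination this
  have hns : W.Nonsingular x (-(α + β * x)) := by
    have h9 := nonsingular_add hQ hQ fun hxy => hne hxy.2
    rwa [hY, hX] at h9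
  have hdbl' : Point.some r s hQ + Point.some r s hQ = Point.some x (-(α + β * x)) hns := by
    rw [hdbl]
    simp only [hX, hY]
  rcases mul_eq_zero.1 hyy with h5 | h5
  · have e6 : y = α + β * x := sub_eq_zero.1 h5
    refine ⟨-Point.some r s hQ, ?_⟩
    rw [← neg_add, hdbl', Point.neg_some]
    subst e6
    simp only [h.negY, neg_neg]
  · have e6 : y = -(α + β * x) := by linear_combination h5
    refine ⟨Point.some r s hQ, ?_⟩
    rw [hdbl']
    subst e6
    rfl

end

end Pool.Agent.H459.UF
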