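import Pool.Agent.H459.UF.Gen

/-!
# The primes over the twisting primes (helper459)
-/

set_option autoImplicit false
set_option linter.all false

open Polynomial IsDedekindDomain NumberField WithZero
open scoped Classical IntermediateField

namespace Pool.Agent.H459.UF

open Pool.Agent.N874.PP (Ev Sq1 U0)
open Pool.Agent.N783.PF (IsGen rd fF GoodS SqF Cg sp)

theorem alg_self {F : Type} [Field F] [NumberField F] (a : 𝓞 F) :
    algebraMap (𝓞 F) (𝓞 F) a = a := by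
  apply RingOfIntegers.ext
  rfl

theorem fo_self {F : Type} [Field F] [NumberField F] (f : (𝓞 F)[X]) : fo F f = f := by
  ext1 n
  rw [coeff_map]
  exact RingOfIntegers.ext rfl

theorem below_self {F : Type} [Field F] [NumberField F] (v : HeightOneSpectrum (𝓞 F)) :
    below F v = v := by
  ext1
  ext a
  show algebraMap (𝓞 F) (𝓞 F) a ∈ v.asIdeal ↔ a ∈ v.asIdeal
  rw [alg_self]

section

variable {F K L : Type} [Field F] [NumberField F] [Field K] [NumberField K] [Field L]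
  [NumberField L] [Algebra F K] [Algebra K L] {f : (𝓞 F)[X]} {θ : L}

/-- The data on the twisting primes. -/
structure Dat (f : (𝓞 F)[X]) (J : Finset ℕ) (𝔮 : ℕ → Ideal (𝓞 F)) : Prop where
  mon : f.Monic
  dat : ∃ (g W : ℕ) (S : Finset ℕ) (r P : ℕ → (𝓞 F)[X]), 1 ≤ g ∧ f.natDegree = 2 * g + 1 ∧
    SqF g f ∧ GoodS g W S 𝔮 r P ∧ (∀ q ∈ S, Cg (𝔮 q) f (X * r q)) ∧ J ⊆ S

theorem Dat.odd {J : Finset ℕ} {𝔮 : ℕ → Ideal (𝓞 F)} (H : Dat f J 𝔮) : Odd f.natDegree := by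
  obtain ⟨g, W, S, r, P, h1, h2, -⟩ := H.dat
  exact ⟨g, h2⟩

theorem Dat.prime {J : Finset ℕ} {𝔮 : ℕ → Ideal (𝓞 F)} (H : Dat f J 𝔮) {q : ℕ} (hq : q ∈ J) :
    q.Prime ∧ q % 8 = 1 ∧ (𝔮 q).IsPrime ∧ (q : 𝓞 F) ∈ 𝔮 q := by
  obtain ⟨g, W, S, r, P, h1, h2, h3, h4, h5, h6⟩ := H.dat
  obtain ⟨a1, a2, a3, a4, a5, a6, a7, a8⟩ := h4 q (h6 hq)
  exact ⟨a1, a4, a6, a7⟩

theorem q_top {J : Finset ℕ} {𝔮 : ℕ → Ideal (𝓞 F)} (H : Dat f J 𝔮) (h : Cub K f θ) {q : ℕ}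
    (hq : q ∈ J) {P : HeightOneSpectrum (𝓞 L)} (hP : (below F (below K P)).asIdeal = 𝔮 q)
    (hd : Dns F (below K P)) (hθ : P.valuation L θ = 1) :
    P.valuation L (q : L) = WithZero.exp (-1 : ℤ) ∧
    (∀ c : 𝓞 F, c ∉ 𝔮 q → Sq1 P (algebraMap K L (algebraMap F K (c : F)))) ∧
    P.valuation L (aeval θ (derivative (fb K f))) = 1 := by
  obtain ⟨g, W, S, r, Pp, hg, hdeg, hsq, hS, hcg, hJS⟩ := H.dat
  letI : Algebra F L := ((algebraMap K L).comp (algebraMap F K)).toAlgebra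
  haveI : IsScalarTower F K L := IsScalarTower.of_algebraMap_eq fun _ => rfl
  obtain ⟨θ₀, hθ₀, hc⟩ := cub_sub (K₁ := F) H.mon h
  have hgen : IsGen g f θ₀ := by
    have := hc.isGen H.mon hdeg
    rwa [fo_self] at this
  have hdL : Dns F⟮θ⟯ P := by
    refine dns_base (K₁ := F) (K₂ := K) (L₁ := F⟮θ⟯) (θ₁ := θ₀) (hc.int H.mon) ?_ hd
    rw [hθ₀]
    exact h.top
  have hagr := agr_of_dns hdL
  set P₀ := below F⟮θ⟯ P with hP₀
  have hov : Pool.Agent.N783.PF.Ov (𝔮 q) P₀ := by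
    intro a ha
    rw [← hP] at ha
    have h1 : algebraMap (𝓞 K) (𝓞 L) (algebraMap (𝓞 F) (𝓞 K) a) ∈ P.asIdeal := ha
    show algebraMap (𝓞 F⟮θ⟯) (𝓞 L) (algebraMap (𝓞 F) (𝓞 F⟮θ⟯) a) ∈ P.asIdeal
    rw [← IsScalarTower.algebraMap_apply] at h1 ⊢
    exact h1
  have hv0 : P₀.valuation F⟮θ⟯ θ₀ = 1 := by
    rw [← hagr, hθ₀]
    exact hθ
  have hqS := hJS hq
  obtain ⟨𝔓₁, 𝔓₂, e1, e2, e3, e4, e5, e6, e7⟩ :=
    Pool.Agent.N783.PF.exq g W F F⟮θ⟯ f θ₀ S 𝔮 r Pp hg hgen hsq hS q hqS (hcg q hqS)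
  obtain ⟨c1, -, c3, -⟩ :=
    Pool.Agent.N783.PF.csq g W F F⟮θ⟯ f θ₀ S 𝔮 r Pp hg hgen hsq hS q hqS (hcg q hqS) P₀ hov hv0
  refine ⟨?_, ?_, ?_⟩
  · rw [← map_natCast (algebraMap F⟮θ⟯ L) q, hagr]
    rw [← hP₀]
    rcases e7 P₀ hov with h1 | h1
    · rw [h1]
      exact e5
    · rw [h1]
      exact e6
  · intro c hcq
    obtain ⟨s, hs⟩ := c1 c hcq
    refine ⟨algebraMap F⟮θ⟯ L s, ?_⟩
    have e : algebraMap K L (algebraMap F K (c : F)) =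
        algebraMap F⟮θ⟯ L (algebraMap F F⟮θ⟯ (c : F)) :=
      (IsScalarTower.algebraMap_apply F K L _).symm.trans
        (IsScalarTower.algebraMap_apply F F⟮θ⟯ L _)
    rw [e, ← map_pow, ← map_sub, hagr, hagr]
    exact hs
  · have e : aeval θ (derivative (fb K f)) =
        algebraMap F⟮θ⟯ L (aeval θ₀ (derivative (fF f))) := by
      rw [← aeval_algebraMap_apply, hθ₀, fb, derivative_map, aeval_map_algebraMap]
    rw [e, hagr]
    exact c3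

end

end Pool.Agent.H459.UF
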