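import Pool.Agent.H459.UF.Qtop

/-!
# Quadratic extensions (helper459)
-/

set_option autoImplicit false
set_option linter.all false

open Polynomial IsDedekindDomain NumberField WithZero
open scoped Classical IntermediateField

namespace Pool.Agent.H459.UF

open Pool.Agent.N874.PP (Ev Sq1 U0)
open Pool.Agent.N874.JM (LocF)
open Pool.Agent.N783.PQ (LocIm)
open Pool.Agent.N783.PF (IsGen rd fF GoodS SqF Cg sp)
open Pool.Agent.N874.PM (ev_down sq_down ev_sq ev_mul)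
open Pool.Agent.N874.QM (locIm_congr locIm_sq locIm_map)

section cls

variable {F K L : Type} [Field F] [NumberField F] [Field K] [NumberField K] [Field L]
  [NumberField L] [Algebra F K] [Algebra K L] {f : (𝓞 F)[X]} {θ : L}
  {J : Finset ℕ} {𝔮 : ℕ → Ideal (𝓞 F)}

theorem nat_mem_of_below {q : ℕ} {P : HeightOneSpectrum (𝓞 L)}
    (h : (q : 𝓞 F) ∈ (below F (below K P)).asIdeal) : (q : 𝓞 L) ∈ P.asIdeal := by
  have h1 : algebraMap (𝓞 K) (𝓞 L) (algebraMap (𝓞 F) (𝓞 K) (q : 𝓞 F)) ∈ P.asIdeal := h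
  rwa [map_natCast, map_natCast] at h1

/-- The primes over the ideals `𝔮 q`. -/
def AtQ (F : Type) {K L : Type} [Field F] [NumberField F] [Field K] [NumberField K] [Field L]
    [NumberField L] [Algebra F K] [Algebra K L] (𝔮 : ℕ → Ideal (𝓞 F)) (q : ℕ)
    (P : HeightOneSpectrum (𝓞 L)) : Prop :=
  below F (below K P) ∈ {v : HeightOneSpectrum (𝓞 F) | v.asIdeal = 𝔮 q}

/-- The density hypothesis. -/
def DQ (F K : Type) [Field F] [NumberField F] [Field K] [NumberField K] [Algebra F K]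
    (J : Finset ℕ) (𝔮 : ℕ → Ideal (𝓞 F)) : Prop :=
  ∀ q ∈ J, ∀ w : HeightOneSpectrum (𝓞 K), (below F w).asIdeal = 𝔮 q → Dns F w

theorem cnd_sq {p : K[X]} (h0 : aeval θ p ≠ 0) : Cnd F f J 𝔮 θ (p ^ 2) where
  ev P _ _ _ := by
    rw [map_pow]
    exact ev_sq P _
  u0 q _ P _ _ := by
    rw [map_pow]
    refine ⟨fun _ => ⟨aeval θ p, ?_⟩, fun h => absurd (ev_sq P _) h⟩
    rw [sub_self, map_zero, zero_lt_iff]
    exact (Valuation.ne_zero_iff _).2 (pow_ne_zero _ h0)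
  two w _ := by
    show LocIm _ _ ((p ^ 2).map _)
    rw [Polynomial.map_pow]
    exact locIm_sq _ _
  real σ := by
    rw [Polynomial.map_pow]
    exact locIm_sq _ _

theorem cnd_mul (H : Dat f J 𝔮) (hc : Cub K f θ) (hD : DQ F K J 𝔮) {p p' : K[X]}
    (h0 : aeval θ p ≠ 0) (h0' : aeval θ p' ≠ 0) (h : Cnd F f J 𝔮 θ p) (h' : Cnd F f J 𝔮 θ p') :
    Cnd F f J 𝔮 θ (p * p') where
  ev P h1 h2 h3 := by
    rw [map_mul]
    exact ev_mul (h.ev P h1 h2 h3) (h'.ev P h1 h2 h3)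
  u0 q hq P h1 h3 := by
    rw [map_mul]
    obtain ⟨hqp, hq8, -, hqm⟩ := H.prime hq
    have h1' : (below F (below K P)).asIdeal = 𝔮 q := h1
    obtain ⟨e1, -, -⟩ := q_top H hc hq h1' (hD q hq _ h1') h3
    have hϖ : ¬ Ev P ((q : L) * θ) := by
      apply Pool.Agent.N891.PQ.not_ev_exp
      rw [map_mul, e1, h3, mul_one]
    have h5 : (q : L) * θ ≠ 0 := by
      intro h6
      apply hϖ
      rw [h6]
      exact ⟨0, by simp⟩
    have hov : Pool.Agent.N783.PQ.Ov q P := nat_mem_of_below (F := F) (K := K) (by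
      rw [h1']
      exact hqm)
    exact ((Pool.Agent.N457.PQ.cls L q P _ hqp (by omega) hov h5 hϖ _ _ h0 h0').2).2
      ⟨fun _ => h'.u0 q hq P h1 h3, fun _ => h.u0 q hq P h1 h3⟩
  two w h1 := by
    show LocIm _ _ ((p * p').map _)
    rw [Polynomial.map_mul]
    exact Pool.Agent.N891.PQ.LocIm.mul (h.two w h1) (h'.two w h1)
  real σ := by
    rw [Polynomial.map_mul]
    exact Pool.Agent.N891.PQ.LocIm.mul (h.real σ) (h'.real σ)

theorem cnd_congr (hroot : aeval θ (fb K f) = 0) (hmin : minpoly K θ = fb K f) {p p' : K[X]}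
    (he : aeval θ p = aeval θ p') (h : Cnd F f J 𝔮 θ p) : Cnd F f J 𝔮 θ p' := by
  have hd : fb K f ∣ p - p' := by
    rw [← hmin]
    apply minpoly.dvd
    rw [map_sub, he, sub_self]
  refine ⟨fun P a b c => he ▸ h.ev P a b c, fun q hq P a b => he ▸ h.u0 q hq P a b,
    fun w hw => ?_, fun σ => ?_⟩
  · have h1 := h.two w hw
    refine locIm_congr ?_ h1
    have h3 := Polynomial.map_dvd (algebraMap K (w.adicCompletion K)) hd
    rwa [Polynomial.map_sub] at h3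
  · refine locIm_congr ?_ (h.real σ)
    have h3 := Polynomial.map_dvd σ hd
    rwa [Polynomial.map_sub] at h3

end cls

section sig

/-- The conditions are stable under the automorphisms. -/
theorem cnd_sig {F : Type} (K₁ : Type) {K₂ L₁ L₂ : Type} [Field F] [NumberField F] [Field K₁]
    [NumberField K₁] [Field K₂] [NumberField K₂] [Field L₁] [NumberField L₁] [Field L₂]
    [NumberField L₂] [Algebra F K₁] [Algebra F K₂] [Algebra K₁ K₂] [IsScalarTower F K₁ K₂]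
    [Algebra K₁ L₁] [Algebra K₂ L₂] [Algebra L₁ L₂] [Algebra K₁ L₂] [IsScalarTower K₁ K₂ L₂]
    [IsScalarTower K₁ L₁ L₂] [IsGalois K₁ K₂] {f : (𝓞 F)[X]} {θ₁ : L₁} {J : Finset ℕ}
    {𝔮 : ℕ → Ideal (𝓞 F)} (σ : L₂ ≃ₐ[L₁] L₂) {p : K₂[X]}
    (h : Cnd F f J 𝔮 (algebraMap L₁ L₂ θ₁) p) :
    ∃ p' : K₂[X], aeval (algebraMap L₁ L₂ θ₁) p' = σ (aeval (algebraMap L₁ L₂ θ₁) p) ∧
      Cnd F f J 𝔮 (algebraMap L₁ L₂ θ₁) p' := by
  let σ₁ : L₂ ≃ₐ[K₁] L₂ := σ.restrictScalars K₁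
  set τ : K₂ ≃ₐ[K₁] K₂ := σ₁.restrictNormal K₂ with hτ
  have hτ' : ∀ y : K₂, algebraMap K₂ L₂ (τ y) = σ (algebraMap K₂ L₂ y) := fun y =>
    AlgEquiv.restrictNormal_commutes σ₁ K₂ y
  have hσθ : σ (algebraMap L₁ L₂ θ₁) = algebraMap L₁ L₂ θ₁ := σ.commutes _
  have hF : ∀ y : F, τ (algebraMap F K₂ y) = algebraMap F K₂ y := by
    intro y
    rw [IsScalarTower.algebraMap_apply F K₁ K₂, τ.commutes]
  have hFcomp : (τ : K₂ →+* K₂).comp (algebraMap F K₂) = algebraMap F K₂ := RingHom.ext hF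
  have hfbτ : (fb K₂ f).map (τ : K₂ →+* K₂) = fb K₂ f := by
    unfold fb
    rw [Polynomial.map_map, hFcomp]
  have hval : aeval (algebraMap L₁ L₂ θ₁) (p.map (τ : K₂ →+* K₂)) =
      σ (aeval (algebraMap L₁ L₂ θ₁) p) := by
    rw [aeval_def, eval₂_map, aeval_def]
    have e : (algebraMap K₂ L₂).comp (τ : K₂ →+* K₂) = (σ : L₂ →+* L₂).comp (algebraMap K₂ L₂) :=
      RingHom.ext fun y => hτ' y
    have h1 := hom_eval₂ p (algebraMap K₂ L₂) (σ : L₂ →+* L₂) (algebraMap L₁ L₂ θ₁)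
    rw [e]
    have h2 : (σ : L₂ →+* L₂) (algebraMap L₁ L₂ θ₁) = algebraMap L₁ L₂ θ₁ := hσθ
    rw [h2] at h1
    exact h1.symm
  have hση : σ (aeval (algebraMap L₁ L₂ θ₁) (derivative (fb K₂ f))) =
      aeval (algebraMap L₁ L₂ θ₁) (derivative (fb K₂ f)) := by
    have e : aeval (algebraMap L₁ L₂ θ₁) (derivative (fb K₂ f)) =
        algebraMap L₁ L₂ (aeval θ₁ (derivative (fb K₁ f))) := by
      rw [← fb_map K₁ K₂ f, derivative_map, aeval_map_algebraMap, aeval_algebraMap_apply]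
    rw [e, σ.commutes]
  have key := Pool.Agent.N756.QM.sig L₂ (σ.restrictScalars ℚ)
  have hmemv : ∀ (P : HeightOneSpectrum (𝓞 L₂)) (a : 𝓞 L₂), a ∈ P.asIdeal ↔
      P.valuation L₂ (algebraMap (𝓞 L₂) L₂ a) < 1 := fun P a =>
    (HeightOneSpectrum.valuation_lt_one_iff_mem (K := L₂) P a).symm
  have hnat : ∀ (P P' : HeightOneSpectrum (𝓞 L₂)),
      (∀ y : L₂, P'.valuation L₂ y = P.valuation L₂ (σ y)) → ∀ n : ℕ,
      ((n : 𝓞 L₂) ∈ P'.asIdeal ↔ (n : 𝓞 L₂) ∈ P.asIdeal) := by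
    intro P P' hv n
    rw [hmemv, hmemv, hv, map_natCast, map_natCast]
  have hev : ∀ (𝔓 𝔓' : HeightOneSpectrum (𝓞 L₂)),
      (∀ y : L₂, 𝔓'.valuation L₂ y = 𝔓.valuation L₂ (σ y)) →
      ∀ y : L₂, Ev 𝔓' y ↔ Ev 𝔓 (σ y) := by
    intro 𝔓 𝔓' hv y
    constructor
    · rintro ⟨z, hz⟩
      exact ⟨σ z, by rw [← hv, ← hv, hz]⟩
    · rintro ⟨z, hz⟩
      refine ⟨σ.symm z, ?_⟩
      rw [hv, hv, σ.apply_symm_apply, hz]
  have hsq : ∀ (𝔓 𝔓' : HeightOneSpectrum (𝓞 L₂)),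
      (∀ y : L₂, 𝔓'.valuation L₂ y = 𝔓.valuation L₂ (σ y)) →
      ∀ y : L₂, Sq1 𝔓' y → Sq1 𝔓 (σ y) := by
    rintro 𝔓 𝔓' hv y ⟨z, hz⟩
    refine ⟨σ z, ?_⟩
    rw [hv, hv, map_sub, map_pow] at hz
    exact hz
  refine ⟨p.map (τ : K₂ →+* K₂), hval, ?_, ?_, ?_, ?_⟩
  · intro P h1 h2 h3
    obtain ⟨P', hv, -⟩ := key P
    have hv' : ∀ y : L₂, P'.valuation L₂ y = P.valuation L₂ (σ y) := hv
    rw [hval]
    refine (hev P P' hv' _).1 (h.ev P' (fun hc => h1 ?_) (fun q hq hc => h2 q hq ?_) ?_)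
    · have := (hnat P P' hv' 2).1 (by exact_mod_cast hc)
      exact_mod_cast this
    · exact (hnat P P' hv' q).1 hc
    · rw [hv', hση]
      exact h3
  · intro q hq P h1 h2
    obtain ⟨P', hv, -⟩ := key P
    have hv' : ∀ y : L₂, P'.valuation L₂ y = P.valuation L₂ (σ y) := hv
    have hb : below F (below K₂ P') = below F (below K₂ P) := by
      ext1
      ext a
      show algebraMap (𝓞 K₂) (𝓞 L₂) (algebraMap (𝓞 F) (𝓞 K₂) a) ∈ P'.asIdeal ↔
        algebraMap (𝓞 K₂) (𝓞 L₂) (algebraMap (𝓞 F) (𝓞 K₂) a) ∈ P.asIdeal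
      rw [hmemv, hmemv, hv']
      have e : algebraMap (𝓞 L₂) L₂ (algebraMap (𝓞 K₂) (𝓞 L₂) (algebraMap (𝓞 F) (𝓞 K₂) a)) =
          algebraMap K₂ L₂ (algebraMap F K₂ (a : F)) := rfl
      rw [e, ← hτ', hF]
    have h3 := h.u0 q hq P' (by
      show below F (below K₂ P') ∈ _
      rw [hb]
      exact h1) (by
      rw [hv', hσθ]
      exact h2)
    rw [hval]
    refine ⟨fun h4 => hsq P P' hv' _ (h3.1 ((hev P P' hv' _).2 h4)), fun h4 => ?_⟩
    have h5 := hsq P P' hv' _ (h3.2 fun h6 => h4 ((hev P P' hv' _).1 h6))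
    rw [map_mul, map_mul, map_natCast, hσθ] at h5
    exact h5
  · intro w hw
    obtain ⟨w', s, hs, hO⟩ := Pool.Agent.N667.PV.ext K₂ (𝓞 K₂) (τ : K₂ ≃+* K₂) w
    have hw' : (2 : 𝓞 K₂) ∈ w'.asIdeal := by
      have h1 := (hO 2).2 (by
        show algebraMap ℤ (𝓞 K₂) 2 ∈ w.asIdeal
        rw [map_ofNat]
        exact hw)
      have h2 : algebraMap ℤ (𝓞 K₂) 2 ∈ w'.asIdeal := h1
      rwa [map_ofNat] at h2
    have h1 := locIm_map s (h.two w' hw')
    have e : s.comp (algebraMap K₂ (w'.adicCompletion K₂)) =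
        (algebraMap K₂ (w.adicCompletion K₂)).comp (τ : K₂ →+* K₂) := RingHom.ext hs
    have e1 : ∀ r : K₂[X], (r.map (algebraMap K₂ (w'.adicCompletion K₂))).map s =
        (r.map (τ : K₂ →+* K₂)).map (algebraMap K₂ (w.adicCompletion K₂)) := by
      intro r
      rw [Polynomial.map_map, e, Polynomial.map_map]
    rw [e1, e1, hfbτ] at h1
    exact h1
  · intro ρ
    have h1 := h.real (ρ.comp (τ : K₂ →+* K₂))
    have e1 : ∀ r : K₂[X], r.map (ρ.comp (τ : K₂ →+* K₂)) = (r.map (τ : K₂ →+* K₂)).map ρ := by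
      intro r
      rw [Polynomial.map_map]
    rw [e1, e1, hfbτ] at h1
    exact h1

end sig

end Pool.Agent.H459.UF
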