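import Pool.Agent.H459.UF.TopS
import Pool.Agent.H459.UF.GfW
import Pool.Agent.H459.UF.ExsW
import Pool.Graph.R_pool_sql_team_seeded_63374d34.N783.PF.Final

/-!
# A twist whose 2-Selmer groups over all the extensions are zero (helper459)
-/

set_option autoImplicit false
set_option linter.all false

open Polynomial IsDedekindDomain NumberField WithZero
open scoped Classical IntermediateField

namespace Pool.Agent.H459.UF

open Pool.Agent.N783.PF
open Pool.Agent.N61.PF (pol pol_monic pol_natDegree pol_coeff0 pol_coeff1 pol_coeff2 eq_pol fF_eq)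

/-- a real zero and a complex zero -/
theorem exists_ez {a b : ℝ} (h : 0 < 4 * a ^ 3 + 27 * b ^ 2) : ∃ (e : ℝ) (z : ℂ), z.im ≠ 0 ∧
    e ^ 3 + a * e + b = 0 ∧ z ^ 3 + a * z + b = 0 := by
  obtain ⟨e, he⟩ : ∃ e : ℝ, e ^ 3 + a * e + b = 0 := by
    set M : ℝ := 1 + |a| + |b| with hM
    have hM1 : 1 ≤ M := by
      rw [hM]
      have := abs_nonneg a
      have := abs_nonneg b
      linarith
    have hcont : ContinuousOn (fun x : ℝ => x ^ 3 + a * x + b) (Set.Icc (-M) M) := by fun_prop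
    have h1 : (fun x : ℝ => x ^ 3 + a * x + b) (-M) ≤ 0 := by
      show (-M) ^ 3 + a * (-M) + b ≤ 0
      have e1 : -(a * M) ≤ |a| * M := by
        have := neg_abs_le a
        nlinarith
      have e2 : b ≤ |b| * M := by
        have := le_abs_self b
        have := abs_nonneg b
        nlinarith
      have e3 : (|a| + |b|) * M ≤ M ^ 3 := by
        have h5 : |a| + |b| ≤ M := by rw [hM]; linarith
        calc (|a| + |b|) * M ≤ M * M := mul_le_mul_of_nonneg_right h5 (by linarith)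
          _ = M ^ 2 := by ring
          _ ≤ M ^ 3 := pow_le_pow_right₀ hM1 (by norm_num)
      nlinarith
    have h2 : 0 ≤ (fun x : ℝ => x ^ 3 + a * x + b) M := by
      show 0 ≤ M ^ 3 + a * M + b
      have e1 : -(|a| * M) ≤ a * M := by
        have := neg_abs_le a
        nlinarith
      have e2 : -(|b| * M) ≤ b := by
        have := neg_abs_le b
        have := abs_nonneg b
        nlinarith
      have e3 : (|a| + |b|) * M ≤ M ^ 3 := by
        have h5 : |a| + |b| ≤ M := by rw [hM]; linarith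
        calc (|a| + |b|) * M ≤ M * M := mul_le_mul_of_nonneg_right h5 (by linarith)
          _ = M ^ 2 := by ring
          _ ≤ M ^ 3 := pow_le_pow_right₀ hM1 (by norm_num)
      nlinarith
    obtain ⟨e, -, he⟩ := intermediate_value_Icc (by linarith) hcont ⟨h1, h2⟩
    exact ⟨e, he⟩
  have hid : 4 * a ^ 3 + 27 * b ^ 2 = (3 * e ^ 2 + 4 * a) * (3 * e ^ 2 + a) ^ 2 := by
    have hb : b = -(e ^ 3 + a * e) := by linarith
    rw [hb]
    ring
  have hpos : 0 < 3 * e ^ 2 + 4 * a := by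
    rw [hid] at h
    by_contra hneg
    rw [not_lt] at hneg
    have := mul_nonpos_of_nonpos_of_nonneg hneg (sq_nonneg (3 * e ^ 2 + a))
    linarith
  obtain ⟨s, hs, hs2⟩ : ∃ s : ℝ, 0 < s ∧ s ^ 2 = 3 * e ^ 2 + 4 * a :=
    ⟨Real.sqrt (3 * e ^ 2 + 4 * a), Real.sqrt_pos.2 hpos, Real.sq_sqrt hpos.le⟩
  refine ⟨e, ⟨-e / 2, s / 2⟩, ?_, he, ?_⟩
  · show s / 2 ≠ 0
    positivity
  · obtain ⟨z, hz⟩ : ∃ z : ℂ, z = ⟨-e / 2, s / 2⟩ := ⟨_, rfl⟩
    rw [← hz]
    have hq : z ^ 2 + (e : ℂ) * z + ((e : ℂ) ^ 2 + (a : ℂ)) = 0 := by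
      rw [hz]
      apply Complex.ext
      · simp [pow_two]
        nlinarith
      · simp [pow_two]
        ring
    have hb : (b : ℂ) = -((e : ℂ) ^ 3 + (a : ℂ) * (e : ℂ)) := by
      have : b = -(e ^ 3 + a * e) := by linarith
      rw [this]
      push_cast
      ring
    rw [hb]
    linear_combination (z - (e : ℂ)) * hq

/-- The conditions on the extension `M` of `F`. -/
structure Adm (F M : Type) [Field F] [NumberField F] [Field M] [NumberField M] [Algebra F M]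
    (Z : Set (HeightOneSpectrum (𝓞 F))) (f : (𝓞 F)[X]) : Prop where
  two : ∀ v : HeightOneSpectrum (𝓞 F), (2 : 𝓞 F) ∈ v.asIdeal → Unr F M v ∧ Deg1 F M v
  sig : ∀ v ∈ Z, Unr F M v ∧ Deg1 F M v
  unr : ∀ v : HeightOneSpectrum (𝓞 F), (∃ t : 𝓞 F, f.eval t ∈ v.asIdeal) → Unr F M v
  real : ∀ σ : F →+* ℝ, (∃ ρ : M →+* ℝ, ρ.comp (algebraMap F M) = σ) ∨
    0 < σ ((4 * (f.coeff 1) ^ 3 + 27 * (f.coeff 0) ^ 2 : 𝓞 F) : F)

/-- Zero 2-Selmer groups over all the extensions. -/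
def UG {F : Type} [Field F] [NumberField F] (Z : Set (HeightOneSpectrum (𝓞 F))) (k : ℕ)
    (f : (𝓞 F)[X]) : Prop :=
  (∀ v : HeightOneSpectrum (𝓞 F), (k : 𝓞 F) ∈ v.asIdeal → Irreducible (rd v.asIdeal f)) ∧
  ∀ (M : Type) [Field M] [NumberField M] [Algebra F M] [IsGalois F M] (n : ℕ),
    Module.finrank F M = 2 ^ n → Adm F M Z f → SelZero (fo M f)

theorem eval_scale {R : Type} [CommRing R] {f : R[X]} (hd : f.natDegree = 3) (D t : R) :
    (f.scaleRoots D).eval (D * t) = D ^ 3 * f.eval t := by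
  have h := scaleRoots_eval₂_mul (p := f) (RingHom.id R) t D
  rw [RingHom.id_apply, hd] at h
  simpa [eval₂_id] using h

theorem irr_of_no_root {F : Type} [Field F] [NumberField F] {f : (𝓞 F)[X]} (hm : f.Monic)
    (hd : f.natDegree = 3) (v : HeightOneSpectrum (𝓞 F))
    (h : ∀ t : 𝓞 F, f.eval t ∉ v.asIdeal) : Irreducible (rd v.asIdeal f) := by
  haveI hmax : v.asIdeal.IsMaximal := v.isMaximal
  letI : Field (𝓞 F ⧸ v.asIdeal) := Ideal.Quotient.field v.asIdeal
  have hmon : (rd v.asIdeal f).Monic := hm.map _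
  have hdeg : (rd v.asIdeal f).natDegree = 3 := by
    unfold rd
    rw [hm.natDegree_map, hd]
  rw [hmon.irreducible_iff_roots_eq_zero_of_degree_le_three (by omega) (by omega),
    Multiset.eq_zero_iff_forall_notMem]
  intro a ha
  obtain ⟨t, rfl⟩ := Ideal.Quotient.mk_surjective a
  rw [mem_roots hmon.ne_zero, IsRoot] at ha
  apply h t
  rw [← Ideal.Quotient.eq_zero_iff_mem, ← ha]
  unfold rd
  rw [eval_map, eval₂_at_apply]

theorem fo_scale {F M : Type} [Field F] [NumberField F] [Field M] [NumberField M] [Algebra F M]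
    {f : (𝓞 F)[X]} (hm : f.Monic) (D : ℕ) :
    (fo M f).scaleRoots (D : 𝓞 M) = fo M (f.scaleRoots (D : 𝓞 F)) := by
  unfold fo
  rw [map_scaleRoots]
  · rw [map_natCast]
  · rw [hm.leadingCoeff, map_one]
    exact one_ne_zero

/-- From the absence of bad elements to a twist with zero 2-Selmer groups over all the
extensions. -/
theorem twU (F : Type) [Field F] [NumberField F] : ∃ κ : ℕ,
    ∀ (B N W : ℕ) (f₁ : (𝓞 F)[X]) (S : Finset ℕ) (𝔮 : ℕ → Ideal (𝓞 F)) (r P : ℕ → (𝓞 F)[X])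
    (f : (𝓞 F)[X]), κ ≤ W → GoodF 1 W f₁ → GoodS 1 W S 𝔮 r P → Fam 1 B W f₁ S P f →
    2 ^ κ * B ≤ 4 ^ N → 1 ≤ B → ¬ LBad 1 N κ S 𝔮 P f → ∀ k : ℕ, k ∣ W →
    (∀ v : HeightOneSpectrum (𝓞 F), (W : 𝓞 F) ∈ v.asIdeal → Irreducible (rd v.asIdeal f₁)) →
    ∃ J ⊆ S, Irreducible (fF (f.scaleRoots ((Dp J : ℕ) : 𝓞 F))) ∧
      Min 1 (f.scaleRoots ((Dp J : ℕ) : 𝓞 F)) ∧
      UG {v | ∃ q ∈ S, v.asIdeal = 𝔮 q} k (f.scaleRoots ((Dp J : ℕ) : 𝓞 F)) := by
  obtain ⟨κ₁, hκ₁⟩ := core 1 F le_rfl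
  obtain ⟨κ₂, hκ₂⟩ := sqf 1 F le_rfl
  refine ⟨max κ₁ κ₂, fun B N W f₁ S 𝔮 r P f hW hf₁ hS hF hBN hB hnb k hkW hirrW => ?_⟩
  have hBN1 : 2 ^ κ₁ * B ≤ 4 ^ N :=
    (Nat.mul_le_mul_right _ (Nat.pow_le_pow_right (by norm_num) (le_max_left _ _))).trans hBN
  have hBN2 : 2 ^ κ₂ * B ≤ 4 ^ N :=
    (Nat.mul_le_mul_right _ (Nat.pow_le_pow_right (by norm_num) (le_max_right _ _))).trans hBN
  have hnb1 : ¬ LBad 1 N κ₁ S 𝔮 P f := fun h =>
    hnb (Pool.Agent.N170.PF.LBad.mono (le_max_left _ _) h)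
  have hnb2 : ¬ LBad 1 N κ₂ S 𝔮 P f := fun h =>
    hnb (Pool.Agent.N170.PF.LBad.mono (le_max_right _ _) h)
  have hm := hF.ht.mon
  have hd : f.natDegree = 3 := hF.ht.deg
  have hirr : Irreducible (fF f) := Pool.Agent.N667.PF.irr F 1 W f₁ f hf₁ hF.one hm hd
  have hsq : SqF 1 f := hκ₂ B N W f₁ S 𝔮 r P f ((le_max_right _ _).trans hW) hf₁ hS hF hirr hBN2
    hB hnb2
  obtain ⟨L, _, _, _, θ, hc⟩ := Pool.Agent.N667.PF.gen F 1 f hm hd hirr
  obtain ⟨J, hJ, hcore⟩ := hκ₁ L f f₁ θ B N W S 𝔮 r P ((le_max_left _ _).trans hW) hc hsq hf₁ hS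
    hF hBN1 hB hnb1
  refine ⟨J, hJ, ?_, Pool.Agent.N547.PF.min 1 W F S J 𝔮 r P f le_rfl hS hsq hm hd hF.con hJ, ?_⟩
  · have hD0 : Dp J ≠ 0 := by
      rw [Dp, Finset.prod_ne_zero_iff]
      exact fun q hq => (hS q (hJ hq)).1.ne_zero
    rw [Pool.Agent.N170.PF.fF_scale hm]
    exact Pool.Agent.N170.PF.irr_scale (Nat.cast_ne_zero.2 hD0) hirr
  have hcQ : ∀ q ∈ S, Cg (𝔮 q) f (X * r q) := by
    intro q hq j
    obtain ⟨-, -, -, -, -, -, a2, -, -, -, -, -, -, a3, -⟩ := hS q hq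
    have b1 := Pool.Agent.N78.PF.sp_le (F := F) a2 (hF.con q hq j)
    have b2 := a3 j
    have := Ideal.add_mem _ b1 b2
    simpa using this
  have hPK : PK F F f J 𝔮 := base le_rfl hm hd hsq hf₁ hS hF.one hF.con hJ L θ hc hcore
  have H : Dat f J 𝔮 := ⟨hm, 1, W, S, r, P, le_rfl, hd, hsq, hS, hcQ, hJ⟩
  obtain ⟨D, hD⟩ : ∃ D : ℕ, D = Dp J := ⟨_, rfl⟩
  have hD0 : D ≠ 0 := by
    rw [hD, Dp, Finset.prod_ne_zero_iff]
    exact fun q hq => (hS q (hJ hq)).1.ne_zero
  rw [← hD]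
  constructor
  · intro v hv
    have hWv : (W : 𝓞 F) ∈ v.asIdeal := by
      obtain ⟨m, hm'⟩ := hkW
      rw [hm', Nat.cast_mul]
      exact Ideal.mul_mem_right _ _ hv
    have hrd : rd v.asIdeal f = rd v.asIdeal f₁ :=
      Pool.Agent.N78.PF.rd_eq (Pool.Agent.N78.PF.sp_le hWv) hF.one
    have hDv : (D : 𝓞 F) ∉ v.asIdeal := by
      intro hd'
      rw [hD, Dp, Nat.cast_prod] at hd'
      haveI := v.isPrime
      obtain ⟨q, hq, hqv⟩ := (Ideal.IsPrime.prod_mem_iff).1 hd'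
      obtain ⟨a1, a2, -⟩ := hS q (hJ hq)
      have hco : Nat.Coprime q W := by
        rw [Nat.Prime.coprime_iff_not_dvd a1]
        intro hdv
        have := Nat.le_of_dvd hf₁.pos hdv
        omega
      obtain ⟨u, w, huw⟩ := (Nat.isCoprime_iff_coprime.2 hco)
      apply v.isPrime.ne_top
      rw [Ideal.eq_top_iff_one]
      have e : (1 : 𝓞 F) = (u : 𝓞 F) * (q : 𝓞 F) + (w : 𝓞 F) * (W : 𝓞 F) := by
        exact_mod_cast (congrArg (fun z : ℤ => (z : 𝓞 F)) huw).symm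
      rw [e]
      exact Ideal.add_mem _ (Ideal.mul_mem_left _ _ hqv) (Ideal.mul_mem_left _ _ hWv)
    haveI hmax : v.asIdeal.IsMaximal := v.isMaximal
    letI : Field (𝓞 F ⧸ v.asIdeal) := Ideal.Quotient.field v.asIdeal
    have e : rd v.asIdeal (f.scaleRoots (D : 𝓞 F)) =
        (rd v.asIdeal f).scaleRoots (Ideal.Quotient.mk v.asIdeal (D : 𝓞 F)) := by
      unfold rd
      rw [map_scaleRoots]
      rw [hm.leadingCoeff, map_one]
      exact one_ne_zero
    rw [e, hrd]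
    refine Pool.Agent.N170.PF.irr_scale ?_ (hirrW v hWv)
    intro h0
    exact hDv (Ideal.Quotient.eq_zero_iff_mem.1 h0)
  · intro M _ _ _ _ n hn hA
    have hDQ : DQ F M J 𝔮 := by
      intro q hq w hw
      obtain ⟨h1, h2⟩ := hA.sig (below F w) ⟨q, hJ hq, hw⟩
      exact dns_of_deg1 h1 h2
    have hT : TC F F M f J 𝔮 := by
      refine ⟨?_, ?_, hDQ, ?_⟩
      · intro v _
        by_cases ht : ∃ t : 𝓞 F, (f.scaleRoots (D : 𝓞 F)).eval t ∈ v.asIdeal
        · exact Or.inl (hA.unr v ht)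
        · refine Or.inr ?_
          rw [fo_self]
          refine irr_of_no_root hm hd v fun t htv => ht ⟨(D : 𝓞 F) * t, ?_⟩
          rw [eval_scale hd]
          exact Ideal.mul_mem_left _ _ htv
      · intro w hw
        have h2 : (2 : 𝓞 F) ∈ (below F w).asIdeal := by
          rw [mem_below, map_ofNat]
          exact hw
        obtain ⟨h1, h3⟩ := hA.two _ h2
        exact dns_of_deg1 h1 h3
      · intro σ
        rcases hA.real σ with h | h
        · exact Or.inl h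
        · refine Or.inr ?_
          have hσ : σ.comp (algebraMap F F) = σ := by
            rw [Algebra.algebraMap_self, RingHom.comp_id]
          rw [hσ]
          have e1 : (f.scaleRoots (D : 𝓞 F)).coeff 1 = f.coeff 1 * (D : 𝓞 F) ^ 2 := by
            rw [coeff_scaleRoots, hd]
          have e0 : (f.scaleRoots (D : 𝓞 F)).coeff 0 = f.coeff 0 * (D : 𝓞 F) ^ 3 := by
            rw [coeff_scaleRoots, hd]
          rw [e1, e0] at h
          have h5 : 0 < 4 * (σ (f.coeff 1 : F)) ^ 3 + 27 * (σ (f.coeff 0 : F)) ^ 2 := by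
            have e : σ ((4 * (f.coeff 1 * (D : 𝓞 F) ^ 2) ^ 3 +
                27 * (f.coeff 0 * (D : 𝓞 F) ^ 3) ^ 2 : 𝓞 F) : F) =
                (D : ℝ) ^ 6 * (4 * (σ (f.coeff 1 : F)) ^ 3 + 27 * (σ (f.coeff 0 : F)) ^ 2) := by
              push_cast
              simp only [map_add, map_mul, map_pow, map_ofNat, map_natCast]
              ring
            rw [e] at h
            have hDp : (0 : ℝ) < (D : ℝ) ^ 6 := by
              have : (0 : ℝ) < D := by exact_mod_cast Nat.pos_of_ne_zero hD0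
              positivity
            exact (mul_pos_iff_of_pos_left hDp).1 h
          obtain ⟨e, z, hz, he, hze⟩ := exists_ez h5
          have hf : f = pol (f.coeff 1) (f.coeff 0) := eq_pol hF.ht
          have hmapf : (fF f).map σ = X ^ 3 + C (σ (f.coeff 1 : F)) * X + C (σ (f.coeff 0 : F)) := by
            conv_lhs => rw [hf]
            unfold pol fF
            simp
          refine ⟨e, z, hz, ?_, ?_⟩
          · rw [hmapf]
            simpa using he
          · rw [hmapf]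
            simpa using hze
    have hMK := tower H hd n F M hn hT hPK
    have hirrM : Irreducible (fb M f) :=
      Pool.Agent.N874.JM.irr_up hn hirr (hm.map _) (by
        rw [hm.natDegree_map, hd]
        decide)
    have h6 := selM H hMK hDQ hirrM
    rw [← hD, fo_scale hm] at h6
    exact h6

end Pool.Agent.H459.UF
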