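import Pool.Agent.H459.UF.Cin
import Pool.Agent.H459.UF.Ptf
import Pool.Agent.H459.UF.TowU
import Pool.Agent.H459.UF.GfW

/-!
# Descent of the local condition at the primes over two (helper459)
-/

set_option autoImplicit false
set_option linter.all false

open Polynomial IsDedekindDomain NumberField WithZero
open scoped Classical IntermediateField

namespace Pool.Agent.H459.UF

open Pool.Agent.N874.JM (LocF)
open Pool.Agent.N783.PQ (LocIm)
open Pool.Agent.N783.PF (rd fF)
open Pool.Agent.N874.PP (sW)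
open Pool.Agent.TH115.GD (Pt act)

section conj

variable {k k' : Type} [Field k] [CharZero k] [Field k'] [Algebra k k']

theorem exists_conj {s : k'} {n : k} (hs : s ^ 2 - s + algebraMap k k' n = 0)
    (hsp : ∀ y : k', ∃ a b : k, y = algebraMap k k' a + algebraMap k k' b * s)
    (hne : ∀ a : k, algebraMap k k' a ≠ s) :
    ∃ σ : k' →ₐ[k] k', σ s = 1 - s ∧ (∀ x, σ (σ x) = x) ∧
      ∀ x, σ x = x → ∃ y, algebraMap k k' y = x := by
  haveI : CharZero k' := charZero_of_injective_algebraMap (algebraMap k k').injective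
  have hli : LinearIndependent k ![(1 : k'), s] := by
    rw [LinearIndependent.pair_iff]
    intro a b hab
    rw [Algebra.smul_def, Algebra.smul_def, mul_one] at hab
    have hb0 : b = 0 := by
      by_contra hb0
      have hb0' : algebraMap k k' b ≠ 0 := (_root_.map_ne_zero _).2 hb0
      apply hne (-a / b)
      rw [map_div₀, map_neg]
      field_simp
      linear_combination -hab
    rw [hb0, map_zero, zero_mul, add_zero] at hab
    exact ⟨(map_eq_zero _).1 hab, hb0⟩
  have htop : (⊤ : Submodule k k') ≤ Submodule.span k (Set.range ![(1 : k'), s]) := by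
    intro y _
    rw [Matrix.range_cons, Matrix.range_cons, Matrix.range_empty, Set.union_empty,
      Set.singleton_union, Submodule.mem_span_pair]
    obtain ⟨a, b, rfl⟩ := hsp y
    refine ⟨a, b, ?_⟩
    rw [Algebra.smul_def, Algebra.smul_def, mul_one]
  have h2 : Module.finrank k k' = 2 := by
    rw [Module.finrank_eq_card_basis (Module.Basis.mk hli htop)]
    simp
  haveI : FiniteDimensional k k' := FiniteDimensional.of_finrank_pos (by omega)
  haveI : Algebra.IsQuadraticExtension k k' := ⟨h2⟩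
  haveI : IsGalois k k' := inferInstance
  obtain ⟨σ, hσ⟩ : ∃ σ : k' ≃ₐ[k] k', σ s ≠ s := by
    by_contra hc
    push Not at hc
    have h3 := (IsGalois.mem_range_algebraMap_iff_fixed (F := k) (E := k') s).2 hc
    obtain ⟨a, ha⟩ := h3
    exact hne a ha
  have hσs : σ s = 1 - s := by
    have h3 : (σ s) ^ 2 - σ s + algebraMap k k' n = 0 := by
      have := congrArg σ hs
      rw [map_add, map_sub, map_pow, σ.commutes, map_zero] at this
      exact this
    have h4 : (σ s - s) * (σ s + s - 1) = 0 := by linear_combination h3 - hs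
    rcases mul_eq_zero.1 h4 with h5 | h5
    · exact absurd (sub_eq_zero.1 h5) hσ
    · linear_combination h5
  refine ⟨σ.toAlgHom, hσs, ?_, ?_⟩
  · intro x
    obtain ⟨a, b, rfl⟩ := hsp x
    show σ (σ _) = _
    rw [map_add, map_mul, σ.commutes, σ.commutes, hσs, map_add, map_mul, σ.commutes, σ.commutes,
      map_sub, map_one, hσs]
    ring
  · intro x hx
    obtain ⟨a, b, rfl⟩ := hsp x
    have hx' : σ (algebraMap k k' a + algebraMap k k' b * s) =
      algebraMap k k' a + algebraMap k k' b * s := hx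
    rw [map_add, map_mul, σ.commutes, σ.commutes, hσs] at hx'
    have h3 : algebraMap k k' b * (1 - 2 * s) = 0 := by linear_combination hx'
    rcases mul_eq_zero.1 h3 with h4 | h4
    · exact ⟨a, by rw [h4]; ring⟩
    · exfalso
      apply hne (1 / 2)
      rw [map_div₀, map_one, map_ofNat]
      have h2' : (2 : k') ≠ 0 := two_ne_zero
      field_simp
      linear_combination h4

end conj

section loc

variable {K : Type} [Field K] [NumberField K]

/-- Approximation by integers. -/
theorem near_int (v : HeightOneSpectrum (𝓞 K)) {x : v.adicCompletion K}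
    (hx : Valued.v (Γ₀ := WithZero (Multiplicative ℤ)) x ≤ 1) :
    ∃ y : 𝓞 K, Valued.v (Γ₀ := WithZero (Multiplicative ℤ))
      (x - algebraMap K (v.adicCompletion K) (algebraMap (𝓞 K) K y)) < 1 := by
  obtain ⟨a, ha⟩ := Pool.Agent.N704.PP.near_one v x
  have hav : v.valuation K a ≤ 1 := by
    rw [← Pool.Agent.N704.PP.vx v]
    have e : algebraMap K (v.adicCompletion K) a = x - (x - algebraMap K (v.adicCompletion K) a) := by
      ring
    rw [e]
    exact (Valuation.map_sub _ _ _).trans (max_le hx ha.le)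
  obtain ⟨y, hy⟩ := v.exists_valuation_sub_lt_of_integer hav 1
  rw [Units.val_one] at hy
  refine ⟨y, ?_⟩
  have e : x - algebraMap K (v.adicCompletion K) (algebraMap (𝓞 K) K y) =
      (x - algebraMap K (v.adicCompletion K) a) -
        algebraMap K (v.adicCompletion K) (algebraMap (𝓞 K) K y - a) := by
    rw [map_sub]
    ring
  rw [e]
  refine (Valuation.map_sub _ _ _).trans_lt (max_lt ha ?_)
  rw [Pool.Agent.N704.PP.vx]
  exact hy

theorem val_int (v : HeightOneSpectrum (𝓞 K)) (y : 𝓞 K) :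
    Valued.v (Γ₀ := WithZero (Multiplicative ℤ))
      (algebraMap K (v.adicCompletion K) (algebraMap (𝓞 K) K y)) ≤ 1 := by
  rw [Pool.Agent.N704.PP.vx]
  exact HeightOneSpectrum.valuation_le_one _ _

theorem val_lt_iff (v : HeightOneSpectrum (𝓞 K)) (y : 𝓞 K) :
    Valued.v (Γ₀ := WithZero (Multiplicative ℤ))
      (algebraMap K (v.adicCompletion K) (algebraMap (𝓞 K) K y)) < 1 ↔ y ∈ v.asIdeal := by
  rw [Pool.Agent.N704.PP.vx]
  exact HeightOneSpectrum.valuation_lt_one_iff_mem _ _

/-- Values of an irreducible cubic. -/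
theorem irr_val (v : HeightOneSpectrum (𝓞 K)) {a b : 𝓞 K}
    (h : Irreducible (rd v.asIdeal (X ^ 3 + C a * X + C b))) {x : v.adicCompletion K}
    (hx : Valued.v (Γ₀ := WithZero (Multiplicative ℤ)) x ≤ 1) :
    Valued.v (Γ₀ := WithZero (Multiplicative ℤ))
      (x ^ 3 + algebraMap K (v.adicCompletion K) (algebraMap (𝓞 K) K a) * x +
        algebraMap K (v.adicCompletion K) (algebraMap (𝓞 K) K b)) = 1 := by
  haveI m2 : v.asIdeal.IsMaximal := v.isMaximal
  letI i2 : Field (𝓞 K ⧸ v.asIdeal) := Ideal.Quotient.field _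
  obtain ⟨y, hy⟩ := near_int v hx
  obtain ⟨φ, hφ⟩ : ∃ φ : 𝓞 K →+* v.adicCompletion K,
    φ = (algebraMap K (v.adicCompletion K)).comp (algebraMap (𝓞 K) K) := ⟨_, rfl⟩
  have hφx : ∀ z : 𝓞 K, algebraMap K (v.adicCompletion K) (algebraMap (𝓞 K) K z) = φ z := by
    intro z
    rw [hφ]
    rfl
  have hle := val_int v
  have hlt := val_lt_iff v
  simp only [hφx] at hy hle hlt ⊢
  have hn : y ^ 3 + a * y + b ∉ v.asIdeal := by
    intro hm
    have h1 : (rd v.asIdeal (X ^ 3 + C a * X + C b)).IsRoot (Ideal.Quotient.mk v.asIdeal y) := by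
      have h3 := Ideal.Quotient.eq_zero_iff_mem.2 hm
      rw [map_add, map_add, map_mul, map_pow] at h3
      simp [rd, IsRoot, h3]
    have h2 := degree_eq_one_of_irreducible_of_root h h1
    have h3 : (rd v.asIdeal (X ^ 3 + C a * X + C b)).degree = 3 := by
      unfold rd
      rw [Polynomial.map_add, Polynomial.map_add, Polynomial.map_mul, Polynomial.map_pow, map_X,
        map_C, map_C]
      compute_degree!
    rw [h3] at h2
    norm_num at h2
  have h1 : Valued.v (Γ₀ := WithZero (Multiplicative ℤ)) (φ (y ^ 3 + a * y + b)) = 1 := by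
    refine le_antisymm (hle _) (not_lt.1 fun h5 => hn ((hlt _).1 h5))
  refine eq1_of_sub (v := (Valued.v : Valuation _ (WithZero (Multiplicative ℤ)))) ?_ h1
  have e : x ^ 3 + φ a * x + φ b - φ (y ^ 3 + a * y + b) =
      (x - φ y) * (x ^ 2 + x * φ y + φ y ^ 2 + φ a) := by
    rw [map_add, map_add, map_mul, map_pow]
    ring
  rw [e]
  refine mul_lt1 hy ?_
  refine (Valuation.map_add _ _ _).trans (max_le ((Valuation.map_add _ _ _).trans (max_le
    ((Valuation.map_add _ _ _).trans (max_le ?_ ?_)) ?_)) (hle a))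
  · rw [map_pow]
    exact pow_le_one' hx 2
  · rw [map_mul]
    exact mul_le_one' hx (hle y)
  · rw [map_pow]
    exact pow_le_one' (hle y) 2

/-- The local conditions. -/
theorem lc_of (v : HeightOneSpectrum (𝓞 K)) (h2 : (2 : 𝓞 K) ∈ v.asIdeal) {a b : 𝓞 K}
    (h : Irreducible (rd v.asIdeal (X ^ 3 + C a * X + C b)))
    (ht : Typ2 v.asIdeal (X ^ 3 + C a * X + C b)) :
    Lc (Valued.v : Valuation (v.adicCompletion K) (WithZero (Multiplicative ℤ)))
      (algebraMap K (v.adicCompletion K) (algebraMap (𝓞 K) K a))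
      (algebraMap K (v.adicCompletion K) (algebraMap (𝓞 K) K b)) := by
  obtain ⟨φ, hφ⟩ : ∃ φ : 𝓞 K →+* v.adicCompletion K,
    φ = (algebraMap K (v.adicCompletion K)).comp (algebraMap (𝓞 K) K) := ⟨_, rfl⟩
  have hφx : ∀ z : 𝓞 K, algebraMap K (v.adicCompletion K) (algebraMap (𝓞 K) K z) = φ z := by
    intro z
    rw [hφ]
    rfl
  have hle := val_int v
  have hlt := val_lt_iff v
  simp only [hφx] at hle hlt
  refine ⟨?_, val_int v a, val_int v b, ?_, ?_, fun x hx => irr_val v h hx, ?_⟩
  · have : (2 : v.adicCompletion K) = φ 2 := by rw [map_ofNat]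
    rw [this]
    exact (hlt _).2 h2
  · obtain ⟨π, hπ⟩ := exists_unif (K := K) v
    exact ⟨algebraMap K _ π, by rw [Pool.Agent.N704.PP.vx, hπ]⟩
  · intro x hx
    obtain ⟨y, hy⟩ := near_int v hx
    rw [hφx] at hy
    obtain ⟨c, hc⟩ := sq_mod v h2 y
    refine ⟨φ c, hle c, ?_⟩
    have e : x - φ c ^ 2 = (x - φ y) + φ (y - c ^ 2) := by
      rw [map_sub, map_pow]
      ring
    rw [e]
    exact add_lt1 hy ((hlt _).2 hc)
  · obtain ⟨r, y, h3, h4, h5⟩ := ht
    refine ⟨φ r, φ y, hle r, hle y, ?_, ?_⟩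
    · have e : 3 * φ r ^ 2 + algebraMap K (v.adicCompletion K) (algebraMap (𝓞 K) K a) =
          φ ((derivative (X ^ 3 + C a * X + C b)).eval r) := by
        have e0 : (derivative (X ^ 3 + C a * X + C b : (𝓞 K)[X])).eval r = 3 * r ^ 2 + a := by
          simp only [derivative_add, derivative_X_pow, derivative_mul, derivative_C, derivative_X,
            eval_add, eval_mul, eval_pow, eval_X, eval_C, eval_zero, eval_one]
          push_cast
          ring
        rw [hφx, e0, map_add, map_mul, map_pow, map_ofNat]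
      rw [e]
      exact (hlt _).2 h3
    · have e : φ r ^ 3 + algebraMap K (v.adicCompletion K) (algebraMap (𝓞 K) K a) * φ r +
          algebraMap K (v.adicCompletion K) (algebraMap (𝓞 K) K b) - φ y ^ 2 =
          algebraMap K (v.adicCompletion K) (algebraMap (𝓞 K) K
            ((X ^ 3 + C a * X + C b : (𝓞 K)[X]).eval r - y ^ 2)) := by
        rw [hφx, hφx, hφx]
        simp
      rw [e, Pool.Agent.N704.PP.vx, HeightOneSpectrum.valuation_of_algebraMap]
      apply le_antisymm
      · have := (HeightOneSpectrum.intValuation_le_pow_iff_mem v _ 1).2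
          (by rw [pow_one]; exact h4)
        simpa using this
      · refine not_lt.1 fun hc => h5 ?_
        rw [← HeightOneSpectrum.intValuation_le_pow_iff_mem]
        exact lt_of_le_exp (n := 1) (by simpa using hc)

end loc

theorem irr_of_val {k : Type} [Field k] {v : Valuation k Z0} {A B : k} (hA : v A ≤ 1)
    (hB : v B ≤ 1) (h : ∀ x : k, v x ≤ 1 → v (x ^ 3 + A * x + B) = 1) :
    Irreducible (cu A B) := by
  rw [(cu_monic A B).irreducible_iff_roots_eq_zero_of_degree_le_three (by rw [cu_deg]; omega)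
    (by rw [cu_deg]), Multiset.eq_zero_iff_forall_notMem]
  intro x hx
  rw [mem_roots (cu_monic A B).ne_zero, IsRoot] at hx
  have hx' : x ^ 3 + A * x + B = 0 := by
    simpa [cu] using hx
  rcases le_or_gt (v x) 1 with h1 | h1
  · have := h x h1
    rw [hx', map_zero] at this
    exact zero_ne_one this
  · have h2 : v (A * x + B) < v (x ^ 3) := by
      rw [map_pow]
      have h8 : v x < v x ^ 3 := by
        calc v x = v x ^ 1 := (pow_one _).symm
          _ < v x ^ 3 := pow_lt_pow_right₀ h1 (by norm_num)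
      refine lt_of_le_of_lt ((Valuation.map_add v _ _).trans (max_le ?_ ?_)) h8
      · rw [map_mul]
        exact mul_le_of_le_one_left' hA
      · exact hB.trans h1.le
    have h3 : v (x ^ 3) = v (A * x + B) := by
      have : x ^ 3 = -(A * x + B) := by linear_combination hx'
      rw [this, Valuation.map_neg]
    exact absurd h3 h2.ne'

section step

variable {F K₁ K₂ : Type} [Field F] [NumberField F] [Field K₁] [NumberField K₁] [Field K₂]
  [NumberField K₂] [Algebra F K₁] [Algebra F K₂] [Algebra K₁ K₂] [IsScalarTower F K₁ K₂]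

theorem f_eq {R : Type} [CommRing R] [Nontrivial R] {f : R[X]} (hm : f.Monic)
    (hd : f.natDegree = 3) (h0 : f.coeff 2 = 0) :
    f = X ^ 3 + C (f.coeff 1) * X + C (f.coeff 0) := by
  have h1 := hm.as_sum
  rw [hd] at h1
  conv_lhs => rw [h1]
  simp [Finset.sum_range_succ, h0]
  ring

/-- Descent of the local condition along an unramified quadratic extension. -/
theorem two_step {f : (𝓞 F)[X]} (hm : f.Monic) (hd : f.natDegree = 3) (h0 : f.coeff 2 = 0)
    (h2 : Module.finrank K₁ K₂ = 2) {w : HeightOneSpectrum (𝓞 K₂)} (hu : Unr K₁ K₂ (below K₁ w))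
    (hw : (2 : 𝓞 K₁) ∈ (below K₁ w).asIdeal)
    (hirr : Irreducible (rd (below K₁ w).asIdeal (fo K₁ f)))
    (ht : Typ2 (below K₁ w).asIdeal (fo K₁ f)) {p : K₁[X]} (hc : IsCoprime p (fb K₁ f))
    (hN : IsSquare (Algebra.norm K₁ (AdjoinRoot.mk (fb K₁ f) p)))
    (h : LocF (w.adicCompletion K₂) (fb K₂ f) (p.map (algebraMap K₁ K₂))) :
    LocF ((below K₁ w).adicCompletion K₁) (fb K₁ f) p := by
  rcases dense_or_inert h2 hu hw with hdn | ⟨s, n, hs, hn, hsn⟩
  · exact two_of_dns hdn h
  obtain ⟨ι, hι, hιv, hsp, hne⟩ := inert_cpl h2 hu hs hn hsn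
  have hf := f_eq hm hd h0
  obtain ⟨a, ha⟩ : ∃ a, a = algebraMap (𝓞 F) (𝓞 K₁) (f.coeff 1) := ⟨_, rfl⟩
  obtain ⟨b, hb⟩ : ∃ b, b = algebraMap (𝓞 F) (𝓞 K₁) (f.coeff 0) := ⟨_, rfl⟩
  have hfo : fo K₁ f = X ^ 3 + C a * X + C b := by
    rw [ha, hb]
    unfold fo
    conv_lhs => rw [hf]
    simp
  have hfo2 : fo K₂ f = X ^ 3 + C (algebraMap (𝓞 K₁) (𝓞 K₂) a) * X +
      C (algebraMap (𝓞 K₁) (𝓞 K₂) b) := by
    rw [← fo_map (K := K₁) (K₁ := K₂), hfo]
    simp
  obtain ⟨A, hA⟩ : ∃ A, A = algebraMap K₁ ((below K₁ w).adicCompletion K₁)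
    (algebraMap (𝓞 K₁) K₁ a) := ⟨_, rfl⟩
  obtain ⟨B, hB⟩ : ∃ B, B = algebraMap K₁ ((below K₁ w).adicCompletion K₁)
    (algebraMap (𝓞 K₁) K₁ b) := ⟨_, rfl⟩
  have hcast : ∀ a : 𝓞 K₁, algebraMap K₁ K₂ (algebraMap (𝓞 K₁) K₁ a) =
      algebraMap (𝓞 K₂) K₂ (algebraMap (𝓞 K₁) (𝓞 K₂) a) := fun a => by
    rw [← IsScalarTower.algebraMap_apply, ← IsScalarTower.algebraMap_apply]
  have e1 : (fb K₁ f).map (algebraMap K₁ ((below K₁ w).adicCompletion K₁)) = cu A B := by
    rw [fb_eq, hfo, hA, hB]
    simp [cu]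
  have e2 : (fb K₂ f).map (algebraMap K₂ (w.adicCompletion K₂)) = cu (ι A) (ι B) := by
    rw [fb_eq, hfo2, hA, hB, hι, hι, hcast, hcast]
    simp [cu]
  have e3 : (p.map (algebraMap K₁ K₂)).map (algebraMap K₂ (w.adicCompletion K₂)) =
      (p.map (algebraMap K₁ ((below K₁ w).adicCompletion K₁))).map ι := by
    rw [Polynomial.map_map, Polynomial.map_map]
    congr 1
    exact (RingHom.ext hι).symm
  have hc' : IsCoprime (p.map (algebraMap K₁ ((below K₁ w).adicCompletion K₁))) (cu A B) := by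
    have h3 : IsCoprime (p.map (algebraMap K₁ ((below K₁ w).adicCompletion K₁)))
        ((fb K₁ f).map (algebraMap K₁ ((below K₁ w).adicCompletion K₁))) :=
      hc.map (mapRingHom (algebraMap K₁ ((below K₁ w).adicCompletion K₁)))
    rwa [e1] at h3
  haveI hcz : CharZero ((below K₁ w).adicCompletion K₁) :=
    charZero_of_injective_algebraMap (algebraMap K₁ _).injective
  haveI hcz2 : CharZero (w.adicCompletion K₂) :=
    charZero_of_injective_algebraMap (algebraMap K₂ _).injective
  letI : Algebra ((below K₁ w).adicCompletion K₁) (w.adicCompletion K₂) := ι.toAlgebra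
  have hal : algebraMap ((below K₁ w).adicCompletion K₁) (w.adicCompletion K₂) = ι := rfl
  have hlc : Lc (Valued.v : Valuation ((below K₁ w).adicCompletion K₁)
      (WithZero (Multiplicative ℤ))) A B := by
    rw [hA, hB]
    rw [hfo] at hirr ht
    exact lc_of _ hw hirr ht
  have hirrw := irr_quad hm hd h2.le w hirr
  rw [hfo2] at hirrw
  have hirr' : Irreducible (cu (ι A) (ι B)) := by
    rw [hA, hB, hι, hι, hcast, hcast]
    exact irr_of_val (v := Valued.v) (val_int w _) (val_int w _)
      fun x hx => irr_val w hirrw hx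
  have hirr1 : Irreducible (cu A B) := irr_of_val hlc.a hlc.b hlc.irr
  obtain ⟨σ, hσ1, hσ2, hσ3⟩ := exists_conj (k := (below K₁ w).adicCompletion K₁)
    (k' := w.adicCompletion K₂) (s := algebraMap K₂ _ s) (n := algebraMap K₁ _ n) (by
      rw [hal, hι, ← map_pow, ← map_sub, ← map_add, hs, map_zero]) hsp (fun x hx => by
      apply hne x
      rw [← hal, hx, sub_self, map_zero]
      exact zero_lt_one)
  have hH1 := exists_S (k := (below K₁ w).adicCompletion K₁) (k' := w.adicCompletion K₂)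
    (v := Valued.v) (v' := Valued.v) hιv hlc (fun t ht => by
      obtain ⟨u, hu1, hu2⟩ := Pool.Agent.N530.QM.quad_root t ht
      exact ⟨u, hu2, hu1⟩) hirr1 σ hσ2 hσ3 (s := algebraMap K₂ _ s) (n := algebraMap K₁ _ n)
    (by rw [Pool.Agent.N704.PP.vx, hn]) (by
      rw [hal, hι, ← map_pow, ← map_sub, ← map_add, hs, map_zero]) hσ1 hne
  have hδ : σ (2 * algebraMap K₂ (w.adicCompletion K₂) s - 1) =
      -(2 * algebraMap K₂ (w.adicCompletion K₂) s - 1) := by
    rw [map_sub, map_mul, map_ofNat, map_one, hσ1]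
    ring
  have hδ0 : 2 * algebraMap K₂ (w.adicCompletion K₂) s - 1 ≠ 0 := by
    intro h3
    apply hne (1 / 2)
    have : algebraMap K₂ (w.adicCompletion K₂) s - ι (1 / 2) = 0 := by
      rw [map_div₀, map_one, map_ofNat]
      have h2' : (2 : w.adicCompletion K₂) ≠ 0 := two_ne_zero
      field_simp
      linear_combination h3
    rw [this, map_zero]
    exact zero_lt_one
  have hLw : LocIm (w.adicCompletion K₂) (cu (ι A) (ι B))
      ((p.map (algebraMap K₁ ((below K₁ w).adicCompletion K₁))).map ι) := by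
    rw [← e2, ← e3]
    exact h
  show LocIm _ _ _
  rw [e1]
  apply locIm_of_ptF hirr1
  refine desc (k' := w.adicCompletion K₂) σ hσ2 hσ3 hδ hδ0 hirr' hH1 ?_ ?_
    (ptF_of_locIm hirr' hLw)
  · exact hc'
  · have h3 := norm_map (algebraMap K₁ ((below K₁ w).adicCompletion K₁))
      (f := fb K₁ f) ((hm.map _).map _) p
    rw [e1] at h3
    rw [h3]
    exact hN.map _

end step

end Pool.Agent.H459.UF
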